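import Pool.Agent.Lib.MP_725e58_gt.Loc.Stmts

/-!
First order inequality on the pieces, even dimension.
-/

set_option autoImplicit false

namespace Pool.Agent.Lib.MP_725e58_gt.Loc

open MeasureTheory Finset

namespace AlgE

variable {n : ℕ}

lemma split {I J : Finset (Fin n)} {k : Fin n} (hJ : J = (univ.erase k) \ I)
    (hI : I ⊆ univ.erase k) (f : Fin n → ℝ) :
    ∑ i, f i = f k + (∑ i ∈ I, f i + ∑ j ∈ J, f j) := by
  rw [← add_sum_erase _ _ (mem_univ k), hJ, add_comm (∑ i ∈ I, f i), sum_sdiff hI]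

lemma compl_eq {I J : Finset (Fin n)} {k : Fin n} (hJ : J = (univ.erase k) \ I)
    (hI : I ⊆ univ.erase k) (f : Fin n → ℝ) : ∑ i ∈ Iᶜ, f i = f k + ∑ j ∈ J, f j := by
  have h1 := split hJ hI f
  have h2 := sum_add_sum_compl I f
  linarith

/-- one of the two halves -/
lemma half {Kc : Set (Vec n)} {δ B : ℝ} (hK : Pos n Kc δ) (hB : 0 ≤ B) {I J : Finset (Fin n)}
    {k : Fin n} {h : ℕ} (hIc : I.card = h) (hJc : J.card = h)
    (hc : ∀ f : Fin n → ℝ, ∑ i ∈ Iᶜ, f i = f k + ∑ j ∈ J, f j) {P Q w : Vec n}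
    (hP : P ∈ Cn Kc) (hQ : Q ∈ Cn Kc) (hw : ∀ i ∈ I, w i = P i - Q i + (Q k - P k)) :
    Phi Kc B k (rs I w) + 2 * ∑ j ∈ J, Phi Kc B j (rs I w) ≤ (P k + 2 * ∑ j ∈ J, P j) +
      (1 + 2 * h) * (B * (P k + ∑ j ∈ J, P j) + B * (∑ i ∈ I, Q i + h * (P k + Q k))) := by
  have hP0 := Cn_nonneg hK hP
  have hQ0 := Cn_nonneg hK hQ
  have h1 : ∑ i, |rs I w i - rs I P i| ≤ ∑ i ∈ I, Q i + h * (P k + Q k) := by
    have e : ∑ i, |rs I w i - rs I P i| = ∑ i ∈ I, |w i - P i| := by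
      rw [← sum_add_sum_compl I, sum_congr rfl (fun i (hi : i ∈ I) => by
        rw [rs_apply_mem hi, rs_apply_mem hi] : ∀ i ∈ I, |rs I w i - rs I P i| = |w i - P i|),
        sum_eq_zero (fun i (hi : i ∈ Iᶜ) => by
          rw [rs_apply_not_mem (mem_compl.1 hi), rs_apply_not_mem (mem_compl.1 hi), sub_zero,
            abs_zero] : ∀ i ∈ Iᶜ, |rs I w i - rs I P i| = 0), add_zero]
    have e2 : ∑ i ∈ I, Q i + h * (P k + Q k) = ∑ i ∈ I, (Q i + (P k + Q k)) := by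
      rw [sum_add_distrib, sum_const, hIc, nsmul_eq_mul]
    rw [e, e2]
    refine sum_le_sum fun i hi => ?_
    rw [hw i hi, abs_le]
    have a1 := hP0 k
    have a2 := hQ0 k
    have a3 := hQ0 i
    constructor <;> linarith
  have key : ∀ l, Phi Kc B l (rs I w) ≤ P l +
      (B * (P k + ∑ j ∈ J, P j) + B * (∑ i ∈ I, Q i + h * (P k + Q k))) := by
    intro l
    have h2 := phi_lip (l := l) hK hB (rs I w) (rs I P)
    have h3 := phi_cone (l := l) hK hB hP I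
    rw [hc] at h3
    have h4 := mul_le_mul_of_nonneg_left h1 hB
    linarith
  have h5 : ∑ j ∈ J, Phi Kc B j (rs I w) ≤ ∑ j ∈ J, P j +
      h * (B * (P k + ∑ j ∈ J, P j) + B * (∑ i ∈ I, Q i + h * (P k + Q k))) := by
    have := sum_le_sum fun j (_ : j ∈ J) => key j
    rw [sum_add_distrib, sum_const, hJc, nsmul_eq_mul] at this
    exact this
  have h6 := key k
  linarith

end AlgE

open AlgE in
/-- first order inequality, even dimension -/
theorem stAlgE : StAlgE := by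
  intro h Kc δ B hK hB k I hI w hw hRT
  obtain ⟨hIs, hIc⟩ := mem_powersetCard.1 hI
  obtain ⟨P, hP, Q, hQ, ht, s, hs⟩ := hRT
  obtain ⟨J, hJ⟩ : ∃ J, J = (univ.erase k) \ I := ⟨_, rfl⟩
  have hJJ : JJ I k = J := by rw [hJ]; rfl
  have hkI : k ∉ I := fun hk => by simpa using hIs hk
  have hkJ : k ∉ J := fun hk => by
    rw [hJ] at hk
    simp at hk
  have hdisj : ∀ i ∈ I, i ∉ J := fun i hi hj => by
    rw [hJ, mem_sdiff] at hj
    exact hj.2 hi
  have hJc : J.card = h := by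
    rw [hJ, card_sdiff_of_subset hIs, card_erase_of_mem (mem_univ k), card_univ, Fintype.card_fin,
      hIc]
    omega
  have hJs : J ⊆ univ.erase k := by rw [hJ]; exact sdiff_subset
  have hIJ : I = (univ.erase k) \ J := by
    rw [hJ, Finset.sdiff_sdiff_eq_self hIs]
  have hP0 := Cn_nonneg hK hP
  have hQ0 := Cn_nonneg hK hQ
  have hs' : ∀ i, zE I k w i = P i - Q i + s := by
    intro i
    rw [hs i]
    simp
  have hk : s = Q k - P k := by
    have h1 := hs' k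
    rw [zE, rs_apply_not_mem hkI, hJJ, rs_apply_not_mem hkJ] at h1
    linarith
  have hwI : ∀ i ∈ I, w i = P i - Q i + (Q k - P k) := by
    intro i hi
    have h1 := hs' i
    rw [zE, rs_apply_mem hi, hJJ, rs_apply_not_mem (hdisj i hi), hk] at h1
    linarith
  have hwJ : ∀ j ∈ J, w j = Q j - P j + (P k - Q k) := by
    intro j hj
    have hjI : j ∉ I := fun hi => hdisj j hi hj
    have h1 := hs' j
    rw [zE, rs_apply_not_mem hjI, hJJ, rs_apply_mem hj, hk] at h1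
    linarith
  have c1 := compl_eq hJ hIs
  have c2 := compl_eq hIJ hJs
  have s1 := split hJ hIs w
  have s2 := split hJ hIs P
  have s3 := split hJ hIs Q
  have sI : ∑ i ∈ I, w i = ∑ i ∈ I, P i - ∑ i ∈ I, Q i + h * (Q k - P k) := by
    rw [sum_congr rfl hwI, sum_add_distrib, sum_sub_distrib, sum_const, hIc, nsmul_eq_mul]
  have sJ : ∑ j ∈ J, w j = ∑ j ∈ J, Q j - ∑ j ∈ J, P j + h * (P k - Q k) := by
    rw [sum_congr rfl hwJ, sum_add_distrib, sum_sub_distrib, sum_const, hJc, nsmul_eq_mul]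
  have hwk : w k = P k + Q k + 2 * ∑ j ∈ J, P j + 2 * ∑ i ∈ I, Q i := by
    unfold sm at ht
    rw [s1, s2, s3, sI, sJ] at ht
    linarith
  have n1 : 0 ≤ ∑ j ∈ J, P j := sum_nonneg fun j _ => hP0 j
  have n2 : 0 ≤ ∑ i ∈ I, Q i := sum_nonneg fun i _ => hQ0 i
  have n3 := hP0 k
  have n4 := hQ0 k
  have hwk0 : 0 ≤ w k := by rw [hwk]; linarith
  refine ⟨hwk0, ?_⟩
  have a1 := half hK hB hIc hJc c1 hP hQ hwI
  have a2 := half hK hB hJc hIc c2 hQ hP hwJ
  rw [PsiE, hJJ]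
  have hh : (0 : ℝ) ≤ h := by positivity
  have m : P k + Q k ≤ w k := by rw [hwk]; linarith
  have hBw : 0 ≤ B * w k := mul_nonneg hB hwk0
  have m2 : (1 + 2 * (h : ℝ)) * B * (2 * h * (P k + Q k)) ≤ (1 + 2 * h) * B * (2 * h * w k) := by
    gcongr
  have e : (P k + 2 * ∑ j ∈ J, P j) +
      (1 + 2 * h) * (B * (P k + ∑ j ∈ J, P j) + B * (∑ i ∈ I, Q i + h * (P k + Q k))) +
      ((Q k + 2 * ∑ i ∈ I, Q i) +
      (1 + 2 * h) * (B * (Q k + ∑ i ∈ I, Q i) + B * (∑ j ∈ J, P j + h * (Q k + P k)))) =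
      w k + (1 + 2 * h) * B * w k + (1 + 2 * h) * B * (2 * h * (P k + Q k)) := by
    rw [hwk]
    ring
  have e2 : w k + (1 + 2 * h) * B * w k + (1 + 2 * h) * B * (2 * h * w k) =
      w k + (2 * h + 1) ^ 2 * (B * w k) := by ring
  have e3 : 0 ≤ (2 * (h : ℝ) + 1) ^ 2 * (B * w k) := mul_nonneg (by positivity) hBw
  linarith

end Pool.Agent.Lib.MP_725e58_gt.Loc
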