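import Pool.Agent.Lib.MP_725e58_gt.Loc.Stmts

set_option autoImplicit false

namespace Pool.Agent.Lib.MP_725e58_gt.Loc

open MeasureTheory Finset

namespace AlgO

variable {n : ℕ} {Kc : Set (Vec n)} {δ B : ℝ}

lemma lam_one_le (hK : Pos n Kc δ) (hB : 0 ≤ B) (I : Finset (Fin n)) {h : ℕ} (hI : I.card = h)
    (hI' : Iᶜ.card = h) : Lam Kc B I (one I) ≤ 2 * h ^ 2 * B := by
  unfold Lam
  have h1 : ∀ l ∈ Iᶜ, Phi Kc B l (one I) ≤ B * h := by
    intro l _
    refine (phi_le_abs hK hB _).trans (le_of_eq ?_)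
    congr 1
    have : ∀ i, |one I i| = if i ∈ I then (1 : ℝ) else 0 := by
      intro i
      by_cases hi : i ∈ I <;> simp [one, hi]
    simp_rw [this]
    rw [sum_ite_mem, univ_inter]
    simp [hI]
  have h2 := sum_le_sum h1
  rw [sum_const, hI', nsmul_eq_mul] at h2
  linarith

lemma lam_bound (hK : Pos n Kc δ) (hB : 0 ≤ B) (I : Finset (Fin n)) {h : ℕ} (hI : Iᶜ.card = h)
    {P : Vec n} (hP : P ∈ Cn Kc) (a e : Vec n) {lam : ℝ} (hl : 0 ≤ lam)
    (he : ∀ j ∈ I, 0 ≤ e j ∧ a j + e j = P j + lam) (ha : ∀ j ∉ I, a j = 0) :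
    Lam Kc B I a ≤ 2 * (∑ j ∈ Iᶜ, P j) * (1 + h * B) + lam * Lam Kc B I (one I) +
      2 * h * B * ∑ j ∈ I, e j := by
  have h1 := lam_lip hK hB I a (rs I P + lam • one I)
  have h2 := lam_add_le hK hB I (rs I P) (lam • one I)
  rw [lam_smul hK hB I hl] at h2
  have h3 : Lam Kc B I (rs I P) ≤ 2 * (∑ j ∈ Iᶜ, P j) * (1 + h * B) := by
    unfold Lam
    have h4 : ∀ l ∈ Iᶜ, Phi Kc B l (rs I P) ≤ P l + B * ∑ j ∈ Iᶜ, P j :=
      fun l _ => phi_cone hK hB hP I
    have h5 := sum_le_sum h4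
    rw [sum_add_distrib, sum_const, hI, nsmul_eq_mul] at h5
    linarith
  have h6 : ∑ j, |a j - (rs I P + lam • one I) j| = ∑ j ∈ I, e j := by
    have h7 : ∀ j, |a j - (rs I P + lam • one I) j| = if j ∈ I then e j else 0 := by
      intro j
      by_cases hj : j ∈ I
      · obtain ⟨h8, h9⟩ := he j hj
        have : a j - (rs I P + lam • one I) j = - e j := by
          simp [rs, one, hj]; linarith
        rw [this, abs_neg, abs_of_nonneg h8, if_pos hj]
      · simp [rs, one, hj, ha j hj]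
    simp_rw [h7]
    rw [sum_ite_mem, univ_inter]
  rw [h6, hI] at h1
  linarith

end AlgO

open AlgO in
theorem stAlgO : StAlgO := by
  intro h Kc δ B ξ x hh hK hB hξ hx hx0 I hI i hi k hk w hw hRT
  rw [mem_powersetCard] at hI
  have hIc : Iᶜ.card = h := by
    rw [card_compl, Fintype.card_fin, hI.2]; omega
  have hh' : (1 : ℝ) ≤ h := by exact_mod_cast hh
  have hkI : k ∉ I := by simpa using hk
  obtain ⟨P, hP, Q, hQ, ht, s, hz⟩ := hRT
  have hP0 := Cn_nonneg hK hP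
  have hQ0 := Cn_nonneg hK hQ
  set t := sm w with htdef
  set om := sm P - sm Q with hom
  have hsP : 0 ≤ sm P := sm_nonneg hP0
  have hsQ : 0 ≤ sm Q := sm_nonneg hQ0
  have ht0 : 0 ≤ t := by linarith
  have homt : |om| ≤ t := by rw [abs_le]; constructor <;> linarith
  have hox : ∀ j, |om * x j| ≤ ξ * t := by
    intro j
    rw [abs_mul, mul_comm ξ t]
    exact mul_le_mul homt (hx j) (abs_nonneg _) ht0
  set ze : Vec (2 * h) := fun j => P j - Q j - om * x j with hze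
  have hz' : ∀ j, zO h I i k w j = ze j + s := fun j => hz j
  -- the coordinate `k`
  have hzk : zO h I i k w k = 0 := by
    simp [zO, aO, rs, one, hkI]
  have hs : s = - ze k := by have := hz' k; rw [hzk] at this; linarith
  -- the coordinates in `I`
  have haI : ∀ j ∈ I, aO h I i w j = ze j - ze k := by
    intro j hj
    have h1 := hz' j
    have h2 : zO h I i k w j = aO h I i w j := by
      simp [zO, rs, hj]
    rw [h2, hs] at h1; linarith
  have ha0 : ∀ j ∉ I, aO h I i w j = 0 := by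
    intro j hj; simp [aO, rs, one, hj]
  have hmu : w i / h = ze i - ze k := by
    rw [← haI i hi]; simp [aO, rs, one, hi]
  have hwC : ∀ j ∈ Iᶜ.erase k, w j = ze k - ze j := by
    intro j hj
    have hj' : j ∉ I := by
      have := (mem_erase.mp hj).2; simpa using this
    have hjk : j ≠ k := (mem_erase.mp hj).1
    have h1 := hz' j
    have h2 : zO h I i k w j = - w j := by
      simp [zO, aO, rs, one, hj', hjk]
    rw [h2, hs] at h1; linarith
  have hbC : ∀ j ∈ Iᶜ, bO h I i k w j = ze i - ze j := by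
    intro j hj
    have hj' : j ∉ I := by simpa using hj
    by_cases hjk : j = k
    · subst hjk
      have : bO h I i j w j = w i / h := by simp [bO, rs, one, hj']
      rw [this, hmu]
    · have h1 : j ∈ Iᶜ.erase k := mem_erase.mpr ⟨hjk, hj⟩
      have : bO h I i k w j = w j + w i / h := by
        simp only [bO, rs, if_pos h1, one, if_pos hj]; ring
      rw [this, hmu, hwC j h1]; ring
  have hb0 : ∀ j ∉ Iᶜ, bO h I i k w j = 0 := by
    intro j hj
    have h1 : j ∉ Iᶜ.erase k := fun h => hj (mem_erase.mp h).2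
    simp only [bO, rs, if_neg h1, one, if_neg hj]; ring
  -- sums
  have hh0 : (h : ℝ) ≠ 0 := by positivity
  have hsplit : ∀ f : Vec (2 * h), ∑ j, f j = ∑ j ∈ I, f j + ∑ j ∈ Iᶜ, f j :=
    fun f => (sum_add_sum_compl I f).symm
  have hxs : ∑ j ∈ Iᶜ, x j = - ∑ j ∈ I, x j := by
    have h1 := hsplit x
    have h2 : ∑ j, x j = 0 := hx0
    linarith
  have hzeI : ∑ j ∈ I, ze j = ∑ j ∈ I, P j - ∑ j ∈ I, Q j - om * ∑ j ∈ I, x j := by
    rw [mul_sum, ← sum_sub_distrib, ← sum_sub_distrib]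
  have hzeC : ∑ j ∈ Iᶜ, ze j = ∑ j ∈ Iᶜ, P j - ∑ j ∈ Iᶜ, Q j - om * ∑ j ∈ Iᶜ, x j := by
    rw [mul_sum, ← sum_sub_distrib, ← sum_sub_distrib]
  have hsumI : ∑ j ∈ I.erase i, w j + w i = ∑ j ∈ I, ze j - h * ze k := by
    have h1 : ∑ j ∈ I, aO h I i w j = ∑ j ∈ I, ze j - h * ze k := by
      rw [sum_congr rfl haI, sum_sub_distrib, sum_const, hI.2, nsmul_eq_mul]
    rw [← h1]
    have h2 : ∀ j ∈ I, aO h I i w j = rs (I.erase i) w j + w i / h := by
      intro j hj; simp [aO, one, hj]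
    rw [sum_congr rfl h2, sum_add_distrib, sum_const, hI.2, nsmul_eq_mul, mul_div_cancel₀ _ hh0]
    congr 1
    rw [← add_sum_erase _ _ hi]
    have h3 : rs (I.erase i) w i = 0 := by simp [rs]
    rw [h3, zero_add]
    refine sum_congr rfl fun j hj => ?_
    simp only [rs, if_pos hj]
  have hsumC : ∑ j ∈ Iᶜ.erase k, w j = h * ze k - ∑ j ∈ Iᶜ, ze j := by
    rw [sum_congr rfl hwC]
    have h1 : ∑ j ∈ Iᶜ, (ze k - ze j) = ∑ j ∈ Iᶜ.erase k, (ze k - ze j) := by
      rw [← add_sum_erase _ _ hk]; simp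
    rw [← h1, sum_sub_distrib, sum_const, hIc, nsmul_eq_mul]
  have hwt : t = ∑ j ∈ I.erase i, w j + w i + (∑ j ∈ Iᶜ.erase k, w j + w k) := by
    have h1 : t = ∑ j ∈ I, w j + ∑ j ∈ Iᶜ, w j := hsplit w
    rw [h1, ← add_sum_erase _ _ hi, ← add_sum_erase _ _ hk]; ring
  have hPs : sm P = ∑ j ∈ I, P j + ∑ j ∈ Iᶜ, P j := hsplit P
  have hQs : sm Q = ∑ j ∈ I, Q j + ∑ j ∈ Iᶜ, Q j := hsplit Q
  set pI := ∑ j ∈ I, P j
  set pC := ∑ j ∈ Iᶜ, P j
  set qI := ∑ j ∈ I, Q j
  set qC := ∑ j ∈ Iᶜ, Q j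
  set xI := ∑ j ∈ I, x j
  have hpC0 : 0 ≤ pC := sum_nonneg fun j _ => hP0 j
  have hqI0 : 0 ≤ qI := sum_nonneg fun j _ => hQ0 j
  have hPk : P k ≤ pC := single_le_sum (fun j _ => hP0 j) hk
  have hQi : Q i ≤ qI := single_le_sum (fun j _ => hQ0 j) hi
  have hPk0 := hP0 k
  have hQi0 := hQ0 i
  rw [hxs] at hzeC
  set u := uu I x with hu
  have huI : u = 2 * xI := rfl
  have hc : w k = 2 * pC + 2 * qI + om * u := by
    have h1 := hwt
    rw [hsumI, hsumC, hzeI, hzeC] at h1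
    rw [huI]
    linarith
  have hD : (∑ j ∈ I.erase i, w j) - ∑ j ∈ Iᶜ.erase k, w j = om - h * (ze i + ze k) := by
    have h1 : w i = h * (ze i - ze k) := by
      rw [← hmu, mul_div_cancel₀ _ hh0]
    have h2 : ∑ j ∈ I.erase i, w j = ∑ j ∈ I, ze j - h * ze k - w i := by linarith
    rw [h2, hsumC, h1, hzeI, hzeC]
    have h3 : om = pI + pC - (qI + qC) := by rw [hom, hPs, hQs]
    linarith
  have hu2 : |u| ≤ 2 * h * ξ := by
    rw [huI, abs_mul, abs_two, mul_assoc]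
    refine mul_le_mul_of_nonneg_left ?_ (by norm_num)
    calc |xI| ≤ ∑ j ∈ I, |x j| := abs_sum_le_sum_abs _ _
      _ ≤ ∑ _j ∈ I, ξ := sum_le_sum fun j _ => hx j
      _ = h * ξ := by rw [sum_const, hI.2, nsmul_eq_mul]
  -- the two estimates
  set G1 := Lam Kc B I (one I) with hG1
  set G2 := Lam Kc B Iᶜ (one Iᶜ) with hG2
  set lam := Q k + om * x k + ξ * t with hlam
  set lam' := P i - om * x i + ξ * t with hlam'
  have hlam0 : 0 ≤ lam := by
    have := (abs_le.mp (hox k)).1; have := hQ0 k; rw [hlam]; linarith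
  have hlam0' : 0 ≤ lam' := by
    have := (abs_le.mp (hox i)).2; have := hP0 i; rw [hlam']; linarith
  have hE1 := lam_bound hK hB I hIc hP (aO h I i w)
    (fun j => Q j + om * x j + (P k + ξ * t)) hlam0 (fun j hj => by
      refine ⟨?_, ?_⟩
      · have := (abs_le.mp (hox j)).1; have := hQ0 j
        show 0 ≤ Q j + om * x j + (P k + ξ * t)
        linarith
      · rw [haI j hj, hze, hlam]; ring) ha0
  have hE2 := lam_bound hK hB Iᶜ (h := h) (by rw [compl_compl]; exact hI.2) hQ (bO h I i k w)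
    (fun j => P j - om * x j + (Q i + ξ * t)) hlam0' (fun j hj => by
      refine ⟨?_, ?_⟩
      · have := (abs_le.mp (hox j)).2; have := hP0 j
        show 0 ≤ P j - om * x j + (Q i + ξ * t)
        linarith
      · rw [hbC j hj, hze, hlam']; ring) hb0
  rw [compl_compl] at hE2
  rw [← hG1] at hE1
  rw [← hG2] at hE2
  set E1 := ∑ j ∈ I, (Q j + om * x j + (P k + ξ * t)) with hE1d
  set E2 := ∑ j ∈ Iᶜ, (P j - om * x j + (Q i + ξ * t)) with hE2d
  have hE1' : E1 ≤ qI + h * P k + 2 * h * (ξ * t) := by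
    have h1 : E1 ≤ ∑ j ∈ I, (Q j + (P k + 2 * (ξ * t))) := sum_le_sum fun j _ => by
      have := (abs_le.mp (hox j)).2; linarith
    rw [sum_add_distrib, sum_const, hI.2, nsmul_eq_mul] at h1
    linarith
  have hE2' : E2 ≤ pC + h * Q i + 2 * h * (ξ * t) := by
    have h1 : E2 ≤ ∑ j ∈ Iᶜ, (P j + (Q i + 2 * (ξ * t))) := sum_le_sum fun j _ => by
      have := (abs_le.mp (hox j)).1; linarith
    rw [sum_add_distrib, sum_const, hIc, nsmul_eq_mul] at h1
    linarith
  -- bounds for `g`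
  set g := gg h Kc B I x with hg
  have hgd : g = max (G1 + h * u) (G2 - h * u) := rfl
  have hg1 : G1 + h * u ≤ g := by rw [hgd]; exact le_max_left _ _
  have hg2 : G2 - h * u ≤ g := by rw [hgd]; exact le_max_right _ _
  have hG1le : G1 ≤ 2 * h ^ 2 * B := lam_one_le hK hB I hI.2 hIc
  have hG2le : G2 ≤ 2 * h ^ 2 * B := lam_one_le hK hB Iᶜ hIc (by rw [compl_compl]; exact hI.2)
  obtain ⟨hu3, hu4⟩ := abs_le.mp hu2
  have hhu : (h : ℝ) * u ≤ 2 * h ^ 2 * ξ := by
    have := mul_le_mul_of_nonneg_left hu4 (show (0 : ℝ) ≤ h by positivity)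
    linarith
  have hhu' : -(2 * h ^ 2 * ξ) ≤ (h : ℝ) * u := by
    have := mul_le_mul_of_nonneg_left hu3 (show (0 : ℝ) ≤ h by positivity)
    linarith
  have hgle : g ≤ 2 * h ^ 2 * (B + ξ) := by
    rw [hgd]; refine max_le ?_ ?_ <;> linarith
  have hlamsum : lam * G1 + lam' * G2 ≤ (lam + lam') * g - h * u * (lam - lam') := by
    have h1 : lam * G1 ≤ lam * (g - h * u) := mul_le_mul_of_nonneg_left (by linarith) hlam0
    have h2 : lam' * G2 ≤ lam' * (g + h * u) := mul_le_mul_of_nonneg_left (by linarith) hlam0'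
    linarith
  have hl1 : lam + lam' = (ze i - ze k) + (Q i + P k + 2 * (ξ * t)) := by
    rw [hlam, hlam', hze]; ring
  have hl2 : lam - lam' = P k - Q i - (ze i + ze k) := by
    rw [hlam, hlam', hze]; ring
  have hpsi : PsiO h Kc B I i k x w = Lam Kc B I (aO h I i w) + Lam Kc B Iᶜ (bO h I i k w) -
      (w i / h) * g + u * ((∑ j ∈ I.erase i, w j) - ∑ j ∈ Iᶜ.erase k, w j) := rfl
  rw [hpsi, hD, hmu]
  -- main inequality
  set S := 2 * pC + 2 * qI with hS
  have hS0 : 0 ≤ S := by positivity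
  have hξt : 0 ≤ ξ * t := mul_nonneg hξ ht0
  have m1 : Lam Kc B I (aO h I i w) + Lam Kc B Iᶜ (bO h I i k w) - (ze i - ze k) * g +
      u * (om - h * (ze i + ze k)) ≤
      S * (1 + h * B) + (Q i + P k + 2 * (ξ * t)) * g - h * u * (P k - Q i) + u * om +
      2 * h * B * (E1 + E2) := by
    rw [hl1, hl2] at hlamsum
    rw [hS]
    linarith
  have m2 : (Q i + P k + 2 * (ξ * t)) * g ≤ (S / 2 + 2 * (ξ * t)) * (2 * h ^ 2 * (B + ξ)) := by
    have h0 : 0 ≤ 2 * (h : ℝ) ^ 2 * (B + ξ) := by positivity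
    calc (Q i + P k + 2 * (ξ * t)) * g ≤ (Q i + P k + 2 * (ξ * t)) * (2 * h ^ 2 * (B + ξ)) :=
          mul_le_mul_of_nonneg_left hgle (by linarith)
      _ ≤ _ := mul_le_mul_of_nonneg_right (by rw [hS]; linarith) h0
  have m3 : -(h * u * (P k - Q i)) ≤ 2 * h ^ 2 * ξ * (S / 2) := by
    have h1 : |h * u| ≤ 2 * h ^ 2 * ξ := abs_le.mpr ⟨hhu', hhu⟩
    have h2 : |P k - Q i| ≤ S / 2 := by
      rw [abs_le, hS]; constructor <;> linarith
    calc -(h * u * (P k - Q i)) ≤ |h * u * (P k - Q i)| := neg_le_abs _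
      _ = |h * u| * |P k - Q i| := abs_mul _ _
      _ ≤ _ := mul_le_mul h1 h2 (abs_nonneg _) (by positivity)
  have m4 : 2 * h * B * (E1 + E2) ≤ 2 * h * B * ((1 + h) * (S / 2) + 4 * h * (ξ * t)) := by
    refine mul_le_mul_of_nonneg_left ?_ (by positivity)
    have h1 : (h : ℝ) * P k ≤ h * pC := mul_le_mul_of_nonneg_left hPk (by positivity)
    have h2 : (h : ℝ) * Q i ≤ h * qI := mul_le_mul_of_nonneg_left hQi (by positivity)
    rw [hS]
    linarith
  have hh2 : (h : ℝ) ≤ h ^ 2 := by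
    rw [sq]; exact le_mul_of_one_le_right (by positivity) hh'
  have m5 : S * (h * B + h ^ 2 * (B + ξ) + h ^ 2 * ξ + h * (1 + h) * B) ≤
      S * (4 * h ^ 2 * (B + ξ)) := by
    refine mul_le_mul_of_nonneg_left ?_ hS0
    have h1 : (h : ℝ) * B ≤ h ^ 2 * B := mul_le_mul_of_nonneg_right hh2 hB
    have h2 : 0 ≤ (h : ℝ) ^ 2 * ξ := by positivity
    linarith
  have m6 : S ≤ w k + 2 * h * (ξ * t) := by
    have h1 : |om * u| ≤ t * (2 * h * ξ) := by
      rw [abs_mul]; exact mul_le_mul homt hu2 (abs_nonneg _) ht0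
    have h2 := (abs_le.mp h1).1
    rw [hc, hS]
    linarith
  have m7 : S * (4 * h ^ 2 * (B + ξ)) ≤ (w k + 2 * h * (ξ * t)) * (4 * h ^ 2 * (B + ξ)) :=
    mul_le_mul_of_nonneg_right m6 (by positivity)
  have m8 : ξ * t * (4 * h ^ 2 * (B + ξ)) + 8 * h ^ 2 * B * (ξ * t) ≤
      3 * (ξ * t * (4 * h ^ 2 * (B + ξ))) := by
    have : 0 ≤ (h : ℝ) ^ 2 * ξ * (ξ * t) := by positivity
    linarith
  have m9 : (2 * (h : ℝ) + 3) * (ξ * t * (4 * h ^ 2 * (B + ξ))) ≤
      8 * h * (ξ * t * (4 * h ^ 2 * (B + ξ))) := by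
    refine mul_le_mul_of_nonneg_right (by linarith) (by positivity)
  have hc' : S + u * om = w k := by rw [hc, hS]; ring
  linarith [m1, m2, m3, m4, m5, m7, m8, m9, hc']

end Pool.Agent.Lib.MP_725e58_gt.Loc
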