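import Pool.Agent.Lib.MP_725e58_gt.Loc.Defs

/-!
Local maximality of the simplex for the Fary-Redei problem: basic lemmas.
-/

set_option autoImplicit false

namespace Pool.Agent.Lib.MP_725e58_gt.Loc

open MeasureTheory Finset

variable {n : ℕ}

/-! ### algebra -/

lemma rs_apply_mem {H : Finset (Fin n)} {i : Fin n} (hi : i ∈ H) (y : Vec n) : rs H y i = y i := by
  simp [rs, hi]

lemma rs_apply_not_mem {H : Finset (Fin n)} {i : Fin n} (hi : i ∉ H) (y : Vec n) :
    rs H y i = 0 := by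
  simp [rs, hi]

lemma rs_add (H : Finset (Fin n)) (y z : Vec n) : rs H (y + z) = rs H y + rs H z := by
  funext i; by_cases hi : i ∈ H <;> simp [rs, hi]

lemma rs_smul (H : Finset (Fin n)) (a : ℝ) (y : Vec n) : rs H (a • y) = a • rs H y := by
  funext i; by_cases hi : i ∈ H <;> simp [rs, hi]

lemma rs_nonneg (H : Finset (Fin n)) {y : Vec n} (hy : y ∈ Orth n) : rs H y ∈ Orth n := by
  intro i; by_cases hi : i ∈ H
  · rw [rs_apply_mem hi]; exact hy i
  · rw [rs_apply_not_mem hi]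

lemma rs_rs (H G : Finset (Fin n)) (y : Vec n) : rs H (rs G y) = rs (H ∩ G) y := by
  funext i; by_cases hi : i ∈ H <;> by_cases hg : i ∈ G <;> simp [rs, hi, hg]

lemma rs_one (H G : Finset (Fin n)) : rs H (one G) = one (H ∩ G) := by
  funext i; by_cases hi : i ∈ H <;> by_cases hg : i ∈ G <;> simp [rs, one, hi, hg]

lemma rs_add_rs_compl (H : Finset (Fin n)) (y : Vec n) : rs H y + rs Hᶜ y = y := by
  funext i; by_cases hi : i ∈ H <;> simp [rs, hi]

lemma continuous_rs (H : Finset (Fin n)) : Continuous (rs H : Vec n → Vec n) := by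
  refine continuous_pi fun i => ?_
  by_cases hi : i ∈ H
  · simpa [rs, hi] using continuous_apply i
  · simpa [rs, hi] using continuous_const

lemma dot_add (L y z : Vec n) : dot L (y + z) = dot L y + dot L z := by
  simp [dot, mul_add, sum_add_distrib]

lemma dot_sub (L y z : Vec n) : dot L (y - z) = dot L y - dot L z := by
  simp [dot, mul_sub, sum_sub_distrib]

lemma dot_smul (L : Vec n) (a : ℝ) (y : Vec n) : dot L (a • y) = a * dot L y := by
  simp only [dot, Pi.smul_apply, smul_eq_mul, mul_sum]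
  exact sum_congr rfl fun i _ => by ring

lemma dot_zero (L : Vec n) : dot L 0 = 0 := by simp [dot]

lemma dot_rs (L : Vec n) (H : Finset (Fin n)) (y : Vec n) : dot L (rs H y) = ∑ i ∈ H, L i * y i := by
  simp only [dot, rs, mul_ite, mul_zero]
  rw [sum_ite_mem, univ_inter]

lemma dot_one (L : Vec n) (H : Finset (Fin n)) : dot L (one H) = ∑ i ∈ H, L i := by
  simp only [dot, one, mul_ite, mul_one, mul_zero]
  rw [sum_ite_mem, univ_inter]

lemma continuous_dot (L : Vec n) : Continuous (dot L) :=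
  continuous_finsetSum _ fun i _ => continuous_const.mul (continuous_apply i)

lemma sm_add (y z : Vec n) : sm (y + z) = sm y + sm z := by simp [sm, sum_add_distrib]

lemma sm_smul (a : ℝ) (y : Vec n) : sm (a • y) = a * sm y := by simp [sm, mul_sum]

lemma sm_nonneg {y : Vec n} (hy : y ∈ Orth n) : 0 ≤ sm y := sum_nonneg fun i _ => hy i

lemma le_sm {y : Vec n} (hy : y ∈ Orth n) (i : Fin n) : y i ≤ sm y :=
  single_le_sum (f := y) (fun j _ => hy j) (mem_univ i)

lemma continuous_sm : Continuous (sm : Vec n → ℝ) :=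
  continuous_finsetSum _ fun i _ => continuous_apply i

lemma sm_eq_dot (y : Vec n) : sm y = dot (fun _ => 1) y := by simp [sm, dot]

lemma sm_rs (H : Finset (Fin n)) (y : Vec n) : sm (rs H y) = ∑ i ∈ H, y i := by
  rw [sm_eq_dot, dot_rs]; simp

lemma isClosed_Orth : IsClosed (Orth n) := by
  simp only [Orth, Set.ofPred_forall]
  exact isClosed_iInter fun i => isClosed_le continuous_const (continuous_apply i)

lemma measurableSet_Orth : MeasurableSet (Orth n) := isClosed_Orth.measurableSet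

/-! ### the cone over `Kc` -/

lemma Cn_nonneg {Kc : Set (Vec n)} {δ : ℝ} (hK : Pos n Kc δ) {P : Vec n} (hP : P ∈ Cn Kc) :
    P ∈ Orth n := by
  obtain ⟨r, hr, p, hp, rfl⟩ := hP
  intro i
  exact mul_nonneg hr (hK.nonneg p hp i)

lemma Cn_smul {Kc : Set (Vec n)} {P : Vec n} (hP : P ∈ Cn Kc) {a : ℝ} (ha : 0 ≤ a) :
    a • P ∈ Cn Kc := by
  obtain ⟨r, hr, p, hp, rfl⟩ := hP
  exact ⟨a * r, mul_nonneg ha hr, p, hp, by rw [smul_smul]⟩

lemma Cn_dot_nonneg {Kc : Set (Vec n)} {L : Vec n} (hL : ∀ p ∈ Kc, 0 ≤ dot L p) {P : Vec n}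
    (hP : P ∈ Cn Kc) : 0 ≤ dot L P := by
  obtain ⟨r, hr, p, hp, rfl⟩ := hP
  rw [dot_smul]
  exact mul_nonneg hr (hL p hp)

lemma Cn_dot_le {Kc : Set (Vec n)} {L : Vec n} {l : Fin n} (hL : ∀ p ∈ Kc, dot L p ≤ p l)
    {P : Vec n} (hP : P ∈ Cn Kc) : dot L P ≤ P l := by
  obtain ⟨r, hr, p, hp, rfl⟩ := hP
  rw [dot_smul]
  exact mul_le_mul_of_nonneg_left (hL p hp) hr

lemma isCompact_Kc {Kc : Set (Vec n)} {δ : ℝ} (hK : Pos n Kc δ) : IsCompact Kc := by
  refine (isCompact_Icc (a := (0 : Vec n)) (b := fun _ => 1)).of_isClosed_subset hK.closed ?_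
  intro p hp
  refine ⟨fun i => hK.nonneg p hp i, fun i => ?_⟩
  have := le_sm (fun i => hK.nonneg p hp i) i
  rw [hK.sum p hp] at this
  exact this

lemma Kc_nonempty {Kc : Set (Vec n)} {δ : ℝ} (hK : Pos n Kc δ) (hn : 0 < n) : Kc.Nonempty :=
  ⟨_, hK.cen ⟨0, hn⟩⟩

/-! ### the gap functions -/

section Phi

variable {Kc : Set (Vec n)} {δ B : ℝ} {l : Fin n}

lemma zero_mem_LL (hK : Pos n Kc δ) (hB : 0 ≤ B) : (0 : Vec n) ∈ LL Kc B l :=
  ⟨rfl, fun i => by simpa using hB, fun p hp => by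
    have : dot (0 : Vec n) p = 0 := by simp [dot]
    rw [this]; exact hK.nonneg p hp l⟩

lemma dot_le_of_LL {L : Vec n} (hL : L ∈ LL Kc B l) (y : Vec n) : dot L y ≤ B * ∑ i, |y i| := by
  rw [mul_sum]
  refine sum_le_sum fun i _ => ?_
  calc L i * y i ≤ |L i * y i| := le_abs_self _
    _ = |L i| * |y i| := abs_mul _ _
    _ ≤ B * |y i| := mul_le_mul_of_nonneg_right (hL.2.1 i) (abs_nonneg _)

lemma bddAbove_LL (y : Vec n) : BddAbove ((fun L => dot L y) '' LL Kc B l) :=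
  ⟨B * ∑ i, |y i|, by rintro _ ⟨L, hL, rfl⟩; exact dot_le_of_LL hL y⟩

lemma le_phi {L : Vec n} (hL : L ∈ LL Kc B l) (y : Vec n) : dot L y ≤ Phi Kc B l y :=
  le_csSup (bddAbove_LL y) ⟨L, hL, rfl⟩

lemma isCompact_LL : IsCompact (LL Kc B l) := by
  have hcl : IsClosed (LL Kc B l) := by
    have h1 : IsClosed {L : Vec n | L l = 0} := isClosed_eq (continuous_apply l) continuous_const
    have h2 : IsClosed {L : Vec n | ∀ i, |L i| ≤ B} := by
      simp only [Set.ofPred_forall]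
      exact isClosed_iInter fun i => isClosed_le (continuous_apply i).abs continuous_const
    have h3 : IsClosed {L : Vec n | ∀ p ∈ Kc, dot L p ≤ p l} := by
      simp only [Set.ofPred_forall]
      refine isClosed_iInter fun p => isClosed_iInter fun _ => isClosed_le ?_ continuous_const
      exact continuous_finsetSum _ fun i _ => (continuous_apply i).mul continuous_const
    exact h1.inter (h2.inter h3)
  refine (isCompact_Icc (a := fun _ => -B) (b := fun _ => B)).of_isClosed_subset hcl ?_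
  intro L hL
  exact ⟨fun i => (abs_le.mp (hL.2.1 i)).1, fun i => (abs_le.mp (hL.2.1 i)).2⟩

lemma exists_phi (hK : Pos n Kc δ) (hB : 0 ≤ B) (y : Vec n) :
    ∃ L ∈ LL Kc B l, Phi Kc B l y = dot L y := by
  have hc : ContinuousOn (fun L : Vec n => dot L y) (LL Kc B l) :=
    (continuous_finsetSum _ fun i _ => (continuous_apply i).mul continuous_const).continuousOn
  obtain ⟨L, hL, hmax⟩ := isCompact_LL.exists_isMaxOn ⟨0, zero_mem_LL hK hB⟩ hc
  refine ⟨L, hL, le_antisymm ?_ (le_phi hL y)⟩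
  refine csSup_le ⟨_, ⟨0, zero_mem_LL hK hB, rfl⟩⟩ ?_
  rintro _ ⟨L', hL', rfl⟩
  exact hmax hL'

lemma phi_le (hK : Pos n Kc δ) (hB : 0 ≤ B) {y : Vec n} {a : ℝ}
    (h : ∀ L ∈ LL Kc B l, dot L y ≤ a) : Phi Kc B l y ≤ a := by
  obtain ⟨L, hL, hy⟩ := exists_phi (l := l) hK hB y
  rw [hy]; exact h L hL

lemma phi_nonneg (hK : Pos n Kc δ) (hB : 0 ≤ B) (y : Vec n) : 0 ≤ Phi Kc B l y := by
  have := le_phi (zero_mem_LL (l := l) hK hB) y
  simpa [dot] using this

lemma phi_add_le (hK : Pos n Kc δ) (hB : 0 ≤ B) (y z : Vec n) :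
    Phi Kc B l (y + z) ≤ Phi Kc B l y + Phi Kc B l z :=
  phi_le hK hB fun L hL => by
    rw [dot_add]; exact add_le_add (le_phi hL y) (le_phi hL z)

lemma phi_smul (hK : Pos n Kc δ) (hB : 0 ≤ B) {a : ℝ} (ha : 0 ≤ a) (y : Vec n) :
    Phi Kc B l (a • y) = a * Phi Kc B l y := by
  refine le_antisymm (phi_le hK hB fun L hL => ?_) ?_
  · rw [dot_smul]; exact mul_le_mul_of_nonneg_left (le_phi hL y) ha
  · obtain ⟨L, hL, hy⟩ := exists_phi (l := l) hK hB y
    rw [hy, ← dot_smul]; exact le_phi hL _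

lemma phi_zero (hK : Pos n Kc δ) (hB : 0 ≤ B) : Phi Kc B l 0 = 0 := by
  have := phi_smul (l := l) hK hB le_rfl (0 : Vec n)
  simpa using this

lemma phi_sum_le (hK : Pos n Kc δ) (hB : 0 ≤ B) {ι : Type*} (s : Finset ι) (f : ι → Vec n) :
    Phi Kc B l (∑ a ∈ s, f a) ≤ ∑ a ∈ s, Phi Kc B l (f a) := by
  classical
  induction s using Finset.induction_on with
  | empty => simp [phi_zero hK hB]
  | insert a s ha ih =>
    rw [sum_insert ha, sum_insert ha]
    exact (phi_add_le hK hB _ _).trans (add_le_add le_rfl ih)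

lemma phi_le_abs (hK : Pos n Kc δ) (hB : 0 ≤ B) (y : Vec n) :
    Phi Kc B l y ≤ B * ∑ i, |y i| := phi_le hK hB fun _ hL => dot_le_of_LL hL y

lemma phi_le_sm (hK : Pos n Kc δ) (hB : 0 ≤ B) {y : Vec n} (hy : y ∈ Orth n) :
    Phi Kc B l y ≤ B * sm y := by
  have := phi_le_abs (l := l) hK hB y
  rwa [show ∑ i, |y i| = sm y from sum_congr rfl fun i _ => abs_of_nonneg (hy i)] at this

lemma phi_lip (hK : Pos n Kc δ) (hB : 0 ≤ B) (y z : Vec n) :
    Phi Kc B l y ≤ Phi Kc B l z + B * ∑ i, |y i - z i| := by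
  have h := phi_add_le (l := l) hK hB z (y - z)
  rw [add_sub_cancel] at h
  exact h.trans (add_le_add le_rfl (phi_le_abs hK hB _))

lemma continuous_phi (hK : Pos n Kc δ) (hB : 0 ≤ B) : Continuous (Phi Kc B l) := by
  rw [Metric.continuous_iff]
  intro y ε hε
  have hc : (0 : ℝ) < B * n + 1 := by positivity
  refine ⟨ε / (B * n + 1), by positivity, fun z hz => ?_⟩
  have h1 : ∀ u v : Vec n, ∑ i, |u i - v i| ≤ n * dist u v := by
    intro u v
    calc ∑ i, |u i - v i| ≤ ∑ _i : Fin n, dist u v :=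
          sum_le_sum fun i _ => by rw [← Real.dist_eq]; exact dist_le_pi_dist u v i
      _ = n * dist u v := by simp
  have h2 := phi_lip (l := l) hK hB z y
  have h3 := phi_lip (l := l) hK hB y z
  have h4 := mul_le_mul_of_nonneg_left (h1 z y) hB
  have h5 := mul_le_mul_of_nonneg_left (h1 y z) hB
  rw [dist_comm y z] at h5
  have h6 : (B * n + 1) * dist z y < ε := by
    rw [lt_div_iff₀ hc] at hz; linarith
  have h7 : 0 ≤ dist z y := dist_nonneg
  rw [Real.dist_eq, abs_lt]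
  constructor <;> nlinarith

lemma phi_congr_rs (hK : Pos n Kc δ) (hB : 0 ≤ B) (y : Vec n) :
    Phi Kc B l (rs (univ.erase l) y) = Phi Kc B l y := by
  have h : ∀ L ∈ LL Kc B l, dot L (rs (univ.erase l) y) = dot L y := by
    intro L hL
    rw [dot_rs, dot, ← add_sum_erase _ _ (mem_univ l), hL.1]
    simp
  refine le_antisymm (phi_le hK hB fun L hL => ?_) (phi_le hK hB fun L hL => ?_)
  · rw [h L hL]; exact le_phi hL y
  · rw [← h L hL]; exact le_phi hL _

/-- contact at the centroid of the facet -/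
lemma phi_contact (hK : Pos n Kc δ) (hB : 0 ≤ B) (hn : 2 ≤ n) :
    Phi Kc B l (one (univ.erase l)) = 0 := by
  refine le_antisymm (phi_le hK hB fun L hL => ?_) (phi_nonneg hK hB _)
  have h := hL.2.2 _ (hK.cen l)
  have hn1 : (0 : ℝ) < (n : ℝ) - 1 := by
    have : (2 : ℝ) ≤ n := by exact_mod_cast hn
    linarith
  have h2 : dot L (fun i => if i = l then (0 : ℝ) else 1 / ((n : ℝ) - 1)) =
      (1 / ((n : ℝ) - 1)) * dot L (one (univ.erase l)) := by
    simp only [dot, one, mul_sum]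
    refine sum_congr rfl fun i _ => ?_
    by_cases hi : i = l
    · simp [hi]
    · simp [hi]; ring
  rw [h2] at h
  simp only [↓reduceIte] at h
  have h3 : 0 < 1 / ((n : ℝ) - 1) := by positivity
  nlinarith

/-- the basic estimate on the cone over `Kc` -/
lemma phi_cone (hK : Pos n Kc δ) (hB : 0 ≤ B) {P : Vec n} (hP : P ∈ Cn Kc)
    (I : Finset (Fin n)) : Phi Kc B l (rs I P) ≤ P l + B * ∑ i ∈ Iᶜ, P i := by
  refine phi_le hK hB fun L hL => ?_
  have h1 := Cn_dot_le hL.2.2 hP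
  have h2 : dot L P = dot L (rs I P) + dot L (rs Iᶜ P) := by rw [← dot_add, rs_add_rs_compl]
  have h3 : -(B * ∑ i ∈ Iᶜ, P i) ≤ dot L (rs Iᶜ P) := by
    rw [dot_rs, mul_sum, ← sum_neg_distrib]
    refine sum_le_sum fun i _ => ?_
    have h4 := Cn_nonneg hK hP i
    have h5 := (abs_le.mp (hL.2.1 i)).1
    nlinarith
  linarith

lemma lam_nonneg (hK : Pos n Kc δ) (hB : 0 ≤ B) (I : Finset (Fin n)) (y : Vec n) :
    0 ≤ Lam Kc B I y := mul_nonneg (by norm_num) (sum_nonneg fun _ _ => phi_nonneg hK hB y)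

lemma lam_add_le (hK : Pos n Kc δ) (hB : 0 ≤ B) (I : Finset (Fin n)) (y z : Vec n) :
    Lam Kc B I (y + z) ≤ Lam Kc B I y + Lam Kc B I z := by
  unfold Lam
  rw [← mul_add, ← sum_add_distrib]
  exact mul_le_mul_of_nonneg_left (sum_le_sum fun _ _ => phi_add_le hK hB y z) (by norm_num)

lemma lam_smul (hK : Pos n Kc δ) (hB : 0 ≤ B) (I : Finset (Fin n)) {a : ℝ} (ha : 0 ≤ a)
    (y : Vec n) : Lam Kc B I (a • y) = a * Lam Kc B I y := by
  unfold Lam
  have h : ∑ l ∈ Iᶜ, Phi Kc B l (a • y) = a * ∑ l ∈ Iᶜ, Phi Kc B l y := by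
    rw [mul_sum]
    exact sum_congr rfl fun _ _ => phi_smul hK hB ha y
  rw [h, mul_left_comm]

lemma lam_lip (hK : Pos n Kc δ) (hB : 0 ≤ B) (I : Finset (Fin n)) (y z : Vec n) :
    Lam Kc B I y ≤ Lam Kc B I z + 2 * (Iᶜ.card * (B * ∑ i, |y i - z i|)) := by
  unfold Lam
  rw [← mul_add]
  refine mul_le_mul_of_nonneg_left ?_ (by norm_num)
  rw [← nsmul_eq_mul, ← sum_const, ← sum_add_distrib]
  exact sum_le_sum fun _ _ => phi_lip hK hB y z

lemma continuous_lam (hK : Pos n Kc δ) (hB : 0 ≤ B) (I : Finset (Fin n)) :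
    Continuous (Lam Kc B I) :=
  continuous_const.mul (continuous_finsetSum _ fun _ _ => continuous_phi hK hB)

end Phi

end Pool.Agent.Lib.MP_725e58_gt.Loc
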