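import Pool.Agent.Lib.MP_725e58_gt.Loc.Stmts

/-!
Local maximality of the simplex for the Fary-Redei problem, module C3: the convexity inequality
with contact.
-/

set_option autoImplicit false

namespace Pool.Agent.Lib.MP_725e58_gt.Loc

open MeasureTheory Finset

namespace C3

theorem sum_erase {α : Type*} [DecidableEq α] (F : Finset α) (h : ℕ) (f : Finset α → ℝ)
    (hh : h ≤ F.card) :
    ∑ i ∈ F, ∑ H ∈ (F.erase i).powersetCard h, f H =
      ((F.card : ℝ) - h) * ∑ H ∈ F.powersetCard h, f H := by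
  have h1 : ∑ i ∈ F, ∑ H ∈ (F.erase i).powersetCard h, f H =
      ∑ H ∈ F.powersetCard h, ∑ i ∈ F \ H, f H := by
    refine sum_comm' fun i H => ?_
    rw [mem_powersetCard, mem_powersetCard, mem_sdiff, subset_erase]
    tauto
  rw [h1, mul_sum]
  refine sum_congr rfl fun H hH => ?_
  rw [mem_powersetCard] at hH
  rw [sum_const, card_sdiff_of_subset hH.1, hH.2, nsmul_eq_mul, Nat.cast_sub hh]

end C3

open C3

/-- the convexity inequality with contact -/
theorem stC3 (h1 : StC3a) (h2 : StC3b) : StC3 := by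
  intro d Kc δ B l h hd hh hhd hK hB
  have hc : (univ.erase l : Finset (Fin (d + 1))).card = d := by
    rw [card_erase_of_mem (mem_univ l), card_univ, Fintype.card_fin, Nat.add_sub_cancel]
  have h3 := h1 (d + 1) Kc δ B l (by omega) hK hB
  have h4 : ((d + 1 : ℕ) : ℝ) - 1 = d := by push_cast; ring
  rw [h4] at h3
  have h5 := sum_erase (univ.erase l : Finset (Fin (d + 1))) h (fun H => J Kc B l H)
    (by rw [hc]; omega)
  rw [hc] at h5
  rw [← h5]
  have h6 : ∀ i ∈ (univ.erase l : Finset (Fin (d + 1))),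
      (Nat.choose (d - 2) (h - 1) : ℝ) * J Kc B l ((univ.erase l).erase i) ≤
        ∑ H ∈ ((univ.erase l).erase i).powersetCard h, J Kc B l H := by
    intro i hi
    have hc' : ((univ.erase l : Finset (Fin (d + 1))).erase i).card = d - 1 := by
      rw [card_erase_of_mem hi, hc]
    have h7 := h2 (d + 1) Kc δ B l ((univ.erase l).erase i) h hK hB hh (by rw [hc']; omega)
    rw [hc', Nat.sub_sub] at h7
    exact h7
  calc (d * Nat.choose (d - 2) (h - 1) : ℝ) * J Kc B l (univ.erase l) =
        (Nat.choose (d - 2) (h - 1) : ℝ) * (d * J Kc B l (univ.erase l)) := by ring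
    _ ≤ (Nat.choose (d - 2) (h - 1) : ℝ) *
        ∑ i ∈ univ.erase l, J Kc B l ((univ.erase l).erase i) :=
      mul_le_mul_of_nonneg_left h3 (Nat.cast_nonneg _)
    _ = ∑ i ∈ univ.erase l,
        (Nat.choose (d - 2) (h - 1) : ℝ) * J Kc B l ((univ.erase l).erase i) := mul_sum _ _ _
    _ ≤ _ := sum_le_sum h6

end Pool.Agent.Lib.MP_725e58_gt.Loc
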