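import Pool.Agent.Lib.MP_725e58_gt.Loc.Stmts

/-!
Local maximality of the simplex for the Fary-Redei problem: memorylessness and contact.
-/

set_option autoImplicit false

namespace Pool.Agent.Lib.MP_725e58_gt.Loc

open MeasureTheory Finset

namespace C3a

variable {n : ℕ}

/-- the law is concentrated on the orthant -/
lemma ae_Orth (n : ℕ) : ∀ᵐ y ∂(Pe n), y ∈ Orth n :=
  (withDensity_absolutelyContinuous _ _).ae_le (ae_restrict_mem measurableSet_Orth)

/-- integrability of the gap functions -/
lemma integrable_phi (h1 : StInt) {Kc : Set (Vec n)} {δ B : ℝ} (hK : Pos n Kc δ) (hB : 0 ≤ B)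
    (l : Fin n) (H : Finset (Fin n)) : Integrable (fun y => Phi Kc B l (rs H y)) (Pe n) := by
  refine h1 n _ (2 * B) (1 / 2) ?_ (by norm_num) ?_
  · exact ((continuous_phi hK hB).comp (continuous_rs H)).measurable
  · intro y hy
    rw [abs_of_nonneg (phi_nonneg hK hB _)]
    have h2 := phi_le_sm (l := l) hK hB (rs_nonneg H hy)
    have h3 : sm (rs H y) ≤ sm y := by
      rw [sm_rs]
      exact Finset.sum_le_sum_of_subset_of_nonneg (Finset.subset_univ _) fun i _ _ => hy i
    have h4 : sm y ≤ 2 * Real.exp (1 / 2 * sm y) := by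
      have := Real.add_one_le_exp (1 / 2 * sm y)
      linarith
    calc Phi Kc B l (rs H y) ≤ B * sm (rs H y) := h2
      _ ≤ B * (2 * Real.exp (1 / 2 * sm y)) := mul_le_mul_of_nonneg_left (h3.trans h4) hB
      _ = 2 * B * Real.exp (1 / 2 * sm y) := by ring

/-- the memoryless map restricted to `F` -/
lemma rs_TM {F : Finset (Fin n)} {i : Fin n} (y : Vec n) :
    rs F (TM F i y) = rs (F.erase i) y + (y i / F.card) • one F := by
  funext j
  rw [Pi.add_apply, Pi.smul_apply, smul_eq_mul]
  by_cases hj : j ∈ F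
  · rw [rs_apply_mem hj]
    unfold TM
    by_cases hji : j = i
    · subst hji
      rw [rs_apply_not_mem (notMem_erase j univ), rs_apply_not_mem (notMem_erase j F)]
    · rw [rs_apply_mem (mem_erase.2 ⟨hji, mem_univ j⟩), rs_apply_mem (mem_erase.2 ⟨hji, hj⟩)]
  · rw [rs_apply_not_mem hj, rs_apply_not_mem fun h => hj (mem_of_mem_erase h)]
    simp [one, hj]

end C3a

open C3a in
/-- memorylessness and contact -/
theorem stC3a (h1 : StInt) (h2 : StMemR) : StC3a := by
  intro n Kc δ B l hn hK hB
  have hcard : (((univ.erase l : Finset (Fin n)).card : ℕ) : ℝ) = (n : ℝ) - 1 := by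
    rw [card_erase_of_mem (mem_univ l), card_univ, Fintype.card_fin, Nat.cast_sub (by omega),
      Nat.cast_one]
  have hn1 : (0 : ℝ) < (n : ℝ) - 1 := by
    have : (2 : ℝ) ≤ n := by exact_mod_cast hn
    linarith
  have hne : (univ.erase l : Finset (Fin n)).Nonempty := by
    rw [← card_pos, card_erase_of_mem (mem_univ l), card_univ, Fintype.card_fin]
    omega
  obtain ⟨h3, h4⟩ := h2 n (univ.erase l) (fun y => Phi Kc B l (rs (univ.erase l) y)) hne
    ((continuous_phi hK hB).comp (continuous_rs _)).measurable (integrable_phi h1 hK hB l _)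
  have h5 : ((n : ℝ) - 1) * J Kc B l (univ.erase l) =
      ∑ i ∈ univ.erase l, ∫ y, Phi Kc B l (rs (univ.erase l) (TM (univ.erase l) i y)) ∂(Pe n) := by
    unfold J
    rw [h4, hcard, ← mul_assoc, mul_inv_cancel₀ hn1.ne', one_mul]
  rw [h5]
  refine sum_le_sum fun i hi => ?_
  unfold J
  refine integral_mono_ae (h3 i hi) (integrable_phi h1 hK hB l _) ?_
  filter_upwards [ae_Orth n] with y hy
  have h6 : 0 ≤ y i / ((univ.erase l : Finset (Fin n)).card : ℝ) :=
    div_nonneg (hy i) (Nat.cast_nonneg _)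
  have h7 := phi_add_le (l := l) hK hB (rs ((univ.erase l).erase i) y)
    ((y i / ((univ.erase l : Finset (Fin n)).card : ℝ)) • one (univ.erase l))
  rw [phi_smul hK hB h6, phi_contact hK hB hn, mul_zero, add_zero, ← rs_TM] at h7
  exact h7

end Pool.Agent.Lib.MP_725e58_gt.Loc
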