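import Pool.Agent.Lib.MP_725e58_gt.Loc.Stmts

/-!
Local maximality of the simplex for the Fary-Redei problem: averaging over subsets.
-/

set_option autoImplicit false

namespace Pool.Agent.Lib.MP_725e58_gt.Loc

open MeasureTheory Finset

namespace C3b

variable {n : ℕ}

/-- the number of `h`-subsets which contain a given element -/
lemma card_mem {G : Finset (Fin n)} {h : ℕ} (h1 : 1 ≤ h) {i : Fin n} (hi : i ∈ G) :
    ((G.powersetCard h).filter fun H => i ∈ H).card = Nat.choose (G.card - 1) (h - 1) := by
  have e := Finset.card_filter_powersetCard_subset {i} G h (Finset.singleton_subset_iff.2 hi)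
    (by rwa [Finset.card_singleton])
  rw [Finset.card_singleton] at e
  rw [← e]
  congr 1
  ext H
  simp only [Finset.mem_filter, Finset.singleton_subset_iff]

/-- the sum of the restrictions -/
lemma sum_rs (G : Finset (Fin n)) {h : ℕ} (h1 : 1 ≤ h) (y : Vec n) :
    ∑ H ∈ G.powersetCard h, rs H y = (Nat.choose (G.card - 1) (h - 1) : ℝ) • rs G y := by
  funext i
  rw [Finset.sum_apply, Pi.smul_apply, smul_eq_mul]
  by_cases hi : i ∈ G
  · rw [rs_apply_mem hi]
    simp only [rs]
    rw [← Finset.sum_filter, Finset.sum_const, card_mem h1 hi, nsmul_eq_mul]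
  · rw [rs_apply_not_mem hi, mul_zero]
    refine Finset.sum_eq_zero fun H hH => rs_apply_not_mem (fun h => hi ?_) y
    exact (Finset.mem_powersetCard.1 hH).1 h

/-- integrability of the gap functions -/
lemma integrable_phi (h1 : StInt) {Kc : Set (Vec n)} {δ B : ℝ} (hK : Pos n Kc δ) (hB : 0 ≤ B)
    (l : Fin n) (H : Finset (Fin n)) : Integrable (fun y => Phi Kc B l (rs H y)) (Pe n) := by
  refine h1 n _ (2 * B) (1 / 2) ?_ (by norm_num) ?_
  · exact ((continuous_phi hK hB).comp (continuous_rs H)).measurable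
  · intro y hy
    rw [abs_of_nonneg (phi_nonneg hK hB _)]
    have h2 := phi_le_sm (l := l) hK hB (rs_nonneg H hy)
    have h3 : sm (rs H y) ≤ sm y := by
      rw [sm_rs]
      exact Finset.sum_le_sum_of_subset_of_nonneg (Finset.subset_univ _) fun i _ _ => hy i
    have h4 : sm y ≤ 2 * Real.exp (1 / 2 * sm y) := by
      have := Real.add_one_le_exp (1 / 2 * sm y)
      linarith
    calc Phi Kc B l (rs H y) ≤ B * sm (rs H y) := h2
      _ ≤ B * (2 * Real.exp (1 / 2 * sm y)) := mul_le_mul_of_nonneg_left (h3.trans h4) hB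
      _ = 2 * B * Real.exp (1 / 2 * sm y) := by ring

end C3b

open C3b in
/-- averaging over subsets -/
theorem stC3b (h1 : StInt) : StC3b := by
  intro n Kc δ B l G h hK hB hh _
  unfold J
  rw [← integral_const_mul, ← integral_finsetSum _ fun H _ => integrable_phi h1 hK hB l H]
  refine integral_mono ((integrable_phi h1 hK hB l G).const_mul _)
    (integrable_finsetSum _ fun H _ => integrable_phi h1 hK hB l H) fun y => ?_
  show (Nat.choose (G.card - 1) (h - 1) : ℝ) * Phi Kc B l (rs G y) ≤
    ∑ H ∈ G.powersetCard h, Phi Kc B l (rs H y)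
  rw [← phi_smul hK hB (Nat.cast_nonneg _), ← sum_rs G hh y]
  exact phi_sum_le hK hB _ _

end Pool.Agent.Lib.MP_725e58_gt.Loc
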