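import Pool.Agent.Lib.MP_725e58_gt.Loc.Stmts

/-!
REFL project, module CV: volumes in barycentric coordinates.
-/

set_option autoImplicit false

namespace Pool.Agent.Lib.MP_725e58_gt.Loc

open MeasureTheory Finset

namespace CV

variable {d : ℕ}

/-- `bary` as a linear map -/
noncomputable def baryL (t : Fin (d + 1) → EuclideanSpace ℝ (Fin d)) :
    Vec (d + 1) →ₗ[ℝ] EuclideanSpace ℝ (Fin d) where
  toFun := bary t
  map_add' x y := by simp [bary, add_smul, sum_add_distrib]
  map_smul' a x := by simp [bary, smul_sum, smul_smul]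

/-- `sm` as a linear map -/
noncomputable def smL (n : ℕ) : Vec n →ₗ[ℝ] ℝ where
  toFun := sm
  map_add' := sm_add
  map_smul' a x := by simp [sm_smul]

/-- the linear map `(bary, sm)` -/
noncomputable def ThL (t : Fin (d + 1) → EuclideanSpace ℝ (Fin d)) :
    Vec (d + 1) →ₗ[ℝ] EuclideanSpace ℝ (Fin d) × ℝ := (baryL t).prod (smL _)

lemma ThL_apply (t : Fin (d + 1) → EuclideanSpace ℝ (Fin d)) (Y : Vec (d + 1)) :
    ThL t Y = (bary t Y, sm Y) := rfl

lemma ThL_inj {t : Fin (d + 1) → EuclideanSpace ℝ (Fin d)} (ht : AffineIndependent ℝ t) :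
    Function.Injective (ThL t) := by
  rw [← LinearMap.ker_eq_bot, LinearMap.ker_eq_bot']
  intro Y hY
  have h1 : bary t Y = 0 := congrArg Prod.fst hY
  have h2 : sm Y = 0 := congrArg Prod.snd hY
  rw [affineIndependent_iff] at ht
  funext i
  exact ht univ Y h2 h1 i (mem_univ i)

/-- the linear equivalence `(bary, sm)` -/
noncomputable def Th {t : Fin (d + 1) → EuclideanSpace ℝ (Fin d)} (ht : AffineIndependent ℝ t) :
    Vec (d + 1) ≃L[ℝ] EuclideanSpace ℝ (Fin d) × ℝ :=
  (LinearMap.linearEquivOfInjective (ThL t) (ThL_inj ht) (by simp)).toContinuousLinearEquiv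

lemma Th_apply {t : Fin (d + 1) → EuclideanSpace ℝ (Fin d)} (ht : AffineIndependent ℝ t)
    (Y : Vec (d + 1)) : Th ht Y = (bary t Y, sm Y) := rfl

/-- change of variables -/
lemma exists_const {t : Fin (d + 1) → EuclideanSpace ℝ (Fin d)} (ht : AffineIndependent ℝ t) :
    ∃ c : ENNReal, ∀ F : EuclideanSpace ℝ (Fin d) × ℝ → ENNReal, Measurable F →
      ∫⁻ Y, F (bary t Y, sm Y) = c * ∫⁻ τ, ∫⁻ p, F (p, τ) := by
  have h1 : (Measure.map (Th ht) (volume : Measure (Vec (d + 1)))).IsAddHaarMeasure :=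
    ContinuousLinearEquiv.isAddHaarMeasure_map (Th ht) volume
  obtain ⟨c, hc⟩ : ∃ c : NNReal, Measure.map (Th ht) (volume : Measure (Vec (d + 1))) =
      c • ((volume : Measure (EuclideanSpace ℝ (Fin d))).prod (volume : Measure ℝ)) :=
    ⟨_, Measure.isAddLeftInvariant_eq_smul _ _⟩
  refine ⟨c, fun F hF => ?_⟩
  have h2 : ∫⁻ Y, F (bary t Y, sm Y) = ∫⁻ z, F z ∂(Measure.map (Th ht) volume) := by
    rw [lintegral_map hF (Th ht).continuous.measurable]
    rfl
  rw [h2, hc, lintegral_smul_measure, lintegral_prod_symm _ hF.aemeasurable, ENNReal.smul_def,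
    smul_eq_mul]

/-- the integral is a multiple of the volume -/
lemma exists_mul {t : Fin (d + 1) → EuclideanSpace ℝ (Fin d)} (ht : AffineIndependent ℝ t) :
    ∃ K : ENNReal, ∀ A : Set (EuclideanSpace ℝ (Fin d)), MeasurableSet A →
      ∫⁻ Y in {Y : Vec (d + 1) | 0 < sm Y ∧ bary t ((sm Y)⁻¹ • Y) ∈ A},
        ENNReal.ofReal (Real.exp (-sm Y)) = K * volume A := by
  obtain ⟨c, hc⟩ := exists_const ht
  refine ⟨c * ∫⁻ τ, Set.indicator (Set.Ioi 0) (fun τ : ℝ => ENNReal.ofReal (Real.exp (-τ)) *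
    ENNReal.ofReal |((τ⁻¹) ^ d)⁻¹|) τ, fun A hA => ?_⟩
  set Z : Set (EuclideanSpace ℝ (Fin d) × ℝ) := {z | 0 < z.2 ∧ z.2⁻¹ • z.1 ∈ A} with hZ
  have hZm : MeasurableSet Z := by
    apply MeasurableSet.inter
    · exact measurableSet_lt measurable_const measurable_snd
    · exact (measurable_snd.inv.smul measurable_fst) hA
  have hFm : Measurable (Z.indicator (fun z => ENNReal.ofReal (Real.exp (-z.2)))) :=
    (ENNReal.measurable_ofReal.comp (Real.measurable_exp.comp measurable_snd.neg)).indicator hZm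
  have h1 := hc _ hFm
  have h2 : ∫⁻ Y in {Y : Vec (d + 1) | 0 < sm Y ∧ bary t ((sm Y)⁻¹ • Y) ∈ A},
      ENNReal.ofReal (Real.exp (-sm Y)) =
      ∫⁻ Y, Z.indicator (fun z => ENNReal.ofReal (Real.exp (-z.2))) (bary t Y, sm Y) := by
    have hS : {Y : Vec (d + 1) | 0 < sm Y ∧ bary t ((sm Y)⁻¹ • Y) ∈ A} =
        (Th ht) ⁻¹' Z := by
      ext Y
      show (0 < sm Y ∧ bary t ((sm Y)⁻¹ • Y) ∈ A) ↔ (0 < sm Y ∧ (sm Y)⁻¹ • bary t Y ∈ A)
      have h3 : bary t ((sm Y)⁻¹ • Y) = (sm Y)⁻¹ • bary t Y := (baryL t).map_smul _ _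
      rw [h3]
    rw [hS, ← lintegral_indicator ((Th ht).continuous.measurable hZm)]
    rfl
  rw [h2, h1, mul_assoc]
  congr 1
  have hm : Measurable (Set.indicator (Set.Ioi 0) (fun τ : ℝ => ENNReal.ofReal (Real.exp (-τ)) *
      ENNReal.ofReal |((τ⁻¹) ^ d)⁻¹|)) := by
    refine Measurable.indicator ?_ measurableSet_Ioi
    fun_prop
  rw [← lintegral_mul_const _ hm]
  refine lintegral_congr fun τ => ?_
  by_cases hτ : 0 < τ
  · rw [Set.indicator_of_mem (show τ ∈ Set.Ioi (0 : ℝ) from hτ)]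
    have h4 : ∀ p : EuclideanSpace ℝ (Fin d),
        Z.indicator (fun z => ENNReal.ofReal (Real.exp (-z.2))) (p, τ) =
        ((fun p : EuclideanSpace ℝ (Fin d) => τ⁻¹ • p) ⁻¹' A).indicator
          (fun _ => ENNReal.ofReal (Real.exp (-τ))) p := by
      intro p
      by_cases hp : τ⁻¹ • p ∈ A
      · rw [Set.indicator_of_mem (show (p, τ) ∈ Z from ⟨hτ, hp⟩), Set.indicator_of_mem]
        exact hp
      · rw [Set.indicator_of_notMem (fun h : (p, τ) ∈ Z => hp h.2), Set.indicator_of_notMem]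
        exact hp
    simp only [h4]
    rw [lintegral_indicator_const ((measurable_const_smul (τ⁻¹)) hA),
      Measure.addHaar_preimage_smul _ (inv_ne_zero hτ.ne')]
    simp only [finrank_euclideanSpace, Fintype.card_fin]
    rw [mul_assoc]
  · rw [Set.indicator_of_notMem (show τ ∉ Set.Ioi (0 : ℝ) from hτ), zero_mul]
    have h4 : ∀ p : EuclideanSpace ℝ (Fin d),
        Z.indicator (fun z => ENNReal.ofReal (Real.exp (-z.2))) (p, τ) = 0 := by
      intro p
      rw [Set.indicator_of_notMem (fun h : (p, τ) ∈ Z => hτ h.1)]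
    simp only [h4, lintegral_zero]

/-- the simplex in barycentric coordinates -/
lemma mem_Sx (t : Fin (d + 1) → EuclideanSpace ℝ (Fin d)) (p : EuclideanSpace ℝ (Fin d)) :
    p ∈ Sx t ↔ ∃ l : Vec (d + 1), (∀ i, 0 ≤ l i) ∧ sm l = 1 ∧ bary t l = p := by
  have h1 : Sx t = (baryL t) '' (stdSimplex ℝ (Fin (d + 1))) := by
    rw [← convexHull_basis_eq_stdSimplex, LinearMap.image_convexHull, ← Set.range_comp]
    unfold Sx
    congr 2
    funext i
    show t i = bary t _
    simp [bary]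
  rw [h1]
  constructor
  · rintro ⟨l, hl, rfl⟩
    exact ⟨l, hl.1, hl.2, rfl⟩
  · rintro ⟨l, h2, h3, rfl⟩
    exact ⟨l, ⟨h2, h3⟩, rfl⟩

lemma isCompact_Sx (t : Fin (d + 1) → EuclideanSpace ℝ (Fin d)) : IsCompact (Sx t) :=
  (Set.finite_range t).isCompact_convexHull ℝ

end CV

open CV in
/-- Module CV. -/
theorem stCV (h : StProb) : StCV := by
  intro d t ht A hA
  obtain ⟨K, hK⟩ := exists_mul ht
  have h1 := hK (Sx t) (isCompact_Sx t).measurableSet
  have h2 : ∫⁻ Y in {Y : Vec (d + 1) | 0 < sm Y ∧ bary t ((sm Y)⁻¹ • Y) ∈ Sx t},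
      ENNReal.ofReal (Real.exp (-sm Y)) = 1 := by
    have hS : {Y : Vec (d + 1) | 0 < sm Y ∧ bary t ((sm Y)⁻¹ • Y) ∈ Sx t} =
        Orth (d + 1) \ {0} := by
      ext Y
      constructor
      · rintro ⟨hs, hY⟩
        obtain ⟨l, hl0, hl1, hl⟩ := (mem_Sx t _).mp hY
        have h3 : l = (sm Y)⁻¹ • Y := by
          apply ThL_inj ht
          rw [ThL_apply, ThL_apply, hl, hl1, sm_smul, inv_mul_cancel₀ hs.ne']
        refine ⟨fun i => ?_, ?_⟩
        · have h4 := hl0 i
          rw [h3] at h4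
          have h5 : 0 ≤ (sm Y)⁻¹ * Y i := h4
          exact nonneg_of_mul_nonneg_right h5 (inv_pos.mpr hs)
        · rintro rfl
          simp [sm] at hs
      · rintro ⟨hY, hY0⟩
        have hs : 0 < sm Y := by
          rcases (sm_nonneg hY).lt_or_eq with h4 | h4
          · exact h4
          · exfalso
            apply hY0
            have h5 := (sum_eq_zero_iff_of_nonneg (fun i _ => hY i)).mp h4.symm
            funext i
            exact h5 i (mem_univ i)
        refine ⟨hs, (mem_Sx t _).mpr ⟨(sm Y)⁻¹ • Y, fun i => ?_, ?_, rfl⟩⟩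
        · exact mul_nonneg (inv_nonneg.mpr hs.le) (hY i)
        · rw [sm_smul, inv_mul_cancel₀ hs.ne']
    rw [hS]
    have h3 := (h (d + 1)).measure_univ
    rw [Pe, withDensity_apply _ MeasurableSet.univ, Measure.restrict_univ] at h3
    rw [← h3]
    apply setLIntegral_congr
    exact sdiff_null_ae_eq_self (measure_singleton _)
  rw [hK A hA]
  rw [h2] at h1
  calc volume A = 1 * volume A := (one_mul _).symm
    _ = (K * volume (Sx t)) * volume A := by rw [h1]
    _ = volume (Sx t) * (K * volume A) := by ring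

end Pool.Agent.Lib.MP_725e58_gt.Loc
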