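import Pool.Agent.Lib.MP_725e58_gt.Loc.Stmts

/-!
Local maximality of the simplex for the Fary-Redei problem: closedness of the cone over `Kc` and of
the reflection relation.
-/

set_option autoImplicit false

namespace Pool.Agent.Lib.MP_725e58_gt.Loc

open MeasureTheory Finset

namespace Clos

variable {n : ℕ}

/-- projections along compact sets are closed -/
lemma isClosed_proj {X Y : Type*} [TopologicalSpace X] [TopologicalSpace Y] {K : Set X}
    (hK : IsCompact K) {C : Set (X × Y)} (hC : IsClosed C) :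
    IsClosed {y : Y | ∃ x ∈ K, (x, y) ∈ C} := by
  have : CompactSpace K := isCompact_iff_compactSpace.1 hK
  have h1 : IsClosed {q : K × Y | ((q.1 : X), q.2) ∈ C} :=
    hC.preimage ((continuous_subtype_val.comp continuous_fst).prodMk continuous_snd)
  have h2 := isClosedMap_snd_of_compactSpace (X := K) (Y := Y) _ h1
  convert h2 using 1
  ext y
  simp only [Set.mem_ofPred_eq, Set.mem_image]
  constructor
  · rintro ⟨x, hx, h⟩
    exact ⟨(⟨x, hx⟩, y), h, rfl⟩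
  · rintro ⟨⟨x, y'⟩, h, rfl⟩
    exact ⟨x, x.2, h⟩

/-- the difference of the representatives -/
def Df (x : Vec n) (t θ : ℝ) (p r : Vec n) (i : Fin n) : ℝ :=
  θ * t * p i - (1 - θ) * t * r i - (θ * t - (1 - θ) * t) * x i

lemma RT_iff {Kc : Set (Vec n)} {δ : ℝ} (hK : Pos n Kc δ) (x : Vec n) (i0 : Fin n) (t : ℝ)
    (z : Vec n) : RT Kc x t z ↔ 0 ≤ t ∧ ∃ q ∈ (Set.Icc (0 : ℝ) 1) ×ˢ (Kc ×ˢ Kc),
      ∀ i, z i - Df x t q.1 q.2.1 q.2.2 i = z i0 - Df x t q.1 q.2.1 q.2.2 i0 := by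
  constructor
  · rintro ⟨P, ⟨a, ha, p, hp, rfl⟩, Q, ⟨b, hb, r, hr, rfl⟩, hsum, s, hs⟩
    rw [sm_smul, sm_smul, hK.sum p hp, hK.sum r hr, mul_one, mul_one] at hsum
    simp only [sm_smul, hK.sum p hp, hK.sum r hr, mul_one, Pi.smul_apply, smul_eq_mul] at hs
    refine ⟨by linarith, ?_⟩
    have key : ∃ θ ∈ Set.Icc (0 : ℝ) 1, θ * t = a ∧ (1 - θ) * t = b := by
      rcases eq_or_lt_of_le (show 0 ≤ t by linarith) with h0 | h0
      · refine ⟨0, ⟨le_rfl, zero_le_one⟩, ?_, ?_⟩ <;> rw [← h0] <;> linarith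
      · refine ⟨a / t, ⟨by positivity, ?_⟩, ?_, ?_⟩
        · rw [div_le_one h0]; linarith
        · field_simp
        · field_simp; linarith
    obtain ⟨θ, hθ, h1, h2⟩ := key
    refine ⟨(θ, p, r), ⟨hθ, hp, hr⟩, fun i => ?_⟩
    simp only [Df, h1, h2]
    rw [hs i, hs i0]
    ring
  · rintro ⟨ht, ⟨θ, p, r⟩, ⟨hθ, hp, hr⟩, h⟩
    simp only at h hθ hp hr
    have hθ0 : 0 ≤ θ * t := mul_nonneg hθ.1 ht
    have hθ1 : 0 ≤ (1 - θ) * t := mul_nonneg (by linarith [hθ.2]) ht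
    refine ⟨(θ * t) • p, ⟨_, hθ0, p, hp, rfl⟩, ((1 - θ) * t) • r, ⟨_, hθ1, r, hr, rfl⟩, ?_,
      z i0 - Df x t θ p r i0, fun i => ?_⟩
    · rw [sm_smul, sm_smul, hK.sum p hp, hK.sum r hr]; ring
    · rw [sm_smul, sm_smul, hK.sum p hp, hK.sum r hr, ← h i]
      simp only [Df, Pi.smul_apply, smul_eq_mul, mul_one]
      ring

end Clos

open Clos

/-- closedness of the cone -/
theorem stCnCl : StCnCl := by
  intro n Kc δ _ hK
  have hC : IsClosed {q : Vec n × Vec n | 0 ≤ sm q.2 ∧ q.2 = sm q.2 • q.1} :=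
    (isClosed_le continuous_const (continuous_sm.comp continuous_snd)).inter
      (isClosed_eq continuous_snd ((continuous_sm.comp continuous_snd).smul continuous_fst))
  have h1 := isClosed_proj (isCompact_Kc hK) hC
  convert h1 using 1
  ext y
  simp only [Cn, Set.mem_ofPred_eq]
  constructor
  · rintro ⟨r, hr, p, hp, rfl⟩
    refine ⟨p, hp, ?_, ?_⟩
    · rw [sm_smul, hK.sum p hp]; linarith
    · rw [sm_smul, hK.sum p hp, mul_one]
  · rintro ⟨p, hp, h0, h⟩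
    exact ⟨_, h0, p, hp, h⟩

/-- closedness of the reflection relation -/
theorem stRTcl : StRTcl := by
  intro n Kc δ x hn hK
  set i0 : Fin n := ⟨0, hn⟩
  have hC : IsClosed {q : (ℝ × Vec n × Vec n) × (ℝ × Vec n) |
      ∀ i, q.2.2 i - Df x q.2.1 q.1.1 q.1.2.1 q.1.2.2 i =
        q.2.2 i0 - Df x q.2.1 q.1.1 q.1.2.1 q.1.2.2 i0} := by
    simp only [Set.ofPred_forall]
    refine isClosed_iInter fun i => isClosed_eq ?_ ?_ <;>
    · unfold Df
      fun_prop
  have hcomp : IsCompact ((Set.Icc (0 : ℝ) 1) ×ˢ (Kc ×ˢ Kc)) :=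
    isCompact_Icc.prod ((isCompact_Kc hK).prod (isCompact_Kc hK))
  have h1 := (isClosed_le continuous_const continuous_fst :
    IsClosed {q : ℝ × Vec n | (0 : ℝ) ≤ q.1}).inter (isClosed_proj hcomp hC)
  convert h1 using 1
  ext q
  rw [Set.mem_ofPred_eq, RT_iff hK x i0]
  rfl

end Pool.Agent.Lib.MP_725e58_gt.Loc
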