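import Pool.Agent.Lib.MP_725e58_gt.Loc.Stmts

/-!
Local maximality of the simplex for the Fary-Redei problem: module CONTACT, an interior minimiser
has its facet centroids in the body.
-/

set_option autoImplicit false

namespace Pool.Agent.Lib.MP_725e58_gt.Loc

open MeasureTheory Finset Filter Topology

namespace Contact

variable {d : ℕ} {t : Fin (d + 1) → EuclideanSpace ℝ (Fin d)}

lemma bary_add (l l' : Vec (d + 1)) : bary t (l + l') = bary t l + bary t l' := by
  simp [bary, add_smul, sum_add_distrib]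

lemma bary_smul (a : ℝ) (l : Vec (d + 1)) : bary t (a • l) = a • bary t l := by
  simp [bary, mul_smul, smul_sum]

lemma mem_Sx {v : EuclideanSpace ℝ (Fin d)} :
    v ∈ Sx t ↔ ∃ l : Vec (d + 1), (∀ i, 0 ≤ l i) ∧ sm l = 1 ∧ bary t l = v := by
  constructor
  · intro hv
    have hc : Convex ℝ {v | ∃ l : Vec (d + 1), (∀ i, 0 ≤ l i) ∧ sm l = 1 ∧ bary t l = v} := by
      rintro _ ⟨l, hl, hl1, rfl⟩ _ ⟨l', hl', hl1', rfl⟩ a b ha hb hab
      refine ⟨a • l + b • l', fun i => ?_, ?_, ?_⟩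
      · exact add_nonneg (mul_nonneg ha (hl i)) (mul_nonneg hb (hl' i))
      · rw [sm_add, sm_smul, sm_smul, hl1, hl1', mul_one, mul_one, hab]
      · rw [bary_add, bary_smul, bary_smul]
    refine convexHull_min ?_ hc hv
    rintro _ ⟨i, rfl⟩
    refine ⟨Pi.single i 1, fun j => ?_, ?_, ?_⟩
    · by_cases hj : j = i
      · subst hj; simp
      · simp [hj]
    · simp [sm, Pi.single_apply]
    · simp [bary, Pi.single_apply]
  · rintro ⟨l, hl, hl1, rfl⟩
    exact (convex_convexHull ℝ _).sum_mem (fun i _ => hl i) hl1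
      (fun i _ => subset_convexHull ℝ _ ⟨i, rfl⟩)

/-- the factors -/
noncomputable def af (ρ : Vec (d + 1)) (l : Fin (d + 1)) (τ : ℝ) (i : Fin (d + 1)) : ℝ :=
  if i = l then 1 else 1 + τ * ρ i

/-- the new vertices -/
noncomputable def tt (t : Fin (d + 1) → EuclideanSpace ℝ (Fin d)) (ρ : Vec (d + 1))
    (l : Fin (d + 1)) (τ : ℝ) (i : Fin (d + 1)) : EuclideanSpace ℝ (Fin d) :=
  t l + (af ρ l τ i)⁻¹ • (t i - t l)

lemma af_self (ρ : Vec (d + 1)) (l : Fin (d + 1)) (τ : ℝ) : af ρ l τ l = 1 := by simp [af]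

lemma af_ne (ρ : Vec (d + 1)) {l i : Fin (d + 1)} (h : i ≠ l) (τ : ℝ) :
    af ρ l τ i = 1 + τ * ρ i := by simp [af, h]

/-- the new simplex contains the points of the old one with negative value -/
lemma mem_new {ρ : Vec (d + 1)} {l : Fin (d + 1)} {τ : ℝ} (hτ : 0 ≤ τ)
    (ha : ∀ i, 0 < af ρ l τ i) (hl : 0 ≤ 1 + τ * ρ l) {p : Vec (d + 1)} (hp : ∀ i, 0 ≤ p i)
    (hp1 : sm p = 1) (hneg : ∑ i, p i * ρ i ≤ 0) : bary t p ∈ Sx (tt t ρ l τ) := by
  rw [mem_Sx]
  let μ : Vec (d + 1) := fun i => if i = l then 1 - ∑ j ∈ univ.erase l, p j * af ρ l τ j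
    else p i * af ρ l τ i
  have e1 : ∑ j ∈ univ.erase l, p j * af ρ l τ j =
      (∑ j ∈ univ.erase l, p j) + τ * ∑ j ∈ univ.erase l, p j * ρ j := by
    rw [mul_sum, ← sum_add_distrib]
    refine sum_congr rfl fun j hj => ?_
    rw [af_ne ρ (ne_of_mem_erase hj)]
    ring
  have e2 : p l + ∑ j ∈ univ.erase l, p j = 1 := by
    rw [add_sum_erase _ _ (mem_univ l)]
    exact hp1
  have e3 : p l * ρ l + ∑ j ∈ univ.erase l, p j * ρ j = ∑ j, p j * ρ j :=
    add_sum_erase _ (fun j => p j * ρ j) (mem_univ l)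
  have hμl : μ l = p l * (1 + τ * ρ l) - τ * ∑ j, p j * ρ j := by
    have : μ l = 1 - ∑ j ∈ univ.erase l, p j * af ρ l τ j := by simp [μ]
    rw [this, e1, ← e3]
    linear_combination -e2
  have hμ : ∀ i, i ≠ l → μ i = p i * af ρ l τ i := fun i hi => by simp [μ, hi]
  have hsum : ∑ j ∈ univ.erase l, μ j = ∑ j ∈ univ.erase l, p j * af ρ l τ j :=
    sum_congr rfl fun j hj => hμ j (ne_of_mem_erase hj)
  refine ⟨μ, fun i => ?_, ?_, ?_⟩
  · by_cases hi : i = l
    · rw [hi, hμl]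
      have h1 := mul_nonneg (hp l) hl
      have h2 : τ * ∑ j, p j * ρ j ≤ 0 := mul_nonpos_of_nonneg_of_nonpos hτ hneg
      linarith
    · rw [hμ i hi]
      exact mul_nonneg (hp i) (ha i).le
  · unfold sm
    rw [← add_sum_erase _ _ (mem_univ l), hsum]
    simp [μ]
  · unfold bary
    rw [← add_sum_erase _ _ (mem_univ l), ← add_sum_erase _ (fun i => p i • t i) (mem_univ l)]
    have h1 : tt t ρ l τ l = t l := by simp [tt]
    have h2 : ∑ j ∈ univ.erase l, μ j • tt t ρ l τ j =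
        (∑ j ∈ univ.erase l, (p j * af ρ l τ j)) • t l +
          (∑ j ∈ univ.erase l, p j • t j - (∑ j ∈ univ.erase l, p j) • t l) := by
      rw [sum_smul, sum_smul, ← sum_sub_distrib, ← sum_add_distrib]
      refine sum_congr rfl fun j hj => ?_
      have hj' := ne_of_mem_erase hj
      rw [hμ j hj', tt, smul_add, smul_smul, mul_assoc, mul_inv_cancel₀ (ha j).ne', mul_one,
        smul_sub]
    have h3 : μ l = 1 - ∑ j ∈ univ.erase l, p j * af ρ l τ j := by simp [μ]
    have h4 : p l = 1 - ∑ j ∈ univ.erase l, p j := by linarith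
    rw [h1, h2, h3, h4]
    module

/-- the determinant of the new vertices -/
lemma Dt_new (hD : StDrel) {ρ : Vec (d + 1)} {l : Fin (d + 1)} {τ : ℝ} :
    Dt (tt t ρ l τ) = (∏ i, (af ρ l τ i)⁻¹) * Dt t := by
  classical
  let s : Fin (d + 1) → ℝ := fun i => (af ρ l τ i)⁻¹
  let B : Matrix (Fin (d + 1)) (Fin (d + 1)) ℝ := Matrix.diagonal s
  let A : Matrix (Fin (d + 1)) (Fin (d + 1)) ℝ := fun i j => B i j + (1 - s i) * B l j
  have hsl : s l = 1 := by simp [s, af_self]
  have hBl : ∀ j, B l j = if l = j then 1 else 0 := fun j => by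
    simp only [B, Matrix.diagonal_apply, hsl]
  have hA : A.det = ∏ i, (af ρ l τ i)⁻¹ := by
    rw [Matrix.det_eq_of_forall_row_eq_smul_add_const (A := A) (B := B) (fun i => 1 - s i) l
      (by rw [hsl, sub_self]) (fun i j => rfl)]
    exact Matrix.det_diagonal
  rw [← hA]
  refine hD d t (tt t ρ l τ) A (fun i => ?_) (fun i => ?_)
  · simp only [A]
    rw [sum_add_distrib, ← mul_sum]
    simp only [hBl]
    simp [B, Matrix.diagonal_apply]
  · have h1 : ∀ j, A i j • t j = (B i j) • t j + (1 - s i) • (B l j • t j) := fun j => by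
      simp only [A]
      rw [add_smul, mul_smul]
    rw [sum_congr rfl fun j _ => h1 j, sum_add_distrib, ← smul_sum]
    have h2 : ∑ j, B i j • t j = s i • t i := by
      simp [B, Matrix.diagonal_apply, ite_smul]
    have h3 : ∑ j, B l j • t j = t l := by
      simp only [hBl]
      simp [ite_smul]
    rw [h2, h3, tt]
    module

lemma prod_large {ρ : Vec (d + 1)} {l : Fin (d + 1)} (h : 0 < ∑ i ∈ univ.erase l, ρ i) :
    ∀ᶠ τ : ℝ in 𝓝[>] 0, 1 < ∏ i, af ρ l τ i := by
  have e : ∀ τ, ∏ i, af ρ l τ i = ∏ i ∈ univ.erase l, (1 + τ * ρ i) := by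
    intro τ
    rw [← mul_prod_erase _ _ (mem_univ l), af_self, one_mul]
    exact prod_congr rfl fun i hi => af_ne ρ (ne_of_mem_erase hi) τ
  have hd : HasDerivAt (fun τ : ℝ => ∏ i ∈ univ.erase l, (1 + τ * ρ i))
      (∑ i ∈ univ.erase l, ρ i) 0 := by
    have h1 : ∀ i ∈ univ.erase l, HasDerivAt (fun τ : ℝ => 1 + τ * ρ i) (ρ i) 0 := by
      intro i _
      have := ((hasDerivAt_id (0 : ℝ)).mul_const (ρ i)).const_add 1
      simpa using this
    have h2 := HasDerivAt.fun_finsetProd h1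
    simpa using h2
  rw [hasDerivAt_iff_tendsto_slope_zero] at hd
  have h1 : ∀ᶠ τ : ℝ in 𝓝[≠] 0, 0 < τ⁻¹ • ((∏ i ∈ univ.erase l, (1 + (0 + τ) * ρ i)) -
      ∏ i ∈ univ.erase l, (1 + (0 : ℝ) * ρ i)) := hd.eventually (lt_mem_nhds h)
  have h2 : ∀ᶠ τ : ℝ in 𝓝[>] 0, 0 < τ⁻¹ • ((∏ i ∈ univ.erase l, (1 + (0 + τ) * ρ i)) -
      ∏ i ∈ univ.erase l, (1 + (0 : ℝ) * ρ i)) :=
    h1.filter_mono (nhdsWithin_mono _ (fun x hx => ne_of_gt hx))
  filter_upwards [h2, self_mem_nhdsWithin] with τ hτ hτ0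
  have hτ0' : (0 : ℝ) < τ := hτ0
  rw [e τ]
  simp only [zero_add, zero_mul, add_zero, prod_const_one, smul_eq_mul] at hτ
  have := (mul_pos_iff_of_pos_left (inv_pos.mpr hτ0')).mp hτ
  linarith

end Contact

open Contact in
/-- Module CONTACT. -/
theorem stContact (h1 : StDrel) : StContact := by
  intro d K R t hd hK hKc hsub hDt hR hmin l
  by_contra hc
  obtain ⟨f, u, hfK, hfc⟩ := geometric_hahn_banach_closed_point hKc hK.isClosed hc
  let ρ : Vec (d + 1) := fun i => f (t i) - u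
  have hfb : ∀ p : Vec (d + 1), sm p = 1 → ∑ i, p i * ρ i = f (bary t p) - u := by
    intro p hp
    have e : f (bary t p) = ∑ i, p i * f (t i) := by
      unfold bary
      rw [map_sum]
      exact sum_congr rfl fun i _ => by rw [map_smul, smul_eq_mul]
    have e2 : ∑ i, p i * ρ i = ∑ i, p i * f (t i) - (∑ i, p i) * u := by
      rw [sum_mul, ← sum_sub_distrib]
      exact sum_congr rfl fun i _ => by simp only [ρ]; ring
    have e3 : ∑ i, p i = 1 := hp
    rw [e2, e3, e, one_mul]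
  have hd' : (0 : ℝ) < d := by exact_mod_cast hd
  have hcen : 0 < ∑ i ∈ univ.erase l, ρ i := by
    have hs : sm (fun i => if i = l then (0 : ℝ) else 1 / (d : ℝ)) = 1 := by
      unfold sm
      rw [← add_sum_erase _ _ (mem_univ l)]
      have : ∀ i ∈ univ.erase l, (if i = l then (0 : ℝ) else 1 / (d : ℝ)) = 1 / d := by
        intro i hi
        rw [if_neg (ne_of_mem_erase hi)]
      rw [sum_congr rfl this, sum_const, card_erase_of_mem (mem_univ l), card_univ,
        Fintype.card_fin]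
      simp
      field_simp
    have h2 := hfb _ hs
    rw [← add_sum_erase _ _ (mem_univ l)] at h2
    simp only [if_true, zero_mul, zero_add] at h2
    have h3 : ∑ i ∈ univ.erase l, (if i = l then (0 : ℝ) else 1 / (d : ℝ)) * ρ i =
        (1 / d) * ∑ i ∈ univ.erase l, ρ i := by
      rw [mul_sum]
      exact sum_congr rfl fun i hi => by rw [if_neg (ne_of_mem_erase hi)]
    rw [h3] at h2
    have h4 : 0 < (1 / (d : ℝ)) * ∑ i ∈ univ.erase l, ρ i := by rw [h2]; linarith
    exact (mul_pos_iff_of_pos_left (by positivity)).mp h4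
  have hpos : ∀ᶠ τ : ℝ in 𝓝[>] 0, ∀ i, 0 < af ρ l τ i := by
    refine eventually_all.mpr fun i => ?_
    by_cases hi : i = l
    · exact Eventually.of_forall fun τ => by rw [hi, af_self]; exact one_pos
    · have hcont : Tendsto (fun τ : ℝ => 1 + τ * ρ i) (𝓝[>] 0) (𝓝 1) := by
        have : Continuous fun τ : ℝ => 1 + τ * ρ i := by fun_prop
        have h := this.tendsto 0
        simp only [zero_mul, add_zero] at h
        exact h.mono_left nhdsWithin_le_nhds
      filter_upwards [hcont.eventually (lt_mem_nhds (zero_lt_one))] with τ hτ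
      rw [af_ne ρ hi]
      exact hτ
  have hposl : ∀ᶠ τ : ℝ in 𝓝[>] 0, 0 ≤ 1 + τ * ρ l := by
    have hcont : Tendsto (fun τ : ℝ => 1 + τ * ρ l) (𝓝[>] 0) (𝓝 1) := by
      have : Continuous fun τ : ℝ => 1 + τ * ρ l := by fun_prop
      have h := this.tendsto 0
      simp only [zero_mul, add_zero] at h
      exact h.mono_left nhdsWithin_le_nhds
    filter_upwards [hcont.eventually (lt_mem_nhds (zero_lt_one))] with τ hτ
    exact hτ.le
  have hnorm : ∀ᶠ τ : ℝ in 𝓝[>] 0, ∀ i, ‖tt t ρ l τ i‖ ≤ R := by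
    refine eventually_all.mpr fun i => ?_
    by_cases hi : i = l
    · refine Eventually.of_forall fun τ => ?_
      have : tt t ρ l τ i = t l := by rw [hi]; simp [tt]
      rw [this]
      exact (hR l).le
    · have hcont : Tendsto (fun τ : ℝ => ‖t l + (1 + τ * ρ i)⁻¹ • (t i - t l)‖) (𝓝[>] 0)
          (𝓝 ‖t i‖) := by
        have h0 : ContinuousAt (fun τ : ℝ => ‖t l + (1 + τ * ρ i)⁻¹ • (t i - t l)‖) 0 := by
          have : (1 + (0 : ℝ) * ρ i) ≠ 0 := by simp
          fun_prop (disch := assumption)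
        have h := h0.tendsto
        simp only [zero_mul, add_zero, inv_one, one_smul, add_sub_cancel] at h
        exact h.mono_left nhdsWithin_le_nhds
      filter_upwards [hcont.eventually (gt_mem_nhds (hR i))] with τ hτ
      rw [tt, af_ne ρ hi]
      exact hτ.le
  obtain ⟨τ, ⟨⟨⟨⟨hτ1, hτ2⟩, hτ3⟩, hτ4⟩, hτ0⟩⟩ :=
    ((((prod_large hcen).and hpos).and hposl).and hnorm).and
      (self_mem_nhdsWithin : ∀ᶠ τ : ℝ in 𝓝[>] 0, τ ∈ Set.Ioi (0 : ℝ)) |>.exists
  have hτ0' : (0 : ℝ) < τ := hτ0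
  have hsub' : K ⊆ Sx (tt t ρ l τ) := by
    intro v hv
    obtain ⟨p, hp, hp1, rfl⟩ := mem_Sx.mp (hsub hv)
    refine mem_new hτ0'.le hτ2 hτ3 hp hp1 ?_
    rw [hfb p hp1]
    linarith [hfK _ hv]
  have h := hmin _ hsub' hτ4
  rw [Dt_new h1, abs_mul, prod_inv_distrib] at h
  have hpp : 0 < ∏ i, af ρ l τ i := prod_pos fun i _ => hτ2 i
  have hlt : |(∏ i, af ρ l τ i)⁻¹| < 1 := by
    rw [abs_of_pos (inv_pos.mpr hpp)]
    exact inv_lt_one_of_one_lt₀ hτ1
  have hD0 : 0 < |Dt t| := abs_pos.mpr hDt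
  nlinarith

end Pool.Agent.Lib.MP_725e58_gt.Loc
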