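import Pool.Agent.Lib.MP_725e58_gt.Loc.Stmts

/-! Module COORD: integration of one coordinate. -/

set_option autoImplicit false

namespace Pool.Agent.Lib.MP_725e58_gt.Loc

open MeasureTheory Finset

namespace Coord

/-- the tail of the exponential law -/
theorem tail (a : ℝ) : ∫⁻ x in Set.Ici a, ENNReal.ofReal (Real.exp (-x)) =
    ENNReal.ofReal (Real.exp (-a)) := by
  rw [← restrict_Ioi_eq_restrict_Ici, ← integral_exp_neg_Ioi a,
    ofReal_integral_eq_lintegral_ofReal (integrableOn_exp_neg_Ioi a)
      (Filter.Eventually.of_forall fun x => (Real.exp_pos _).le)]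

/-- Fubini for one coordinate -/
theorem fub (m : ℕ) (k : Fin (m + 1)) (g : Vec (m + 1) → ENNReal) (hg : Measurable g) :
    ∫⁻ w, g w = ∫⁻ y : Vec m, ∫⁻ x : ℝ, g (k.insertNth x y) := by
  have h1 := (volume_preserving_piFinSuccAbove (fun _ : Fin (m + 1) => ℝ) k).symm
  have h2 := h1.lintegral_comp hg
  have h3 : Measurable fun p : ℝ × (Fin m → ℝ) =>
      g ((MeasurableEquiv.piFinSuccAbove (fun _ : Fin (m + 1) => ℝ) k).symm p) :=
    hg.comp (MeasurableEquiv.measurable _)
  rw [← h2]
  exact lintegral_prod_symm' _ h3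

theorem sm_insertNth (m : ℕ) (k : Fin (m + 1)) (x : ℝ) (y : Vec m) :
    sm (n := m + 1) (k.insertNth x y) = x + sm y := by
  unfold sm
  rw [Fin.sum_univ_succAbove _ k]
  simp

theorem insertNth_update (m : ℕ) (k : Fin (m + 1)) (x : ℝ) (y : Vec m) :
    (k.insertNth x y : Vec (m + 1)) = Function.update (k.insertNth 0 y : Vec (m + 1)) k x := by
  funext i
  refine Fin.succAboveCases k ?_ (fun j => ?_) i
  · simp
  · rw [Fin.insertNth_apply_succAbove, Function.update_of_ne (Fin.succAbove_ne k j),
      Fin.insertNth_apply_succAbove]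

theorem cond (m : ℕ) (k : Fin (m + 1)) (x : ℝ) (y : Vec m) :
    (∀ i, i ≠ k → 0 ≤ (k.insertNth x y : Vec (m + 1)) i) ↔ ∀ j, 0 ≤ y j := by
  constructor
  · intro h j
    have := h (k.succAbove j) (Fin.succAbove_ne k j)
    rwa [Fin.insertNth_apply_succAbove] at this
  · intro h i hi
    obtain ⟨j, rfl⟩ := Fin.exists_succAbove_eq hi
    rw [Fin.insertNth_apply_succAbove]
    exact h j

/-- the inner integral -/
theorem inner (m : ℕ) (k : Fin (m + 1)) (f : Vec (m + 1) → ℝ) (hf : Measurable f)
    (hk : ∀ (y : Vec (m + 1)) (s : ℝ), f (Function.update y k s) = f y) :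
    ∫⁻ w in {w : Vec (m + 1) | (∀ i, i ≠ k → 0 ≤ w i) ∧ f w ≤ w k},
      ENNReal.ofReal (Real.exp (-sm w)) =
    ∫⁻ y in Orth m, ENNReal.ofReal (Real.exp (-sm y)) *
      ENNReal.ofReal (Real.exp (-f (k.insertNth 0 y : Vec (m + 1)))) := by
  classical
  have hsm : Measurable fun w : Vec (m + 1) => ENNReal.ofReal (Real.exp (-sm w)) := by
    unfold sm
    fun_prop
  have hS1 : MeasurableSet {w : Vec (m + 1) | ∀ i, i ≠ k → 0 ≤ w i} := by
    have : {w : Vec (m + 1) | ∀ i, i ≠ k → 0 ≤ w i} = ⋂ i, ⋂ (_ : i ≠ k), {w | 0 ≤ w i} := by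
      ext w
      simp
    rw [this]
    exact MeasurableSet.iInter fun i => MeasurableSet.iInter fun _ =>
      measurableSet_le measurable_const (measurable_pi_apply i)
  have hS : MeasurableSet {w : Vec (m + 1) | (∀ i, i ≠ k → 0 ≤ w i) ∧ f w ≤ w k} :=
    hS1.inter (measurableSet_le hf (measurable_pi_apply k))
  have hO : MeasurableSet (Orth m) := by
    have : Orth m = ⋂ i, {w | 0 ≤ w i} := by
      ext w
      simp [Orth]
    rw [this]
    exact MeasurableSet.iInter fun i => measurableSet_le measurable_const (measurable_pi_apply i)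
  rw [← lintegral_indicator hS, ← lintegral_indicator hO, fub m k _ (hsm.indicator hS)]
  refine lintegral_congr fun y => ?_
  by_cases hy : y ∈ Orth m
  · rw [Set.indicator_of_mem hy, ← tail (f (k.insertNth 0 y : Vec (m + 1))),
      ← lintegral_indicator measurableSet_Ici,
      ← lintegral_const_mul _ (Measurable.indicator (by fun_prop) measurableSet_Ici)]
    refine lintegral_congr fun x => ?_
    have hfx : f (k.insertNth x y : Vec (m + 1)) = f (k.insertNth 0 y : Vec (m + 1)) := by
      rw [insertNth_update, hk]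
    by_cases hx : f (k.insertNth 0 y : Vec (m + 1)) ≤ x
    · rw [Set.indicator_of_mem, Set.indicator_of_mem (Set.mem_Ici.2 hx), sm_insertNth,
        ← ENNReal.ofReal_mul (Real.exp_pos _).le, ← Real.exp_add]
      · congr 2
        ring
      · refine ⟨(cond m k x y).2 hy, ?_⟩
        rw [hfx, Fin.insertNth_apply_same]
        exact hx
    · rw [Set.indicator_of_notMem, Set.indicator_of_notMem (fun h => hx (Set.mem_Ici.1 h)),
        mul_zero]
      rintro ⟨-, h⟩
      rw [hfx, Fin.insertNth_apply_same] at h
      exact hx h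
  · rw [Set.indicator_of_notMem hy]
    have : ∀ x : ℝ, {w : Vec (m + 1) | (∀ i, i ≠ k → 0 ≤ w i) ∧ f w ≤ w k}.indicator
        (fun w => ENNReal.ofReal (Real.exp (-sm w))) (k.insertNth x y : Vec (m + 1)) = 0 := by
      intro x
      rw [Set.indicator_of_notMem]
      rintro ⟨h, -⟩
      exact hy ((cond m k x y).1 h)
    rw [lintegral_congr this, lintegral_zero]

end Coord

open Coord in
theorem stCoord : StCoord := by
  intro n k f hf hk
  obtain ⟨m, rfl⟩ : ∃ m, n = m + 1 := ⟨n - 1, by have := k.pos; omega⟩
  have hsm : Measurable fun w : Vec (m + 1) => ENNReal.ofReal (Real.exp (-sm w)) := by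
    unfold sm
    fun_prop
  have hfe : Measurable fun w : Vec (m + 1) => ENNReal.ofReal (Real.exp (-f w)) := by
    fun_prop
  rw [inner m k f hf hk, Pe, lintegral_withDensity_eq_lintegral_mul _ hsm hfe]
  have hO : MeasurableSet (Orth (m + 1)) := by
    have : Orth (m + 1) = ⋂ i, {w | 0 ≤ w i} := by
      ext w
      simp [Orth]
    rw [this]
    exact MeasurableSet.iInter fun i => measurableSet_le measurable_const (measurable_pi_apply i)
  have hO' : MeasurableSet (Orth m) := by
    have : Orth m = ⋂ i, {w | 0 ≤ w i} := by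
      ext w
      simp [Orth]
    rw [this]
    exact MeasurableSet.iInter fun i => measurableSet_le measurable_const (measurable_pi_apply i)
  rw [← lintegral_indicator hO, fub m k _ (Measurable.indicator (hsm.mul hfe) hO),
    ← lintegral_indicator hO']
  refine lintegral_congr fun y => ?_
  by_cases hy : y ∈ Orth m
  · rw [Set.indicator_of_mem hy]
    have h1 : ENNReal.ofReal (Real.exp (-sm y)) *
        ENNReal.ofReal (Real.exp (-f (k.insertNth 0 y : Vec (m + 1)))) =
        ENNReal.ofReal (Real.exp (-sm y)) *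
        ENNReal.ofReal (Real.exp (-f (k.insertNth 0 y : Vec (m + 1)))) *
        ∫⁻ x in Set.Ici (0 : ℝ), ENNReal.ofReal (Real.exp (-x)) := by
      rw [tail, neg_zero, Real.exp_zero, ENNReal.ofReal_one, mul_one]
    rw [h1, ← lintegral_indicator measurableSet_Ici,
      ← lintegral_const_mul _ (Measurable.indicator (by fun_prop) measurableSet_Ici)]
    refine lintegral_congr fun x => ?_
    by_cases hx : 0 ≤ x
    · rw [Set.indicator_of_mem (Set.mem_Ici.2 hx), Set.indicator_of_mem, Pi.mul_apply,
        sm_insertNth, insertNth_update m k x y, hk, neg_add, Real.exp_add,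
        ENNReal.ofReal_mul (Real.exp_pos _).le]
      · ring
      · intro i
        by_cases hi : i = k
        · rw [hi, Fin.insertNth_apply_same]
          exact hx
        · exact (cond m k x y).2 hy i hi
    · rw [Set.indicator_of_notMem (fun h => hx (Set.mem_Ici.1 h)), Set.indicator_of_notMem,
        mul_zero]
      intro h
      have := h k
      rw [Fin.insertNth_apply_same] at this
      exact hx this
  · rw [Set.indicator_of_notMem hy]
    have : ∀ x : ℝ, (Orth (m + 1)).indicator
        ((fun w : Vec (m + 1) => ENNReal.ofReal (Real.exp (-sm w))) *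
          fun w => ENNReal.ofReal (Real.exp (-f w))) (k.insertNth x y : Vec (m + 1)) = 0 := by
      intro x
      rw [Set.indicator_of_notMem]
      intro h
      exact hy ((cond m k x y).1 fun i _ => h i)
    rw [lintegral_congr this, lintegral_zero]

end Pool.Agent.Lib.MP_725e58_gt.Loc
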