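import Pool.Agent.Lib.MP_725e58_gt.Loc.Stmts

/-!
Local maximality of the simplex for the Fary-Redei problem: the core theorem.
-/

set_option autoImplicit false

namespace Pool.Agent.Lib.MP_725e58_gt.Loc

open MeasureTheory Finset

namespace CoreAux

variable {n : ℕ} {Kc : Set (Vec n)} {δ : ℝ}

lemma bn_pos {n : ℕ} : 1 ≤ bn n := by
  rw [bn]
  exact Nat.choose_pos (Nat.div_le_self _ _)

/-- The parts `kept` and `lost` have total mass `1`. -/
lemma kept_eq (h4 : StProb) (h5 : StCnCl) (hn : 0 < n) (hK : Pos n Kc δ) :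
    Pe n (lost Kc) = ENNReal.ofReal ((Pe n).real (lost Kc)) ∧
    Pe n (kept Kc) = ENNReal.ofReal (1 - (Pe n).real (lost Kc)) ∧
    0 ≤ (Pe n).real (lost Kc) ∧ (Pe n).real (lost Kc) ≤ 1 := by
  have := h4 n
  have hO : Pe n (Orth n)ᶜ = 0 := by
    rw [Pe, withDensity_apply _ measurableSet_Orth.compl, Measure.restrict_restrict
      measurableSet_Orth.compl, Set.compl_inter_self, Measure.restrict_empty, lintegral_zero_measure]
  have hO1 : Pe n (Orth n) = 1 := (prob_compl_eq_zero_iff measurableSet_Orth).1 hO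
  have hC : MeasurableSet (Cn Kc) := (h5 n Kc δ hn hK).measurableSet
  have h : Pe n (kept Kc) + Pe n (lost Kc) = 1 := by
    rw [← hO1, ← measure_inter_add_sdiff (Orth n) hC]
    rfl
  have hp1 : (Pe n).real (lost Kc) ≤ 1 := measureReal_le_one
  have hl : Pe n (lost Kc) = ENNReal.ofReal ((Pe n).real (lost Kc)) := by
    rw [ofReal_measureReal]
  refine ⟨hl, ?_, measureReal_nonneg, hp1⟩
  have hne : Pe n (lost Kc) ≠ ⊤ := measure_ne_top _ _
  rw [ENNReal.ofReal_sub _ measureReal_nonneg, ← hl, ENNReal.ofReal_one, ← h,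
    ENNReal.add_sub_cancel_right hne]

end CoreAux

open CoreAux in
theorem stCore (h1 : StR1) (h2 : StK) (h3 : StTF) (h4 : StProb) (h5 : StCnCl) : StCore := by
  intro n hn
  obtain ⟨C₁, hC₁, hK₁⟩ := h2 n hn
  obtain ⟨C₂, hC₂, hT⟩ := h3 n hn
  obtain ⟨r, hr, κ, hκ, hR⟩ := h1 n hn
  set b : ℝ := (bn n : ℝ) with hb
  have hb1 : 1 ≤ b := by
    rw [hb]
    exact_mod_cast bn_pos
  -- the constants
  set A : ℝ := 2 * C₂ / κ + 1 with hA
  have hA0 : 0 < A := by positivity
  set X : ℝ := min (1 / 2) (1 / (4 * b * A * C₁)) with hX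
  have hX0 : 0 < X := by
    rw [hX]
    exact lt_min (by norm_num) (by positivity)
  have hX1 : X ≤ 1 / 2 := min_le_left _ _
  have hX2 : A * (C₁ * X) ≤ 1 / (4 * b) := by
    have h : X ≤ 1 / (4 * b * A * C₁) := min_le_right _ _
    calc A * (C₁ * X) ≤ A * (C₁ * (1 / (4 * b * A * C₁))) := by gcongr
      _ = 1 / (4 * b) := by field_simp
  set B : ℝ := min r (1 / (2 * (C₂ * C₂ + κ * C₂))) with hB
  have hB0 : 0 < B := by
    rw [hB]
    exact lt_min hr (by positivity)
  have hBr : B ≤ r := min_le_left _ _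
  have hB2 : (C₂ * C₂ + κ * C₂) * B ≤ 1 / 2 := by
    have h : B ≤ 1 / (2 * (C₂ * C₂ + κ * C₂)) := min_le_right _ _
    calc (C₂ * C₂ + κ * C₂) * B ≤ (C₂ * C₂ + κ * C₂) * (1 / (2 * (C₂ * C₂ + κ * C₂))) := by
          gcongr
      _ = 1 / 2 := by field_simp
  set c : ℝ := (κ / 2) / (C₂ + κ / 2) with hc
  have hc0 : 0 < c := by positivity
  have hc1 : c ≤ 1 := by
    rw [hc, div_le_one (by positivity)]
    linarith
  refine ⟨min (1 / 2) (X * B / 2), lt_min (by norm_num) (by positivity), c, hc0, ?_⟩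
  intro Kc hK
  set δ : ℝ := min (1 / 2) (X * B / 2) with hδ
  have hδ0 : 0 < δ := lt_min (by norm_num) (by positivity)
  have hδ1 : δ ≤ 1 / 2 := min_le_left _ _
  have hδB : 2 * δ / X ≤ B := by
    rw [div_le_iff₀ hX0]
    have : δ ≤ X * B / 2 := min_le_right _ _
    linarith
  obtain ⟨hV1, hV2, hp⟩ := hK₁ Kc δ B X hK hδ0.le hδ1 hX0 hX1 hδB
  obtain ⟨hT0, hF0, hFT, hTB⟩ := hT Kc δ B hK hB0.le
  obtain ⟨hl, hk, hp0, hp1⟩ := kept_eq h4 h5 (by omega) hK
  set p : ℝ := (Pe n).real (lost Kc) with hpdef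
  set t : ℝ := T (n / 2) Kc B with ht
  set f : ℝ := FF Kc B with hf
  set L : ℝ := b - (VR Kc 0).toReal with hL
  have hL0 : 0 ≤ L := by linarith
  have hbk : (bn n : ENNReal) * Pe n (kept Kc) = ENNReal.ofReal (b * (1 - p)) := by
    rw [hk, ENNReal.ofReal_mul (by linarith), hb, ENNReal.ofReal_natCast]
  have hcl : ENNReal.ofReal c * Pe n (lost Kc) = ENNReal.ofReal (c * p) := by
    rw [hl, ENNReal.ofReal_mul hc0.le]
  rcases le_or_gt (C₁ * X * (p + L)) (κ / 2 * t) with h | h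
  · -- first case
    obtain ⟨x, hx0, hx1, hx⟩ := hR Kc δ B hK hB0.le hBr
    refine ⟨x, hx0, hx1, ?_⟩
    have hsm : f + κ * t ≤ 1 / 2 := by
      have e1 : C₂ * t ≤ C₂ * (C₂ * B) := mul_le_mul_of_nonneg_left hTB hC₂.le
      have e2 : κ * t ≤ κ * (C₂ * B) := mul_le_mul_of_nonneg_left hTB hκ.le
      linarith [hB2, (by ring : (C₂ * C₂ + κ * C₂) * B = C₂ * (C₂ * B) + κ * (C₂ * B))]
    have hcp : c * p ≤ κ / 2 * t := by
      have e1 : p ≤ (C₂ + κ / 2) * t := by linarith
      have e2 : c * p ≤ c * ((C₂ + κ / 2) * t) := mul_le_mul_of_nonneg_left e1 hc0.le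
      have e3 : c * ((C₂ + κ / 2) * t) = κ / 2 * t := by
        rw [hc]
        field_simp
      linarith
    rw [hbk, hcl]
    calc VR Kc x + ENNReal.ofReal (c * p) ≤
        ENNReal.ofReal (b * (1 - f - κ * t)) + ENNReal.ofReal (c * p) := by gcongr
      _ = ENNReal.ofReal (b * (1 - f - κ * t) + c * p) :=
        (ENNReal.ofReal_add (mul_nonneg (by linarith) (by linarith)) (by positivity)).symm
      _ ≤ ENNReal.ofReal (b * (1 - p)) := by
        apply ENNReal.ofReal_le_ofReal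
        have e1 : κ / 2 * t ≤ b * (κ / 2 * t) := by
          have : 0 ≤ κ / 2 * t := by positivity
          nlinarith
        have e2 : b * p ≤ b * (f + κ / 2 * t) :=
          mul_le_mul_of_nonneg_left (by linarith) (by linarith)
        nlinarith
  · -- second case
    refine ⟨0, by simp [sm], fun i => by simp, ?_⟩
    have hq : 0 ≤ p + L := by linarith
    have e1 : p ≤ (p + L) / (4 * b) := by
      have e2 : t ≤ 2 / κ * (C₁ * X * (p + L)) := by
        have : κ / 2 * t ≤ C₁ * X * (p + L) := h.le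
        calc t = 2 / κ * (κ / 2 * t) := by field_simp
          _ ≤ 2 / κ * (C₁ * X * (p + L)) := by gcongr
      have e3 : C₂ * t ≤ C₂ * (2 / κ * (C₁ * X * (p + L))) := by gcongr
      have e4 : p ≤ A * (C₁ * X) * (p + L) := by
        have : A * (C₁ * X) * (p + L) = C₂ * (2 / κ * (C₁ * X * (p + L))) + C₁ * X * (p + L) := by
          rw [hA]
          ring
        linarith
      calc p ≤ A * (C₁ * X) * (p + L) := e4
        _ ≤ 1 / (4 * b) * (p + L) := mul_le_mul_of_nonneg_right hX2 hq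
        _ = (p + L) / (4 * b) := by ring
    rw [le_div_iff₀ (by linarith)] at e1
    have e5 : (VR Kc 0).toReal + c * p ≤ b * (1 - p) := by
      have e6 : c * p ≤ b * p := mul_le_mul_of_nonneg_right (by linarith) hp0
      have e7 : p ≤ b * p := by nlinarith
      have e8 : (VR Kc 0).toReal = b - L := by rw [hL]; ring
      rw [e8]
      linarith
    rw [hbk, hcl, ← ENNReal.ofReal_toReal hV1, ← ENNReal.ofReal_add ENNReal.toReal_nonneg
      (by positivity)]
    exact ENNReal.ofReal_le_ofReal e5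

end Pool.Agent.Lib.MP_725e58_gt.Loc
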