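import Pool.Agent.Lib.MP_725e58_gt.Loc.Stmts

/-!
REFL project, item COVE: covering and change of variables, even dimension.
-/

namespace Pool.Agent.Lib.MP_725e58_gt.Loc
open Finset MeasureTheory

namespace CovE

variable {n : ℕ}

/-- the signs of a piece -/
def sg (I : Finset (Fin n)) (k : Fin n) (i : Fin n) : ℝ := if i ∈ JJ I k then -1 else 1

/-- the linear form which is the `k`-th coordinate of the chart, after the signs -/
noncomputable def cf (I : Finset (Fin n)) (k : Fin n) : Module.Dual ℝ (Vec n) :=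
  (1 / (n : ℝ)) • ((LinearMap.proj k : Vec n →ₗ[ℝ] ℝ) - 2 • ∑ j ∈ JJ I k, (LinearMap.proj j : Vec n →ₗ[ℝ] ℝ))

/-- diagonal part -/
noncomputable def Dg (I : Finset (Fin n)) (k : Fin n) : Vec n →ₗ[ℝ] Vec n :=
  Matrix.toLin' (Matrix.diagonal (sg I k))

/-- first transvection -/
noncomputable def N1 (I : Finset (Fin n)) (k : Fin n) : Vec n →ₗ[ℝ] Vec n :=
  LinearMap.transvection (cf I k - (LinearMap.proj k : Vec n →ₗ[ℝ] ℝ)) (Pi.single k 1)

/-- second transvection -/
noncomputable def N2 (k : Fin n) : Vec n →ₗ[ℝ] Vec n :=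
  LinearMap.transvection (LinearMap.proj k : Vec n →ₗ[ℝ] ℝ) (fun i => if i = k then 0 else 1)

/-- the chart as a linear map -/
noncomputable def Tl (I : Finset (Fin n)) (k : Fin n) : Vec n →ₗ[ℝ] Vec n :=
  N2 k ∘ₗ N1 I k ∘ₗ Dg I k

lemma not_mem_JJ (I : Finset (Fin n)) (k : Fin n) : k ∉ JJ I k := by simp [JJ]

lemma det_Dg (I : Finset (Fin n)) (k : Fin n) : |LinearMap.det (Dg I k)| = 1 := by
  rw [Dg, LinearMap.det_toLin', Matrix.det_diagonal, Finset.abs_prod]
  apply Finset.prod_eq_one
  intro i _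
  unfold sg
  split_ifs <;> simp

lemma det_N1 (I : Finset (Fin n)) (k : Fin n) : LinearMap.det (N1 I k) = 1 / (n : ℝ) := by
  rw [N1, LinearMap.transvection.det]
  have h : ∀ j ∈ JJ I k, (Pi.single k (1 : ℝ) : Vec n) j = 0 := by
    intro j hj
    have : j ≠ k := fun h => not_mem_JJ I k (h ▸ hj)
    simp [this]
  simp only [cf, LinearMap.sub_apply, LinearMap.smul_apply, LinearMap.proj_apply,
    LinearMap.sum_apply, Finset.sum_congr rfl h]
  simp

lemma det_N2 (k : Fin n) : LinearMap.det (N2 k) = 1 := by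
  rw [N2, LinearMap.transvection.det]
  simp

lemma det_Tl (I : Finset (Fin n)) (k : Fin n) : |LinearMap.det (Tl I k)| = 1 / (n : ℝ) := by
  rw [Tl, LinearMap.det_comp, LinearMap.det_comp, det_N1, det_N2, one_mul, abs_mul, det_Dg, mul_one,
    abs_of_nonneg (by positivity)]

lemma sum_split (I : Finset (Fin n)) (k : Fin n) (hI : I ⊆ univ.erase k) (w : Vec n) :
    sm w = ∑ i ∈ I, w i + ∑ j ∈ JJ I k, w j + w k := by
  unfold sm JJ
  rw [← Finset.add_sum_erase univ w (mem_univ k), ← Finset.sum_sdiff hI]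
  ring

lemma Tl_apply (I : Finset (Fin n)) (k : Fin n) (hI : I ⊆ univ.erase k) (w : Vec n) :
    Tl I k w = TE I k w := by
  have hk : k ∉ I := fun h => by simpa using hI h
  have hz : sm (zE I k w) = ∑ i ∈ I, w i - ∑ j ∈ JJ I k, w j := by
    have : zE I k w = rs I w - rs (JJ I k) w := rfl
    rw [this]
    have h2 : ∀ a b : Vec n, sm (a - b) = sm a - sm b := by
      intro a b; simp [sm, Finset.sum_sub_distrib]
    rw [h2, sm_rs, sm_rs]
  have hc : cf I k (Dg I k w) = (sm w - sm (zE I k w)) / n := by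
    rw [hz, sum_split I k hI w]
    have hD : ∀ i, Dg I k w i = sg I k i * w i := by
      intro i
      simp [Dg, Matrix.toLin'_apply, Matrix.mulVec_diagonal]
    have h1 : ∑ j ∈ JJ I k, Dg I k w j = - ∑ j ∈ JJ I k, w j := by
      rw [← Finset.sum_neg_distrib]
      apply Finset.sum_congr rfl
      intro j hj
      rw [hD]
      simp [sg, hj]
    have h2 : Dg I k w k = w k := by
      rw [hD]; simp [sg, not_mem_JJ I k]
    simp only [cf, LinearMap.sub_apply, LinearMap.smul_apply, LinearMap.proj_apply,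
      LinearMap.sum_apply, h1, h2, smul_eq_mul]
    simp
    ring
  have hD : ∀ i, Dg I k w i = sg I k i * w i := by
    intro i
    simp [Dg, Matrix.toLin'_apply, Matrix.mulVec_diagonal]
  funext i
  have e1 : N1 I k (Dg I k w) = Dg I k w + (cf I k (Dg I k w) - Dg I k w k) • (Pi.single k (1:ℝ) : Vec n) := by
    simp [N1, LinearMap.transvection.apply]
  have e1k : N1 I k (Dg I k w) k = cf I k (Dg I k w) := by
    rw [e1]; simp
  have e2 : Tl I k w i = N1 I k (Dg I k w) i + cf I k (Dg I k w) * (if i = k then 0 else 1) := by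
    simp only [Tl, N2, LinearMap.comp_apply, LinearMap.transvection.apply, LinearMap.proj_apply, e1k]
    simp [Pi.add_apply]
  rw [e2]
  unfold TE
  rw [← hc]
  by_cases hik : i = k
  · subst hik
    rw [e1k]
    simp [zE, rs_apply_not_mem hk, rs_apply_not_mem (not_mem_JJ I i)]
  · have e3 : N1 I k (Dg I k w) i = Dg I k w i := by
      rw [e1]; simp [hik]
    rw [e3, hD]
    simp only [hik, if_false, mul_one]
    congr 1
    unfold zE sg
    by_cases hJ : i ∈ JJ I k
    · have hi : i ∉ I := by simp [JJ] at hJ; exact hJ.2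
      rw [rs_apply_not_mem hi, rs_apply_mem hJ]
      simp [hJ]
    · have hi : i ∈ I := by
        by_contra h
        exact hJ (by simp [JJ, hik, h])
      rw [rs_apply_mem hi, rs_apply_not_mem hJ]
      simp [hJ]

/-- the image of the piece -/
def BB (I : Finset (Fin n)) (k : Fin n) : Set (Vec n) :=
  {Y | (∀ i ∈ I, Y k ≤ Y i) ∧ ∀ j ∈ JJ I k, Y j ≤ Y k}

lemma measurable_BB (I : Finset (Fin n)) (k : Fin n) : MeasurableSet (BB I k) := by
  have h1 : BB I k = (⋂ i ∈ I, {Y : Vec n | Y k ≤ Y i}) ∩ ⋂ j ∈ JJ I k, {Y : Vec n | Y j ≤ Y k} := by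
    ext Y; simp [BB]
  rw [h1]
  apply MeasurableSet.inter
  · exact Finset.measurableSet_biInter _ fun i _ =>
      measurableSet_le (measurable_pi_apply k) (measurable_pi_apply i)
  · exact Finset.measurableSet_biInter _ fun i _ =>
      measurableSet_le (measurable_pi_apply i) (measurable_pi_apply k)

lemma preimage_BB (I : Finset (Fin n)) (k : Fin n) (hI : I ⊆ univ.erase k) :
    Tl I k ⁻¹' BB I k = {w : Vec n | ∀ i, i ≠ k → 0 ≤ w i} := by
  have hk : k ∉ I := fun h => by simpa using hI h
  ext w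
  simp only [Set.mem_preimage, BB, Set.mem_setOf_eq, Tl_apply I k hI w, TE]
  have hzk : zE I k w k = 0 := by
    simp [zE, rs_apply_not_mem hk, rs_apply_not_mem (not_mem_JJ I k)]
  have hzI : ∀ i ∈ I, zE I k w i = w i := by
    intro i hi
    have : i ∉ JJ I k := by simp [JJ, hi]
    simp [zE, rs_apply_mem hi, rs_apply_not_mem this]
  have hzJ : ∀ i ∈ JJ I k, zE I k w i = - w i := by
    intro i hi
    have : i ∉ I := by simp [JJ] at hi; exact hi.2
    simp [zE, rs_apply_mem hi, rs_apply_not_mem this]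
  constructor
  · rintro ⟨h1, h2⟩ i hi
    by_cases hiI : i ∈ I
    · have := h1 i hiI
      rw [hzk, hzI i hiI] at this
      linarith
    · have hJ : i ∈ JJ I k := by simp [JJ, hi, hiI]
      have := h2 i hJ
      rw [hzk, hzJ i hJ] at this
      linarith
  · intro h
    refine ⟨fun i hi => ?_, fun i hi => ?_⟩
    · rw [hzk, hzI i hi]
      have := h i (fun e => hk (e ▸ hi))
      linarith
    · rw [hzk, hzJ i hi]
      have := h i (fun e => not_mem_JJ I k (e ▸ hi))
      linarith

lemma piece (I : Finset (Fin n)) (k : Fin n) (hI : I ⊆ univ.erase k) (g : Vec n → ENNReal)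
    (hg : Measurable g) :
    ∫⁻ w in {w : Vec n | ∀ i, i ≠ k → 0 ≤ w i}, g (TE I k w) =
      ENNReal.ofReal n * ∫⁻ Y in BB I k, g Y := by
  have hn : (n : ℝ) ≠ 0 := by
    have : 0 < n := lt_of_le_of_lt (Nat.zero_le _) k.2
    positivity
  have hdet : LinearMap.det (Tl I k) ≠ 0 := by
    intro h
    have := det_Tl I k
    rw [h, abs_zero] at this
    exact hn (by simpa using this.symm)
  have hT : Measurable (Tl I k) := (LinearMap.continuous_of_finiteDimensional _).measurable
  have h1 := MeasureTheory.Measure.map_linearMap_addHaar_eq_smul_addHaar (volume : Measure (Vec n)) hdet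
  have h2 : ∫⁻ w in {w : Vec n | ∀ i, i ≠ k → 0 ≤ w i}, g (TE I k w) =
      ∫⁻ w in Tl I k ⁻¹' BB I k, g (Tl I k w) := by
    rw [preimage_BB I k hI]
    simp only [Tl_apply I k hI]
  rw [h2, ← setLIntegral_map (measurable_BB I k) hg hT, h1, Measure.restrict_smul,
    lintegral_smul_measure, abs_inv, det_Tl]
  simp

lemma cover (h : ℕ) (Y : Vec (2 * h + 1)) :
    ∃ k, ∃ I ∈ (univ.erase k : Finset (Fin (2 * h + 1))).powersetCard h, Y ∈ BB I k := by
  classical
  have hne : ((univ : Finset (Fin (2 * h + 1))).powersetCard h).Nonempty := by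
    apply powersetCard_nonempty.2
    simp; omega
  obtain ⟨I, hI, hmax⟩ := exists_max_image _ (fun I => ∑ i ∈ I, Y i) hne
  have hcard : I.card = h := (mem_powersetCard.1 hI).2
  have hIc : Iᶜ.Nonempty := by
    rw [← Finset.card_pos, Finset.card_compl, hcard, Fintype.card_fin]
    omega
  obtain ⟨k, hk, hkmax⟩ := exists_max_image Iᶜ Y hIc
  have hkI : k ∉ I := by simpa using hk
  refine ⟨k, I, ?_, ?_, ?_⟩
  · rw [mem_powersetCard]
    refine ⟨fun i hi => ?_, hcard⟩
    simp only [mem_erase, mem_univ, and_true]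
    exact fun e => hkI (e ▸ hi)
  · intro i hi
    by_contra hlt
    push_neg at hlt
    have hki : k ∉ I.erase i := fun h => hkI (mem_of_mem_erase h)
    have := hmax (insert k (I.erase i)) (by
      rw [mem_powersetCard]
      refine ⟨subset_univ _, ?_⟩
      rw [card_insert_of_notMem hki, card_erase_of_mem hi, hcard]
      have : 0 < I.card := card_pos.2 ⟨i, hi⟩
      omega)
    simp only [sum_insert hki] at this
    have h3 := Finset.add_sum_erase I Y hi
    linarith
  · intro j hj
    apply hkmax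
    simp [JJ] at hj
    simpa using hj.2

end CovE

open CovE in
theorem stCovE : StCovE := by
  intro h g hg
  have h1 : ∀ Y : Vec (2 * h + 1), g Y ≤ ∑ k, ∑ I ∈ (univ.erase k).powersetCard h,
      (BB I k).indicator g Y := by
    intro Y
    obtain ⟨k, I, hI, hY⟩ := cover h Y
    calc g Y = (BB I k).indicator g Y := by rw [Set.indicator_of_mem hY]
      _ ≤ ∑ I ∈ (univ.erase k).powersetCard h, (BB I k).indicator g Y :=
          Finset.single_le_sum (f := fun I => (BB I k).indicator g Y) (fun _ _ => bot_le) hI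
      _ ≤ _ := Finset.single_le_sum
          (f := fun k => ∑ I ∈ (univ.erase k).powersetCard h, (BB I k).indicator g Y)
          (fun _ _ => bot_le) (mem_univ k)
  have hn : (0 : ℝ) < (2 * h + 1 : ℕ) := by positivity
  calc ∫⁻ Y, g Y ≤ ∫⁻ Y, ∑ k, ∑ I ∈ (univ.erase k).powersetCard h, (BB I k).indicator g Y :=
        lintegral_mono h1
    _ = ∑ k, ∑ I ∈ (univ.erase k).powersetCard h, ∫⁻ Y in BB I k, g Y := by
        rw [lintegral_finset_sum _ fun k _ => Finset.measurable_sum _ fun I _ =>
          hg.indicator (measurable_BB I k)]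
        apply Finset.sum_congr rfl
        intro k _
        rw [lintegral_finset_sum _ fun I _ => hg.indicator (measurable_BB I k)]
        apply Finset.sum_congr rfl
        intro I _
        rw [lintegral_indicator (measurable_BB I k)]
    _ = _ := by
        rw [Finset.mul_sum]
        apply Finset.sum_congr rfl
        intro k _
        rw [Finset.mul_sum]
        apply Finset.sum_congr rfl
        intro I hI
        rw [piece I k (mem_powersetCard.1 hI).1 g hg, ← mul_assoc, ← ENNReal.ofReal_mul (by positivity)]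
        have : 1 / (2 * (h : ℝ) + 1) * ((2 * h + 1 : ℕ) : ℝ) = 1 := by
          push_cast
          field_simp
        rw [this]
        simp

end Pool.Agent.Lib.MP_725e58_gt.Loc
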