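import Pool.Agent.Lib.MP_725e58_gt.Loc.Stmts

/-! Module COVO: covering and change of variables, odd dimension. -/

set_option autoImplicit false

namespace Pool.Agent.Lib.MP_725e58_gt.Loc

open MeasureTheory Finset

namespace CovO

variable {n : ℕ}

/-- coordinates -/
noncomputable def pr (i : Fin n) : Module.Dual ℝ (Vec n) := LinearMap.proj i

theorem pr_apply (i : Fin n) (w : Vec n) : pr i w = w i := rfl

/-- diagonal maps -/
noncomputable def dg (d : Vec n) : Vec n →ₗ[ℝ] Vec n := Matrix.toLin' (Matrix.diagonal d)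

theorem dg_apply (d w : Vec n) (j : Fin n) : dg d w j = d j * w j := by
  rw [dg, Matrix.toLin'_apply, Matrix.mulVec_diagonal]

theorem det_dg (d : Vec n) : LinearMap.det (dg d) = ∏ j, d j := by
  rw [dg, LinearMap.det_toLin', Matrix.det_diagonal]

/-- twice a sum of coordinates -/
noncomputable def v2 (J : Finset (Fin n)) : Module.Dual ℝ (Vec n) := (2 : ℝ) • ∑ j ∈ J, pr j

theorem v2_apply (J : Finset (Fin n)) (w : Vec n) : v2 J w = 2 * ∑ j ∈ J, w j := by
  simp [v2, pr]

theorem tv_apply (f : Module.Dual ℝ (Vec n)) (v w : Vec n) (j : Fin n) :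
    LinearMap.transvection f v w j = w j + f w * v j := rfl

/-- the diagonal entries -/
noncomputable def dd (h : ℕ) (I : Finset (Fin n)) (i k : Fin n) : Vec n := fun j =>
  if j = k then 1 / (n : ℝ) else if j = i then 1 / (h : ℝ) else if j ∈ I then 1 else -1

/-- the chart as a composition of transvections and a diagonal map -/
noncomputable def LO (h : ℕ) (I : Finset (Fin n)) (i k : Fin n) : Vec n →ₗ[ℝ] Vec n :=
  (LinearMap.transvection (pr k) (one (univ.erase k))) ∘ₗ
  ((LinearMap.transvection (pr i) (one (I.erase i))) ∘ₗ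
  ((dg (dd h I i k)) ∘ₗ (LinearMap.transvection (v2 (Iᶜ.erase k)) (one {k}))))

theorem det_LO (h : ℕ) (I : Finset (Fin n)) (i k : Fin n) (hi : i ∈ I) (hk : k ∉ I) :
    |LinearMap.det (LO h I i k)| = 1 / ((n : ℝ) * h) := by
  have hik : i ≠ k := fun e => hk (e ▸ hi)
  have h1 : pr k (one (univ.erase k)) = 0 := by simp [pr_apply, one]
  have h2 : pr i (one (I.erase i)) = 0 := by simp [pr_apply, one]
  have h3 : v2 (Iᶜ.erase k) (one {k}) = 0 := by
    rw [v2_apply, Finset.sum_eq_zero, mul_zero]
    intro j hj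
    have : j ≠ k := Finset.ne_of_mem_erase hj
    simp [one, this]
  unfold LO
  rw [LinearMap.det_comp, LinearMap.det_comp, LinearMap.det_comp, LinearMap.transvection.det,
    LinearMap.transvection.det, LinearMap.transvection.det, h1, h2, h3, det_dg, add_zero, one_mul,
    one_mul, mul_one, Finset.abs_prod]
  have h4 : ∀ j : Fin n, |dd h I i k j| =
      (if j = k then 1 / (n : ℝ) else 1) * (if j = i then 1 / (h : ℝ) else 1) := by
    intro j
    unfold dd
    by_cases hjk : j = k
    · have : j ≠ i := fun e => hik (e.symm.trans hjk)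
      rw [if_pos hjk, if_pos hjk, if_neg this, mul_one, abs_of_nonneg (by positivity)]
    · rw [if_neg hjk, if_neg hjk, one_mul]
      by_cases hji : j = i
      · rw [if_pos hji, if_pos hji, abs_of_nonneg (by positivity)]
      · rw [if_neg hji, if_neg hji]
        split_ifs <;> simp
  rw [Finset.prod_congr rfl fun j _ => h4 j, Finset.prod_mul_distrib, Finset.prod_ite_eq',
    Finset.prod_ite_eq', if_pos (mem_univ _), if_pos (mem_univ _)]
  field_simp

/-- the sum of the vector of the piece -/
theorem sm_zO (h : ℕ) (hh : 1 ≤ h) (I : Finset (Fin n)) (i k : Fin n) (hi : i ∈ I) (hk : k ∉ I)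
    (hc : I.card = h) (w : Vec n) :
    sm w - sm (zO h I i k w) = w k + 2 * ∑ j ∈ Iᶜ.erase k, w j := by
  have h0 : (h : ℝ) ≠ 0 := by positivity
  have e1 : sm (zO h I i k w) = sm (rs (I.erase i) w) + (w i / h) * sm (one I) -
      sm (rs (Iᶜ.erase k) w) := by
    simp only [sm, zO, aO, Finset.sum_sub_distrib, Finset.sum_add_distrib, Finset.mul_sum]
  have e2 : sm (one I) = h := by
    simp [sm, one, hc]
  have e3 : sm w = ∑ j ∈ I, w j + ∑ j ∈ Iᶜ, w j := (Finset.sum_add_sum_compl I w).symm
  have e4 : ∑ j ∈ I, w j = w i + ∑ j ∈ I.erase i, w j := (Finset.add_sum_erase I w hi).symm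
  have e5 : ∑ j ∈ Iᶜ, w j = w k + ∑ j ∈ Iᶜ.erase k, w j :=
    (Finset.add_sum_erase Iᶜ w (by simpa using hk)).symm
  rw [e1, e2, sm_rs, sm_rs, e3, e4, e5]
  field_simp
  ring

theorem TO_eq (h : ℕ) (hh : 1 ≤ h) (I : Finset (Fin n)) (i k : Fin n) (hi : i ∈ I) (hk : k ∉ I)
    (hc : I.card = h) (w : Vec n) (j : Fin n) : TO h I i k w j =
    (if j = k then 0 else if j = i then w i / h else if j ∈ I then w j + w i / h else -w j) +
      (w k + 2 * ∑ j ∈ Iᶜ.erase k, w j) / n := by
  have hik : i ≠ k := fun e => hk (e ▸ hi)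
  unfold TO
  rw [sm_zO h hh I i k hi hk hc w]
  congr 1
  unfold zO aO
  by_cases hjk : j = k
  · subst hjk
    simp [rs, one, hk]
  · by_cases hji : j = i
    · subst hji
      simp [rs, one, hi, hjk]
    · by_cases hj : j ∈ I
      · simp [rs, one, hj, hji, hjk]
      · simp [rs, one, hj, hji, hjk]

theorem LO_eq (h : ℕ) (hh : 1 ≤ h) (I : Finset (Fin n)) (i k : Fin n) (hi : i ∈ I) (hk : k ∉ I)
    (hc : I.card = h) (w : Vec n) : LO h I i k w = TO h I i k w := by
  have hik : i ≠ k := fun e => hk (e ▸ hi)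
  have hki : k ≠ i := fun e => hik e.symm
  funext j
  rw [TO_eq h hh I i k hi hk hc w j]
  unfold LO
  simp only [LinearMap.comp_apply, tv_apply, pr_apply, dg_apply, v2_apply]
  by_cases hjk : j = k
  · subst hjk
    simp [one, dd, hk]
    ring
  · by_cases hji : j = i
    · subst hji
      simp [one, dd, hi, hjk, hk, hki]
      ring
    · by_cases hj : j ∈ I
      · simp [one, dd, hj, hji, hjk, hk, hki, hik]
        ring
      · simp [one, dd, hj, hji, hjk, hk, hki, hik]
        ring

/-- the image of the piece -/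
def RR (I : Finset (Fin n)) (i k : Fin n) : Set (Vec n) :=
  {Y | (∀ j ∈ I, Y i ≤ Y j) ∧ Y k ≤ Y i ∧ ∀ j ∈ Iᶜ, Y j ≤ Y k}

theorem measurableSet_RR (I : Finset (Fin n)) (i k : Fin n) : MeasurableSet (RR I i k) := by
  have : RR I i k = (⋂ j, ⋂ (_ : j ∈ I), {Y | Y i ≤ Y j}) ∩ ({Y | Y k ≤ Y i} ∩
      ⋂ j, ⋂ (_ : j ∈ Iᶜ), {Y | Y j ≤ Y k}) := by
    ext Y
    simp [RR]
  rw [this]
  refine (MeasurableSet.iInter fun j => MeasurableSet.iInter fun _ => ?_).inter
    (MeasurableSet.inter ?_ (MeasurableSet.iInter fun j => MeasurableSet.iInter fun _ => ?_))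
  · exact measurableSet_le (measurable_pi_apply i) (measurable_pi_apply j)
  · exact measurableSet_le (measurable_pi_apply k) (measurable_pi_apply i)
  · exact measurableSet_le (measurable_pi_apply j) (measurable_pi_apply k)

theorem mem_RR (h : ℕ) (hh : 1 ≤ h) (I : Finset (Fin n)) (i k : Fin n) (hi : i ∈ I) (hk : k ∉ I)
    (hc : I.card = h) (w : Vec n) : TO h I i k w ∈ RR I i k ↔ ∀ j, j ≠ k → 0 ≤ w j := by
  have hik : i ≠ k := fun e => hk (e ▸ hi)
  have h0 : (0 : ℝ) < h := by positivity
  simp only [RR, Set.mem_ofPred_eq, TO_eq h hh I i k hi hk hc w]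
  constructor
  · rintro ⟨h1, h2, h3⟩ j hjk
    have h4 : 0 ≤ w i := by
      simp only [if_neg hik, if_pos] at h2
      have : 0 ≤ w i / h := by linarith
      by_contra hcon
      push Not at hcon
      have := div_neg_of_neg_of_pos hcon h0
      linarith
    by_cases hji : j = i
    · rw [hji]
      exact h4
    · by_cases hj : j ∈ I
      · have := h1 j hj
        simp only [if_neg hik, if_neg hjk, if_neg hji, if_pos hj, if_pos] at this
        linarith
      · have := h3 j (by simpa using hj)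
        simp only [if_neg hjk, if_neg hji, if_neg hj, if_pos] at this
        linarith
  · intro hw
    have hwi := hw i hik
    refine ⟨fun j hj => ?_, ?_, fun j hj => ?_⟩
    · have hjk : j ≠ k := fun e => hk (e ▸ hj)
      have := hw j hjk
      by_cases hji : j = i
      · subst hji
        exact le_of_eq (by simp [hik])
      · simp only [if_neg hik, if_neg hjk, if_neg hji, if_pos hj, if_pos]
        linarith
    · simp only [if_neg hik, if_pos]
      have : 0 ≤ w i / h := div_nonneg hwi h0.le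
      linarith
    · have hj' : j ∉ I := by simpa using hj
      have hji : j ≠ i := fun e => hj' (e ▸ hi)
      by_cases hjk : j = k
      · subst hjk
        exact le_of_eq (by simp)
      · have := hw j hjk
        simp only [if_neg hjk, if_neg hji, if_neg hj', if_pos]
        linarith

/-- change of variables -/
theorem cov (L : Vec n →ₗ[ℝ] Vec n) (c : ℝ) (hc : 0 < c) (hL : |LinearMap.det L| = c)
    (G : Vec n → ENNReal) (hG : Measurable G) :
    ∫⁻ Y, G Y = ENNReal.ofReal c * ∫⁻ w, G (L w) := by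
  have hd : LinearMap.det L ≠ 0 := fun e => by
    rw [e, abs_zero] at hL
    exact hc.ne hL
  have hLm : Measurable L := (LinearMap.continuous_of_finiteDimensional L).measurable
  have h1 := lintegral_map (μ := (volume : Measure (Vec n))) hG hLm
  rw [Measure.map_linearMap_addHaar_eq_smul_addHaar _ hd, lintegral_smul_measure, abs_inv, hL,
    smul_eq_mul] at h1
  rw [← h1, ← mul_assoc, ← ENNReal.ofReal_mul hc.le, mul_inv_cancel₀ hc.ne', ENNReal.ofReal_one,
    one_mul]

/-- the integral over the image of a piece -/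
theorem piece (h : ℕ) (hh : 1 ≤ h) (hn : 0 < n) (I : Finset (Fin n)) (i k : Fin n) (hi : i ∈ I)
    (hk : k ∉ I) (hc : I.card = h) (g : Vec n → ENNReal) (hg : Measurable g) :
    ∫⁻ Y, (RR I i k).indicator g Y = ENNReal.ofReal (1 / ((n : ℝ) * h)) *
      ∫⁻ w in {w : Vec n | ∀ j, j ≠ k → 0 ≤ w j}, g (TO h I i k w) := by
  have hpos : (0 : ℝ) < 1 / ((n : ℝ) * h) := by positivity
  have hS : MeasurableSet {w : Vec n | ∀ j, j ≠ k → 0 ≤ w j} := by
    have : {w : Vec n | ∀ j, j ≠ k → 0 ≤ w j} = ⋂ j, ⋂ (_ : j ≠ k), {w | 0 ≤ w j} := by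
      ext w
      simp
    rw [this]
    exact MeasurableSet.iInter fun i => MeasurableSet.iInter fun _ =>
      measurableSet_le measurable_const (measurable_pi_apply i)
  rw [cov (LO h I i k) _ hpos (det_LO h I i k hi hk) _ (hg.indicator (measurableSet_RR I i k)),
    ← lintegral_indicator hS]
  congr 1
  refine lintegral_congr fun w => ?_
  rw [LO_eq h hh I i k hi hk hc w]
  by_cases hw : w ∈ {w : Vec n | ∀ j, j ≠ k → 0 ≤ w j}
  · rw [Set.indicator_of_mem ((mem_RR h hh I i k hi hk hc w).2 hw), Set.indicator_of_mem hw]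
  · rw [Set.indicator_of_notMem (fun e => hw ((mem_RR h hh I i k hi hk hc w).1 e)),
      Set.indicator_of_notMem hw]

/-- the images of the pieces cover -/
theorem cover (h : ℕ) (hh : 1 ≤ h) (Y : Vec (2 * h)) :
    ∃ I ∈ (univ : Finset (Fin (2 * h))).powersetCard h, ∃ i ∈ I, ∃ k ∈ Iᶜ, Y ∈ RR I i k := by
  have hne : ((univ : Finset (Fin (2 * h))).powersetCard h).Nonempty := by
    rw [Finset.powersetCard_nonempty, Finset.card_univ, Fintype.card_fin]
    omega
  obtain ⟨I, hI, hmax⟩ := Finset.exists_max_image _ (fun I => ∑ j ∈ I, Y j) hne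
  have hc : I.card = h := (Finset.mem_powersetCard.1 hI).2
  have hIne : I.Nonempty := by
    rw [← Finset.card_pos]
    omega
  have hIc : Iᶜ.Nonempty := by
    rw [← Finset.card_pos, Finset.card_compl, Fintype.card_fin]
    omega
  obtain ⟨i, hi, hmin⟩ := Finset.exists_min_image I Y hIne
  obtain ⟨k, hk, hmaxk⟩ := Finset.exists_max_image Iᶜ Y hIc
  have hk' : k ∉ I := by simpa using hk
  have hke : k ∉ I.erase i := fun e => hk' (Finset.mem_of_mem_erase e)
  refine ⟨I, hI, i, hi, k, hk, hmin, ?_, hmaxk⟩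
  have hmem : insert k (I.erase i) ∈ (univ : Finset (Fin (2 * h))).powersetCard h := by
    rw [Finset.mem_powersetCard]
    refine ⟨Finset.subset_univ _, ?_⟩
    rw [Finset.card_insert_of_notMem hke, Finset.card_erase_of_mem hi]
    omega
  have h1 := hmax _ hmem
  rw [Finset.sum_insert hke] at h1
  have h2 := Finset.add_sum_erase I Y hi
  linarith

end CovO

open CovO in
/-- **Module COVO** -/
theorem stCovO : StCovO := by
  intro h g hh hg
  have h1 : ∀ Y : Vec (2 * h), g Y ≤ ∑ I ∈ (univ : Finset (Fin (2 * h))).powersetCard h,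
      ∑ i ∈ I, ∑ k ∈ Iᶜ, (RR I i k).indicator g Y := by
    intro Y
    obtain ⟨I, hI, i, hi, k, hk, hY⟩ := cover h hh Y
    calc g Y = (RR I i k).indicator g Y := (Set.indicator_of_mem hY _).symm
      _ ≤ ∑ k ∈ Iᶜ, (RR I i k).indicator g Y :=
        Finset.single_le_sum (f := fun k => (RR I i k).indicator g Y) (fun _ _ => zero_le) hk
      _ ≤ ∑ i ∈ I, ∑ k ∈ Iᶜ, (RR I i k).indicator g Y :=
        Finset.single_le_sum (f := fun i => ∑ k ∈ Iᶜ, (RR I i k).indicator g Y)
          (fun _ _ => zero_le) hi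
      _ ≤ _ := Finset.single_le_sum (f := fun I => ∑ i ∈ I, ∑ k ∈ Iᶜ, (RR I i k).indicator g Y)
          (fun _ _ => zero_le) hI
  refine (lintegral_mono h1).trans ?_
  rw [lintegral_finsetSum _ fun I _ => Finset.measurable_sum _ fun i _ =>
    Finset.measurable_sum _ fun k _ => hg.indicator (measurableSet_RR I i k), Finset.mul_sum]
  refine le_of_eq (Finset.sum_congr rfl fun I hI => ?_)
  have hc : I.card = h := (Finset.mem_powersetCard.1 hI).2
  rw [lintegral_finsetSum _ fun i _ => Finset.measurable_sum _ fun k _ =>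
    hg.indicator (measurableSet_RR I i k), Finset.mul_sum]
  refine Finset.sum_congr rfl fun i hi => ?_
  rw [lintegral_finsetSum _ fun k _ => hg.indicator (measurableSet_RR I i k), Finset.mul_sum]
  refine Finset.sum_congr rfl fun k hk => ?_
  rw [piece h hh (by omega) I i k hi (by simpa using hk) hc g hg]
  congr 2
  push_cast
  ring

end Pool.Agent.Lib.MP_725e58_gt.Loc
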