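import Pool.Agent.Lib.MP_725e58_gt.Loc.Stmts

/-!
Local maximality of the simplex for the Fary-Redei problem: diagonal scaling of cones.
-/

set_option autoImplicit false

namespace Pool.Agent.Lib.MP_725e58_gt.Loc

open MeasureTheory Finset

namespace DS

variable {n : ℕ}

lemma measurable_dens (a : ℝ) :
    Measurable fun y : Vec n => ENNReal.ofReal (Real.exp (a * sm y)) :=
  (Real.measurable_exp.comp (continuous_sm.measurable.const_mul a)).ennreal_ofReal

lemma measurable_dens' : Measurable fun y : Vec n => ENNReal.ofReal (Real.exp (-sm y)) :=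
  (Real.measurable_exp.comp continuous_sm.measurable.neg).ennreal_ofReal

/-- integrals with respect to the exponential measure -/
lemma lintegral_Pe {f : Vec n → ENNReal} (hf : Measurable f) :
    ∫⁻ y, f y ∂(Pe n) = ∫⁻ y, (Orth n).indicator
      (fun y => ENNReal.ofReal (Real.exp (-sm y)) * f y) y := by
  unfold Pe
  rw [lintegral_withDensity_eq_lintegral_mul _ measurable_dens' hf,
    lintegral_indicator measurableSet_Orth]
  rfl

/-- the diagonal entries -/
noncomputable def ev (m r : Fin n) (c s : ℝ) (i : Fin n) : ℝ :=
  (if i = r then s else 1) * (if i = m then c else 1)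

lemma scl_scl {m r : Fin n} (c s : ℝ) (y : Vec n) :
    scl r s (scl m c y) = fun i => ev m r c s i * y i := by
  funext i
  unfold scl ev
  split_ifs <;> ring

lemma prod_ev (m r : Fin n) (c s : ℝ) : ∏ i, ev m r c s i = s * c := by
  unfold ev
  rw [Finset.prod_mul_distrib, Finset.prod_ite_eq' univ r, Finset.prod_ite_eq' univ m]
  simp

lemma sm_ev {m r : Fin n} (hmr : m ≠ r) (c s : ℝ) (y : Vec n) :
    sm (fun i => ev m r c s i * y i) = sm y + (s - 1) * y r + (c - 1) * y m := by
  unfold sm
  have h1 : ∀ i, ev m r c s i * y i = y i + (if i = r then (s - 1) * y r else 0) +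
      (if i = m then (c - 1) * y m else 0) := by
    intro i
    unfold ev
    by_cases hr : i = r
    · subst hr
      rw [if_pos rfl, if_neg hmr.symm, if_pos rfl, if_neg hmr.symm]
      ring
    · by_cases hm : i = m
      · subst hm
        rw [if_neg hr, if_pos rfl, if_neg hr, if_pos rfl]
        ring
      · rw [if_neg hr, if_neg hm, if_neg hr, if_neg hm]
        ring
  rw [Finset.sum_congr rfl fun i _ => h1 i, Finset.sum_add_distrib, Finset.sum_add_distrib,
    Finset.sum_ite_eq' univ r, Finset.sum_ite_eq' univ m]
  simp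

/-- diagonal change of variables -/
lemma lintegral_diag {F : Vec n → ENNReal} (hF : Measurable F) (e : Fin n → ℝ)
    (he : 0 < ∏ i, e i) :
    ∫⁻ y : Vec n, F (fun i => e i * y i) = ENNReal.ofReal ((∏ i, e i)⁻¹) * ∫⁻ y : Vec n, F y := by
  have hd : LinearMap.det (Matrix.toLin' (Matrix.diagonal e)) = ∏ i, e i := by
    rw [LinearMap.det_toLin', Matrix.det_diagonal]
  have h1 : ∀ y : Vec n, Matrix.toLin' (Matrix.diagonal e) y = fun i => e i * y i := by
    intro y
    funext i
    rw [Matrix.toLin'_apply, Matrix.mulVec_diagonal]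
  have hm : Measurable (Matrix.toLin' (Matrix.diagonal e) : Vec n → Vec n) :=
    (LinearMap.continuous_on_pi _).measurable
  have h2 := lintegral_map (μ := (volume : Measure (Vec n))) hF hm
  simp only [h1] at h2
  rw [← h2, Measure.map_linearMap_addHaar_eq_smul_addHaar _ (by rw [hd]; exact he.ne'),
    lintegral_smul_measure, hd, abs_of_pos (inv_pos.2 he)]
  rfl

end DS

open DS in
/-- a cone seen through a diagonal map: gain of a factor `X` -/
theorem stDS (h : StScal) : StDS := by
  intro n A U m r c X hmr hc hc1 hX _ hU hUO hcone hAO hA1 hA2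
  set s : ℝ := 1 / (2 * X) with hs
  have hs0 : 0 < s := by positivity
  set e : Fin n → ℝ := ev m r c s with he
  have hpe : ∏ i, e i = s * c := prod_ev m r c s
  have hD : Measurable fun (y : Vec n) (i : Fin n) => e i * y i :=
    measurable_pi_lambda _ fun i => Measurable.const_mul (f := fun y : Vec n => y i)
      (measurable_pi_apply i) (e i)
  set A' : Set (Vec n) := {y | y ∈ Orth n ∧ (fun i => e i * y i) ∈ U ∧
    sm (fun i => e i * y i) ≤ 2 * sm y} with hA'
  have hA'm : MeasurableSet A' := by
    refine measurableSet_Orth.inter ((hD hU).inter ?_)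
    exact measurableSet_le (continuous_sm.measurable.comp hD)
      (continuous_sm.measurable.const_mul 2)
  have hsub : A ⊆ A' := by
    intro y hy
    refine ⟨hAO hy, ?_, ?_⟩
    · have := hA2 y hy
      rwa [scl_scl] at this
    · rw [he, sm_ev hmr]
      have h1 := hA1 y hy
      have h2 : 0 ≤ y r := hAO hy r
      have h3 : 0 ≤ y m := hAO hy m
      have h4 : s * y r ≤ sm y - y r := by
        rw [hs, div_mul_eq_mul_div, one_mul, div_le_iff₀ (by positivity)]
        linarith
      have h5 : (c - 1) * y m ≤ 0 := mul_nonpos_of_nonpos_of_nonneg (by linarith) h3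
      nlinarith
  set G : Vec n → ENNReal := U.indicator fun w => ENNReal.ofReal (Real.exp (-(1 / 2) * sm w))
    with hG
  have hGm : Measurable G := (measurable_dens (-(1 / 2))).indicator hU
  have hstep1 : Pe n A ≤ ∫⁻ y : Vec n, G (fun i => e i * y i) := by
    refine (measure_mono hsub).trans ?_
    have hm1 : Measurable fun y : Vec n => A'.indicator (1 : Vec n → ENNReal) y :=
      measurable_one.indicator hA'm
    rw [← lintegral_indicator_one hA'm, lintegral_Pe hm1]
    refine lintegral_mono fun y => ?_
    by_cases hy : y ∈ A'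
    · rw [Set.indicator_of_mem hy.1, Set.indicator_of_mem hy, hG, Set.indicator_of_mem hy.2.1,
        Pi.one_apply, mul_one]
      apply ENNReal.ofReal_le_ofReal
      apply Real.exp_le_exp.2
      have := hy.2.2
      linarith
    · have h1 : (Orth n).indicator
          (fun y => ENNReal.ofReal (Real.exp (-sm y)) * A'.indicator 1 y) y = 0 := by
        by_cases hyO : y ∈ Orth n
        · rw [Set.indicator_of_mem hyO, Set.indicator_of_notMem hy, mul_zero]
        · rw [Set.indicator_of_notMem hyO]
      rw [h1]
      exact bot_le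
  have hstep2 : ∫⁻ y : Vec n, G (fun i => e i * y i) =
      ENNReal.ofReal (2 * X / c) * ∫⁻ y : Vec n, G y := by
    rw [lintegral_diag hGm e (by rw [hpe]; positivity), hpe]
    congr 2
    rw [hs]
    field_simp
  have hstep3 : ∫⁻ y : Vec n, G y = ENNReal.ofReal (2 ^ n) * Pe n U := by
    have h1 := h n (U.indicator 1) (1 / 2) (measurable_const.indicator hU) (by norm_num)
    have h2 : ∫⁻ y, U.indicator 1 y * ENNReal.ofReal (Real.exp ((1 - 1 / 2) * sm y)) ∂(Pe n) =
        ∫⁻ y : Vec n, G y := by
      have hm1 : Measurable fun y : Vec n => U.indicator (1 : Vec n → ENNReal) y :=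
        measurable_one.indicator hU
      have hm2 : Measurable fun y : Vec n => U.indicator (1 : Vec n → ENNReal) y *
          ENNReal.ofReal (Real.exp ((1 - 1 / 2) * sm y)) := hm1.mul (measurable_dens _)
      rw [lintegral_Pe hm2]
      refine lintegral_congr fun y => ?_
      by_cases hy : y ∈ U
      · rw [Set.indicator_of_mem (hUO hy), Set.indicator_of_mem hy, hG,
          Set.indicator_of_mem hy, Pi.one_apply, one_mul,
          ← ENNReal.ofReal_mul (Real.exp_nonneg _), ← Real.exp_add]
        congr 2
        ring
      · rw [hG, Set.indicator_of_notMem hy]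
        by_cases hyO : y ∈ Orth n
        · rw [Set.indicator_of_mem hyO, Set.indicator_of_notMem hy, zero_mul, mul_zero]
        · rw [Set.indicator_of_notMem hyO]
    have h3 : ∫⁻ y, U.indicator 1 ((1 / 2 : ℝ)⁻¹ • y) ∂(Pe n) = Pe n U := by
      rw [← lintegral_indicator_one hU]
      refine lintegral_congr fun y => ?_
      by_cases hy : y ∈ U
      · rw [Set.indicator_of_mem hy, Set.indicator_of_mem (hcone y hy _ (by norm_num))]
        rfl
      · rw [Set.indicator_of_notMem hy, Set.indicator_of_notMem]
        intro h4
        refine hy ?_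
        have h5 := hcone _ h4 (1 / 2) (by norm_num)
        rwa [smul_smul, mul_inv_cancel₀ (by norm_num), one_smul] at h5
    rw [h2, h3] at h1
    rw [h1]
    congr 2
    rw [one_div, inv_pow, inv_inv]
  refine hstep1.trans (le_of_eq ?_)
  rw [hstep2, hstep3, ← mul_assoc, ← ENNReal.ofReal_mul (by positivity)]

end Pool.Agent.Lib.MP_725e58_gt.Loc
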