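import Mathlib

/-!
Local maximality of the simplex for the Fary-Redei problem: definitions.
Everything lives in `Vec n = Fin n → ℝ` (barycentric coordinates, `n = d + 1`).
-/

set_option autoImplicit false

namespace Pool.Agent.Lib.MP_725e58_gt.Loc

open MeasureTheory Finset

/-- vectors -/
abbrev Vec (n : ℕ) := Fin n → ℝ

variable {n : ℕ}

/-- restriction to a set of coordinates (the others are set to `0`) -/
def rs (H : Finset (Fin n)) (y : Vec n) : Vec n := fun i => if i ∈ H then y i else 0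

/-- indicator vector of a set of coordinates -/
def one (H : Finset (Fin n)) : Vec n := fun i => if i ∈ H then 1 else 0

/-- the pairing -/
def dot (L y : Vec n) : ℝ := ∑ i, L i * y i

/-- the sum of the coordinates -/
def sm (y : Vec n) : ℝ := ∑ i, y i

/-- the closed nonnegative orthant -/
def Orth (n : ℕ) : Set (Vec n) := {y | ∀ i, 0 ≤ y i}

/-- the law of `n` independent standard exponential variables -/
noncomputable def Pe (n : ℕ) : Measure (Vec n) :=
  (volume.restrict (Orth n)).withDensity (fun y => ENNReal.ofReal (Real.exp (-sm y)))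

/-- scaling one coordinate -/
def scl (r : Fin n) (s : ℝ) (y : Vec n) : Vec n := fun i => if i = r then s * y i else y i

/-- `Kc` is the set of barycentric coordinates (with respect to the vertices of a simplex `S`) of a
convex body `K` contained in `S`, which contains the centroids of the facets of `S` and comes close
to all the vertices of `S`. -/
structure Pos (n : ℕ) (Kc : Set (Vec n)) (δ : ℝ) : Prop where
  closed : IsClosed Kc
  convex : Convex ℝ Kc
  nonneg : ∀ p ∈ Kc, ∀ i, 0 ≤ p i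
  sum : ∀ p ∈ Kc, sm p = 1
  cen : ∀ l : Fin n, (fun i => if i = l then (0 : ℝ) else 1 / ((n : ℝ) - 1)) ∈ Kc
  near : ∀ i, ∃ w ∈ Kc, 1 - δ ≤ w i

/-- the cone over `Kc` -/
def Cn (Kc : Set (Vec n)) : Set (Vec n) := {y | ∃ r : ℝ, 0 ≤ r ∧ ∃ p ∈ Kc, y = r • p}

/-- the part of the orthant which is not in the cone over `Kc` -/
def lost (Kc : Set (Vec n)) : Set (Vec n) := {y | y ∈ Orth n ∧ y ∉ Cn Kc}

/-- the part of the orthant in the cone over `Kc` -/
def kept (Kc : Set (Vec n)) : Set (Vec n) := {y | y ∈ Orth n ∧ y ∈ Cn Kc}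

/-- linear forms which are nonnegative on `Kc`, with coefficients at most `1`, and with coefficient
`1` at `m` -/
def VN (Kc : Set (Vec n)) (m : Fin n) : Set (Vec n) :=
  {l | (∀ p ∈ Kc, 0 ≤ dot l p) ∧ (∀ i, l i ≤ 1) ∧ l m = 1}

/-- linear forms `L` with `L p ≤ p l` on `Kc` and coefficients bounded by `B` -/
def LL (Kc : Set (Vec n)) (B : ℝ) (l : Fin n) : Set (Vec n) :=
  {L | L l = 0 ∧ (∀ i, |L i| ≤ B) ∧ ∀ p ∈ Kc, dot L p ≤ p l}

/-- the gap function of the facet `l` -/
noncomputable def Phi (Kc : Set (Vec n)) (B : ℝ) (l : Fin n) (y : Vec n) : ℝ :=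
  sSup ((fun L => dot L y) '' LL Kc B l)

/-- expectation of the gap function `l` of the restriction to `H` of exponential variables -/
noncomputable def J (Kc : Set (Vec n)) (B : ℝ) (l : Fin n) (H : Finset (Fin n)) : ℝ :=
  ∫ y, Phi Kc B l (rs H y) ∂(Pe n)

/-- the total first order size -/
noncomputable def T (h : ℕ) (Kc : Set (Vec n)) (B : ℝ) : ℝ :=
  ∑ l, ∑ H ∈ (univ.erase l).powersetCard h, J Kc B l H

/-- the first order volume lost by `K` -/
noncomputable def FF (Kc : Set (Vec n)) (B : ℝ) : ℝ := ∑ l, J Kc B l (univ.erase l)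

/-- `z / t` represents (barycentric coordinates modulo constants) a point of `R_x(K) - x` -/
def RT (Kc : Set (Vec n)) (x : Vec n) (t : ℝ) (z : Vec n) : Prop :=
  ∃ P ∈ Cn Kc, ∃ Q ∈ Cn Kc, sm P + sm Q = t ∧
    ∃ s : ℝ, ∀ i, z i = P i - Q i - (sm P - sm Q) * x i + s

/-- the volume of `R_x(K)` relative to the volume of `S` -/
noncomputable def VR (Kc : Set (Vec n)) (x : Vec n) : ENNReal :=
  ∫⁻ Y in {Y : Vec n | 0 < sm Y ∧ RT Kc x (sm Y) Y}, ENNReal.ofReal (Real.exp (-sm Y))

/-! ### Even dimension: `n = 2 h + 1`, pieces `(k, I)`, `I ⊆ univ.erase k`, `I.card = h`. -/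

/-- the complement of `I ∪ {k}` -/
def JJ (I : Finset (Fin n)) (k : Fin n) : Finset (Fin n) := (univ.erase k) \ I

/-- the vector of the piece -/
def zE (I : Finset (Fin n)) (k : Fin n) (w : Vec n) : Vec n :=
  fun i => rs I w i - rs (JJ I k) w i

/-- the chart of the piece: adds the constant for which the coordinate sum is `sm w` -/
noncomputable def TE (I : Finset (Fin n)) (k : Fin n) (w : Vec n) : Vec n :=
  fun i => zE I k w i + (sm w - sm (zE I k w)) / n

/-- the first order gap of the piece -/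
noncomputable def PsiE (Kc : Set (Vec n)) (B : ℝ) (I : Finset (Fin n)) (k : Fin n) (w : Vec n) : ℝ :=
  (Phi Kc B k (rs I w) + 2 * ∑ j ∈ JJ I k, Phi Kc B j (rs I w)) +
  (Phi Kc B k (rs (JJ I k) w) + 2 * ∑ i ∈ I, Phi Kc B i (rs (JJ I k) w))

/-! ### Odd dimension: `n = 2 h`, pieces `(I, i, k)`, `I.card = h`, `i ∈ I`, `k ∉ I`. -/

/-- positive part of the vector of a piece -/
noncomputable def aO (h : ℕ) (I : Finset (Fin n)) (i : Fin n) (w : Vec n) : Vec n :=
  fun j => rs (I.erase i) w j + (w i / h) * one I j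

/-- the vector `β` of a piece -/
noncomputable def bO (h : ℕ) (I : Finset (Fin n)) (i k : Fin n) (w : Vec n) : Vec n :=
  fun j => rs (Iᶜ.erase k) w j + (w i / h) * one Iᶜ j

/-- the vector of the piece -/
noncomputable def zO (h : ℕ) (I : Finset (Fin n)) (i k : Fin n) (w : Vec n) : Vec n :=
  fun j => aO h I i w j - rs (Iᶜ.erase k) w j

/-- the chart of the piece -/
noncomputable def TO (h : ℕ) (I : Finset (Fin n)) (i k : Fin n) (w : Vec n) : Vec n :=
  fun j => zO h I i k w j + (sm w - sm (zO h I i k w)) / n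

/-- `Λ_I (y) = 2 ∑_{l ∉ I} Φ_l (y)` -/
noncomputable def Lam (Kc : Set (Vec n)) (B : ℝ) (I : Finset (Fin n)) (y : Vec n) : ℝ :=
  2 * ∑ l ∈ Iᶜ, Phi Kc B l y

/-- `u_I (x) = 2 x(I)` -/
def uu (I : Finset (Fin n)) (x : Vec n) : ℝ := 2 * ∑ i ∈ I, x i

/-- `g_I (x) = max (Λ_I (1_I) + h u_I(x)) (Λ_{I^c} (1_{I^c}) - h u_I (x))` -/
noncomputable def gg (h : ℕ) (Kc : Set (Vec n)) (B : ℝ) (I : Finset (Fin n)) (x : Vec n) : ℝ :=
  max (Lam Kc B I (one I) + h * uu I x) (Lam Kc B Iᶜ (one Iᶜ) - h * uu I x)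

/-- the first order gap of the piece -/
noncomputable def PsiO (h : ℕ) (Kc : Set (Vec n)) (B : ℝ) (I : Finset (Fin n)) (i k : Fin n)
    (x w : Vec n) : ℝ :=
  Lam Kc B I (aO h I i w) + Lam Kc B Iᶜ (bO h I i k w) - (w i / h) * gg h Kc B I x
    + uu I x * ((∑ j ∈ I.erase i, w j) - ∑ j ∈ Iᶜ.erase k, w j)

/-- memoryless map -/
noncomputable def TM (H : Finset (Fin n)) (k : Fin n) (y : Vec n) : Vec n :=
  fun i => rs (univ.erase k) y i + (y k / H.card) * one H i

/-! ### Sets used for the losses near faces of codimension at least two. -/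

/-- cones cut out by one form -/
def WW (Kc : Set (Vec n)) (m : Fin n) (H : Finset (Fin n)) : Set (Vec n) :=
  {y | y ∈ Orth n ∧ ∃ l ∈ VN Kc m, y m < -dot l (rs H y)}

/-- cones cut out by one form with nonnegative sum over `H` -/
def WW2 (Kc : Set (Vec n)) (m : Fin n) (H : Finset (Fin n)) : Set (Vec n) :=
  {y | y ∈ Orth n ∧ ∃ l ∈ VN Kc m, 0 ≤ dot l (one H) ∧ y m < -dot l (rs H y)}

/-- cones cut out by one form with nonpositive sum over `insert i H` -/
def WW1 (Kc : Set (Vec n)) (m i : Fin n) (H : Finset (Fin n)) : Set (Vec n) :=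
  {y | y ∈ Orth n ∧ ∃ l ∈ VN Kc m, dot l (one (insert i H)) ≤ 0 ∧ y m < -dot l (rs H y)}

/-- losses of facet type -/
def SF (Kc : Set (Vec n)) (B : ℝ) (m : Fin n) : Set (Vec n) :=
  {y | y ∈ Orth n ∧ y m < Phi Kc B m (rs (univ.erase m) y)}

/-- losses with negative coefficient at `r` -/
def SB (Kc : Set (Vec n)) (r : Fin n) : Set (Vec n) :=
  {y | y ∈ Orth n ∧ ∃ m, ∃ l ∈ VN Kc m, l r < 0 ∧ dot l y < 0}

/-- losses with nonnegative coefficient at `r` -/
def SA (Kc : Set (Vec n)) (m r : Fin n) : Set (Vec n) :=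
  {y | y ∈ Orth n ∧ ∃ l ∈ VN Kc m, 0 ≤ l r ∧ dot l y < 0}

end Pool.Agent.Lib.MP_725e58_gt.Loc
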