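import Pool.Agent.Lib.MP_725e58_gt.Loc.Stmts

/-!
Local maximality of the simplex for the Fary-Redei problem: scaling one coordinate of a set.
-/

set_option autoImplicit false

namespace Pool.Agent.Lib.MP_725e58_gt.Loc

open MeasureTheory Finset

namespace Down

variable {n : ℕ}

lemma continuous_scl (m : Fin n) (c : ℝ) : Continuous (scl m c : Vec n → Vec n) := by
  refine continuous_pi fun i => ?_
  by_cases hi : i = m
  · have h : Continuous fun y : Vec n => c * y m := continuous_const.mul (continuous_apply m)
    simpa [scl, hi] using h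
  · simpa [scl, hi] using continuous_apply i

/-- change of variables `w = scl m c y` -/
lemma lintegral_scl (m : Fin n) {c : ℝ} (hc : 0 < c) {F : Vec n → ENNReal} (hF : Measurable F) :
    ∫⁻ w : Vec n, F w = ENNReal.ofReal c * ∫⁻ y : Vec n, F (scl m c y) := by
  classical
  set D : Fin n → ℝ := fun i => if i = m then c else 1 with hD
  have hdet : Matrix.det (Matrix.diagonal D) = c := by
    rw [Matrix.det_diagonal, hD, prod_ite_eq' univ m (fun _ => c)]
    simp
  have hne : Matrix.det (Matrix.diagonal D) ≠ 0 := by rw [hdet]; exact hc.ne'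
  have h1 := Real.smul_map_diagonal_volume_pi hne
  have h2 : (Matrix.toLin' (Matrix.diagonal D) : Vec n → Vec n) = scl m c := by
    funext y i
    rw [Matrix.toLin'_apply, Matrix.mulVec_diagonal]
    by_cases hi : i = m <;> simp [scl, hD, hi]
  rw [hdet, abs_of_pos hc, h2] at h1
  have h3 := lintegral_map (μ := (volume : Measure (Vec n))) hF (continuous_scl m c).measurable
  calc ∫⁻ w : Vec n, F w
      = ∫⁻ w, F w ∂(ENNReal.ofReal c • Measure.map (scl m c) (volume : Measure (Vec n))) := by
        rw [h1]
    _ = ENNReal.ofReal c * ∫⁻ y : Vec n, F (scl m c y) := by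
        rw [lintegral_smul_measure, h3, smul_eq_mul]

lemma measurable_dens : Measurable fun y : Vec n => ENNReal.ofReal (Real.exp (-sm y)) :=
  (Real.measurable_exp.comp continuous_sm.measurable.neg).ennreal_ofReal

/-- probabilities as Lebesgue integrals -/
lemma Pe_apply {A : Set (Vec n)} (hA : MeasurableSet A) (hAO : A ⊆ Orth n) :
    Pe n A = ∫⁻ y, A.indicator (fun y => ENNReal.ofReal (Real.exp (-sm y))) y := by
  unfold Pe
  rw [withDensity_apply _ hA, Measure.restrict_restrict hA, Set.inter_eq_left.2 hAO,
    lintegral_indicator hA]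

end Down

open Pool.Agent.Lib.MP_725e58_gt.Loc.Down in
/-- scaling one coordinate down costs at most the factor -/
theorem stDown : StDown := by
  intro n U m c hc hU hUO
  have hc0 : 0 < c := by linarith
  have hV : MeasurableSet {y : Vec n | y ∈ Orth n ∧ scl m c y ∈ U} :=
    measurableSet_Orth.inter ((continuous_scl m c).measurable hU)
  rw [Pe_apply hU hUO, Pe_apply hV (fun y hy => hy.1),
    lintegral_scl m hc0 (measurable_dens.indicator hU)]
  gcongr with y
  by_cases hy : scl m c y ∈ U
  · have hyO : y ∈ Orth n := by
      intro i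
      have h1 := hUO hy i
      by_cases hi : i = m
      · simp only [scl, hi, if_true] at h1
        rw [hi]
        exact (mul_nonneg_iff_of_pos_left hc0).1 h1
      · simpa [scl, hi] using h1
    rw [Set.indicator_of_mem hy, Set.indicator_of_mem (show y ∈ {y : Vec n | y ∈ Orth n ∧ scl m c y ∈ U}
      from ⟨hyO, hy⟩)]
    apply ENNReal.ofReal_le_ofReal
    apply Real.exp_le_exp.2
    apply neg_le_neg
    unfold sm
    refine sum_le_sum fun i _ => ?_
    by_cases hi : i = m
    · simp only [scl, hi, if_true]
      nlinarith [hyO m]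
    · simp [scl, hi]
  · rw [Set.indicator_of_notMem hy]
    exact zero_le

end Pool.Agent.Lib.MP_725e58_gt.Loc
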