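import Pool.Agent.Lib.MP_725e58_gt.Loc.Stmts

/-!
Modules DREL, DAFF, DETI: determinants of the vertices of simplices.
-/

set_option autoImplicit false

namespace Pool.Agent.Lib.MP_725e58_gt.Loc

open MeasureTheory Finset

namespace Drel

variable {d : ℕ}

/-- the matrix of the vertices -/
noncomputable def M (t : Fin (d + 1) → EuclideanSpace ℝ (Fin d)) :
    Matrix (Fin (d + 1)) (Fin (d + 1)) ℝ :=
  Matrix.of fun (i j : Fin (d + 1)) =>
    (Fin.cons (α := fun _ => ℝ) 1 (fun k : Fin d => t i k) : Fin (d + 1) → ℝ) j

lemma M_zero (t : Fin (d + 1) → EuclideanSpace ℝ (Fin d)) (i : Fin (d + 1)) : M t i 0 = 1 := rfl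

lemma M_succ (t : Fin (d + 1) → EuclideanSpace ℝ (Fin d)) (i : Fin (d + 1)) (k : Fin d) :
    M t i k.succ = t i k := rfl

end Drel

open Drel

theorem stDrel : StDrel := by
  intro d t t' A hA ht
  change (M t').det = A.det * (M t).det
  rw [← Matrix.det_mul]
  congr 1
  ext i j
  rw [Matrix.mul_apply]
  refine Fin.cases ?_ (fun k => ?_) j
  · simp only [M_zero, mul_one, hA]
  · simp only [M_succ]
    rw [ht i]
    simp

theorem stDaff : StDaff := by
  intro d t
  change AffineIndependent ℝ t ↔ (M t).det ≠ 0
  rw [← isUnit_iff_ne_zero, ← Matrix.isUnit_iff_isUnit_det,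
    ← Matrix.linearIndependent_rows_iff_isUnit]
  rw [Fintype.linearIndependent_iff, affineIndependent_iff]
  constructor
  · intro h g hg i
    have h0 : ∑ i, g i = 0 := by
      have := congrFun hg 0
      simpa [Matrix.row, M_zero] using this
    have h1 : ∑ i, g i • t i = 0 := by
      ext k
      have := congrFun hg k.succ
      simpa [Matrix.row, M_succ] using this
    exact h univ g h0 h1 i (mem_univ i)
  · intro h s w hw hs e he
    have h1 := h (fun i => if i ∈ s then w i else 0) ?_ e
    · simpa [he] using h1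
    · funext j
      rw [Finset.sum_apply]
      simp only [Pi.smul_apply, smul_eq_mul, Pi.zero_apply, ite_mul, zero_mul]
      rw [sum_ite_mem, univ_inter]
      refine Fin.cases ?_ (fun k => ?_) j
      · simpa [Matrix.row, M_zero] using hw
      · have h2 := congrArg (fun v : EuclideanSpace ℝ (Fin d) => v k) hs
        simpa [Matrix.row, M_succ] using h2

theorem stDetI : StDetI := by
  intro n η hn hη
  have hc : Continuous fun ε : ℝ =>
      |(Matrix.of fun (i j : Fin n) => ((if i = j then 1 - ε else 0) + ε / n : ℝ)).det| := by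
    refine Continuous.abs (Continuous.matrix_det ?_)
    refine continuous_matrix fun i j => ?_
    by_cases h : i = j
    · simp only [Matrix.of_apply, h, if_true]
      fun_prop
    · simp only [Matrix.of_apply, h, if_false]
      fun_prop
  have h0 : |(Matrix.of fun (i j : Fin n) => ((if i = j then 1 - (0 : ℝ) else 0) + 0 / n : ℝ)).det|
      = 1 := by
    have : (Matrix.of fun (i j : Fin n) => ((if i = j then 1 - (0 : ℝ) else 0) + 0 / n : ℝ)) = 1 := by
      ext i j
      simp [Matrix.one_apply]
    rw [this, Matrix.det_one, abs_one]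
  have h1 := Metric.continuous_iff.1 hc 0 η hη
  obtain ⟨δ, hδ, h2⟩ := h1
  refine ⟨min (δ / 2) (1 / 2), by positivity, ?_, ?_⟩
  · exact (min_le_right _ _).trans_lt (by norm_num)
  · have h3 := h2 (min (δ / 2) (1 / 2)) (by
      rw [Real.dist_eq, sub_zero, abs_of_pos (by positivity)]
      exact (min_le_left _ _).trans_lt (by linarith))
    rw [Real.dist_eq, h0, abs_lt] at h3
    linarith [h3.1]

end Pool.Agent.Lib.MP_725e58_gt.Loc
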