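import Pool.Agent.Lib.MP_725e58_gt.Loc.Stmts

/-!
Local maximality of the simplex for the Fary-Redei problem: expectation of `exp (-f)`, first order.
-/

set_option autoImplicit false

namespace Pool.Agent.Lib.MP_725e58_gt.Loc

open MeasureTheory Finset

namespace E1

variable {n : ℕ}

lemma ae_Orth : ∀ᵐ y ∂(Pe n), y ∈ Orth n :=
  (withDensity_absolutelyContinuous _ _).ae_le (ae_restrict_mem measurableSet_Orth)

lemma sm_le_exp (y : Vec n) : sm y ≤ 2 * Real.exp (1 / 2 * sm y) := by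
  have := Real.add_one_le_exp (1 / 2 * sm y)
  linarith

/-- functions of linear growth are integrable -/
lemma integrable_of_le (h2 : StInt) {f : Vec n → ℝ} {ρ : ℝ} (hf : Measurable f) (hρ : 0 ≤ ρ)
    (h0 : ∀ y ∈ Orth n, 0 ≤ f y) (h1 : ∀ y ∈ Orth n, f y ≤ ρ * sm y) : Integrable f (Pe n) := by
  refine h2 n f (2 * ρ) (1 / 2) hf (by norm_num) fun y hy => ?_
  rw [abs_of_nonneg (h0 y hy)]
  calc f y ≤ ρ * sm y := h1 y hy
    _ ≤ ρ * (2 * Real.exp (1 / 2 * sm y)) := mul_le_mul_of_nonneg_left (sm_le_exp y) hρ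
    _ = 2 * ρ * Real.exp (1 / 2 * sm y) := by ring

/-- scaling for homogeneous functions -/
lemma scal_hom (h1 : StScal) {f : Vec n → ℝ} {a : ℝ} (ha : 0 < a) (hf : Measurable f)
    (h0 : ∀ y ∈ Orth n, 0 ≤ f y)
    (hh : ∀ y ∈ Orth n, ∀ a : ℝ, 0 ≤ a → f (a • y) = a * f y) :
    ∫ y, f y * Real.exp ((1 - a) * sm y) ∂(Pe n) = (a ^ (n + 1))⁻¹ * ∫ y, f y ∂(Pe n) := by
  have hm : Measurable fun y : Vec n => f y * Real.exp ((1 - a) * sm y) :=
    hf.mul (Real.measurable_exp.comp (continuous_sm.measurable.const_mul (1 - a)))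
  rw [integral_eq_lintegral_of_nonneg_ae (ae_Orth.mono fun y hy =>
      mul_nonneg (h0 y hy) (Real.exp_nonneg _)) hm.aestronglyMeasurable,
    integral_eq_lintegral_of_nonneg_ae (ae_Orth.mono fun y hy => h0 y hy)
      hf.aestronglyMeasurable]
  have e1 : ∫⁻ y, ENNReal.ofReal (f y * Real.exp ((1 - a) * sm y)) ∂(Pe n) =
      ∫⁻ y, ENNReal.ofReal (f y) * ENNReal.ofReal (Real.exp ((1 - a) * sm y)) ∂(Pe n) :=
    lintegral_congr_ae (ae_Orth.mono fun y hy => by
      show ENNReal.ofReal (f y * Real.exp ((1 - a) * sm y)) = _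
      rw [ENNReal.ofReal_mul (h0 y hy)])
  have e2 : ∫⁻ y, ENNReal.ofReal (f (a⁻¹ • y)) ∂(Pe n) =
      ENNReal.ofReal a⁻¹ * ∫⁻ y, ENNReal.ofReal (f y) ∂(Pe n) := by
    rw [← lintegral_const_mul _ hf.ennreal_ofReal]
    refine lintegral_congr_ae (ae_Orth.mono fun y hy => ?_)
    show ENNReal.ofReal (f (a⁻¹ • y)) = ENNReal.ofReal a⁻¹ * ENNReal.ofReal (f y)
    rw [hh y hy _ (inv_nonneg.2 ha.le), ENNReal.ofReal_mul (inv_nonneg.2 ha.le)]
  rw [e1, h1 n (fun y => ENNReal.ofReal (f y)) a hf.ennreal_ofReal ha, e2, ← mul_assoc,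
    ← ENNReal.ofReal_mul (by positivity), ENNReal.toReal_mul,
    ENNReal.toReal_ofReal (by positivity)]
  congr 1
  rw [pow_succ, mul_inv]

end E1

open E1 in
/-- `1 - exp (-f)` in expectation, for a small homogeneous nonnegative function -/
theorem stE1 (h1 : StScal) (h2 : StInt) (h3 : StProb) : StE1 := by
  intro n f ρ hf hρ h0 hle hh
  have hP : IsProbabilityMeasure (Pe n) := h3 n
  have hfi := integrable_of_le h2 hf hρ h0 hle
  have hI : 0 ≤ ∫ y, f y ∂(Pe n) := integral_nonneg_of_ae (ae_Orth.mono fun y hy => h0 y hy)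
  -- integrability
  have hexp : Integrable (fun y => Real.exp (-f y)) (Pe n) := by
    refine Integrable.of_bound (Real.measurable_exp.comp hf.neg).aestronglyMeasurable 1 ?_
    refine ae_Orth.mono fun y hy => ?_
    rw [Real.norm_eq_abs, abs_of_pos (Real.exp_pos _), Real.exp_le_one_iff]
    linarith [h0 y hy]
  have hm : Measurable fun y : Vec n => f y * Real.exp ((1 - (1 + ρ)) * sm y) :=
    hf.mul (Real.measurable_exp.comp (continuous_sm.measurable.const_mul _))
  have hfe : Integrable (fun y => f y * Real.exp ((1 - (1 + ρ)) * sm y)) (Pe n) := by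
    refine hfi.mono hm.aestronglyMeasurable (ae_Orth.mono fun y hy => ?_)
    rw [Real.norm_eq_abs, Real.norm_eq_abs, abs_mul, abs_of_pos (Real.exp_pos _)]
    refine mul_le_of_le_one_right (abs_nonneg _) ?_
    rw [Real.exp_le_one_iff]
    nlinarith [sm_nonneg hy]
  -- the pointwise inequality
  have hpt : ∫ y, Real.exp (-f y) ∂(Pe n) ≤
      ∫ y, (1 - f y * Real.exp ((1 - (1 + ρ)) * sm y)) ∂(Pe n) := by
    refine integral_mono_ae hexp ((integrable_const 1).sub hfe) (ae_Orth.mono fun y hy => ?_)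
    show Real.exp (-f y) ≤ 1 - f y * Real.exp ((1 - (1 + ρ)) * sm y)
    have e1 := h0 y hy
    have e2 : Real.exp ((1 - (1 + ρ)) * sm y) ≤ Real.exp (-f y) := by
      rw [Real.exp_le_exp]
      linarith [hle y hy]
    have e3 : f y * Real.exp ((1 - (1 + ρ)) * sm y) ≤ f y * Real.exp (-f y) :=
      mul_le_mul_of_nonneg_left e2 e1
    have e4 : (f y + 1) * Real.exp (-f y) ≤ 1 := by
      have e5 := mul_le_mul_of_nonneg_right (Real.add_one_le_exp (f y)) (Real.exp_nonneg (-f y))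
      rwa [← Real.exp_add, add_neg_cancel, Real.exp_zero] at e5
    linarith
  rw [integral_sub (integrable_const 1) hfe, scal_hom h1 (by linarith) hf h0 hh] at hpt
  -- Bernoulli
  have hB : 1 - (n + 1) * ρ ≤ ((1 + ρ) ^ (n + 1))⁻¹ := by
    have e1 : (0 : ℝ) < 1 + ρ := by linarith
    have e2 : -2 ≤ -(ρ / (1 + ρ)) := by
      have : ρ / (1 + ρ) ≤ 1 := (div_le_one e1).2 (by linarith)
      linarith
    have e3 := one_add_mul_le_pow e2 (n + 1)
    have e4 : 1 + -(ρ / (1 + ρ)) = (1 + ρ)⁻¹ := by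
      field_simp
      ring
    rw [e4, inv_pow] at e3
    refine le_trans ?_ e3
    have e5 : ρ / (1 + ρ) ≤ ρ := div_le_self hρ (by linarith)
    push_cast
    nlinarith
  have h7 : ∫ y, Real.exp (-f y) ∂(Pe n) ≤ 1 - (1 - (n + 1) * ρ) * ∫ y, f y ∂(Pe n) := by
    have h8 := mul_le_mul_of_nonneg_right hB hI
    have h9 : ∫ _y : Vec n, (1 : ℝ) ∂(Pe n) = 1 := by simp
    rw [h9] at hpt
    linarith
  rw [← ofReal_integral_eq_lintegral_ofReal hexp (ae_of_all _ fun y => Real.exp_nonneg _)]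
  exact ENNReal.ofReal_le_ofReal h7

end Pool.Agent.Lib.MP_725e58_gt.Loc
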