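import Pool.Agent.Lib.MP_725e58_gt.Loc.Stmts

/-!
Local maximality of the simplex for the Fary-Redei problem: expectation of `exp (-f)`, second
order.
-/

set_option autoImplicit false

namespace Pool.Agent.Lib.MP_725e58_gt.Loc

open MeasureTheory Finset

namespace E2

variable {n : ℕ}

lemma ae_Orth : ∀ᵐ y ∂(Pe n), y ∈ Orth n :=
  (withDensity_absolutelyContinuous _ _).ae_le (ae_restrict_mem measurableSet_Orth)

/-- scaling for homogeneous functions -/
lemma scal_hom (h1 : StScal) {f : Vec n → ℝ} {a : ℝ} (ha : 0 < a) (hf : Measurable f)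
    (h0 : ∀ y ∈ Orth n, 0 ≤ f y)
    (hh : ∀ y ∈ Orth n, ∀ a : ℝ, 0 ≤ a → f (a • y) = a * f y) :
    ∫ y, f y * Real.exp ((1 - a) * sm y) ∂(Pe n) = (a ^ (n + 1))⁻¹ * ∫ y, f y ∂(Pe n) := by
  have hm : Measurable fun y : Vec n => f y * Real.exp ((1 - a) * sm y) :=
    hf.mul (Real.measurable_exp.comp (continuous_sm.measurable.const_mul (1 - a)))
  rw [integral_eq_lintegral_of_nonneg_ae (ae_Orth.mono fun y hy =>
      mul_nonneg (h0 y hy) (Real.exp_nonneg _)) hm.aestronglyMeasurable,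
    integral_eq_lintegral_of_nonneg_ae (ae_Orth.mono fun y hy => h0 y hy)
      hf.aestronglyMeasurable]
  have e1 : ∫⁻ y, ENNReal.ofReal (f y * Real.exp ((1 - a) * sm y)) ∂(Pe n) =
      ∫⁻ y, ENNReal.ofReal (f y) * ENNReal.ofReal (Real.exp ((1 - a) * sm y)) ∂(Pe n) :=
    lintegral_congr_ae (ae_Orth.mono fun y hy => by
      show ENNReal.ofReal (f y * Real.exp ((1 - a) * sm y)) = _
      rw [ENNReal.ofReal_mul (h0 y hy)])
  have e2 : ∫⁻ y, ENNReal.ofReal (f (a⁻¹ • y)) ∂(Pe n) =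
      ENNReal.ofReal a⁻¹ * ∫⁻ y, ENNReal.ofReal (f y) ∂(Pe n) := by
    rw [← lintegral_const_mul _ hf.ennreal_ofReal]
    refine lintegral_congr_ae (ae_Orth.mono fun y hy => ?_)
    show ENNReal.ofReal (f (a⁻¹ • y)) = ENNReal.ofReal a⁻¹ * ENNReal.ofReal (f y)
    rw [hh y hy _ (inv_nonneg.2 ha.le), ENNReal.ofReal_mul (inv_nonneg.2 ha.le)]
  rw [e1, h1 n (fun y => ENNReal.ofReal (f y)) a hf.ennreal_ofReal ha, e2, ← mul_assoc,
    ← ENNReal.ofReal_mul (by positivity), ENNReal.toReal_mul,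
    ENNReal.toReal_ofReal (by positivity)]
  congr 1
  rw [pow_succ, mul_inv]

/-- the exponential function up to second order -/
lemma exp_le (x : ℝ) : Real.exp x ≤ 1 + x + |x| ^ 2 * Real.exp |x| := by
  have h := Complex.norm_exp_sub_sum_le_norm_mul_exp (x : ℂ) 2
  have e1 : Complex.exp (x : ℂ) - ∑ m ∈ range 2, (x : ℂ) ^ m / (m.factorial : ℂ) =
      ((Real.exp x - (1 + x) : ℝ) : ℂ) := by
    simp [Finset.sum_range_succ]
  rw [e1, Complex.norm_real, Complex.norm_real, Real.norm_eq_abs, Real.norm_eq_abs] at h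
  have h2 := le_abs_self (Real.exp x - (1 + x))
  linarith

lemma two_mul_le_exp {t : ℝ} (ht : 0 ≤ t) : 2 * t ≤ Real.exp t := by
  have h := Real.quadratic_le_exp_of_nonneg ht
  nlinarith [sq_nonneg (t - 1)]

lemma sm_le_exp {y : Vec n} (hy : y ∈ Orth n) : sm y ≤ 2 * Real.exp (1 / 4 * sm y) := by
  have h := two_mul_le_exp (t := 1 / 4 * sm y) (by have := sm_nonneg hy; linarith)
  linarith

/-- the pointwise inequality -/
lemma pointwise {y : Vec n} (hy : y ∈ Orth n) {a b ρ : ℝ} (hρ : 0 ≤ ρ) (hab : |a| ≤ b)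
    (hb : b ≤ ρ * sm y) (h4 : ρ ≤ 1 / 4) :
    Real.exp (-a) ≤ 1 - a + 2 * ρ * (b * Real.exp ((1 - 1 / 2) * sm y)) := by
  have h0 : 0 ≤ b := (abs_nonneg a).trans hab
  have hs := sm_nonneg hy
  have h1 := exp_le (-a)
  rw [abs_neg] at h1
  have h2 : Real.exp |a| ≤ Real.exp (1 / 4 * sm y) := by
    rw [Real.exp_le_exp]
    calc |a| ≤ b := hab
      _ ≤ ρ * sm y := hb
      _ ≤ 1 / 4 * sm y := mul_le_mul_of_nonneg_right h4 hs
  have h3 : |a| ^ 2 ≤ b * (ρ * sm y) := by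
    rw [sq]
    exact mul_le_mul hab (hab.trans hb) (abs_nonneg a) h0
  have h5 : 0 ≤ b * (ρ * sm y) := mul_nonneg h0 (h0.trans hb)
  have h6 : |a| ^ 2 * Real.exp |a| ≤ b * (ρ * sm y) * Real.exp (1 / 4 * sm y) :=
    mul_le_mul h3 h2 (Real.exp_nonneg _) h5
  have h7 : b * (ρ * sm y) ≤ b * (ρ * (2 * Real.exp (1 / 4 * sm y))) :=
    mul_le_mul_of_nonneg_left (mul_le_mul_of_nonneg_left (sm_le_exp hy) hρ) h0
  have h8 := mul_le_mul_of_nonneg_right h7 (Real.exp_nonneg (1 / 4 * sm y))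
  have h9 : Real.exp (1 / 4 * sm y) * Real.exp (1 / 4 * sm y) =
      Real.exp ((1 - 1 / 2) * sm y) := by
    rw [← Real.exp_add]
    ring_nf
  rw [← h9]
  linarith

end E2

open E2 in
/-- second order upper bound for `exp (-f)`, for a small function dominated by a homogeneous
one -/
theorem stE2 (h1 : StScal) (h2 : StInt) (h3 : StProb) : StE2 := by
  intro n f g ρ hf hg hρ h4 hfg hgs hh
  have hP : IsProbabilityMeasure (Pe n) := h3 n
  have h0 : ∀ y ∈ Orth n, 0 ≤ g y := fun y hy => (abs_nonneg _).trans (hfg y hy)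
  have hexp1 : ∀ y ∈ Orth n, g y ≤ 1 * Real.exp (1 / 4 * sm y) := fun y hy => by
    have e1 := hgs y hy
    have e2 := mul_le_mul_of_nonneg_right h4 (sm_nonneg hy)
    have e3 := sm_le_exp hy
    have e4 := Real.exp_nonneg (1 / 4 * sm y)
    linarith
  have hfi : Integrable f (Pe n) :=
    h2 n f 1 (1 / 4) hf (by norm_num) fun y hy => (hfg y hy).trans (hexp1 y hy)
  have hm : Measurable fun y : Vec n => g y * Real.exp ((1 - 1 / 2) * sm y) :=
    hg.mul (Real.measurable_exp.comp (continuous_sm.measurable.const_mul _))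
  have hge : Integrable (fun y => g y * Real.exp ((1 - 1 / 2) * sm y)) (Pe n) := by
    refine h2 n _ 1 (3 / 4) hm (by norm_num) fun y hy => ?_
    rw [abs_mul, abs_of_nonneg (h0 y hy), abs_of_pos (Real.exp_pos _)]
    have e1 : Real.exp (3 / 4 * sm y) =
        Real.exp (1 / 4 * sm y) * Real.exp ((1 - 1 / 2) * sm y) := by
      rw [← Real.exp_add]
      ring_nf
    rw [e1, ← mul_assoc]
    exact mul_le_mul_of_nonneg_right (hexp1 y hy) (Real.exp_nonneg _)
  have hI : 0 ≤ ∫ y, g y ∂(Pe n) := integral_nonneg_of_ae (ae_Orth.mono fun y hy => h0 y hy)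
  have hint : Integrable
      (fun y => 1 - f y + 2 * ρ * (g y * Real.exp ((1 - 1 / 2) * sm y))) (Pe n) :=
    ((integrable_const 1).sub hfi).add (hge.const_mul _)
  have hpt : ∀ᵐ y ∂(Pe n), Real.exp (-f y) ≤
      1 - f y + 2 * ρ * (g y * Real.exp ((1 - 1 / 2) * sm y)) :=
    ae_Orth.mono fun y hy => pointwise hy hρ (hfg y hy) (hgs y hy) h4
  have hle : ∫⁻ y, ENNReal.ofReal (Real.exp (-f y)) ∂(Pe n) ≤
      ∫⁻ y, ENNReal.ofReal
        (1 - f y + 2 * ρ * (g y * Real.exp ((1 - 1 / 2) * sm y))) ∂(Pe n) :=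
    lintegral_mono_ae (hpt.mono fun y hy => ENNReal.ofReal_le_ofReal hy)
  refine hle.trans ?_
  rw [← ofReal_integral_eq_lintegral_ofReal hint
    (hpt.mono fun y hy => (Real.exp_nonneg _).trans hy)]
  refine ENNReal.ofReal_le_ofReal (le_of_eq ?_)
  have e5 : ∫ y, (1 - f y + 2 * ρ * (g y * Real.exp ((1 - 1 / 2) * sm y))) ∂(Pe n) =
      ∫ y, (1 - f y) ∂(Pe n) + ∫ y, 2 * ρ * (g y * Real.exp ((1 - 1 / 2) * sm y)) ∂(Pe n) :=
    integral_add ((integrable_const 1).sub hfi) (hge.const_mul _)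
  rw [e5, integral_sub (integrable_const 1) hfi, integral_const_mul,
    scal_hom h1 (by norm_num) hg h0 hh]
  have e6 : ∫ _y : Vec n, (1 : ℝ) ∂(Pe n) = 1 := by simp
  rw [e6]
  have e7 : (((1 : ℝ) / 2) ^ (n + 1))⁻¹ = 2 ^ (n + 1) := by
    rw [one_div, inv_pow, inv_inv]
  rw [e7]
  ring

end Pool.Agent.Lib.MP_725e58_gt.Loc
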