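import Pool.Agent.Lib.MP_725e58_gt.Loc.Stmts

/-!
Local maximality of the simplex for the Fary-Redei problem: expectation summed over the pieces, even
dimension (module EE).
-/

set_option autoImplicit false

namespace Pool.Agent.Lib.MP_725e58_gt.Loc

open MeasureTheory Finset

namespace EE

section Int

variable {n : ℕ} {Kc : Set (Vec n)} {δ B : ℝ}

lemma integrable_phi (h : StInt) (hK : Pos n Kc δ) (hB : 0 ≤ B) (l : Fin n)
    (H : Finset (Fin n)) : Integrable (fun y => Phi Kc B l (rs H y)) (Pe n) := by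
  refine h n _ (2 * B) (1 / 2) ((continuous_phi hK hB).comp (continuous_rs H)).measurable
    (by norm_num) ?_
  intro y hy
  rw [abs_of_nonneg (phi_nonneg hK hB _)]
  have h1 := phi_le_sm (l := l) hK hB (rs_nonneg H hy)
  have h2 : sm (rs H y) ≤ sm y := by
    rw [sm_rs]
    exact sum_le_univ_sum_of_nonneg hy
  have h3 : sm y ≤ 2 * Real.exp (1 / 2 * sm y) := by
    have := Real.add_one_le_exp (1 / 2 * sm y)
    linarith
  calc Phi Kc B l (rs H y) ≤ B * sm (rs H y) := h1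
    _ ≤ B * (2 * Real.exp (1 / 2 * sm y)) := mul_le_mul_of_nonneg_left (h2.trans h3) hB
    _ = 2 * B * Real.exp (1 / 2 * sm y) := by ring

lemma int_psi (h : StInt) (hK : Pos n Kc δ) (hB : 0 ≤ B) (I : Finset (Fin n)) (k : Fin n) :
    ∫ y, PsiE Kc B I k y ∂(Pe n) =
      (J Kc B k I + 2 * ∑ j ∈ JJ I k, J Kc B j I) +
      (J Kc B k (JJ I k) + 2 * ∑ i ∈ I, J Kc B i (JJ I k)) := by
  have e : ∀ (l : Fin n) (G : Finset (Fin n)), Integrable (fun y => Phi Kc B l (rs G y)) (Pe n) :=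
    integrable_phi h hK hB
  have s : ∀ (A G : Finset (Fin n)),
      Integrable (fun y => ∑ j ∈ A, Phi Kc B j (rs G y)) (Pe n) := fun A G =>
    integrable_finsetSum _ fun j _ => e j G
  have t : ∀ (l : Fin n) (A G : Finset (Fin n)),
      ∫ y, (Phi Kc B l (rs G y) + 2 * ∑ j ∈ A, Phi Kc B j (rs G y)) ∂(Pe n) =
        J Kc B l G + 2 * ∑ j ∈ A, J Kc B j G := by
    intro l A G
    rw [integral_add (e l G) ((s A G).const_mul 2), integral_const_mul,
      integral_finsetSum _ fun j _ => e j G]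
    rfl
  have u : ∀ (l : Fin n) (A G : Finset (Fin n)), Integrable
      (fun y => Phi Kc B l (rs G y) + 2 * ∑ j ∈ A, Phi Kc B j (rs G y)) (Pe n) := fun l A G =>
    (e l G).add ((s A G).const_mul 2)
  unfold PsiE
  rw [integral_add (u k (JJ I k) I) (u k I (JJ I k)), t, t]

end Int

section Count

variable {h : ℕ}

lemma mem_JJ {n : ℕ} {I : Finset (Fin n)} {k j : Fin n} : j ∈ JJ I k ↔ j ≠ k ∧ j ∉ I := by
  simp [JJ]

lemma card_JJ {I : Finset (Fin (2 * h + 1))} {k : Fin (2 * h + 1)} (hI : I.card = h)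
    (hk : k ∉ I) : (JJ I k).card = h := by
  have h1 : I ⊆ univ.erase k := fun i hi => mem_erase.2 ⟨fun e => hk (e ▸ hi), mem_univ i⟩
  rw [JJ, card_sdiff_of_subset h1, card_erase_of_mem (mem_univ k), card_univ, Fintype.card_fin, hI]
  omega

lemma mem_P {k : Fin (2 * h + 1)} {I : Finset (Fin (2 * h + 1))} :
    I ∈ (univ.erase k).powersetCard h ↔ k ∉ I ∧ I.card = h := by
  rw [mem_powersetCard]
  constructor
  · rintro ⟨h1, h2⟩
    exact ⟨fun hk => (mem_erase.1 (h1 hk)).1 rfl, h2⟩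
  · rintro ⟨h1, h2⟩
    exact ⟨fun i hi => mem_erase.2 ⟨fun e => h1 (e ▸ hi), mem_univ i⟩, h2⟩

lemma JJ_JJ {n : ℕ} {I : Finset (Fin n)} {k : Fin n} (hk : k ∉ I) : JJ (JJ I k) k = I := by
  ext j
  rw [mem_JJ, mem_JJ]
  constructor
  · rintro ⟨h1, h2⟩
    by_contra hj
    exact h2 ⟨h1, hj⟩
  · intro hj
    exact ⟨fun e => hk (e ▸ hj), fun h2 => h2.2 hj⟩

/-- the involution -/
lemma sum_swap (k : Fin (2 * h + 1)) (F : Finset (Fin (2 * h + 1)) → Finset (Fin (2 * h + 1)) → ℝ) :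
    ∑ I ∈ (univ.erase k).powersetCard h, F I (JJ I k) =
      ∑ I ∈ (univ.erase k).powersetCard h, F (JJ I k) I := by
  refine sum_nbij' (fun I => JJ I k) (fun I => JJ I k) ?_ ?_ ?_ ?_ ?_
  · intro I hI
    rw [mem_P] at hI ⊢
    exact ⟨fun hk => (mem_JJ.1 hk).1 rfl, card_JJ hI.2 hI.1⟩
  · intro I hI
    rw [mem_P] at hI ⊢
    exact ⟨fun hk => (mem_JJ.1 hk).1 rfl, card_JJ hI.2 hI.1⟩
  · intro I hI
    exact JJ_JJ (mem_P.1 hI).1
  · intro I hI
    exact JJ_JJ (mem_P.1 hI).1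
  · intro I hI
    rw [JJ_JJ (mem_P.1 hI).1]

lemma sum_out (F : Fin (2 * h + 1) → Finset (Fin (2 * h + 1)) → ℝ) :
    ∑ k, ∑ I ∈ (univ.erase k).powersetCard h, F k I =
      ∑ I ∈ (univ : Finset (Fin (2 * h + 1))).powersetCard h, ∑ k ∈ Iᶜ, F k I := by
  refine sum_comm' ?_
  intro k I
  rw [mem_P, mem_compl, mem_powersetCard]
  constructor
  · rintro ⟨-, h1, h2⟩
    exact ⟨h1, subset_univ _, h2⟩
  · rintro ⟨h1, -, h2⟩
    exact ⟨mem_univ _, h1, h2⟩

/-- the number of pieces -/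
lemma count (f : Fin (2 * h + 1) → Finset (Fin (2 * h + 1)) → ℝ) :
    ∑ k, ∑ I ∈ (univ.erase k).powersetCard h, ∑ j ∈ JJ I k, f j I =
      h * ∑ j, ∑ I ∈ (univ.erase j).powersetCard h, f j I := by
  rw [sum_out, sum_out, mul_sum]
  refine sum_congr rfl fun I hI => ?_
  rw [mem_powersetCard] at hI
  have e : ∑ k ∈ Iᶜ, ∑ j ∈ JJ I k, f j I = ∑ j ∈ Iᶜ, ∑ k ∈ JJ I j, f j I := by
    refine sum_comm' ?_
    intro k j
    rw [mem_JJ, mem_JJ, mem_compl, mem_compl]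
    constructor
    · rintro ⟨h1, h2, h3⟩
      exact ⟨⟨h2.symm, h1⟩, h3⟩
    · rintro ⟨⟨h1, h2⟩, h3⟩
      exact ⟨h2, h1.symm, h3⟩
  rw [e, mul_sum]
  refine sum_congr rfl fun j hj => ?_
  rw [sum_const, card_JJ hI.2 (mem_compl.1 hj), nsmul_eq_mul]

end Count

end EE

open EE

theorem stEE (h : StInt) : StEE := by
  intro m Kc δ B hK hB
  have e : ∀ k, ∑ I ∈ (univ.erase k).powersetCard m, ∫ y, PsiE Kc B I k y ∂(Pe (2 * m + 1)) =
      2 * ∑ I ∈ (univ.erase k).powersetCard m, (J Kc B k I + 2 * ∑ j ∈ JJ I k, J Kc B j I) := by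
    intro k
    rw [sum_congr rfl fun I _ => int_psi h hK hB I k, sum_add_distrib,
      sum_swap k fun I G => J Kc B k G + 2 * ∑ i ∈ I, J Kc B i G]
    ring
  rw [sum_congr rfl fun k _ => e k, ← mul_sum, sum_congr rfl fun k _ => sum_add_distrib,
    sum_add_distrib]
  have e2 : ∑ k, ∑ I ∈ (univ.erase k).powersetCard m, 2 * ∑ j ∈ JJ I k, J Kc B j I =
      2 * (m * T m Kc B) := by
    rw [sum_congr rfl fun k _ => (mul_sum _ _ _).symm, ← mul_sum, count fun j I => J Kc B j I]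
    rfl
  rw [e2]
  change 2 * (T m Kc B + 2 * (m * T m Kc B)) = _
  ring

end Pool.Agent.Lib.MP_725e58_gt.Loc
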