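import Pool.Agent.Lib.MP_725e58_gt.Loc.Stmts

/-!
Local maximality of the simplex for the Fary-Redei problem: expectation of the first order gaps
summed over the pieces, odd dimension.
-/

set_option autoImplicit false

namespace Pool.Agent.Lib.MP_725e58_gt.Loc

open MeasureTheory Finset

namespace EO

variable {n : ℕ} {Kc : Set (Vec n)} {δ B : ℝ}

lemma int_lin (h1 : StInt) {f : Vec n → ℝ} (hf : Continuous f) (C : ℝ)
    (h : ∀ y ∈ Orth n, |f y| ≤ C * sm y) : Integrable f (Pe n) := by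
  refine h1 n f (2 * |C|) (1 / 2) hf.measurable (by norm_num) fun y hy => (h y hy).trans ?_
  have h2 := Real.add_one_le_exp (1 / 2 * sm y)
  have h3 := sm_nonneg hy
  have h4 := le_abs_self C
  have h5 := abs_nonneg C
  have h6 : C * sm y ≤ |C| * sm y := mul_le_mul_of_nonneg_right h4 h3
  have h7 : |C| * sm y ≤ |C| * (2 * Real.exp (1 / 2 * sm y)) :=
    mul_le_mul_of_nonneg_left (by linarith) h5
  linarith

lemma sm_rs_le (H : Finset (Fin n)) {y : Vec n} (hy : y ∈ Orth n) : sm (rs H y) ≤ sm y := by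
  rw [sm_rs]
  exact sum_le_sum_of_subset_of_nonneg (subset_univ H) fun i _ _ => hy i

lemma int_phi (h1 : StInt) (hK : Pos n Kc δ) (hB : 0 ≤ B) (l : Fin n) (H : Finset (Fin n)) :
    Integrable (fun y => Phi Kc B l (rs H y)) (Pe n) :=
  int_lin h1 ((continuous_phi hK hB).comp (continuous_rs H)) B fun y hy => by
    rw [abs_of_nonneg (phi_nonneg hK hB _)]
    exact (phi_le_sm hK hB (rs_nonneg H hy)).trans
      (mul_le_mul_of_nonneg_left (sm_rs_le H hy) hB)

lemma int_lam (h1 : StInt) (hK : Pos n Kc δ) (hB : 0 ≤ B) (I H : Finset (Fin n)) :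
    Integrable (fun y => Lam Kc B I (rs H y)) (Pe n) := by
  unfold Lam
  exact (integrable_finsetSum _ fun l _ => int_phi h1 hK hB l H).const_mul 2

lemma integral_lam (h1 : StInt) (hK : Pos n Kc δ) (hB : 0 ≤ B) (I H : Finset (Fin n)) :
    ∫ y, Lam Kc B I (rs H y) ∂(Pe n) = 2 * ∑ l ∈ Iᶜ, J Kc B l H := by
  unfold Lam J
  rw [integral_const_mul, integral_finsetSum _ fun l _ => int_phi h1 hK hB l H]

lemma int_coord (h1 : StInt) (i : Fin n) : Integrable (fun y : Vec n => y i) (Pe n) :=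
  int_lin h1 (continuous_apply i) 1 fun y hy => by
    rw [abs_of_nonneg (hy i), one_mul]
    exact le_sm hy i

lemma integral_sum (h1 : StInt) (h4 : StMean) (F : Finset (Fin n)) :
    ∫ y : Vec n, ∑ j ∈ F, y j ∂(Pe n) = F.card := by
  rw [integral_finsetSum _ fun j _ => int_coord h1 j]
  simp [h4 n]

lemma memR_sum (h1 : StInt) (h2 : StMemR) (hK : Pos n Kc δ) (hB : 0 ≤ B) (I H : Finset (Fin n))
    (hH : H.Nonempty) :
    (∀ k ∈ H, Integrable (fun y => Lam Kc B I (rs H (TM H k y))) (Pe n)) ∧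
    ∑ k ∈ H, ∫ y, Lam Kc B I (rs H (TM H k y)) ∂(Pe n) =
      (H.card : ℝ) * ∫ y, Lam Kc B I (rs H y) ∂(Pe n) := by
  obtain ⟨e1, e2⟩ := h2 n H (fun y => Lam Kc B I (rs H y)) hH
    ((continuous_lam hK hB I).comp (continuous_rs H)).measurable (int_lam h1 hK hB I H)
  refine ⟨e1, ?_⟩
  have hc : (H.card : ℝ) ≠ 0 := by
    have := hH.card_pos
    positivity
  rw [e2, ← mul_assoc, mul_inv_cancel₀ hc, one_mul]

lemma aO_eq {h : ℕ} {I : Finset (Fin n)} {i : Fin n} (hc : I.card = h) (w : Vec n) :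
    aO h I i w = rs I (TM I i w) := by
  funext j
  unfold aO TM rs one
  rw [hc]
  rcases eq_or_ne j i with rfl | hji
  · by_cases hj : j ∈ I <;> simp [hj]
  · by_cases hj : j ∈ I <;> simp [hj, hji]

lemma bO_eq {h : ℕ} {I : Finset (Fin n)} {i k : Fin n} (hc : (Iᶜ : Finset (Fin n)).card = h)
    (hi : i ∈ I) (hk : k ∈ Iᶜ) (w : Vec n) :
    bO h I i k w = rs Iᶜ (TM Iᶜ k (fun j => w (Equiv.swap i k j))) := by
  funext j
  unfold bO TM
  rw [hc]
  have hik : (fun j => w (Equiv.swap i k j)) k = w i := by simp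
  rw [hik]
  by_cases hj : j ∈ Iᶜ
  · rw [rs_apply_mem hj]
    by_cases hjk : j = k
    · subst hjk
      rw [rs_apply_not_mem (by simp), rs_apply_not_mem (by simp)]
    · have hji : j ≠ i := by
        rintro rfl
        exact (mem_compl.1 hj) hi
      rw [rs_apply_mem (mem_erase.2 ⟨hjk, hj⟩), rs_apply_mem (mem_erase.2 ⟨hjk, mem_univ j⟩),
        Equiv.swap_apply_of_ne_of_ne hji hjk]
  · rw [rs_apply_not_mem hj, rs_apply_not_mem (fun h' => hj (mem_of_mem_erase h'))]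
    simp [one, hj]

lemma continuous_TM (H : Finset (Fin n)) (k : Fin n) : Continuous (TM H k) := by
  unfold TM
  refine continuous_pi fun i => ?_
  exact ((continuous_apply i).comp (continuous_rs (univ.erase k))).add
    (((continuous_apply k).div_const _).mul continuous_const)

/-- the second family of functions, by exchangeability -/
lemma bO_int (h1 : StInt) (h2 : StMemR) (h3 : StPerm) (hK : Pos n Kc δ) (hB : 0 ≤ B) {h : ℕ}
    {I : Finset (Fin n)} {i k : Fin n} (hc : (Iᶜ : Finset (Fin n)).card = h) (hi : i ∈ I)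
    (hk : k ∈ Iᶜ) :
    Integrable (fun y => Lam Kc B Iᶜ (bO h I i k y)) (Pe n) ∧
    ∫ y, Lam Kc B Iᶜ (bO h I i k y) ∂(Pe n) =
      ∫ y, Lam Kc B Iᶜ (rs Iᶜ (TM Iᶜ k y)) ∂(Pe n) := by
  have hmp := h3 n (Equiv.swap i k)
  have hint := (memR_sum h1 h2 hK hB Iᶜ Iᶜ ⟨k, hk⟩).1 k hk
  have hcont : Continuous (fun y => Lam Kc B Iᶜ (rs Iᶜ (TM Iᶜ k y))) :=
    (continuous_lam hK hB Iᶜ).comp ((continuous_rs Iᶜ).comp (continuous_TM Iᶜ k))
  have e : (fun y => Lam Kc B Iᶜ (bO h I i k y)) =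
      (fun y => Lam Kc B Iᶜ (rs Iᶜ (TM Iᶜ k y))) ∘
        (fun (y : Vec n) (j : Fin n) => y (Equiv.swap i k j)) := by
    funext y
    rw [bO_eq hc hi hk y]
    rfl
  refine ⟨?_, ?_⟩
  · rw [e]
    exact hmp.integrable_comp_of_integrable hint
  · rw [e]
    have h5 := integral_map (μ := Pe n) hmp.measurable.aemeasurable
      (f := fun y => Lam Kc B Iᶜ (rs Iᶜ (TM Iᶜ k y))) (by
        rw [hmp.map_eq]
        exact hcont.aestronglyMeasurable)
    rw [hmp.map_eq] at h5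
    exact h5.symm

lemma sum_T (h : ℕ) : ∑ I ∈ (univ : Finset (Fin n)).powersetCard h, ∑ l ∈ Iᶜ, J Kc B l I =
    T h Kc B := by
  unfold T
  refine sum_comm' fun I l => ?_
  simp only [mem_powersetCard, mem_compl, mem_univ, and_true, subset_univ, true_and]
  constructor
  · rintro ⟨h1, h2⟩
    refine ⟨fun j hj => mem_erase.2 ⟨?_, mem_univ j⟩, h1⟩
    rintro rfl
    exact h2 hj
  · rintro ⟨h1, h2⟩
    exact ⟨h2, fun hl => (mem_erase.1 (h1 hl)).1 rfl⟩

end EO

open EO in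
/-- expectation of `PsiO` summed over the pieces -/
theorem stEO (h1 : StInt) (h2 : StMemR) (h3 : StPerm) (h4 : StMean) : StEO := by
  intro h Kc δ B x hh hK hB
  have hhR : (h : ℝ) ≠ 0 := by
    have : 0 < h := hh
    positivity
  have hcard : ∀ I ∈ (univ : Finset (Fin (2 * h))).powersetCard h,
      I.card = h ∧ (Iᶜ : Finset (Fin (2 * h))).card = h := by
    intro I hI
    have h5 := (mem_powersetCard.1 hI).2
    refine ⟨h5, ?_⟩
    rw [card_compl, h5, Fintype.card_fin]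
    omega
  -- one piece
  have hone : ∀ I ∈ (univ : Finset (Fin (2 * h))).powersetCard h, ∀ i ∈ I, ∀ k ∈ Iᶜ,
      ∫ y, PsiO h Kc B I i k x y ∂(Pe (2 * h)) =
        ∫ y, Lam Kc B I (rs I (TM I i y)) ∂(Pe (2 * h)) +
        ∫ y, Lam Kc B Iᶜ (rs Iᶜ (TM Iᶜ k y)) ∂(Pe (2 * h)) - gg h Kc B I x / h := by
    intro I hI i hi k hk
    obtain ⟨hc1, hc2⟩ := hcard I hI
    have i1 : Integrable (fun y => Lam Kc B I (aO h I i y)) (Pe (2 * h)) := by
      have := (memR_sum h1 h2 hK hB I I ⟨i, hi⟩).1 i hi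
      simpa only [aO_eq hc1] using this
    obtain ⟨i2, e2⟩ := bO_int h1 h2 h3 hK hB hc2 hi hk
    have i3 : Integrable (fun y : Vec (2 * h) => (y i / h) * gg h Kc B I x) (Pe (2 * h)) :=
      ((int_coord h1 i).div_const _).mul_const _
    have i4 : ∀ F : Finset (Fin (2 * h)),
        Integrable (fun y : Vec (2 * h) => ∑ j ∈ F, y j) (Pe (2 * h)) := fun F =>
      integrable_finsetSum _ fun j _ => int_coord h1 j
    have i5 : Integrable (fun y : Vec (2 * h) =>
        uu I x * ((∑ j ∈ I.erase i, y j) - ∑ j ∈ Iᶜ.erase k, y j)) (Pe (2 * h)) :=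
      ((i4 _).sub (i4 _)).const_mul _
    have e1 : ∫ y, Lam Kc B I (aO h I i y) ∂(Pe (2 * h)) =
        ∫ y, Lam Kc B I (rs I (TM I i y)) ∂(Pe (2 * h)) := by simp only [aO_eq hc1]
    have e3 : ∫ y : Vec (2 * h), (y i / h) * gg h Kc B I x ∂(Pe (2 * h)) =
        gg h Kc B I x / h := by
      rw [integral_mul_const, integral_div, h4]
      ring
    have e5 : ∫ y : Vec (2 * h),
        uu I x * ((∑ j ∈ I.erase i, y j) - ∑ j ∈ Iᶜ.erase k, y j) ∂(Pe (2 * h)) = 0 := by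
      rw [integral_const_mul, integral_sub (i4 _) (i4 _), integral_sum h1 h4, integral_sum h1 h4,
        card_erase_of_mem hi, card_erase_of_mem hk, hc1, hc2, sub_self, mul_zero]
    have i12 : Integrable (fun y => Lam Kc B I (aO h I i y) + Lam Kc B Iᶜ (bO h I i k y))
        (Pe (2 * h)) := i1.add i2
    have i123 : Integrable (fun y => Lam Kc B I (aO h I i y) + Lam Kc B Iᶜ (bO h I i k y) -
        (y i / h) * gg h Kc B I x) (Pe (2 * h)) := i12.sub i3
    unfold PsiO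
    rw [integral_add i123 i5, integral_sub i12 i3, integral_add i1 i2, e1, e2, e3, e5, add_zero]
  -- one set
  have hset : ∀ I ∈ (univ : Finset (Fin (2 * h))).powersetCard h,
      ∑ i ∈ I, ∑ k ∈ Iᶜ, ∫ y, PsiO h Kc B I i k x y ∂(Pe (2 * h)) =
        2 * h ^ 2 * (∑ l ∈ Iᶜ, J Kc B l I) + 2 * h ^ 2 * (∑ l ∈ Iᶜᶜ, J Kc B l Iᶜ) -
          h * gg h Kc B I x := by
    intro I hI
    obtain ⟨hc1, hc2⟩ := hcard I hI
    have hne1 : I.Nonempty := card_pos.1 (by omega)
    have hne2 : (Iᶜ : Finset (Fin (2 * h))).Nonempty := card_pos.1 (by omega)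
    have s1 := (memR_sum h1 h2 hK hB I I hne1).2
    have s2 := (memR_sum h1 h2 hK hB Iᶜ Iᶜ hne2).2
    rw [integral_lam h1 hK hB, hc1] at s1
    rw [integral_lam h1 hK hB, hc2] at s2
    calc ∑ i ∈ I, ∑ k ∈ Iᶜ, ∫ y, PsiO h Kc B I i k x y ∂(Pe (2 * h))
        = ∑ i ∈ I, ∑ k ∈ Iᶜ, (∫ y, Lam Kc B I (rs I (TM I i y)) ∂(Pe (2 * h)) +
          ∫ y, Lam Kc B Iᶜ (rs Iᶜ (TM Iᶜ k y)) ∂(Pe (2 * h)) - gg h Kc B I x / h) :=
          sum_congr rfl fun i hi => sum_congr rfl fun k hk => hone I hI i hi k hk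
      _ = h * (∑ i ∈ I, ∫ y, Lam Kc B I (rs I (TM I i y)) ∂(Pe (2 * h))) +
          h * (∑ k ∈ Iᶜ, ∫ y, Lam Kc B Iᶜ (rs Iᶜ (TM Iᶜ k y)) ∂(Pe (2 * h))) -
          h * gg h Kc B I x := by
        simp only [sum_sub_distrib, sum_add_distrib, sum_const, hc1, hc2, nsmul_eq_mul]
        rw [← mul_sum, mul_div_cancel₀ _ hhR]
      _ = _ := by
        rw [s1, s2]
        ring
  rw [sum_congr rfl hset, sum_sub_distrib, sum_add_distrib, ← mul_sum, ← mul_sum, ← mul_sum]
  have hT1 := sum_T (Kc := Kc) (B := B) h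
  have hT2 : ∑ I ∈ (univ : Finset (Fin (2 * h))).powersetCard h, ∑ l ∈ Iᶜᶜ, J Kc B l Iᶜ =
      T h Kc B := by
    rw [← hT1]
    refine sum_nbij' (fun I => Iᶜ) (fun I => Iᶜ) ?_ ?_ ?_ ?_ ?_
    · intro I hI
      exact mem_powersetCard.2 ⟨subset_univ _, (hcard I hI).2⟩
    · intro I hI
      exact mem_powersetCard.2 ⟨subset_univ _, (hcard I hI).2⟩
    · intro I _
      exact compl_compl I
    · intro I _
      exact compl_compl I
    · intro I _
      rfl
  rw [hT1, hT2]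
  ring

end Pool.Agent.Lib.MP_725e58_gt.Loc
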