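import Pool.Agent.Lib.MP_725e58_gt.Loc.Stmts

/-!
Local maximality of the simplex for the Fary-Redei problem: exclusion, even dimension.
-/

set_option autoImplicit false

namespace Pool.Agent.Lib.MP_725e58_gt.Loc

open MeasureTheory Finset

namespace ExE

variable {n : ℕ}

/-- the coordinates split into `k`, `I` and `JJ I k` -/
lemma sum_split {I : Finset (Fin n)} {k : Fin n} (hI : I ⊆ univ.erase k) (f : Fin n → ℝ) :
    ∑ i, f i = f k + ∑ i ∈ I, f i + ∑ i ∈ JJ I k, f i := by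
  rw [← add_sum_erase univ f (mem_univ k), ← sum_sdiff hI]
  unfold JJ
  ring

lemma sum_compl {I : Finset (Fin n)} {k : Fin n} (hI : I ⊆ univ.erase k) (f : Fin n → ℝ) :
    ∑ i ∈ Iᶜ, f i = f k + ∑ i ∈ JJ I k, f i := by
  have h1 := sum_split hI f
  have h2 := sum_add_sum_compl I f
  linarith

end ExE

open ExE

/-- exclusion, even dimension -/
theorem stExE (hN : StNear) : StExE := by
  intro h Kc δ hK hδ0 hδ k I hI w _ hRT m _ l hl
  obtain ⟨hIs, hIc⟩ := mem_powersetCard.1 hI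
  obtain ⟨P, hP, Q, hQ, hPQ, s, hs⟩ := hRT
  have hP0 := Cn_nonneg hK hP
  have hQ0 := Cn_nonneg hK hQ
  have hkI : k ∉ I := fun hk => by simpa using hIs hk
  have hkJ : k ∉ JJ I k := by simp [JJ]
  have hJI : ∀ j ∈ JJ I k, j ∉ I := fun j hj => by
    unfold JJ at hj
    exact (mem_sdiff.1 hj).2
  have hIJ : ∀ i ∈ I, i ∉ JJ I k := fun i hi hj => hJI i hj hi
  have hJc : (JJ I k).card = h := by
    unfold JJ
    rw [card_sdiff_of_subset hIs, card_erase_of_mem (mem_univ k), card_univ, Fintype.card_fin, hIc]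
    omega
  -- the value at `k`
  have hk : s = Q k - P k := by
    have h1 := hs k
    unfold zE at h1
    rw [rs_apply_not_mem hkI, rs_apply_not_mem hkJ] at h1
    simp only [Pi.zero_apply, mul_zero] at h1
    linarith
  have hi : ∀ i ∈ I, w i = P i - Q i - (P k - Q k) := fun i hi => by
    have h1 := hs i
    unfold zE at h1
    rw [rs_apply_mem hi, rs_apply_not_mem (hIJ i hi)] at h1
    simp only [Pi.zero_apply, mul_zero] at h1
    linarith
  have hj : ∀ j ∈ JJ I k, w j = Q j - P j + (P k - Q k) := fun j hj => by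
    have h1 := hs j
    unfold zE at h1
    rw [rs_apply_mem hj, rs_apply_not_mem (hJI j hj)] at h1
    simp only [Pi.zero_apply, mul_zero] at h1
    linarith
  have hwI : ∑ i ∈ I, w i = ∑ i ∈ I, P i - ∑ i ∈ I, Q i - h * (P k - Q k) := by
    rw [sum_congr rfl hi, sum_sub_distrib, sum_sub_distrib, sum_const, hIc, nsmul_eq_mul]
  have hwJ : ∑ j ∈ JJ I k, w j =
      ∑ j ∈ JJ I k, Q j - ∑ j ∈ JJ I k, P j + h * (P k - Q k) := by
    rw [sum_congr rfl hj, sum_add_distrib, sum_sub_distrib, sum_const, hJc, nsmul_eq_mul]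
  have hsw := sum_split hIs w
  have hsP := sum_split hIs P
  have hsQ := sum_split hIs Q
  have hPQ' : ∑ i, P i + ∑ i, Q i = ∑ i, w i := hPQ
  have hwk : w k = P k + 2 * ∑ j ∈ JJ I k, P j + Q k + 2 * ∑ i ∈ I, Q i := by
    linarith
  -- the form `l`
  have hl1 : ∀ i, l i ≤ 1 := hl.2.1
  have hl2 : ∀ i, -1 ≤ l i := fun i => by
    have := hN (2 * h + 1) Kc δ m l hK hδ0 hδ hl i
    linarith
  have e1 : -∑ i ∈ I, l i * P i ≤ P k + ∑ j ∈ JJ I k, P j := by
    have h1 := Cn_dot_nonneg hl.1 hP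
    have h2 : dot l P = ∑ i ∈ I, l i * P i + ∑ i ∈ Iᶜ, l i * P i :=
      (sum_add_sum_compl I _).symm
    have h3 : ∑ i ∈ Iᶜ, l i * P i ≤ ∑ i ∈ Iᶜ, P i :=
      sum_le_sum fun i _ => by nlinarith [hl1 i, hP0 i]
    rw [sum_compl hIs P] at h3
    linarith
  have e2 : ∑ i ∈ I, l i * Q i ≤ ∑ i ∈ I, Q i :=
    sum_le_sum fun i _ => by nlinarith [hl1 i, hQ0 i]
  have e3 : |∑ i ∈ I, l i| ≤ h := by
    refine (abs_sum_le_sum_abs _ _).trans ?_
    calc ∑ i ∈ I, |l i| ≤ ∑ i ∈ I, (1 : ℝ) := sum_le_sum fun i _ => abs_le.2 ⟨hl2 i, hl1 i⟩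
      _ = h := by rw [sum_const, hIc]; simp
  obtain ⟨e4, e5⟩ := abs_le.1 e3
  have e6 : (P k - Q k) * ∑ i ∈ I, l i ≤ h * (P k + Q k) := by
    nlinarith [hP0 k, hQ0 k]
  have e7 : dot l (rs I w) = ∑ i ∈ I, l i * P i - ∑ i ∈ I, l i * Q i -
      (P k - Q k) * ∑ i ∈ I, l i := by
    rw [dot_rs, mul_sum, ← sum_sub_distrib, ← sum_sub_distrib]
    exact sum_congr rfl fun i hi' => by rw [hi i hi']; ring
  have e8 : 0 ≤ ∑ j ∈ JJ I k, P j := sum_nonneg fun j _ => hP0 j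
  have e9 : 0 ≤ ∑ i ∈ I, Q i := sum_nonneg fun i _ => hQ0 i
  have e10 : (0 : ℝ) ≤ h := Nat.cast_nonneg h
  rw [e7, hwk]
  have := hP0 k
  have := hQ0 k
  nlinarith [mul_nonneg e10 e8, mul_nonneg e10 e9]

end Pool.Agent.Lib.MP_725e58_gt.Loc
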