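import Pool.Agent.Lib.MP_725e58_gt.Loc.Stmts

/-!
Local maximality of the simplex for the Fary-Redei problem: exclusion, odd dimension.
-/

set_option autoImplicit false

namespace Pool.Agent.Lib.MP_725e58_gt.Loc

open MeasureTheory Finset

theorem stExO (hN : StNear) : StExO := by
  intro h Kc δ h1 hK hδ0 hδ I hI i hi k hk w _ hRT
  rw [mem_powersetCard] at hI
  obtain ⟨-, hcard⟩ := hI
  obtain ⟨P, hP, Q, hQ, hsum, s, hz⟩ := hRT
  have hh : (0 : ℝ) < h := by exact_mod_cast h1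
  have hkI : k ∉ I := by simpa using hk
  have hP0 := Cn_nonneg hK hP
  have hQ0 := Cn_nonneg hK hQ
  have hz' : ∀ j, zO h I i k w j = P j - Q j + s := by
    intro j
    rw [hz j]
    simp
  have zk : zO h I i k w k = 0 := by simp [zO, aO, rs, one, hkI]
  have hs : s = Q k - P k := by
    have := hz' k
    rw [zk] at this
    linarith
  have hcardc : Iᶜ.card = h := by
    rw [card_compl, Fintype.card_fin, hcard]
    omega
  have ha : ∀ j ∈ I, aO h I i w j = P j - Q j - (P k - Q k) := by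
    intro j hj
    have e := hz' j
    have e2 : rs (Iᶜ.erase k) w j = 0 := rs_apply_not_mem (by simp [hj]) w
    unfold zO at e
    rw [e2] at e
    linarith
  have ha0 : ∀ j ∉ I, aO h I i w j = 0 := by
    intro j hj
    simp [aO, rs, one, hj]
  have hwc : ∀ j ∈ Iᶜ.erase k, w j = -(P j - Q j) + (P k - Q k) := by
    intro j hj
    have e := hz' j
    have hjI : j ∉ I := by
      have := mem_of_mem_erase hj
      simpa using this
    unfold zO at e
    rw [rs_apply_mem hj, ha0 j hjI] at e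
    linarith
  have hwi : w i / h = P i - Q i - (P k - Q k) := by
    have e := ha i hi
    unfold aO at e
    rw [rs_apply_not_mem (notMem_erase i I)] at e
    simp only [one, hi, if_true, mul_one, zero_add] at e
    exact e
  have hwI : ∀ j ∈ I.erase i, w j = (P j - Q j) - (P i - Q i) := by
    intro j hj
    have hjI := mem_of_mem_erase hj
    have e := ha j hjI
    unfold aO at e
    rw [rs_apply_mem hj] at e
    simp only [one, hjI, if_true, mul_one] at e
    linarith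
  have hwi2 : w i = h * (P i - Q i - (P k - Q k)) := by
    rw [← hwi]
    field_simp
  -- sums
  have s1 : ∑ j ∈ I.erase i, w j = ∑ j ∈ I, P j - ∑ j ∈ I, Q j - h * (P i - Q i) := by
    rw [sum_congr rfl hwI, sum_erase I (by ring), sum_sub_distrib, sum_sub_distrib, sum_const,
      hcard, nsmul_eq_mul]
  have s2 : ∑ j ∈ Iᶜ.erase k, w j =
      -(∑ j ∈ Iᶜ, P j - ∑ j ∈ Iᶜ, Q j) + h * (P k - Q k) := by
    rw [sum_congr rfl hwc, sum_erase Iᶜ (by ring), sum_add_distrib, sum_neg_distrib,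
      sum_sub_distrib, sum_const, hcardc, nsmul_eq_mul]
  have s3 : sm w = w i + ∑ j ∈ I.erase i, w j + (w k + ∑ j ∈ Iᶜ.erase k, w j) := by
    rw [add_sum_erase I w hi, add_sum_erase Iᶜ w hk, sm, sum_add_sum_compl]
  have s4 : sm P = ∑ j ∈ I, P j + ∑ j ∈ Iᶜ, P j := by rw [sm, sum_add_sum_compl]
  have s5 : sm Q = ∑ j ∈ I, Q j + ∑ j ∈ Iᶜ, Q j := by rw [sm, sum_add_sum_compl]
  have hc : w k = 2 * ∑ j ∈ Iᶜ, P j + 2 * ∑ j ∈ I, Q j := by
    rw [s3, s1, s2, hwi2, s4, s5] at hsum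
    linarith
  have hPc : 0 ≤ ∑ j ∈ Iᶜ, P j := sum_nonneg fun j _ => hP0 j
  have hQI : 0 ≤ ∑ j ∈ I, Q j := sum_nonneg fun j _ => hQ0 j
  have hPk : P k ≤ ∑ j ∈ Iᶜ, P j := single_le_sum (f := P) (fun j _ => hP0 j) hk
  have hQi : Q i ≤ ∑ j ∈ I, Q j := single_le_sum (f := Q) (fun j _ => hQ0 j) hi
  refine ⟨by rw [hc]; linarith, fun m _ l hl => ?_⟩
  have hl1 : ∀ j, -1 ≤ l j := fun j => by
    have := hN (2 * h) Kc δ m l hK hδ0 hδ hl j
    linarith
  obtain ⟨hlK, hl2, -⟩ := hl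
  have b1 : -∑ j ∈ I, l j * P j ≤ ∑ j ∈ Iᶜ, P j := by
    have e := Cn_dot_nonneg hlK hP
    rw [dot, ← sum_add_sum_compl I] at e
    have e2 : ∑ j ∈ Iᶜ, l j * P j ≤ ∑ j ∈ Iᶜ, P j :=
      sum_le_sum fun j _ => mul_le_of_le_one_left (hP0 j) (hl2 j)
    linarith
  have b2 : ∑ j ∈ I, l j * Q j ≤ ∑ j ∈ I, Q j :=
    sum_le_sum fun j _ => mul_le_of_le_one_left (hQ0 j) (hl2 j)
  have b3 : ∑ j ∈ I, l j ≤ h := by
    have e : ∑ j ∈ I, l j ≤ ∑ _j ∈ I, (1 : ℝ) := sum_le_sum fun j _ => hl2 j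
    rw [sum_const, hcard, nsmul_eq_mul, mul_one] at e
    exact e
  have b4 : -(h : ℝ) ≤ ∑ j ∈ I, l j := by
    have e : ∑ _j ∈ I, (-1 : ℝ) ≤ ∑ j ∈ I, l j := sum_le_sum fun j _ => hl1 j
    rw [sum_const, hcard, nsmul_eq_mul] at e
    linarith
  have key : ∀ u : ℝ, ∑ j ∈ I, l j * (P j - Q j - u) =
      ∑ j ∈ I, l j * P j - ∑ j ∈ I, l j * Q j - u * ∑ j ∈ I, l j := by
    intro u
    rw [mul_sum, ← sum_sub_distrib, ← sum_sub_distrib]
    exact sum_congr rfl fun j _ => by ring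
  rw [dot_one, dot_rs]
  constructor
  · intro h0
    have e : dot l (aO h I i w) = ∑ j ∈ I, l j * (P j - Q j - (P k - Q k)) := by
      rw [dot, ← sum_add_sum_compl I]
      have e1 : ∑ j ∈ Iᶜ, l j * aO h I i w j = 0 :=
        sum_eq_zero fun j hj => by rw [ha0 j (by simpa using hj), mul_zero]
      rw [e1, add_zero]
      exact sum_congr rfl fun j hj => by rw [ha j hj]
    rw [e, key]
    have e2 : P k * ∑ j ∈ I, l j ≤ (∑ j ∈ Iᶜ, P j) * h := mul_le_mul hPk b3 h0 hPc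
    have e3 : 0 ≤ Q k * ∑ j ∈ I, l j := mul_nonneg (hQ0 k) h0
    rw [hc]
    nlinarith
  · intro h0
    have e : ∑ j ∈ I.erase i, l j * w j = ∑ j ∈ I, l j * (P j - Q j - (P i - Q i)) := by
      rw [← sum_erase I (a := i) (f := fun j => l j * (P j - Q j - (P i - Q i))) (by ring)]
      exact sum_congr rfl fun j hj => by rw [hwI j hj]
    rw [e, key]
    have e2 : Q i * (-∑ j ∈ I, l j) ≤ (∑ j ∈ I, Q j) * h :=
      mul_le_mul hQi (by linarith) (by linarith) hQI
    have e3 : P i * ∑ j ∈ I, l j ≤ 0 := mul_nonpos_of_nonneg_of_nonpos (hP0 i) h0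
    rw [hc]
    nlinarith

end Pool.Agent.Lib.MP_725e58_gt.Loc
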