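import Pool.Agent.Lib.MP_725e58_gt.Loc.Stmts

/-!
Local maximality of the simplex for the Fary-Redei problem: final assembly, and positive volume of
the difference.
-/

set_option autoImplicit false

namespace Pool.Agent.Lib.MP_725e58_gt.Loc

open MeasureTheory Finset

/-- the theorem -/
theorem stFinal (h1 : StMin) (h2 : StPosThm) : StFinal := by
  intro d hd
  obtain ⟨δ, hδ, c, hc, h⟩ := h2 d hd
  obtain ⟨ε, hε, hε1, h'⟩ := h1 d δ (by omega) hδ
  refine ⟨ε, hε, hε1, c, hc, fun s K hs hK hKc hKs hn => ?_⟩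
  obtain ⟨t, ht⟩ := h' s K hs hK hKc hKs hn
  obtain ⟨x, hx, hx'⟩ := h K t ht
  exact ⟨t, ht.aff, ht.sub, x, hx, hx'⟩

/-- a convex body strictly inside a simplex misses a set of positive volume -/
theorem stDiff : StDiff := by
  intro d K t ht hK hKs hne
  have hspan : affineSpan ℝ (Set.range t) = ⊤ := by
    rw [ht.affineSpan_eq_top_iff_card_eq_finrank_add_one, Fintype.card_fin,
      finrank_euclideanSpace_fin]
  have hint : (interior (Sx t)).Nonempty := interior_convexHull_nonempty_iff_affineSpan_eq_top.2 hspan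
  have hconv : Convex ℝ (Sx t) := convex_convexHull ℝ _
  obtain ⟨p, hp, hpK⟩ : ∃ p ∈ Sx t, p ∉ K := by
    by_contra hcon
    push Not at hcon
    exact hne (Set.Subset.antisymm hKs hcon)
  have hpc : p ∈ closure (interior (Sx t)) := by
    rw [hconv.closure_interior_eq_closure_of_nonempty_interior hint]
    exact subset_closure hp
  obtain ⟨q, hq, hq'⟩ := mem_closure_iff.1 hpc Kᶜ hK.isClosed.isOpen_compl hpK
  refine lt_of_lt_of_le ((hK.isClosed.isOpen_compl.inter isOpen_interior).measure_pos volume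
    ⟨q, hq, hq'⟩) (measure_mono ?_)
  rintro r ⟨hr, hr'⟩
  exact ⟨interior_subset hr', hr⟩

end Pool.Agent.Lib.MP_725e58_gt.Loc
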