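import Pool.Agent.Lib.MP_725e58_gt.Loc.Stmts

/-!
Points with large barycentric coordinates are in `K`.
-/

set_option autoImplicit false

namespace Pool.Agent.Lib.MP_725e58_gt.Loc

open MeasureTheory Finset

theorem stIn (h1 : StSep) (h2 : StNear) (h3 : StTr) : StIn := by
  intro d K t δ hd hδ hδ1 hP x hx hx1
  have hK : Pos (d + 1) (Kb K t) δ := (h3 d K t δ hd hδ hP).1
  have hn : (0 : ℝ) < (d : ℝ) + 1 := by positivity
  have hd1 : (1 : ℝ) ≤ d := by exact_mod_cast hd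
  obtain ⟨y, hy⟩ : ∃ y : Vec (d + 1), y = fun i => 1 / ((d : ℝ) + 1) + x i := ⟨_, rfl⟩
  have hy1 : ∀ i, 3 / (4 * ((d : ℝ) + 1)) ≤ y i := by
    intro i
    have h4 := (abs_le.1 (hx1 i)).1
    rw [hy]
    have h5 : (3 : ℝ) / (4 * ((d : ℝ) + 1)) = 1 / ((d : ℝ) + 1) + -(1 / (4 * ((d : ℝ) + 1))) := by
      field_simp
      ring
    rw [h5]
    exact add_le_add le_rfl h4
  have hpos : (0 : ℝ) < 3 / (4 * ((d : ℝ) + 1)) := by positivity
  have hy0 : ∀ i, 0 ≤ y i := fun i => hpos.le.trans (hy1 i)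
  have hsm : sm y = 1 := by
    have h4 : sm y = sm (fun _ : Fin (d + 1) => 1 / ((d : ℝ) + 1)) + sm x := by
      rw [← sm_add, hy]
      rfl
    rw [h4, hx, add_zero]
    simp only [sm, sum_const, card_univ, Fintype.card_fin, nsmul_eq_mul]
    push_cast
    field_simp
  rw [← hy]
  by_contra hcon
  have hnot : y ∉ Cn (Kb K t) := by
    rintro ⟨r, -, p, hp, hyp⟩
    have h4 : sm y = r * sm p := by rw [hyp, sm_smul]
    rw [hsm, hp.2.1, mul_one] at h4
    rw [← h4, one_smul] at hyp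
    rw [hyp] at hcon
    exact hcon hp.2.2
  obtain ⟨m, l, hl, hly⟩ := h1 (d + 1) (Kb K t) δ (by omega) hK y hnot hy0
  have hδ2 : δ ≤ 1 / 2 := by
    refine hδ1.trans ?_
    rw [div_le_div_iff₀ (by positivity) (by norm_num)]
    nlinarith
  have hnear := h2 (d + 1) (Kb K t) δ m l hK hδ.le hδ2 hl
  have h4 : (l m + 2 * δ) * y m ≤ ∑ i, (l i + 2 * δ) * y i :=
    single_le_sum (f := fun i => (l i + 2 * δ) * y i)
      (fun i _ => mul_nonneg (by linarith [hnear i]) (hy0 i)) (mem_univ m)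
  have h5 : ∑ i, (l i + 2 * δ) * y i = dot l y + 2 * δ := by
    have h6 : ∑ i, (l i + 2 * δ) * y i = dot l y + 2 * δ * sm y := by
      simp only [dot, sm, mul_sum, ← sum_add_distrib]
      exact sum_congr rfl fun i _ => by ring
    rw [h6, hsm, mul_one]
  rw [h5, hl.2.2] at h4
  have h7 : 2 * δ ≤ 1 / (4 * ((d : ℝ) + 1)) := by
    have h8 : (1 : ℝ) / (4 * ((d : ℝ) + 1)) = 2 * (1 / (8 * ((d : ℝ) + 1))) := by
      field_simp
      norm_num
    rw [h8]
    exact mul_le_mul_of_nonneg_left hδ1 (by norm_num)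
  have h8 : (1 : ℝ) / (4 * ((d : ℝ) + 1)) < 3 / (4 * ((d : ℝ) + 1)) :=
    div_lt_div_of_pos_right (by norm_num) (by positivity)
  have h9 := hy1 m
  have h10 : y m ≤ (1 + 2 * δ) * y m := by
    have := mul_nonneg hδ.le (hy0 m)
    linarith
  linarith

end Pool.Agent.Lib.MP_725e58_gt.Loc
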