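import Pool.Agent.Lib.MP_725e58_gt.Loc.Stmts

/-!
Module JENS: Jensen for the gap functions.
-/

set_option autoImplicit false

namespace Pool.Agent.Lib.MP_725e58_gt.Loc

open MeasureTheory Finset

namespace Jens

variable {n : ℕ}

lemma le_two_exp (x : ℝ) : x ≤ 2 * Real.exp (1 / 2 * x) := by
  have := Real.add_one_le_exp (1 / 2 * x)
  linarith

/-- linear growth implies integrability -/
lemma int_of_linear (h1 : StInt) {f : Vec n → ℝ} (hf : Measurable f) {C : ℝ} (hC : 0 ≤ C)
    (h : ∀ y ∈ Orth n, |f y| ≤ C * sm y) : Integrable f (Pe n) := by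
  refine h1 n f (C * 2) (1 / 2) hf (by norm_num) fun y hy => (h y hy).trans ?_
  rw [mul_assoc]
  exact mul_le_mul_of_nonneg_left (le_two_exp _) hC

lemma int_coord (h1 : StInt) (i : Fin n) : Integrable (fun y : Vec n => y i) (Pe n) := by
  refine int_of_linear h1 (measurable_pi_apply i) zero_le_one fun y hy => ?_
  rw [abs_of_nonneg (hy i), one_mul]
  exact le_sm hy i

lemma sm_rs_le (H : Finset (Fin n)) {y : Vec n} (hy : y ∈ Orth n) : sm (rs H y) ≤ sm y := by
  rw [sm_rs]
  exact sum_le_sum_of_subset_of_nonneg (subset_univ H) fun i _ _ => hy i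

lemma int_phi (h1 : StInt) {Kc : Set (Vec n)} {δ B : ℝ} (hK : Pos n Kc δ) (hB : 0 ≤ B)
    (l : Fin n) (H : Finset (Fin n)) : Integrable (fun y => Phi Kc B l (rs H y)) (Pe n) := by
  refine int_of_linear h1 ((continuous_phi hK hB).comp (continuous_rs H)).measurable hB
    fun y hy => ?_
  rw [abs_of_nonneg (phi_nonneg hK hB _)]
  exact (phi_le_sm hK hB (rs_nonneg H hy)).trans (mul_le_mul_of_nonneg_left (sm_rs_le H hy) hB)

lemma int_dot (h1 : StInt) (L : Vec n) (H : Finset (Fin n)) :
    Integrable (fun y => dot L (rs H y)) (Pe n) := by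
  simp_rw [dot_rs]
  exact integrable_finsetSum _ fun i _ => (int_coord h1 i).const_mul (L i)

lemma mean_dot (h1 : StInt) (h2 : StMean) (L : Vec n) (H : Finset (Fin n)) :
    ∫ y, dot L (rs H y) ∂(Pe n) = dot L (one H) := by
  simp_rw [dot_rs, dot_one]
  rw [integral_finsetSum _ fun i _ => (int_coord h1 i).const_mul (L i)]
  refine sum_congr rfl fun i _ => ?_
  rw [integral_const_mul, h2 n i, mul_one]

end Jens

open Jens

theorem stJens (h1 : StInt) (h2 : StMean) : StJens := by
  intro n Kc δ B l H hK hB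
  obtain ⟨L, hL, hy⟩ := exists_phi (l := l) hK hB (one H)
  rw [hy, ← mean_dot h1 h2 L H]
  exact integral_mono (int_dot h1 L H) (int_phi h1 hK hB l H) fun y => le_phi hL _

end Pool.Agent.Lib.MP_725e58_gt.Loc
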