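import Pool.Agent.Lib.MP_725e58_gt.Loc.Stmts

/-!
Local maximality of the simplex for the Fary-Redei problem: the perturbed average.
-/

set_option autoImplicit false

namespace Pool.Agent.Lib.MP_725e58_gt.Loc

open MeasureTheory Finset

namespace Jump

variable {n : ℕ}

/-- the number of `h`-subsets which contain a given element -/
lemma card_mem {G : Finset (Fin n)} {h : ℕ} (h1 : 1 ≤ h) {i : Fin n} (hi : i ∈ G) :
    ((G.powersetCard h).filter fun H => i ∈ H).card = Nat.choose (G.card - 1) (h - 1) := by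
  have e := Finset.card_filter_powersetCard_subset {i} G h (Finset.singleton_subset_iff.2 hi)
    (by rwa [Finset.card_singleton])
  rw [Finset.card_singleton] at e
  rw [← e]
  congr 1
  ext H
  simp only [Finset.mem_filter, Finset.singleton_subset_iff]

/-- the sum of the restrictions -/
lemma sum_rs (G : Finset (Fin n)) {h : ℕ} (h1 : 1 ≤ h) (y : Vec n) :
    ∑ H ∈ G.powersetCard h, rs H y = (Nat.choose (G.card - 1) (h - 1) : ℝ) • rs G y := by
  funext i
  rw [Finset.sum_apply, Pi.smul_apply, smul_eq_mul]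
  by_cases hi : i ∈ G
  · rw [rs_apply_mem hi]
    simp only [rs]
    rw [← Finset.sum_filter, Finset.sum_const, card_mem h1 hi, nsmul_eq_mul]
  · rw [rs_apply_not_mem hi, mul_zero]
    refine Finset.sum_eq_zero fun H hH => rs_apply_not_mem (fun h => hi ?_) y
    exact (Finset.mem_powersetCard.1 hH).1 h

/-- integrability of functions of linear growth -/
lemma integrable_lin (h1 : StInt) {f : Vec n → ℝ} {a : ℝ} (ha : 0 ≤ a) (hf : Measurable f)
    (h : ∀ y ∈ Orth n, |f y| ≤ a * sm y) : Integrable f (Pe n) := by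
  refine h1 n f (2 * a) (1 / 2) hf (by norm_num) fun y hy => (h y hy).trans ?_
  have h4 : sm y ≤ 2 * Real.exp (1 / 2 * sm y) := by
    have := Real.add_one_le_exp (1 / 2 * sm y)
    linarith
  calc a * sm y ≤ a * (2 * Real.exp (1 / 2 * sm y)) := mul_le_mul_of_nonneg_left h4 ha
    _ = _ := by ring

lemma sm_rs_le {y : Vec n} (hy : y ∈ Orth n) (H : Finset (Fin n)) : sm (rs H y) ≤ sm y := by
  rw [sm_rs]
  exact Finset.sum_le_sum_of_subset_of_nonneg (Finset.subset_univ _) fun i _ _ => hy i

variable {Kc : Set (Vec n)} {δ B : ℝ} {l : Fin n}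

/-- integrability of the gap functions -/
lemma integrable_phi (h1 : StInt) (hK : Pos n Kc δ) (hB : 0 ≤ B)
    (l : Fin n) (H : Finset (Fin n)) : Integrable (fun y => Phi Kc B l (rs H y)) (Pe n) := by
  refine integrable_lin h1 hB ((continuous_phi hK hB).comp (continuous_rs H)).measurable
    fun y hy => ?_
  rw [abs_of_nonneg (phi_nonneg hK hB _)]
  exact (phi_le_sm (l := l) hK hB (rs_nonneg H hy)).trans
    (mul_le_mul_of_nonneg_left (sm_rs_le hy H) hB)

lemma integrable_coord (h1 : StInt) (i : Fin n) : Integrable (fun y : Vec n => y i) (Pe n) := by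
  refine integrable_lin h1 (a := 1) zero_le_one (measurable_pi_apply i) fun y hy => ?_
  rw [abs_of_nonneg (hy i), one_mul]
  exact le_sm hy i

lemma integrable_dot (h1 : StInt) (L : Vec n) (H : Finset (Fin n)) :
    Integrable (fun y : Vec n => dot L (rs H y)) (Pe n) := by
  simp only [dot_rs]
  exact integrable_finsetSum _ fun i _ => (integrable_coord h1 i).const_mul _

lemma mean_dot (h1 : StInt) (h2 : StMean) (L : Vec n) (H : Finset (Fin n)) :
    ∫ y : Vec n, dot L (rs H y) ∂(Pe n) = dot L (one H) := by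
  simp only [dot_rs, dot_one]
  rw [integral_finsetSum _ fun i _ => (integrable_coord h1 i).const_mul _]
  refine Finset.sum_congr rfl fun i _ => ?_
  rw [integral_const_mul, h2 n i, mul_one]

lemma dot_scl (L : Vec n) {H : Finset (Fin n)} {m : Fin n} (hm : m ∈ H) (s : ℝ) (y : Vec n) :
    dot L (rs H (scl m s y)) = dot L (rs H y) + (s - 1) * L m * y m := by
  rw [dot_rs, dot_rs, ← add_sum_erase H _ hm, ← add_sum_erase H (fun i => L i * y i) hm]
  have h1 : ∑ i ∈ H.erase m, L i * scl m s y i = ∑ i ∈ H.erase m, L i * y i := by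
    refine Finset.sum_congr rfl fun i hi => ?_
    rw [scl, if_neg (Finset.ne_of_mem_erase hi)]
  rw [h1, scl, if_pos rfl]
  ring

/-- the difference between the gap function and a supporting form -/
noncomputable def exc (Kc : Set (Vec n)) (B : ℝ) (l : Fin n) (L : Vec n) (H : Finset (Fin n))
    (y : Vec n) : ℝ := Phi Kc B l (rs H y) - dot L (rs H y)

/-- the expectation after scaling one coordinate -/
lemma mean_scl (h1 : StInt) (h2 : StMean) (h3 : StScl) (hK : Pos n Kc δ) (hB : 0 ≤ B)
    {L : Vec n} (hL : L ∈ LL Kc B l) {H : Finset (Fin n)} {m : Fin n} (hm : m ∈ H) {s : ℝ}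
    (hs : 1 / 2 ≤ s) (hs' : s ≤ 2) :
    Integrable (fun y => Phi Kc B l (rs H (scl m s y))) (Pe n) ∧
    ∫ y, Phi Kc B l (rs H (scl m s y)) ∂(Pe n) ≤ dot L (one H) + (s - 1) * L m +
      2 ^ (n + 1) * (J Kc B l H - dot L (one H)) := by
  have hmeas : Measurable (exc Kc B l L H) :=
    ((continuous_phi hK hB).comp (continuous_rs H)).measurable.sub
      ((continuous_dot L).comp (continuous_rs H)).measurable
  have hint : Integrable (exc Kc B l L H) (Pe n) :=
    (integrable_phi h1 hK hB l H).sub (integrable_dot h1 L H)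
  obtain ⟨i1, i2⟩ := h3 n (exc Kc B l L H) m s hmeas
    (fun y _ => sub_nonneg.2 (le_phi hL _))
    (fun y _ a ha => by
      unfold exc
      rw [rs_smul, phi_smul hK hB ha, dot_smul]
      ring) hs hs' hint
  have hE : ∫ y, exc Kc B l L H y ∂(Pe n) = J Kc B l H - dot L (one H) := by
    unfold exc
    rw [integral_sub (integrable_phi h1 hK hB l H) (integrable_dot h1 L H), mean_dot h1 h2]
    rfl
  have hlin : Integrable (fun y : Vec n => dot L (rs H (scl m s y))) (Pe n) := by
    simp only [dot_scl L hm]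
    exact (integrable_dot h1 L H).add ((integrable_coord h1 m).const_mul _)
  have hlinE : ∫ y : Vec n, dot L (rs H (scl m s y)) ∂(Pe n) =
      dot L (one H) + (s - 1) * L m := by
    simp only [dot_scl L hm]
    rw [integral_add (integrable_dot h1 L H) ((integrable_coord h1 m).const_mul _),
      mean_dot h1 h2, integral_const_mul, h2 n m, mul_one]
  have heq : (fun y : Vec n => Phi Kc B l (rs H (scl m s y))) =
      fun y => exc Kc B l L H (scl m s y) + dot L (rs H (scl m s y)) := by
    funext y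
    unfold exc
    ring
  rw [heq]
  refine ⟨i1.add hlin, ?_⟩
  rw [integral_add i1 hlin, hlinE, ← hE]
  linarith

/-- the pointwise inequality -/
lemma point (hK : Pos n Kc δ) (hB : 0 ≤ B) {G H H' : Finset (Fin n)} {m : Fin n} {h : ℕ}
    (hh : 1 ≤ h) (hH : H ∈ G.powersetCard h) (hH' : H' ∈ G.powersetCard h) (hne : H ≠ H')
    (hm : m ∈ H) (hm' : m ∈ H') (y : Vec n) :
    (Nat.choose (G.card - 1) (h - 1) : ℝ) * Phi Kc B l (rs G y) ≤
      Phi Kc B l (rs H (scl m (1 / 2) y)) + Phi Kc B l (rs H' (scl m (3 / 2) y)) +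
        ∑ K ∈ ((G.powersetCard h).erase H).erase H', Phi Kc B l (rs K y) := by
  have hH'' : H' ∈ (G.powersetCard h).erase H := Finset.mem_erase.2 ⟨hne.symm, hH'⟩
  have e1 : rs H y + rs H' y = rs H (scl m (1 / 2) y) + rs H' (scl m (3 / 2) y) := by
    funext i
    simp only [Pi.add_apply, rs, scl]
    by_cases him : i = m
    · subst him
      simp only [hm, hm', if_true]
      ring
    · simp only [him, if_false]
  have e2 : (Nat.choose (G.card - 1) (h - 1) : ℝ) • rs G y =
      rs H (scl m (1 / 2) y) + rs H' (scl m (3 / 2) y) +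
        ∑ K ∈ ((G.powersetCard h).erase H).erase H', rs K y := by
    rw [← sum_rs G hh y, ← add_sum_erase _ _ hH, ← add_sum_erase _ _ hH'', ← add_assoc, e1]
  rw [← phi_smul hK hB (Nat.cast_nonneg _), e2]
  exact (phi_add_le hK hB _ _).trans (add_le_add (phi_add_le hK hB _ _) (phi_sum_le hK hB _ _))

end Jump

open Jump in
/-- the perturbed average -/
theorem stJump (h1 : StInt) (h2 : StMean) (h3 : StScl) (h4 : StJens) : StJump := by
  intro n Kc δ B l m G H H' h L L' hK hB hh hH hH' hne hm hm' hL hL' hPL hPL'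
  obtain ⟨a1, a2⟩ := mean_scl h1 h2 h3 hK hB hL hm (s := 1 / 2) le_rfl (by norm_num)
  obtain ⟨b1, b2⟩ := mean_scl h1 h2 h3 hK hB hL' hm' (s := 3 / 2) (by norm_num) (by norm_num)
  have hH'' : H' ∈ (G.powersetCard h).erase H := Finset.mem_erase.2 ⟨hne.symm, hH'⟩
  have c1 : Integrable (fun y => ∑ K ∈ ((G.powersetCard h).erase H).erase H',
      Phi Kc B l (rs K y)) (Pe n) := integrable_finsetSum _ fun K _ => integrable_phi h1 hK hB l K
  have c2 : ∫ y, ∑ K ∈ ((G.powersetCard h).erase H).erase H', Phi Kc B l (rs K y) ∂(Pe n) =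
      ∑ K ∈ ((G.powersetCard h).erase H).erase H', J Kc B l K := by
    rw [integral_finsetSum _ fun K _ => integrable_phi h1 hK hB l K]
    rfl
  have hmain : (Nat.choose (G.card - 1) (h - 1) : ℝ) * J Kc B l G ≤
      ∫ y, Phi Kc B l (rs H (scl m (1 / 2) y)) ∂(Pe n) +
      ∫ y, Phi Kc B l (rs H' (scl m (3 / 2) y)) ∂(Pe n) +
        ∑ K ∈ ((G.powersetCard h).erase H).erase H', J Kc B l K := by
    have ab : Integrable (fun y => Phi Kc B l (rs H (scl m (1 / 2) y)) +
        Phi Kc B l (rs H' (scl m (3 / 2) y))) (Pe n) := a1.add b1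
    rw [← c2, ← integral_add a1 b1, ← integral_add ab c1]
    unfold J
    rw [← integral_const_mul]
    exact integral_mono ((integrable_phi h1 hK hB l G).const_mul _) (ab.add c1)
      fun y => point hK hB hh hH hH' hne hm hm' y
  have j1 := h4 n Kc δ B l H hK hB
  have j2 := h4 n Kc δ B l H' hK hB
  rw [← add_sum_erase _ _ hH, ← add_sum_erase _ _ hH'']
  rw [← hPL] at a2
  rw [← hPL'] at b2
  linarith

end Pool.Agent.Lib.MP_725e58_gt.Loc
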