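import Pool.Agent.Lib.MP_725e58_gt.Loc.Stmts

/-!
Local maximality of the simplex for the Fary-Redei problem: deterministic decomposition of the
lost part.
-/

set_option autoImplicit false

namespace Pool.Agent.Lib.MP_725e58_gt.Loc

open MeasureTheory Finset

namespace K1

variable {n : ℕ}

/-- the form of the facet `m` attached to a valid form -/
def fm (m : Fin n) (l : Vec n) : Vec n := fun i => if i = m then 0 else -l i

lemma dot_fm {m : Fin n} {l : Vec n} (hl : l m = 1) (y : Vec n) :
    dot (fm m l) y = y m - dot l y := by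
  unfold dot fm
  rw [← add_sum_erase _ _ (mem_univ m), ← add_sum_erase (s := univ) (a := m)
    (f := fun i => l i * y i) (mem_univ m)]
  simp only [if_true, zero_mul, zero_add, hl, one_mul]
  have : ∑ i ∈ univ.erase m, (if i = m then 0 else -l i) * y i =
      -∑ i ∈ univ.erase m, l i * y i := by
    rw [← sum_neg_distrib]
    refine sum_congr rfl fun i hi => ?_
    rw [if_neg (ne_of_mem_erase hi), neg_mul]
  rw [this]
  ring

lemma sm_pos {y l : Vec n} (hy : y ∈ Orth n) (hl : dot l y < 0) : 0 < sm y := by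
  rcases (sm_nonneg hy).lt_or_eq with h | h
  · exact h
  · exfalso
    have h0 : ∀ i, y i = 0 := fun i =>
      le_antisymm ((le_sm hy i).trans h.symm.le) (hy i)
    have : dot l y = 0 := by
      unfold dot
      exact sum_eq_zero fun i _ => by rw [h0 i, mul_zero]
    linarith

lemma coef_lt {y l : Vec n} {δ X : ℝ} (hy : y ∈ Orth n) (hδ : 0 ≤ δ) (hX : 0 < X)
    (hn : ∀ i, -(2 * δ) ≤ l i) (hl : dot l y < 0) {i : Fin n} (hi : X * sm y ≤ y i) :
    l i ≤ 2 * δ / X := by
  have hs := sm_pos hy hl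
  by_contra hcon
  push Not at hcon
  have hli : 0 ≤ l i := le_trans (by positivity) hcon.le
  have h1 : l i * y i + ∑ j ∈ univ.erase i, l j * y j = dot l y :=
    add_sum_erase univ (fun j => l j * y j) (mem_univ i)
  have h2 : -(2 * δ) * ∑ j ∈ univ.erase i, y j ≤ ∑ j ∈ univ.erase i, l j * y j := by
    rw [mul_sum]
    exact sum_le_sum fun j _ => mul_le_mul_of_nonneg_right (hn j) (hy j)
  have h3 : ∑ j ∈ univ.erase i, y j ≤ sm y :=
    sum_le_sum_of_subset_of_nonneg (erase_subset _ _) fun j _ _ => hy j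
  have h4 : l i * (X * sm y) ≤ l i * y i := mul_le_mul_of_nonneg_left hi hli
  have h5 : 2 * δ < l i * X := by rwa [div_lt_iff₀ hX] at hcon
  have h6 : 2 * δ * sm y < l i * X * sm y := mul_lt_mul_of_pos_right h5 hs
  have h7 : 2 * δ * ∑ j ∈ univ.erase i, y j ≤ 2 * δ * sm y :=
    mul_le_mul_of_nonneg_left h3 (by positivity)
  nlinarith

end K1

open Pool.Agent.Lib.MP_725e58_gt.Loc.K1 in
/-- deterministic decomposition of the lost part -/
theorem stK1 (h1 : StNear) (h2 : StSep) : StK1 := by
  intro n Kc δ B X hn hK hδ hδ2 hX hX2 hB y hy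
  obtain ⟨m, l, hl, hly⟩ := h2 n Kc δ hn hK y hy.2 hy.1
  have hnear := h1 n Kc δ m l hK hδ hδ2 hl
  have hδB : 2 * δ ≤ 2 * δ / X := by
    rw [le_div_iff₀ hX]
    nlinarith
  have hB0 : 0 ≤ B := le_trans (by positivity) hB
  refine ⟨m, ?_⟩
  by_cases hall : ∀ i, i ≠ m → X * sm y ≤ y i
  · left
    have hL : fm m l ∈ LL Kc B m := by
      refine ⟨by simp [fm], fun i => ?_, fun p hp => ?_⟩
      · by_cases hi : i = m
        · simpa [fm, hi] using hB0
        · simp only [fm, hi, if_false, abs_neg]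
          rw [abs_le]
          exact ⟨by linarith [hnear i], (coef_lt hy.1 hδ hX hnear hly (hall i hi)).trans hB⟩
      · rw [dot_fm hl.2.2]
        linarith [hl.1 p hp]
    refine ⟨hy.1, ?_⟩
    rw [phi_congr_rs hK hB0]
    have h3 := le_phi hL y
    rw [dot_fm hl.2.2] at h3
    linarith
  · right
    push Not at hall
    obtain ⟨r, hr, hyr⟩ := hall
    refine ⟨r, hr, hyr, ?_⟩
    rcases lt_or_ge (l r) 0 with h | h
    · left
      exact ⟨hy.1, m, l, hl, h, hly⟩
    · right
      exact ⟨hy.1, l, hl, h, hly⟩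

end Pool.Agent.Lib.MP_725e58_gt.Loc
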