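import Pool.Agent.Lib.MP_725e58_gt.Loc.Stmts

/-!
REFL project, item KA: losses of the last kind are bounded by the losses of the reflection body.
-/

namespace Pool.Agent.Lib.MP_725e58_gt.Loc
open Finset MeasureTheory

namespace KA

variable {n : ℕ}

lemma scl_Orth {r : Fin n} {s : ℝ} (hs : 0 ≤ s) {y : Vec n} (hy : y ∈ Orth n) : scl r s y ∈ Orth n := by
  intro i
  unfold scl
  split_ifs
  · exact mul_nonneg hs (hy i)
  · exact hy i

lemma scl_rs {r : Fin n} {s : ℝ} {H : Finset (Fin n)} (hr : r ∉ H) (y : Vec n) :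
    rs H (scl r s y) = rs H y := by
  funext i
  unfold rs scl
  by_cases h : i ∈ H
  · have : i ≠ r := fun e => hr (e ▸ h)
    simp [h, this]
  · simp [h]

lemma scl_ne {r m : Fin n} {s : ℝ} (h : m ≠ r) (y : Vec n) : scl r s y m = y m := by
  simp [scl, h]

lemma smul_Orth {y : Vec n} (hy : y ∈ Orth n) {t : ℝ} (ht : 0 < t) : t • y ∈ Orth n := by
  intro i
  simp only [Pi.smul_apply, smul_eq_mul]
  exact mul_nonneg ht.le (hy i)

lemma WW_smul {Kc : Set (Vec n)} {m : Fin n} {H : Finset (Fin n)} {y : Vec n} (hy : y ∈ WW Kc m H)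
    {t : ℝ} (ht : 0 < t) : t • y ∈ WW Kc m H := by
  obtain ⟨h1, l, hl, h2⟩ := hy
  refine ⟨smul_Orth h1 ht, l, hl, ?_⟩
  rw [rs_smul, dot_smul]
  simp only [Pi.smul_apply, smul_eq_mul]
  nlinarith

lemma WW_scl {Kc : Set (Vec n)} {m r : Fin n} {H : Finset (Fin n)} {y : Vec n} (hy : y ∈ WW Kc m H)
    (hmr : m ≠ r) (hr : r ∉ H) {t : ℝ} (ht : 0 < t) : scl r t y ∈ WW Kc m H := by
  obtain ⟨h1, l, hl, h2⟩ := hy
  refine ⟨scl_Orth ht.le h1, l, hl, ?_⟩
  rw [scl_rs hr, scl_ne hmr]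
  exact h2

lemma WW2_smul {Kc : Set (Vec n)} {m : Fin n} {H : Finset (Fin n)} {y : Vec n} (hy : y ∈ WW2 Kc m H)
    {t : ℝ} (ht : 0 < t) : t • y ∈ WW2 Kc m H := by
  obtain ⟨h1, l, hl, h3, h2⟩ := hy
  refine ⟨smul_Orth h1 ht, l, hl, h3, ?_⟩
  rw [rs_smul, dot_smul]
  simp only [Pi.smul_apply, smul_eq_mul]
  nlinarith

lemma WW2_scl {Kc : Set (Vec n)} {m r : Fin n} {H : Finset (Fin n)} {y : Vec n} (hy : y ∈ WW2 Kc m H)
    (hmr : m ≠ r) (hr : r ∉ H) {t : ℝ} (ht : 0 < t) : scl r t y ∈ WW2 Kc m H := by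
  obtain ⟨h1, l, hl, h3, h2⟩ := hy
  refine ⟨scl_Orth ht.le h1, l, hl, h3, ?_⟩
  rw [scl_rs hr, scl_ne hmr]
  exact h2

lemma WW1_smul {Kc : Set (Vec n)} {m i : Fin n} {H : Finset (Fin n)} {y : Vec n}
    (hy : y ∈ WW1 Kc m i H) {t : ℝ} (ht : 0 < t) : t • y ∈ WW1 Kc m i H := by
  obtain ⟨h1, l, hl, h3, h2⟩ := hy
  refine ⟨smul_Orth h1 ht, l, hl, h3, ?_⟩
  rw [rs_smul, dot_smul]
  simp only [Pi.smul_apply, smul_eq_mul]
  nlinarith

lemma WW1_scl {Kc : Set (Vec n)} {m i r : Fin n} {H : Finset (Fin n)} {y : Vec n}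
    (hy : y ∈ WW1 Kc m i H) (hmr : m ≠ r) (hr : r ∉ H) {t : ℝ} (ht : 0 < t) :
    scl r t y ∈ WW1 Kc m i H := by
  obtain ⟨h1, l, hl, h3, h2⟩ := hy
  refine ⟨scl_Orth ht.le h1, l, hl, h3, ?_⟩
  rw [scl_rs hr, scl_ne hmr]
  exact h2

lemma toReal_le {v : ENNReal} {b c P : ℝ} (hb : 1 ≤ b) (hc : 0 < c) (hP0 : 0 ≤ P) (hP : P ≤ 1)
    (h : v ≤ ENNReal.ofReal (b - c * P)) : min c 1 * P ≤ b - v.toReal := by
  have h1 : v ≤ ENNReal.ofReal (b - min c 1 * P) := by
    refine h.trans (ENNReal.ofReal_le_ofReal ?_)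
    have := mul_le_mul_of_nonneg_right (min_le_left c 1) hP0
    linarith
  have h2 : 0 ≤ b - min c 1 * P := by
    have h3 : min c 1 ≤ 1 := min_le_right _ _
    have h4 : 0 < min c 1 := lt_min hc one_pos
    nlinarith
  have := ENNReal.toReal_mono ENNReal.ofReal_ne_top h1
  rw [ENNReal.toReal_ofReal h2] at this
  linarith

lemma gen (hDS : StDS) (hP : StProb) {α : Type} {Kc : Set (Vec n)} {m r : Fin n} (hmr : m ≠ r)
    (s : Finset α) (U : α → Set (Vec n)) (hmeas : ∀ a ∈ s, MeasurableSet (U a))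
    (hO : ∀ a ∈ s, U a ⊆ Orth n) (hcone : ∀ a ∈ s, ∀ y ∈ U a, ∀ t : ℝ, 0 < t → t • y ∈ U a)
    (hr : ∀ a ∈ s, ∀ y ∈ U a, ∀ t : ℝ, 0 < t → scl r t y ∈ U a)
    {c₀ : ℝ} (hc₀ : 0 < c₀) (hc₁ : c₀ ≤ 1) (sel : ∀ y ∈ SA Kc m r, ∃ a ∈ s, scl m c₀ y ∈ U a)
    {b c : ℝ} (hb : 1 ≤ b) (hc : 0 < c)
    (hVR : ∀ a ∈ s, VR Kc 0 ≤ ENNReal.ofReal (b - c * (Pe n).real (U a)))
    (hVb : (VR Kc 0).toReal ≤ b) {N : ℝ} (hN : (s.card : ℝ) ≤ N) {X : ℝ} (hX : 0 < X)
    (hX2 : X ≤ 1 / 2) :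
    (Pe n).real {y | y ∈ SA Kc m r ∧ y r < X * sm y} ≤
      (2 / c₀ * 2 ^ n * (N / min c 1)) * X * (b - (VR Kc 0).toReal) := by
  haveI : IsProbabilityMeasure (Pe n) := hP n
  set A : Set (Vec n) := {y | y ∈ SA Kc m r ∧ y r < X * sm y} with hA
  set W : Set (Vec n) := ⋃ a ∈ s, U a with hW
  have hW1 : MeasurableSet W := Finset.measurableSet_biUnion _ hmeas
  have hmem : ∀ y, y ∈ W ↔ ∃ a ∈ s, y ∈ U a := by
    intro y; simp [hW]
  have h1 := hDS n A W m r c₀ X hmr hc₀ hc₁ hX hX2 hW1 (by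
      intro y hy
      obtain ⟨a, ha, h⟩ := (hmem y).1 hy
      exact hO a ha h) (by
      intro y hy t ht
      obtain ⟨a, ha, h⟩ := (hmem y).1 hy
      exact (hmem _).2 ⟨a, ha, hcone a ha y h t ht⟩) (by
      intro y hy
      exact hy.1.1) (by
      intro y hy
      have h2 := hy.2
      have h3 : 0 ≤ y r := hy.1.1 r
      nlinarith) (by
      intro y hy
      obtain ⟨a, ha, h⟩ := sel y hy.1
      exact (hmem _).2 ⟨a, ha, hr a ha _ h _ (by positivity)⟩)
  have h2 : (Pe n).real A ≤ (2 * X / c₀ * 2 ^ n) * (Pe n).real W := by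
    have := ENNReal.toReal_mono (ENNReal.mul_ne_top ENNReal.ofReal_ne_top (measure_ne_top _ _)) h1
    rw [ENNReal.toReal_mul, ENNReal.toReal_ofReal (by positivity)] at this
    exact this
  have hm : 0 < min c 1 := lt_min hc one_pos
  have h3 : (Pe n).real W ≤ ∑ a ∈ s, (Pe n).real (U a) := by
    exact measureReal_biUnion_finset_le s U
  have h4 : ∑ a ∈ s, (Pe n).real (U a) ≤ N * ((b - (VR Kc 0).toReal) / min c 1) := by
    calc ∑ a ∈ s, (Pe n).real (U a) ≤ ∑ _a ∈ s, ((b - (VR Kc 0).toReal) / min c 1) := by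
          apply Finset.sum_le_sum
          intro a ha
          rw [le_div_iff₀ hm, mul_comm]
          exact toReal_le hb hc measureReal_nonneg measureReal_le_one (hVR a ha)
      _ = s.card * ((b - (VR Kc 0).toReal) / min c 1) := by simp
      _ ≤ _ := by
          apply mul_le_mul_of_nonneg_right hN
          exact div_nonneg (by linarith) hm.le
  calc (Pe n).real A ≤ (2 * X / c₀ * 2 ^ n) * (Pe n).real W := h2
    _ ≤ (2 * X / c₀ * 2 ^ n) * (N * ((b - (VR Kc 0).toReal) / min c 1)) :=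
        mul_le_mul_of_nonneg_left (h3.trans h4) (by positivity)
    _ = _ := by ring

lemma card_le (s : Finset (Finset (Fin n))) : (s.card : ℝ) ≤ 2 ^ n := by
  have : s.card ≤ (univ : Finset (Finset (Fin n))).card := Finset.card_le_card (subset_univ s)
  rw [Finset.card_univ, Fintype.card_finset, Fintype.card_fin] at this
  exact_mod_cast this

end KA

open KA in
theorem stKA (h1 : StSelE) (h2 : StSelO) (h3 : StDS) (h4 : StR2E) (h5 : StR2O) (h6 : StWWm)
    (h7 : StProb) : StKA := by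
  intro n hn
  rcases Nat.even_or_odd' n with ⟨h, rfl | rfl⟩
  · -- `n = 2 h`
    have hh : 2 ≤ h := by omega
    obtain ⟨c, hc, H⟩ := h5 h hh
    have hbn : bn (2 * h) = Nat.choose (2 * h - 1) h := by
      unfold bn
      have e : (2 * h - 1) / 2 = h - 1 := by omega
      rw [e]
      exact Nat.choose_symm_of_eq_add (by omega)
    have hb1 : (1 : ℝ) ≤ (Nat.choose (2 * h - 1) h : ℝ) := by
      have : 0 < Nat.choose (2 * h - 1) h := Nat.choose_pos (by omega)
      exact_mod_cast this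
    refine ⟨2 / (1 / 4) * 2 ^ (2 * h) * ((2 ^ (2 * h) + (2 * h) * 2 ^ (2 * h)) / min c 1),
      by have := lt_min hc one_pos; positivity, ?_⟩
    intro Kc δ X m r hrm hK hδ hδ2 hX hX2
    obtain ⟨Ha, Hb⟩ := H Kc δ hK hδ hδ2 m
    have hne : ((univ.erase m : Finset (Fin (2 * h))).powersetCard h).Nonempty := by
      apply powersetCard_nonempty.2
      rw [card_erase_of_mem (mem_univ m)]
      simp; omega
    obtain ⟨H0, hH0⟩ := hne
    have hV := Ha H0 hH0
    haveI : IsProbabilityMeasure (Pe (2 * h)) := h7 _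
    have hVtop : VR Kc 0 ≠ ⊤ := ne_top_of_le_ne_top ENNReal.ofReal_ne_top hV
    have hVb : (VR Kc 0).toReal ≤ (Nat.choose (2 * h - 1) h : ℝ) := by
      have := toReal_le hb1 hc measureReal_nonneg measureReal_le_one hV
      have h8 : 0 ≤ min c 1 * (Pe (2 * h)).real (WW2 Kc m H0) :=
        mul_nonneg (lt_min hc one_pos).le measureReal_nonneg
      linarith
    refine ⟨hVtop, by rw [hbn]; exact hVb, ?_⟩
    rw [hbn]
    -- index set
    let s : Finset (Finset (Fin (2 * h)) ⊕ (Fin (2 * h) × Finset (Fin (2 * h)))) :=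
      (((univ.erase m).erase r).powersetCard h).disjSum
        ((univ : Finset (Fin (2 * h) × Finset (Fin (2 * h)))).filter fun p =>
          p.1 ≠ m ∧ p.1 ≠ r ∧ p.2 ∈ (((univ.erase m).erase r).erase p.1).powersetCard (h - 1))
    let U : Finset (Fin (2 * h)) ⊕ (Fin (2 * h) × Finset (Fin (2 * h))) → Set (Vec (2 * h)) :=
      Sum.elim (fun H => WW2 Kc m H) (fun p => WW1 Kc m p.1 p.2)
    have hs : ∀ a ∈ s, (∃ H, a = Sum.inl H ∧ H ∈ ((univ.erase m).erase r).powersetCard h) ∨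
        (∃ i H, a = Sum.inr (i, H) ∧ i ≠ m ∧ i ≠ r ∧
          H ∈ (((univ.erase m).erase r).erase i).powersetCard (h - 1)) := by
      intro a ha
      rw [Finset.mem_disjSum] at ha
      rcases ha with ⟨H, hH, rfl⟩ | ⟨⟨i, H⟩, hH, rfl⟩
      · exact Or.inl ⟨H, rfl, hH⟩
      · rw [mem_filter] at hH
        exact Or.inr ⟨i, H, rfl, hH.2.1, hH.2.2.1, hH.2.2.2⟩
    have hr1 : ∀ H ∈ ((univ.erase m).erase r : Finset (Fin (2 * h))).powersetCard h, r ∉ H := by
      intro H hH hr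
      have := (mem_powersetCard.1 hH).1 hr
      simp at this
    have hr2 : ∀ i, ∀ H ∈ (((univ.erase m).erase r).erase i : Finset (Fin (2 * h))).powersetCard (h - 1),
        r ∉ H := by
      intro i H hH hr
      have := (mem_powersetCard.1 hH).1 hr
      simp at this
    refine gen h3 h7 hrm.symm s U ?_ ?_ ?_ ?_ (by norm_num) (by norm_num) ?_ hb1 hc ?_ hVb ?_ hX hX2
    · intro a ha
      rcases hs a ha with ⟨H, rfl, -⟩ | ⟨i, H, rfl, -⟩
      · exact (h6 _ Kc m m r H).2.1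
      · exact (h6 _ Kc m i r H).2.2.1
    · intro a ha y hy
      rcases hs a ha with ⟨H, rfl, -⟩ | ⟨i, H, rfl, -⟩
      · exact hy.1
      · exact hy.1
    · intro a ha y hy t ht
      rcases hs a ha with ⟨H, rfl, -⟩ | ⟨i, H, rfl, -⟩
      · exact WW2_smul hy ht
      · exact WW1_smul hy ht
    · intro a ha y hy t ht
      rcases hs a ha with ⟨H, rfl, hH⟩ | ⟨i, H, rfl, -, -, hH⟩
      · exact WW2_scl hy hrm.symm (hr1 H hH) ht
      · exact WW1_scl hy hrm.symm (hr2 i H hH) ht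
    · intro y hy
      rcases h2 h Kc m r hh hrm y hy with ⟨H, hH, hy2⟩ | ⟨i, him, hir, H, hH, hy2⟩
      · exact ⟨Sum.inl H, Finset.inl_mem_disjSum.2 hH, hy2⟩
      · exact ⟨Sum.inr (i, H), Finset.inr_mem_disjSum.2 (mem_filter.2 ⟨mem_univ _, him, hir, hH⟩), hy2⟩
    · intro a ha
      rcases hs a ha with ⟨H, rfl, hH⟩ | ⟨i, H, rfl, him, hir, hH⟩
      · exact Ha H (powersetCard_mono (erase_subset _ _) hH)
      · refine Hb i him H (powersetCard_mono ?_ hH)
        intro j hj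
        simp only [mem_erase, mem_univ, and_true] at hj ⊢
        exact ⟨hj.1, hj.2.2⟩
    · have e1 : s.card = (((univ.erase m).erase r : Finset (Fin (2 * h))).powersetCard h).card +
          ((univ : Finset (Fin (2 * h) × Finset (Fin (2 * h)))).filter fun p =>
          p.1 ≠ m ∧ p.1 ≠ r ∧ p.2 ∈ (((univ.erase m).erase r).erase p.1).powersetCard (h - 1)).card := by
        exact Finset.card_disjSum _ _
      have e2 := card_le (((univ.erase m).erase r : Finset (Fin (2 * h))).powersetCard h)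
      have e3 : (((univ : Finset (Fin (2 * h) × Finset (Fin (2 * h)))).filter fun p =>
          p.1 ≠ m ∧ p.1 ≠ r ∧ p.2 ∈ (((univ.erase m).erase r).erase p.1).powersetCard (h - 1)).card : ℝ)
          ≤ (2 * h) * 2 ^ (2 * h) := by
        have := Finset.card_filter_le (univ : Finset (Fin (2 * h) × Finset (Fin (2 * h)))) fun p =>
          p.1 ≠ m ∧ p.1 ≠ r ∧ p.2 ∈ (((univ.erase m).erase r).erase p.1).powersetCard (h - 1)
        rw [Finset.card_univ, Fintype.card_prod, Fintype.card_finset, Fintype.card_fin] at this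
        exact_mod_cast this
      rw [e1]
      push_cast
      linarith
  · -- `n = 2 h + 1`
    have hh : 1 ≤ h := by omega
    obtain ⟨c, hc, H⟩ := h4 h hh
    have hbn : bn (2 * h + 1) = Nat.choose (2 * h) h := by
      unfold bn
      have e : (2 * h + 1 - 1) / 2 = h := by omega
      rw [e]
      simp
    have hb1 : (1 : ℝ) ≤ (Nat.choose (2 * h) h : ℝ) := by
      have : 0 < Nat.choose (2 * h) h := Nat.choose_pos (by omega)
      exact_mod_cast this
    refine ⟨2 / (1 / 2) * 2 ^ (2 * h + 1) * ((2 ^ (2 * h + 1)) / min c 1),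
      by have := lt_min hc one_pos; positivity, ?_⟩
    intro Kc δ X m r hrm hK hδ hδ2 hX hX2
    have Ha := H Kc δ hK hδ hδ2 m
    have hne : ((univ.erase m : Finset (Fin (2 * h + 1))).powersetCard h).Nonempty := by
      apply powersetCard_nonempty.2
      rw [card_erase_of_mem (mem_univ m)]
      simp; omega
    obtain ⟨H0, hH0⟩ := hne
    have hV := Ha H0 hH0
    haveI : IsProbabilityMeasure (Pe (2 * h + 1)) := h7 _
    have hVtop : VR Kc 0 ≠ ⊤ := ne_top_of_le_ne_top ENNReal.ofReal_ne_top hV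
    have hVb : (VR Kc 0).toReal ≤ (Nat.choose (2 * h) h : ℝ) := by
      have := toReal_le hb1 hc measureReal_nonneg measureReal_le_one hV
      have h8 : 0 ≤ min c 1 * (Pe (2 * h + 1)).real (WW Kc m H0) :=
        mul_nonneg (lt_min hc one_pos).le measureReal_nonneg
      linarith
    refine ⟨hVtop, by rw [hbn]; exact hVb, ?_⟩
    rw [hbn]
    have hr1 : ∀ H ∈ ((univ.erase m).erase r : Finset (Fin (2 * h + 1))).powersetCard h, r ∉ H := by
      intro H hH hr
      have := (mem_powersetCard.1 hH).1 hr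
      simp at this
    refine gen h3 h7 hrm.symm (((univ.erase m).erase r).powersetCard h) (fun H => WW Kc m H)
      ?_ ?_ ?_ ?_ (by norm_num) (by norm_num) ?_ hb1 hc ?_ hVb (card_le _) hX hX2
    · intro H _
      exact (h6 _ Kc m m r H).1
    · intro H _ y hy
      exact hy.1
    · intro H _ y hy t ht
      exact WW_smul hy ht
    · intro H hH y hy t ht
      exact WW_scl hy hrm.symm (hr1 H hH) ht
    · intro y hy
      exact h1 h Kc m r hh hrm y hy
    · intro H hH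
      exact Ha H (powersetCard_mono (erase_subset _ _) hH)

end Pool.Agent.Lib.MP_725e58_gt.Loc
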