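import Pool.Agent.Lib.MP_725e58_gt.Loc.Stmts

/-!
Local maximality of the simplex for the Fary-Redei problem, module KB: losses absorbed by the
total loss.
-/

set_option autoImplicit false

namespace Pool.Agent.Lib.MP_725e58_gt.Loc

open MeasureTheory Finset

namespace KB

variable {n : ℕ}

theorem scl_one (m : Fin n) (y : Vec n) : scl m 1 y = y := by
  funext i
  unfold scl
  split_ifs
  · rw [one_mul]
  · rfl

theorem dot_scl_le {l y : Vec n} {r : Fin n} {s : ℝ} (hs : 1 ≤ s) (hy : y ∈ Orth n)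
    (hl : l r < 0) : dot l (scl r s y) ≤ dot l y := by
  unfold dot
  refine sum_le_sum fun i _ => ?_
  unfold scl
  split_ifs with h
  · subst h
    have h1 : y i ≤ s * y i := by
      have := hy i
      nlinarith
    exact mul_le_mul_of_nonpos_left h1 hl.le
  · exact le_rfl

theorem scl_orth {y : Vec n} {r : Fin n} {s : ℝ} (hs : 0 ≤ s) (hy : y ∈ Orth n) :
    scl r s y ∈ Orth n := by
  intro i
  unfold scl
  split_ifs
  · exact mul_nonneg hs (hy i)
  · exact hy i

theorem SB_lost {Kc : Set (Vec n)} {r : Fin n} : SB Kc r ⊆ lost Kc := by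
  rintro y ⟨hy, m, l, hl, -, hd⟩
  exact ⟨hy, fun h => absurd (Cn_dot_nonneg hl.1 h) (not_le.2 hd)⟩

end KB

open KB

/-- losses absorbed by the total loss -/
theorem stKB (h1 : StDS) (h2 : StWWm) : StKB := by
  intro n Kc δ X r hn hK hX hX2
  have hnt : Nontrivial (Fin n) := Fin.nontrivial_iff_two_le.2 hn
  obtain ⟨m, hm⟩ := exists_ne r
  have hs : 1 ≤ 1 / (2 * X) := by
    rw [le_div_iff₀ (by linarith)]
    linarith
  have key := h1 n {y | y ∈ SB Kc r ∧ y r < X * sm y} (SB Kc r) m r 1 X hm one_pos le_rfl hX hX2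
    (h2 n Kc m m r ∅).2.2.2.1 (fun y hy => hy.1)
    (by
      rintro y ⟨hy, k, l, hl, hlr, hd⟩ t ht
      refine ⟨fun i => mul_nonneg ht.le (hy i), k, l, hl, hlr, ?_⟩
      rw [dot_smul]
      exact mul_neg_of_pos_of_neg ht hd)
    (fun y hy => hy.1.1)
    (by
      rintro y ⟨hy, hyr⟩
      have h3 : 0 ≤ y r := hy.1 r
      have h4 : X * y r ≤ 1 / 2 * y r := mul_le_mul_of_nonneg_right hX2 h3
      nlinarith)
    (by
      rintro y ⟨⟨hy, k, l, hl, hlr, hd⟩, -⟩
      rw [scl_one]
      exact ⟨scl_orth (by linarith) hy, k, l, hl, hlr, (dot_scl_le hs hy hlr).trans_lt hd⟩)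
  rw [div_one] at key
  exact key.trans (mul_le_mul_right (measure_mono SB_lost) _)

end Pool.Agent.Lib.MP_725e58_gt.Loc
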