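import Pool.Agent.Lib.MP_725e58_gt.Loc.Stmts

/-!
Local maximality of the simplex for the Fary-Redei problem: losses of facet type.
-/

set_option autoImplicit false

namespace Pool.Agent.Lib.MP_725e58_gt.Loc

open MeasureTheory Finset

theorem stKF (h1 : StCoord) (h2 : StInt) (h3 : StProb) : StKF := by
  intro n Kc δ B m hK hB
  haveI := h3 n
  have hJ : J Kc B m (univ.erase m) = ∫ y, Phi Kc B m y ∂(Pe n) := by
    unfold J
    exact integral_congr_ae (Filter.Eventually.of_forall fun y => phi_congr_rs hK hB y)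
  have hg : Continuous (Phi Kc B m) := continuous_phi hK hB
  have hgm : Measurable (Phi Kc B m) := hg.measurable
  have hup : ∀ (y : Vec n) (s : ℝ), Phi Kc B m (Function.update y m s) = Phi Kc B m y := by
    intro y s
    rw [← phi_congr_rs hK hB, ← phi_congr_rs hK hB y]
    congr 1
    funext i
    by_cases hi : i = m
    · subst hi; simp [rs]
    · simp [rs, hi]
  have hc := h1 n m (Phi Kc B m) hgm hup
  have hnn : ∀ y, 0 ≤ Phi Kc B m y := fun y => phi_nonneg hK hB y
  set A : Set (Vec n) := {y | y ∈ Orth n ∧ Phi Kc B m y ≤ y m} with hAdef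
  have hA : MeasurableSet A :=
    measurableSet_Orth.inter (measurableSet_le hgm (measurable_pi_apply m))
  have hset : A ∩ Orth n = {w : Vec n | (∀ i, i ≠ m → 0 ≤ w i) ∧ Phi Kc B m w ≤ w m} := by
    ext y
    constructor
    · rintro ⟨⟨hy, h⟩, -⟩
      exact ⟨fun i _ => hy i, h⟩
    · rintro ⟨hy, h⟩
      have ho : y ∈ Orth n := by
        intro i
        by_cases hi : i = m
        · subst hi; exact (hnn y).trans h
        · exact hy i hi
      exact ⟨⟨ho, h⟩, ho⟩
  have hPA : Pe n A = ∫⁻ y, ENNReal.ofReal (Real.exp (-Phi Kc B m y)) ∂(Pe n) := by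
    rw [← hc, Pe, withDensity_apply _ hA, Measure.restrict_restrict hA, hset]
  have hexpm : Measurable fun y => Real.exp (-Phi Kc B m y) := Real.measurable_exp.comp hgm.neg
  have hPAr : (Pe n).real A = ∫ y, Real.exp (-Phi Kc B m y) ∂(Pe n) := by
    rw [integral_eq_lintegral_of_nonneg_ae (Filter.Eventually.of_forall fun y => (Real.exp_pos _).le)
      hexpm.aestronglyMeasurable, measureReal_def, hPA]
  have hie : Integrable (fun y => Real.exp (-Phi Kc B m y)) (Pe n) := by
    refine Integrable.of_bound hexpm.aestronglyMeasurable 1 (Filter.Eventually.of_forall fun y => ?_)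
    rw [Real.norm_eq_abs, abs_of_pos (Real.exp_pos _), Real.exp_le_one_iff]
    linarith [hnn y]
  have hig : Integrable (Phi Kc B m) (Pe n) := by
    refine h2 n _ (2 * B) (1 / 2) hgm (by norm_num) fun y hy => ?_
    rw [abs_of_nonneg (hnn y)]
    have e1 := phi_le_sm (l := m) hK hB hy
    have e2 := Real.add_one_le_exp (1 / 2 * sm y)
    have e3 : sm y ≤ 2 * Real.exp (1 / 2 * sm y) := by linarith
    calc Phi Kc B m y ≤ B * sm y := e1
      _ ≤ B * (2 * Real.exp (1 / 2 * sm y)) := mul_le_mul_of_nonneg_left e3 hB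
      _ = 2 * B * Real.exp (1 / 2 * sm y) := by ring
  have hSF : SF Kc B m = {y | y ∈ Orth n ∧ y m < Phi Kc B m y} := by
    unfold SF
    ext y
    simp only [Set.mem_setOf_eq, phi_congr_rs hK hB y]
  have hdisj : Disjoint (SF Kc B m) A := by
    rw [hSF, Set.disjoint_left]
    rintro y ⟨-, h⟩ ⟨-, h'⟩
    exact absurd h (not_lt.2 h')
  have hsum : (Pe n).real (SF Kc B m) + (Pe n).real A ≤ 1 := by
    rw [← measureReal_union hdisj hA]
    exact measureReal_le_one
  have hint : ∫ y, (1 - Real.exp (-Phi Kc B m y)) ∂(Pe n) ≤ ∫ y, Phi Kc B m y ∂(Pe n) := by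
    refine integral_mono ((integrable_const 1).sub hie) hig fun y => ?_
    have := Real.add_one_le_exp (-Phi Kc B m y)
    show 1 - Real.exp (-Phi Kc B m y) ≤ Phi Kc B m y
    linarith
  rw [integral_sub (integrable_const 1) hie, integral_const, probReal_univ, one_smul] at hint
  rw [hJ]
  linarith

end Pool.Agent.Lib.MP_725e58_gt.Loc
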