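import Pool.Agent.Lib.MP_725e58_gt.Loc.Stmts

/-!
Local maximality of the simplex for the Fary-Redei problem: the total loss of the body.
-/

set_option autoImplicit false

namespace Pool.Agent.Lib.MP_725e58_gt.Loc

open MeasureTheory Finset

theorem stK (h1 : StK1) (h2 : StKF) (h3 : StKB) (h4 : StKA) (h5 : StProb) (_h6 : StWWm) :
    StK := by
  intro n hn
  obtain ⟨C, hC, hCC⟩ := h4 n hn
  have hn0 : (0 : ℝ) < n := by
    have : 0 < n := by omega
    exact_mod_cast this
  refine ⟨n * (2 * 2 ^ n) + n * (n * C), by positivity, ?_⟩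
  intro Kc δ B X hP hδ hδ2 hX hX2 hB
  have hB0 : 0 ≤ B := le_trans (by positivity) hB
  have hprob := h5 n
  -- facts on the reflection body
  have hne : (⟨1, by omega⟩ : Fin n) ≠ ⟨0, by omega⟩ := by
    intro h
    have := congrArg Fin.val h
    simp at this
  obtain ⟨hV, hVb, -⟩ := hCC Kc δ X ⟨0, by omega⟩ ⟨1, by omega⟩ hne hP hδ hδ2 hX hX2
  refine ⟨hV, hVb, ?_⟩
  set p := (Pe n).real (lost Kc) with hp
  set Ls := (bn n : ℝ) - (VR Kc 0).toReal with hLs
  have hLs0 : 0 ≤ Ls := sub_nonneg.2 hVb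
  have hp0 : 0 ≤ p := measureReal_nonneg
  let A1 : Fin n → Set (Vec n) := fun m => SF Kc B m
  let A2 : Fin n → Set (Vec n) := fun r => {y | y ∈ SB Kc r ∧ y r < X * sm y}
  let A3 : Fin n → Fin n → Set (Vec n) := fun m r => {y | r ≠ m ∧ (y ∈ SA Kc m r ∧ y r < X * sm y)}
  have hsub : lost Kc ⊆ ((⋃ m, A1 m) ∪ ⋃ r, A2 r) ∪ ⋃ m, ⋃ r, A3 m r := by
    intro y hy
    obtain ⟨m, hm | ⟨r, hrm, hr, hr2 | hr2⟩⟩ := h1 n Kc δ B X (by omega) hP hδ hδ2 hX hX2 hB y hy
    · exact Or.inl (Or.inl (Set.mem_iUnion.2 ⟨m, hm⟩))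
    · exact Or.inl (Or.inr (Set.mem_iUnion.2 ⟨r, hr2, hr⟩))
    · exact Or.inr (Set.mem_iUnion.2 ⟨m, Set.mem_iUnion.2 ⟨r, hrm, hr2, hr⟩⟩)
  have e1 : (Pe n).real (⋃ m, A1 m) ≤ FF Kc B := by
    refine (measureReal_iUnion_fintype_le _).trans ?_
    exact Finset.sum_le_sum fun m _ => h2 n Kc δ B m hP hB0
  have e2 : (Pe n).real (⋃ r, A2 r) ≤ n * (2 * X * 2 ^ n * p) := by
    refine (measureReal_iUnion_fintype_le _).trans ?_
    have h : ∀ r ∈ (univ : Finset (Fin n)), (Pe n).real (A2 r) ≤ 2 * X * 2 ^ n * p := by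
      intro r _
      have h6 := h3 n Kc δ X r (by omega) hP hX hX2
      have h7 := ENNReal.toReal_mono
        (ENNReal.mul_ne_top ENNReal.ofReal_ne_top (measure_ne_top _ _)) h6
      rw [ENNReal.toReal_mul, ENNReal.toReal_ofReal (by positivity)] at h7
      exact h7
    refine (Finset.sum_le_sum h).trans ?_
    rw [Finset.sum_const, Finset.card_univ, Fintype.card_fin, nsmul_eq_mul]
  have e3 : (Pe n).real (⋃ m, ⋃ r, A3 m r) ≤ n * (n * (C * X * Ls)) := by
    refine (measureReal_iUnion_fintype_le _).trans ?_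
    have h : ∀ m ∈ (univ : Finset (Fin n)), (Pe n).real (⋃ r, A3 m r) ≤ n * (C * X * Ls) := by
      intro m _
      refine (measureReal_iUnion_fintype_le _).trans ?_
      have h' : ∀ r ∈ (univ : Finset (Fin n)), (Pe n).real (A3 m r) ≤ C * X * Ls := by
        intro r _
        by_cases hrm : r = m
        · have h8 : A3 m r = ∅ := by
            ext y
            simp [A3, hrm]
          rw [h8, measureReal_empty]
          positivity
        · have h8 : A3 m r = {y | y ∈ SA Kc m r ∧ y r < X * sm y} := by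
            ext y
            simp [A3, hrm]
          rw [h8]
          exact (hCC Kc δ X m r hrm hP hδ hδ2 hX hX2).2.2
      refine (Finset.sum_le_sum h').trans ?_
      rw [Finset.sum_const, Finset.card_univ, Fintype.card_fin, nsmul_eq_mul]
    refine (Finset.sum_le_sum h).trans ?_
    rw [Finset.sum_const, Finset.card_univ, Fintype.card_fin, nsmul_eq_mul]
  have e4 : p ≤ FF Kc B + n * (2 * X * 2 ^ n * p) + n * (n * (C * X * Ls)) := by
    have h9 := measureReal_mono (μ := Pe n) hsub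
    have h10 := measureReal_union_le (μ := Pe n) ((⋃ m, A1 m) ∪ ⋃ r, A2 r) (⋃ m, ⋃ r, A3 m r)
    have h11 := measureReal_union_le (μ := Pe n) (⋃ m, A1 m) (⋃ r, A2 r)
    linarith
  have e5 : (n * (2 * 2 ^ n) + n * (n * C)) * X * (p + Ls) =
      n * (2 * X * 2 ^ n * p) + n * (n * (C * X * Ls)) +
        (n * (2 * 2 ^ n) * X * Ls + n * (n * C) * X * p) := by
    ring
  have e6 : 0 ≤ n * (2 * 2 ^ n) * X * Ls + n * (n * C) * X * p := by positivity
  linarith

end Pool.Agent.Lib.MP_725e58_gt.Loc
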