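import Pool.Agent.Lib.MP_725e58_gt.Loc.Stmts

/-! Module MEM: memorylessness of the minimum. -/

set_option autoImplicit false

namespace Pool.Agent.Lib.MP_725e58_gt.Loc

open MeasureTheory Finset

namespace Mem

variable {n : ℕ}

/-- the matrix of `TM H k` -/
noncomputable def Mx (H : Finset (Fin n)) (k : Fin n) : Matrix (Fin n) (Fin n) ℝ :=
  (1 : Matrix (Fin n) (Fin n) ℝ).updateCol k (fun i => if i ∈ H then (H.card : ℝ)⁻¹ else 0)

theorem det_Mx {H : Finset (Fin n)} {k : Fin n} (hk : k ∈ H) : (Mx H k).det = (H.card : ℝ)⁻¹ := by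
  unfold Mx
  rw [← Matrix.cramer_apply, Matrix.cramer_one]
  simp [hk]

theorem toLin_Mx (H : Finset (Fin n)) (k : Fin n) (y : Vec n) :
    Matrix.toLin' (Mx H k) y = TM H k y := by
  funext i
  rw [Matrix.toLin'_apply, Matrix.mulVec, dotProduct, ← add_sum_erase _ _ (mem_univ k)]
  have h1 : ∀ j ∈ univ.erase k, Mx H k i j * y j = if j = i then y i else 0 := by
    intro j hj
    have hj' : j ≠ k := ne_of_mem_erase hj
    unfold Mx
    rw [Matrix.updateCol_ne hj', Matrix.one_apply]
    by_cases h : j = i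
    · simp [h]
    · simp [h, Ne.symm h]
  rw [sum_congr rfl h1]
  have h2 : Mx H k i k = if i ∈ H then (H.card : ℝ)⁻¹ else 0 := by
    unfold Mx
    rw [Matrix.updateCol_self]
  rw [h2, sum_ite_eq' (univ.erase k) i (fun _ => y i)]
  unfold TM rs one
  by_cases h3 : i ∈ H <;> by_cases h4 : i ∈ univ.erase k <;> simp [h3, h4, div_eq_mul_inv] <;> ring

theorem measurable_TM (H : Finset (Fin n)) (k : Fin n) : Measurable (TM H k) := by
  have : TM H k = fun y => Matrix.toLin' (Mx H k) y := by
    funext y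
    rw [toLin_Mx]
  rw [this]
  exact (LinearMap.continuous_on_pi _).measurable

theorem lint {H : Finset (Fin n)} {k : Fin n} (hk : k ∈ H) {G : Vec n → ENNReal}
    (hG : Measurable G) : ∫⁻ y, G (TM H k y) = (H.card : ENNReal) * ∫⁻ z, G z := by
  have hc : (H.card : ℝ) ≠ 0 := by
    have := card_pos.2 ⟨k, hk⟩
    positivity
  have h1 := Real.map_matrix_volume_pi_eq_smul_volume_pi (M := Mx H k)
    (by rw [det_Mx hk]; exact inv_ne_zero hc)
  rw [det_Mx hk, inv_inv, Nat.abs_cast, ENNReal.ofReal_natCast] at h1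
  have h2 : (fun y => Matrix.toLin' (Mx H k) y) = TM H k := by
    funext y
    rw [toLin_Mx]
  have h3 : Measure.map (TM H k) volume = (H.card : ENNReal) • (volume : Measure (Vec n)) := by
    rw [← h2]
    exact h1
  rw [← lintegral_map hG (measurable_TM H k), h3, lintegral_smul_measure, smul_eq_mul]

/-- the part of the orthant where the coordinate `k` is minimal in `H` -/
def Ok (H : Finset (Fin n)) (k : Fin n) : Set (Vec n) := {z | z ∈ Orth n ∧ ∀ i ∈ H, z k ≤ z i}

theorem sm_TM {H : Finset (Fin n)} {k : Fin n} (hk : k ∈ H) (y : Vec n) :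
    sm (TM H k y) = sm y := by
  have hc : (H.card : ℝ) ≠ 0 := by
    have := card_pos.2 ⟨k, hk⟩
    positivity
  unfold TM sm
  rw [sum_add_distrib, ← mul_sum]
  have h1 : ∑ i, rs (univ.erase k) y i = ∑ i ∈ univ.erase k, y i := sm_rs _ _
  have h2 : ∑ i, one H i = (H.card : ℝ) := by
    unfold one
    rw [sum_ite_mem, univ_inter]
    simp
  rw [h1, h2, div_mul_cancel₀ _ hc, ← add_sum_erase _ _ (mem_univ k)]
  ring

theorem mem_iff {H : Finset (Fin n)} {k : Fin n} (hk : k ∈ H) (y : Vec n) :
    TM H k y ∈ Ok H k ↔ y ∈ Orth n := by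
  have hc : (0 : ℝ) < H.card := by
    have := card_pos.2 ⟨k, hk⟩
    positivity
  have e1 : TM H k y k = y k / H.card := by
    simp [TM, rs, one, hk]
  have e2 : ∀ i ∈ H, i ≠ k → TM H k y i = y i + y k / H.card := by
    intro i hi hik
    simp [TM, rs, one, hi, hik]
  have e3 : ∀ i ∉ H, TM H k y i = y i := by
    intro i hi
    have hik : i ≠ k := fun h => hi (h ▸ hk)
    simp [TM, rs, one, hi, hik]
  constructor
  · rintro ⟨h1, h2⟩ i
    by_cases hik : i = k
    · subst hik
      have := h1 i
      rw [e1] at this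
      exact (div_nonneg_iff.1 this).elim (fun h => h.1) (fun h => absurd h.2 (not_le.2 hc))
    · by_cases hi : i ∈ H
      · have := h2 i hi
        rw [e1, e2 i hi hik] at this
        linarith
      · have := h1 i
        rwa [e3 i hi] at this
  · intro hy
    have h0 : 0 ≤ y k / H.card := div_nonneg (hy k) hc.le
    refine ⟨fun i => ?_, fun i hi => ?_⟩
    · by_cases hik : i = k
      · subst hik
        rw [e1]
        exact h0
      · by_cases hi : i ∈ H
        · rw [e2 i hi hik]
          exact add_nonneg (hy i) h0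
        · rw [e3 i hi]
          exact hy i
    · by_cases hik : i = k
      · rw [hik]
      · rw [e1, e2 i hi hik]
        linarith [hy i]

theorem measurableSet_Ok (H : Finset (Fin n)) (k : Fin n) : MeasurableSet (Ok H k) := by
  have : Ok H k = Orth n ∩ ⋂ i, ⋂ (_ : i ∈ H), {z : Vec n | z k ≤ z i} := by
    ext z
    simp [Ok]
  rw [this]
  exact measurableSet_Orth.inter (MeasurableSet.iInter fun i => MeasurableSet.iInter fun _ =>
    measurableSet_le (measurable_pi_apply k) (measurable_pi_apply i))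

theorem aedisj {H : Finset (Fin n)} {k k' : Fin n} (hk : k ∈ H) (hk' : k' ∈ H) (h : k ≠ k') :
    volume (Ok H k ∩ Ok H k') = 0 := by
  set V : Submodule ℝ (Vec n) := LinearMap.ker
    ((LinearMap.proj k : Vec n →ₗ[ℝ] ℝ) - LinearMap.proj k') with hV
  have h1 : V ≠ ⊤ := by
    intro h2
    have h3 : (Pi.single k (1 : ℝ) : Vec n) ∈ V := by
      rw [h2]
      exact Submodule.mem_top
    rw [hV, LinearMap.mem_ker] at h3
    simp [h.symm] at h3
  refine measure_mono_null ?_ (Measure.addHaar_submodule volume V h1)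
  rintro z ⟨⟨-, h2⟩, ⟨-, h3⟩⟩
  change z ∈ V
  rw [hV, LinearMap.mem_ker]
  have := le_antisymm (h2 k' hk') (h3 k hk)
  simp [this]

theorem cover {H : Finset (Fin n)} (hH : H.Nonempty) : Orth n = ⋃ k ∈ H, Ok H k := by
  ext z
  simp only [Set.mem_iUnion, exists_prop]
  constructor
  · intro hz
    obtain ⟨k, hk, h⟩ := H.exists_min_image z hH
    exact ⟨k, hk, hz, h⟩
  · rintro ⟨k, -, hz, -⟩
    exact hz

theorem lint_Pe (g : Vec n → ENNReal) (hg : Measurable g) :
    ∫⁻ y, g y ∂(Pe n) = ∫⁻ y in Orth n, ENNReal.ofReal (Real.exp (-sm y)) * g y := by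
  have hsm : Measurable fun w : Vec n => ENNReal.ofReal (Real.exp (-sm w)) := by
    unfold sm
    fun_prop
  rw [Pe, lintegral_withDensity_eq_lintegral_mul _ hsm hg]
  rfl

end Mem

open Mem in
theorem stMem : StMem := by
  intro n H g hH hg
  have hsm : Measurable fun w : Vec n => ENNReal.ofReal (Real.exp (-sm w)) := by
    unfold sm
    fun_prop
  have hc : (H.card : ENNReal) ≠ 0 := by
    have := card_pos.2 hH
    exact_mod_cast this.ne'
  have h1 : ∀ k ∈ H, ∫⁻ y, g (TM H k y) ∂(Pe n) =
      (H.card : ENNReal) * ∫⁻ z in Ok H k, ENNReal.ofReal (Real.exp (-sm z)) * g z := by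
    intro k hk
    have hm : Measurable ((Ok H k).indicator
        fun z : Vec n => ENNReal.ofReal (Real.exp (-sm z)) * g z) :=
      (hsm.mul hg).indicator (measurableSet_Ok H k)
    rw [lint_Pe (fun y => g (TM H k y)) (hg.comp (measurable_TM H k)), ← lintegral_indicator (measurableSet_Ok H k),
      ← lint hk hm,
      ← lintegral_indicator measurableSet_Orth]
    refine lintegral_congr fun y => ?_
    by_cases hy : y ∈ Orth n
    · rw [Set.indicator_of_mem hy, Set.indicator_of_mem ((mem_iff hk y).2 hy), sm_TM hk]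
    · rw [Set.indicator_of_notMem hy,
        Set.indicator_of_notMem (fun h => hy ((mem_iff hk y).1 h))]
  rw [sum_congr rfl h1, ← mul_sum, ← mul_assoc,
    ENNReal.inv_mul_cancel hc (ENNReal.natCast_ne_top _), one_mul, lint_Pe g hg]
  conv_lhs => rw [cover hH]
  refine lintegral_biUnion_finset₀ ?_ (fun k _ => (measurableSet_Ok H k).nullMeasurableSet) _
  intro k hk k' hk' hne
  exact aedisj hk hk' hne

end Pool.Agent.Lib.MP_725e58_gt.Loc
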