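import Pool.Agent.Lib.MP_725e58_gt.Loc.Stmts

/-!
Local maximality of the simplex for the Fary-Redei problem: memorylessness of the minimum for real
valued functions.
-/

set_option autoImplicit false

namespace Pool.Agent.Lib.MP_725e58_gt.Loc

open MeasureTheory Finset

namespace MemR

theorem measurable_TM {n : ℕ} (H : Finset (Fin n)) (k : Fin n) : Measurable (TM H k) := by
  apply measurable_pi_lambda
  intro i
  unfold TM
  refine Measurable.add ?_ ?_
  · exact (measurable_pi_apply i).comp (continuous_rs _).measurable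
  · exact ((measurable_pi_apply k).div_const _).mul_const _

/-- each term of the sum is finite -/
theorem ne_top (h : StMem) {n : ℕ} {H : Finset (Fin n)} (hH : H.Nonempty) {g : Vec n → ENNReal}
    (hg : Measurable g) (hfin : ∫⁻ y, g y ∂(Pe n) ≠ ⊤) {k : Fin n} (hk : k ∈ H) :
    ∫⁻ y, g (TM H k y) ∂(Pe n) ≠ ⊤ := by
  rw [h n H g hH hg] at hfin
  have hc : ((H.card : ENNReal)⁻¹) ≠ 0 := ENNReal.inv_ne_zero.2 (ENNReal.natCast_ne_top _)
  intro htop
  apply hfin
  have h1 : ∑ k ∈ H, ∫⁻ y, g (TM H k y) ∂(Pe n) = ⊤ :=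
    ENNReal.sum_eq_top.2 ⟨k, hk, htop⟩
  rw [h1, ENNReal.mul_top hc]

/-- the identity for real numbers -/
theorem toReal_eq (h : StMem) {n : ℕ} {H : Finset (Fin n)} (hH : H.Nonempty) {g : Vec n → ENNReal}
    (hg : Measurable g) (hfin : ∫⁻ y, g y ∂(Pe n) ≠ ⊤) :
    (∫⁻ y, g y ∂(Pe n)).toReal =
      (H.card : ℝ)⁻¹ * ∑ k ∈ H, (∫⁻ y, g (TM H k y) ∂(Pe n)).toReal := by
  rw [h n H g hH hg, ENNReal.toReal_mul, ENNReal.toReal_inv, ENNReal.toReal_natCast,
    ENNReal.toReal_sum fun k hk => ne_top h hH hg hfin hk]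

end MemR

theorem stMemR (h : StMem) : StMemR := by
  intro n H g hH hg hint
  have hlt : ∫⁻ y, ‖g y‖ₑ ∂(Pe n) ≠ ⊤ := hint.2.ne
  have h1 : ∀ k ∈ H, Integrable (fun y => g (TM H k y)) (Pe n) := by
    intro k hk
    refine ⟨(hg.comp (MemR.measurable_TM H k)).aestronglyMeasurable, ?_⟩
    exact lt_top_iff_ne_top.2 (MemR.ne_top h hH (g := fun y => ‖g y‖ₑ) hg.enorm hlt hk)
  refine ⟨h1, ?_⟩
  have hp : ∫⁻ y, ENNReal.ofReal (g y) ∂(Pe n) ≠ ⊤ :=
    ne_top_of_le_ne_top hlt (lintegral_mono fun y => by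
      rw [Real.enorm_eq_ofReal_abs]
      exact ENNReal.ofReal_le_ofReal (le_abs_self _))
  have hn : ∫⁻ y, ENNReal.ofReal (-g y) ∂(Pe n) ≠ ⊤ :=
    ne_top_of_le_ne_top hlt (lintegral_mono fun y => by
      rw [Real.enorm_eq_ofReal_abs]
      exact ENNReal.ofReal_le_ofReal (neg_le_abs _))
  rw [integral_eq_lintegral_pos_part_sub_lintegral_neg_part hint,
    MemR.toReal_eq h hH (g := fun y => ENNReal.ofReal (g y)) hg.ennreal_ofReal hp,
    MemR.toReal_eq h hH (g := fun y => ENNReal.ofReal (-g y)) hg.neg.ennreal_ofReal hn,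
    ← mul_sub, ← Finset.sum_sub_distrib]
  congr 1
  refine Finset.sum_congr rfl fun k hk => ?_
  exact (integral_eq_lintegral_pos_part_sub_lintegral_neg_part (h1 k hk)).symm

end Pool.Agent.Lib.MP_725e58_gt.Loc
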