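import Pool.Agent.Lib.MP_725e58_gt.Loc.Stmts

/-!
Local maximality of the simplex for the Fary-Redei problem: bodies close to a simplex are in good
position with respect to a minimal circumscribed simplex.
-/

set_option autoImplicit false

namespace Pool.Agent.Lib.MP_725e58_gt.Loc

open MeasureTheory Finset

namespace MinAux

variable {d : ℕ}

lemma mem_Sx (t : Fin (d + 1) → EuclideanSpace ℝ (Fin d)) (x : EuclideanSpace ℝ (Fin d)) :
    x ∈ Sx t ↔ ∃ w : Vec (d + 1), (∀ j, 0 ≤ w j) ∧ ∑ j, w j = 1 ∧ bary t w = x := by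
  have h1 : Sx t = (Fintype.linearCombination ℝ t) '' stdSimplex ℝ (Fin (d + 1)) := by
    rw [Sx, ← convexHull_basis_eq_stdSimplex, LinearMap.image_convexHull, ← Set.range_comp]
    congr 2
    funext i
    simp [Fintype.linearCombination_apply]
  rw [h1, Set.mem_image]
  constructor
  · rintro ⟨w, hw, rfl⟩
    exact ⟨w, hw.1, hw.2, by simp [bary, Fintype.linearCombination_apply]⟩
  · rintro ⟨w, h2, h3, rfl⟩
    exact ⟨w, ⟨h2, h3⟩, by simp [bary, Fintype.linearCombination_apply]⟩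

end MinAux

open MinAux

theorem stMin (h1 : StDrel) (h2 : StDaff) (h3 : StStoch) (h4 : StDetI) (h5 : StMinEx)
    (h6 : StContact) : StMin := by
  intro d δ hd hδ
  obtain ⟨η, hη, hst⟩ := h3 (d + 1) (min δ (1 / 4)) (lt_min hδ (by norm_num))
  obtain ⟨ε, hε0, hε1, hdet⟩ := h4 (d + 1) (min η (1 / 2)) (by omega) (lt_min hη (by norm_num))
  refine ⟨ε, hε0, hε1, fun s K hs hKc hKx hKs hin => ?_⟩
  obtain ⟨m, hm0, hm⟩ : ∃ m : ℝ, 0 ≤ m ∧ ∀ i, ‖s i‖ ≤ m :=
    ⟨∑ i, ‖s i‖, sum_nonneg fun i _ => norm_nonneg _, fun i =>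
      single_le_sum (f := fun i => ‖s i‖) (fun i _ => norm_nonneg _) (mem_univ i)⟩
  obtain ⟨t, hKt, htR, hmin⟩ := h5 d K (2 * m + 1) s hKc hKs (fun i => by
    have := hm i
    linarith)
  have hDs : Dt s ≠ 0 := (h2 d s).1 hs
  -- the points of `K` close to the vertices
  set s' : Fin (d + 1) → EuclideanSpace ℝ (Fin d) :=
    fun i => (1 - ε) • s i + ε • bary s (fun _ => 1 / ((d : ℝ) + 1)) with hs'
  have hd1 : (0 : ℝ) < (d : ℝ) + 1 := by positivity
  -- the two matrices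
  choose A hA0 hA1 hA2 using fun i => (mem_Sx t (s' i)).1 (hKt (hin i))
  let M : Matrix (Fin (d + 1)) (Fin (d + 1)) ℝ := Matrix.of A
  have e1 : Dt s' = M.det * Dt t := h1 d t s' M hA1 (fun i => (hA2 i).symm)
  have hcd : ((d + 1 : ℕ) : ℝ) = (d : ℝ) + 1 := by push_cast; ring
  have hrow : ∀ i : Fin (d + 1), ∑ j : Fin (d + 1),
      ((if i = j then 1 - ε else 0) + ε / ((d + 1 : ℕ) : ℝ)) = 1 := by
    intro i
    rw [sum_add_distrib, sum_ite_eq, if_pos (mem_univ i), sum_const, card_univ, Fintype.card_fin,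
      nsmul_eq_mul, hcd]
    field_simp
    ring
  have hsr : ∀ i : Fin (d + 1), s' i = ∑ j : Fin (d + 1),
      ((if i = j then 1 - ε else 0) + ε / ((d + 1 : ℕ) : ℝ)) • s j := by
    intro i
    simp only [add_smul, ite_smul, zero_smul, sum_add_distrib, sum_ite_eq, mem_univ, if_true]
    simp only [hs', bary, smul_sum, smul_smul, hcd]
    congr 1
    refine sum_congr rfl fun j _ => ?_
    congr 1
    ring
  have e2 := h1 d s s' (Matrix.of fun (i j : Fin (d + 1)) =>
    ((if i = j then 1 - ε else 0) + ε / ((d + 1 : ℕ) : ℝ) : ℝ)) hrow hsr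
  set D' := (Matrix.of fun (i j : Fin (d + 1)) =>
    ((if i = j then 1 - ε else 0) + ε / ((d + 1 : ℕ) : ℝ) : ℝ)).det with hD'
  have e3 : |Dt t| ≤ |Dt s| := hmin s hKs (fun i => by
    have := hm i
    linarith)
  have hDs' : 0 < |Dt s| := abs_pos.2 hDs
  have e4 : |M.det| * |Dt t| = |D'| * |Dt s| := by
    rw [← abs_mul, ← abs_mul, ← e1, ← e2]
  have hD1 : 1 - η ≤ |D'| := le_trans (by
    have := min_le_left η (1 / 2)
    linarith) hdet
  have hD2 : 1 / 2 ≤ |D'| := le_trans (by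
    have := min_le_right η (1 / 2)
    linarith) hdet
  have hDt : Dt t ≠ 0 := by
    intro h
    rw [h, abs_zero, mul_zero] at e4
    have : 0 < |D'| * |Dt s| := by positivity
    linarith
  have hDt' : 0 < |Dt t| := abs_pos.2 hDt
  have hMdet : 1 - η ≤ |M.det| := by
    have g1 : |D'| * |Dt t| ≤ |D'| * |Dt s| := mul_le_mul_of_nonneg_left e3 (abs_nonneg _)
    rw [← e4] at g1
    exact hD1.trans (le_of_mul_le_mul_right g1 hDt')
  have hnear := hst M hA0 hA1 hMdet
  -- the bound of the vertices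
  have hs'm : ∀ i, ‖s' i‖ ≤ m := by
    intro i
    rw [hsr i]
    refine (norm_sum_le _ _).trans ?_
    have g1 : ∑ j : Fin (d + 1), ‖((if i = j then 1 - ε else 0) + ε / ((d + 1 : ℕ) : ℝ)) • s j‖ ≤
        ∑ j : Fin (d + 1), ((if i = j then 1 - ε else 0) + ε / ((d + 1 : ℕ) : ℝ)) * m := by
      refine sum_le_sum fun j _ => ?_
      have h0 : 0 ≤ (if i = j then 1 - ε else 0) + ε / ((d + 1 : ℕ) : ℝ) := by
        have : 0 ≤ ε / ((d + 1 : ℕ) : ℝ) := by positivity
        split_ifs <;> linarith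
      rw [norm_smul, Real.norm_of_nonneg h0]
      exact mul_le_mul_of_nonneg_left (hm j) h0
    rw [← sum_mul, hrow i, one_mul] at g1
    exact g1
  obtain ⟨j0, -, hj0⟩ := exists_max_image (univ : Finset (Fin (d + 1))) (fun j => ‖t j‖)
    univ_nonempty
  have htM : ∀ i, ‖t i‖ < 2 * m + 1 := by
    obtain ⟨i, hi⟩ := hnear j0
    have hi' : 1 - 1 / 4 ≤ A i j0 := le_trans (by
      have := min_le_right δ (1 / 4)
      linarith) hi
    have g1 : A i j0 • t j0 = s' i - ∑ j ∈ univ.erase j0, A i j • t j := by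
      rw [← hA2 i, bary, ← add_sum_erase _ _ (mem_univ j0)]
      abel
    have g2 : ‖∑ j ∈ univ.erase j0, A i j • t j‖ ≤ (1 - A i j0) * ‖t j0‖ := by
      refine (norm_sum_le _ _).trans ?_
      have g3 : ∑ j ∈ univ.erase j0, ‖A i j • t j‖ ≤ ∑ j ∈ univ.erase j0, A i j * ‖t j0‖ := by
        refine sum_le_sum fun j _ => ?_
        rw [norm_smul, Real.norm_of_nonneg (hA0 i j)]
        exact mul_le_mul_of_nonneg_left (hj0 j (mem_univ j)) (hA0 i j)
      rw [← sum_mul] at g3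
      have g4 := add_sum_erase univ (fun j => A i j) (mem_univ j0)
      rw [hA1 i] at g4
      have g5 : ∑ j ∈ univ.erase j0, A i j = 1 - A i j0 := by linarith
      rwa [g5] at g3
    have g3 : ‖A i j0 • t j0‖ ≤ m + (1 - A i j0) * ‖t j0‖ := by
      rw [g1]
      exact (norm_sub_le _ _).trans (add_le_add (hs'm i) g2)
    rw [norm_smul, Real.norm_of_nonneg (hA0 i j0)] at g3
    have h0 : 0 ≤ ‖t j0‖ := norm_nonneg _
    have g4 : ‖t j0‖ ≤ 2 * m := by nlinarith
    intro k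
    have := hj0 k (mem_univ k)
    linarith
  refine ⟨t, (h2 d t).2 hDt, hKc, hKx, hKt, ?_, ?_⟩
  · exact h6 d K (2 * m + 1) t hd hKc hKx hKt hDt htM hmin
  · intro j
    obtain ⟨i, hi⟩ := hnear j
    refine ⟨A i, hA0 i, hA1 i, ?_, ?_⟩
    · refine le_trans ?_ hi
      have := min_le_left δ (1 / 4)
      linarith
    · rw [hA2 i]
      exact hin i

end Pool.Agent.Lib.MP_725e58_gt.Loc
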