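import Pool.Agent.Lib.MP_725e58_gt.Loc.Stmts

/-!
Local maximality of the simplex for the Fary-Redei problem: linear approximation of the values of
the gap function of a facet at the centroids (odd dimension).
-/

set_option autoImplicit false

namespace Pool.Agent.Lib.MP_725e58_gt.Loc

open MeasureTheory Finset

namespace OddA

lemma c3' (h4 : StC3) {n d : ℕ} (hn : n = d + 1) (Kc : Set (Vec n)) (δ B : ℝ) (l : Fin n) (h : ℕ)
    (hd : 2 ≤ d) (hh : 1 ≤ h) (hhd : h ≤ d - 1) (hK : Pos n Kc δ) (hB : 0 ≤ B) :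
    (d * Nat.choose (d - 2) (h - 1) : ℝ) * J Kc B l (univ.erase l) ≤
      ((d : ℝ) - h) * ∑ H ∈ (univ.erase l).powersetCard h, J Kc B l H := by
  subst hn
  exact h4 d Kc δ B l h hd hh hhd hK hB

lemma choose_id (h : ℕ) (hh : 2 ≤ h) :
    h * Nat.choose (2 * h - 1) h = (2 * h - 1) * (2 * Nat.choose (2 * h - 1 - 2) (h - 1)) := by
  obtain ⟨g, rfl⟩ := Nat.exists_eq_add_of_le' hh
  have e1 : 2 * (g + 2) - 1 = 2 * g + 2 + 1 := by omega
  have e2 : 2 * g + 2 + 1 - 2 = 2 * g + 1 := by omega
  have e3 : g + 2 - 1 = g + 1 := by omega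
  rw [e1, e2, e3]
  have h1 := Nat.add_one_mul_choose_eq (2 * g + 2) (g + 1)
  have h2 : Nat.choose (2 * g + 2) (g + 1) = 2 * Nat.choose (2 * g + 1) (g + 1) := by
    rw [Nat.choose_succ_succ, ← Nat.choose_symm_half]
    ring
  rw [mul_comm, ← h1, h2]

/-- the quantity `b` is nonnegative -/
lemma b_nonneg (h4 : StC3) (h : ℕ) (hh : 2 ≤ h) (Kc : Set (Vec (2 * h))) (δ B : ℝ)
    (l : Fin (2 * h)) (hK : Pos (2 * h) Kc δ) (hB : 0 ≤ B) :
    0 ≤ 4 * ((h : ℝ) - 1) * (∑ K ∈ (univ.erase l).powersetCard h, J Kc B l K) -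
      2 * h * (Nat.choose (2 * h - 1) h) * J Kc B l (univ.erase l) := by
  have h1 := c3' h4 (d := 2 * h - 1) (by omega) Kc δ B l h (by omega) (by omega) (by omega) hK hB
  have h2 := choose_id h hh
  have h3 : ((2 * h - 1 : ℕ) : ℝ) = 2 * h - 1 := by
    rw [Nat.cast_sub (by omega)]
    push_cast
    ring
  have h5 : (h : ℝ) * (Nat.choose (2 * h - 1) h : ℝ) =
      (2 * h - 1) * (2 * (Nat.choose (2 * h - 1 - 2) (h - 1) : ℝ)) := by
    rw [← h3]
    exact_mod_cast h2
  rw [h3] at h1
  have h6 : 2 * (h : ℝ) * (Nat.choose (2 * h - 1) h) * J Kc B l (univ.erase l) =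
      4 * (((2 * h - 1) * (Nat.choose (2 * h - 1 - 2) (h - 1) : ℝ)) * J Kc B l (univ.erase l)) := by
    rw [mul_assoc 2 (h : ℝ), h5]
    ring
  rw [h6]
  have h7 : (2 * (h : ℝ) - 1 - h) = h - 1 := by ring
  rw [h7] at h1
  linarith

/-- chains of subsets -/
lemma chain {n : ℕ} (F : Finset (Fin n)) (h : ℕ) (m : Fin n) (f : Finset (Fin n) → ℝ) (c : ℝ)
    (hf : ∀ H ∈ F.powersetCard h, ∀ H' ∈ F.powersetCard h, H ≠ H' → h - 1 ≤ (H ∩ H').card →
      m ∈ H → m ∈ H' → f H - f H' ≤ c) :
    ∀ (k : ℕ) (K K' : Finset (Fin n)), K ∈ F.powersetCard h → K' ∈ F.powersetCard h →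
      m ∈ K → m ∈ K' → (K \ K').card = k → f K - f K' ≤ k * c := by
  intro k
  induction k with
  | zero =>
    intro K K' hK hK' _ _ h0
    rw [mem_powersetCard] at hK hK'
    rw [card_eq_zero, sdiff_eq_empty_iff_subset] at h0
    have : K = K' := eq_of_subset_of_card_le h0 (by rw [hK.2, hK'.2])
    subst this
    simp
  | succ k ih =>
    intro K K' hK hK' hm hm' hk
    have hK1 := mem_powersetCard.1 hK
    have hK1' := mem_powersetCard.1 hK'
    have hk' : (K' \ K).card = k + 1 := by
      have e1 := card_sdiff_add_card_inter K K'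
      have e2 := card_sdiff_add_card_inter K' K
      rw [inter_comm K' K] at e2
      omega
    obtain ⟨a, ha⟩ : (K \ K').Nonempty := card_pos.1 (by omega)
    obtain ⟨c', hc'⟩ : (K' \ K).Nonempty := card_pos.1 (by omega)
    rw [mem_sdiff] at ha hc'
    have ham : a ≠ m := fun h => ha.2 (h ▸ hm')
    have hcK : c' ∉ K.erase a := fun h => hc'.2 (mem_of_mem_erase h)
    have hcard : (insert c' (K.erase a)).card = h := by
      rw [card_insert_of_notMem hcK, card_erase_of_mem ha.1, hK1.2]
      have : 0 < K.card := card_pos.2 ⟨a, ha.1⟩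
      omega
    have hK2 : insert c' (K.erase a) ∈ F.powersetCard h := by
      rw [mem_powersetCard]
      refine ⟨?_, hcard⟩
      rw [insert_subset_iff]
      exact ⟨hK1'.1 hc'.1, (erase_subset _ _).trans hK1.1⟩
    have hm2 : m ∈ insert c' (K.erase a) := mem_insert_of_mem (mem_erase.2 ⟨ham.symm, hm⟩)
    have hne : K ≠ insert c' (K.erase a) := fun h => by
      apply hc'.2
      rw [h]
      exact mem_insert_self _ _
    have hint : h - 1 ≤ (K ∩ insert c' (K.erase a)).card := by
      have : K.erase a ⊆ K ∩ insert c' (K.erase a) :=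
        subset_inter (erase_subset _ _) (subset_insert _ _)
      refine le_trans ?_ (card_le_card this)
      rw [card_erase_of_mem ha.1, hK1.2]
    have hs : insert c' (K.erase a) \ K' = (K \ K').erase a := by
      ext x
      simp only [mem_sdiff, mem_insert, mem_erase]
      constructor
      · rintro ⟨rfl | h1, h2⟩
        · exact absurd hc'.1 h2
        · exact ⟨h1.1, h1.2, h2⟩
      · rintro ⟨h1, h2, h3⟩
        exact ⟨Or.inr ⟨h1, h2⟩, h3⟩
    have hck : (insert c' (K.erase a) \ K').card = k := by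
      rw [hs, card_erase_of_mem (mem_sdiff.2 ha), hk]
      rfl
    have h1 := hf K hK _ hK2 hne hint hm hm2
    have h2 := ih _ K' hK2 hK' hm2 hm' hck
    push_cast
    linarith

/-- the case `h = 2` -/
lemma two {n : ℕ} (F : Finset (Fin n)) (hF : F.card = 3) (v : Finset (Fin n) → ℝ) (M : ℝ)
    (hv : ∀ K ∈ F.powersetCard 2, 0 ≤ v K ∧ v K ≤ M) :
    ∃ A : Vec n, (∀ i ∉ F, A i = 0) ∧ (∀ i, |A i| ≤ 3 * M) ∧
      ∀ K ∈ F.powersetCard 2, v K = dot A (one K) := by
  have hmem : ∀ x ∈ F, F.erase x ∈ F.powersetCard 2 := fun x hx => by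
    rw [mem_powersetCard]
    exact ⟨erase_subset _ _, by rw [card_erase_of_mem hx, hF]⟩
  have hne : F.Nonempty := card_pos.1 (by omega)
  have hM : 0 ≤ M := by
    obtain ⟨x, hx⟩ := hne
    exact (hv _ (hmem x hx)).1.trans (hv _ (hmem x hx)).2
  have hV0 : 0 ≤ ∑ x ∈ F, v (F.erase x) := sum_nonneg fun x hx => (hv _ (hmem x hx)).1
  have hV1 : ∑ x ∈ F, v (F.erase x) ≤ 3 * M := by
    calc ∑ x ∈ F, v (F.erase x) ≤ ∑ _x ∈ F, M := sum_le_sum fun x hx => (hv _ (hmem x hx)).2
      _ = 3 * M := by rw [sum_const, hF]; simp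
  refine ⟨fun i => if i ∈ F then (∑ x ∈ F, v (F.erase x)) / 2 - v (F.erase i) else 0, ?_, ?_, ?_⟩
  · intro i hi
    simp [hi]
  · intro i
    by_cases hi : i ∈ F
    · simp only [hi, if_true]
      have := hv _ (hmem i hi)
      rw [abs_le]
      constructor <;> linarith
    · simp only [hi, if_false, abs_zero]
      linarith
  · intro K hK
    rw [mem_powersetCard] at hK
    have h1 : (F \ K).card = 1 := by
      rw [card_sdiff_of_subset hK.1, hF, hK.2]
    obtain ⟨x, hx⟩ := card_eq_one.1 h1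
    have hxF : x ∈ F := by
      have : x ∈ F \ K := by rw [hx]; exact mem_singleton_self x
      exact (mem_sdiff.1 this).1
    have hKx : K = F.erase x := by
      rw [← sdiff_singleton_eq_erase, ← hx, Finset.sdiff_sdiff_eq_self hK.1]
    subst hKx
    rw [dot_one, sum_congr rfl (g := fun i => (∑ x ∈ F, v (F.erase x)) / 2 - v (F.erase i))
      (fun i hi => by simp [mem_of_mem_erase hi]), sum_sub_distrib, sum_const,
      card_erase_of_mem hxF, hF]
    have h2 := add_sum_erase F (fun x => v (F.erase x)) hxF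
    simp only [nsmul_eq_mul]
    push_cast
    linarith

end OddA

open OddA

theorem stOddA (h1 : StStep) (h2 : StSup) (h3 : StJens) (h4 : StC3) : StOddA := by
  intro h hh
  rcases Nat.eq_or_lt_of_le hh with h22 | hh3
  · -- `h = 2`
    subst h22
    refine ⟨3, by norm_num, fun Kc δ B l hK hB => ?_⟩
    have hJ : ∀ K, 0 ≤ J Kc B l K := fun K =>
      (phi_nonneg hK hB _).trans (h3 _ Kc δ B l K hK hB)
    have hF : (univ.erase l : Finset (Fin (2 * 2))).card = 3 := by
      rw [card_erase_of_mem (mem_univ l), card_univ, Fintype.card_fin]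
    obtain ⟨A, hA1, hA2, hA3⟩ := two (univ.erase l) hF (fun K => Phi Kc B l (one K))
      (∑ K ∈ (univ.erase l).powersetCard 2, J Kc B l K) (fun K hK' =>
        ⟨phi_nonneg hK hB _, (h3 _ Kc δ B l K hK hB).trans
          (single_le_sum (f := fun K => J Kc B l K) (fun K _ => hJ K) hK')⟩)
    refine ⟨A, hA1 l (by simp), hA2, ?_⟩
    have e1 : ∑ K ∈ (univ.erase l).powersetCard 2, |Phi Kc B l (one K) - dot A (one K)| = 0 := by
      refine sum_eq_zero fun K hK' => ?_
      have := hA3 K hK'
      rw [this, sub_self, abs_zero]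
    rw [e1]
    have e2 := b_nonneg h4 2 hh Kc δ B l hK hB
    have e3 : 0 ≤ ∑ K ∈ (univ.erase l).powersetCard 2, (J Kc B l K - Phi Kc B l (one K)) :=
      sum_nonneg fun K _ => sub_nonneg.2 (h3 _ Kc δ B l K hK hB)
    positivity
  · obtain ⟨C0, hC0, hst⟩ := h1 h hh3
    refine ⟨(Nat.choose (2 * h - 1) h) * (h * (h * C0)) + 2 ^ (2 * h + 2), by positivity,
      fun Kc δ B l hK hB => ?_⟩
    have hJ : ∀ K, 0 ≤ J Kc B l K := fun K =>
      (phi_nonneg hK hB _).trans (h3 _ Kc δ B l K hK hB)
    have hF : (univ.erase l : Finset (Fin (2 * h))).card = 2 * h - 1 := by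
      rw [card_erase_of_mem (mem_univ l), card_univ, Fintype.card_fin]
    have e2 := b_nonneg h4 h hh Kc δ B l hK hB
    have e3 : 0 ≤ ∑ K ∈ (univ.erase l).powersetCard h, (J Kc B l K - Phi Kc B l (one K)) :=
      sum_nonneg fun K _ => sub_nonneg.2 (h3 _ Kc δ B l K hK hB)
    set be := (4 * ((h : ℝ) - 1) * (∑ K ∈ (univ.erase l).powersetCard h, J Kc B l K) -
      2 * h * (Nat.choose (2 * h - 1) h) * J Kc B l (univ.erase l)) +
      ∑ K ∈ (univ.erase l).powersetCard h, (J Kc B l K - Phi Kc B l (one K)) with hbe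
    have hbe0 : 0 ≤ be := add_nonneg e2 e3
    choose L hL hLphi using fun K : Finset (Fin (2 * h)) =>
      exists_phi (l := l) hK hB (one K)
    -- comparison of the coefficients
    have key : ∀ m, ∀ K ∈ (univ.erase l).powersetCard h, ∀ K' ∈ (univ.erase l).powersetCard h,
        m ∈ K → m ∈ K' → |L K m - L K' m| ≤ h * (C0 * be) := by
      intro m K hK1 K' hK1' hm hm'
      have hch := chain (univ.erase l) h m (fun K => L K m) (C0 * be)
        (fun H hH H' hH' hne hc hmH hmH' =>
          hst Kc δ B l m H H' (L H) (L H') hK hB hH hH' hne hc hmH hmH' (hL H) (hL H')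
            (hLphi H) (hLphi H'))
      have hle : ∀ K K' : Finset (Fin (2 * h)), K ∈ (univ.erase l).powersetCard h →
          ((K \ K').card : ℝ) * (C0 * be) ≤ h * (C0 * be) := by
        intro K K' hK2
        refine mul_le_mul_of_nonneg_right ?_ (by positivity)
        have := card_le_card (sdiff_subset (s := K) (t := K'))
        rw [(mem_powersetCard.1 hK2).2] at this
        exact_mod_cast this
      rw [abs_le]
      have g1 := hch _ K K' hK1 hK1' hm hm' rfl
      have g2 := hch _ K' K hK1' hK1 hm' hm rfl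
      have g3 := hle K K' hK1
      have g4 := hle K' K hK1'
      constructor <;> linarith
    have hex : ∀ m, m ≠ l → ∃ K ∈ (univ.erase l).powersetCard h, m ∈ K := by
      intro m hm
      obtain ⟨K, hK1, hK2, hK3⟩ := exists_subsuperset_card_eq (s := {m}) (t := univ.erase l)
        (n := h) (by simpa using hm) (by simp; omega) (by omega)
      exact ⟨K, mem_powersetCard.2 ⟨hK2, hK3⟩, hK1 (mem_singleton_self m)⟩
    choose! Km hKm1 hKm2 using hex
    refine ⟨fun m => if m = l then 0 else L (Km m) m, by simp, ?_, ?_⟩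
    · intro i
      have hS : 0 ≤ ∑ K ∈ (univ.erase l).powersetCard h, J Kc B l K := sum_nonneg fun K _ => hJ K
      by_cases hi : i = l
      · simp only [hi, if_true, abs_zero]
        positivity
      · simp only [hi, if_false]
        refine (h2 _ Kc δ B l (Km i) (L (Km i)) hK hB (hL _) (hLphi _) i (hKm2 i hi)).trans ?_
        have g1 := single_le_sum (f := fun K => J Kc B l K) (fun K _ => hJ K) (hKm1 i hi)
        have g2 : 0 ≤ (Nat.choose (2 * h - 1) h : ℝ) * (h * (h * C0)) *
          ∑ K ∈ (univ.erase l).powersetCard h, J Kc B l K := by positivity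
        rw [add_mul]
        have g3 : (2 : ℝ) ^ (2 * h + 2) * J Kc B l (Km i) ≤ 2 ^ (2 * h + 2) *
          ∑ K ∈ (univ.erase l).powersetCard h, J Kc B l K :=
          mul_le_mul_of_nonneg_left g1 (by positivity)
        linarith
    · have hK' : ∀ K ∈ (univ.erase l).powersetCard h,
          |Phi Kc B l (one K) - dot (fun m => if m = l then 0 else L (Km m) m) (one K)| ≤
            h * (h * (C0 * be)) := by
        intro K hK1
        have hK2 := mem_powersetCard.1 hK1
        rw [hLphi, dot_one, dot_one, ← sum_sub_distrib]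
        refine (abs_sum_le_sum_abs _ _).trans ?_
        have g1 : ∑ m ∈ K, |L K m - (if m = l then 0 else L (Km m) m)| ≤
            ∑ _m ∈ K, (h : ℝ) * (C0 * be) := by
          refine sum_le_sum fun m hm => ?_
          have hml : m ≠ l := (mem_erase.1 (hK2.1 hm)).1
          simp only [hml, if_false]
          exact key m K hK1 _ (hKm1 m hml) hm (hKm2 m hml)
        rwa [sum_const, hK2.2, nsmul_eq_mul] at g1
      refine (sum_le_sum hK').trans ?_
      rw [sum_const, card_powersetCard, hF, nsmul_eq_mul, add_mul]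
      have : 0 ≤ (2 : ℝ) ^ (2 * h + 2) * be := by positivity
      nlinarith [this]

end Pool.Agent.Lib.MP_725e58_gt.Loc
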