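import Pool.Agent.Lib.MP_725e58_gt.Loc.Stmts

set_option autoImplicit false

namespace Pool.Agent.Lib.MP_725e58_gt.Loc

open MeasureTheory Finset

namespace OddLin

lemma max_eq (a b : ℝ) : max a b = (a + b) / 2 + |a - b| / 2 := by
  rcases le_total a b with h | h
  · rw [max_eq_right h, abs_of_nonpos (by linarith)]; ring
  · rw [max_eq_left h, abs_of_nonneg (by linarith)]; ring

/-- exchanging the sums over subsets and over outer indices -/
lemma sum_swap {n : ℕ} (h : ℕ) (f : Fin n → Finset (Fin n) → ℝ) :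
    ∑ I ∈ (univ : Finset (Fin n)).powersetCard h, ∑ l ∈ Iᶜ, f l I =
      ∑ l, ∑ K ∈ (univ.erase l).powersetCard h, f l K := by
  refine sum_comm' fun I l => ?_
  simp only [mem_powersetCard, mem_univ, mem_compl, true_and, subset_univ]
  constructor
  · rintro ⟨h1, h2⟩
    refine ⟨⟨fun i hi => mem_erase.mpr ⟨?_, mem_univ i⟩, h1⟩, trivial⟩
    rintro rfl; exact h2 hi
  · rintro ⟨⟨h1, h2⟩, -⟩
    exact ⟨h2, fun hl => (mem_erase.mp (h1 hl)).1 rfl⟩

/-- complement is a bijection of the middle layer -/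
lemma sum_compl_layer (h : ℕ) (f : Finset (Fin (2 * h)) → ℝ) :
    ∑ I ∈ (univ : Finset (Fin (2 * h))).powersetCard h, f Iᶜ =
      ∑ I ∈ (univ : Finset (Fin (2 * h))).powersetCard h, f I := by
  have hc : ∀ I : Finset (Fin (2 * h)), I.card = h → Iᶜ.card = h := by
    intro I hI
    rw [card_compl, Fintype.card_fin, hI]; omega
  refine sum_bij' (fun I _ => Iᶜ) (fun I _ => Iᶜ) ?_ ?_ ?_ ?_ ?_
  · intro I hI
    rw [mem_powersetCard] at hI ⊢
    exact ⟨subset_univ _, hc I hI.2⟩
  · intro I hI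
    rw [mem_powersetCard] at hI ⊢
    exact ⟨subset_univ _, hc I hI.2⟩
  · intro I _; exact compl_compl I
  · intro I _; exact compl_compl I
  · intro I _; rfl

lemma cancel {n : ℕ} (A : Fin n → Vec n) (I : Finset (Fin n)) :
    (∑ l ∈ Iᶜ, dot (A l) (one I)) - ∑ l ∈ I, dot (A l) (one Iᶜ) =
      ∑ i ∈ I, ((∑ l, A l i) - ∑ j, A i j) := by
  simp_rw [dot_one]
  rw [sum_sub_distrib]
  have h1 : ∀ i, ∑ l, A l i = ∑ l ∈ I, A l i + ∑ l ∈ Iᶜ, A l i :=
    fun i => (sum_add_sum_compl I _).symm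
  have h2 : ∀ i, ∑ j, A i j = ∑ j ∈ I, A i j + ∑ j ∈ Iᶜ, A i j :=
    fun i => (sum_add_sum_compl I _).symm
  simp_rw [h1, h2]
  rw [sum_add_distrib, sum_add_distrib, sum_comm (s := Iᶜ) (t := I)]
  have h3 : ∑ i ∈ I, ∑ l ∈ I, A l i = ∑ i ∈ I, ∑ l ∈ I, A i l := sum_comm
  rw [h3]; ring

end OddLin

open OddLin in
theorem stOddLin (h1 : StOddA) (h2 : StJens) : StOddLin := by
  intro h hh
  obtain ⟨C, hC, HA⟩ := h1 h hh
  have hh' : (2 : ℝ) ≤ h := by exact_mod_cast hh
  set de : ℝ := 1 / (2 * (C + 1)) with hde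
  have hde0 : 0 < de := by positivity
  have hde1 : de ≤ 1 / 2 := by
    rw [hde, div_le_div_iff₀ (by positivity) (by norm_num)]; linarith
  have hdeC : 2 * de * C ≤ 1 := by
    rw [hde]
    have : 2 * (1 / (2 * (C + 1))) * C = C / (C + 1) := by field_simp
    rw [this, div_le_one (by positivity)]; linarith
  refine ⟨C, hC, de / h, by positivity, fun Kc δ B hK hB => ?_⟩
  choose A hA0 hAb hAs using fun l => HA Kc δ B l hK hB
  -- abbreviations
  have hJ0 : ∀ l H, 0 ≤ J Kc B l H := fun l H =>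
    integral_nonneg fun y => phi_nonneg hK hB _
  set SJ : Fin (2 * h) → ℝ := fun l => ∑ K ∈ (univ.erase l).powersetCard h, J Kc B l K with hSJ
  have hSJ0 : ∀ l, 0 ≤ SJ l := fun l => sum_nonneg fun K _ => hJ0 l K
  have hT : T h Kc B = ∑ l, SJ l := rfl
  have hSJT : ∀ l, SJ l ≤ T h Kc B := fun l => by
    rw [hT]; exact single_le_sum (fun i _ => hSJ0 i) (mem_univ l)
  have hT0 : 0 ≤ T h Kc B := by rw [hT]; exact sum_nonneg fun l _ => hSJ0 l
  set x : Vec (2 * h) := fun i => -(de / (2 * h)) * ((∑ l, A l i) - ∑ j, A i j) with hx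
  refine ⟨x, ?_, ?_, ?_⟩
  · -- the sum of `x`
    unfold sm
    rw [hx, ← mul_sum, sum_sub_distrib, sum_comm]
    simp
  · -- the bound
    intro i
    have hr : |∑ l, A l i| ≤ C * T h Kc B := by
      calc |∑ l, A l i| ≤ ∑ l, |A l i| := abs_sum_le_sum_abs _ _
        _ ≤ ∑ l, C * SJ l := sum_le_sum fun l _ => hAb l i
        _ = C * T h Kc B := by rw [← mul_sum, hT]
    have hc : |∑ j, A i j| ≤ 2 * h * (C * T h Kc B) := by
      calc |∑ j, A i j| ≤ ∑ j, |A i j| := abs_sum_le_sum_abs _ _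
        _ ≤ ∑ _j : Fin (2 * h), C * T h Kc B := sum_le_sum fun j _ =>
            (hAb i j).trans (mul_le_mul_of_nonneg_left (hSJT i) hC.le)
        _ = 2 * h * (C * T h Kc B) := by simp
    have hxi : |x i| = de / (2 * h) * |(∑ l, A l i) - ∑ j, A i j| := by
      rw [hx]; simp only []
      rw [abs_mul, abs_neg, abs_of_nonneg (by positivity)]
    have hsub : |(∑ l, A l i) - ∑ j, A i j| ≤ (1 + 2 * h) * (C * T h Kc B) := by
      have := abs_sub (∑ l, A l i) (∑ j, A i j)
      linarith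
    rw [hxi]
    have hCT : 0 ≤ C * T h Kc B := by positivity
    calc de / (2 * h) * |(∑ l, A l i) - ∑ j, A i j|
        ≤ de / (2 * h) * ((1 + 2 * h) * (C * T h Kc B)) :=
          mul_le_mul_of_nonneg_left hsub (by positivity)
      _ = (de * (1 + 2 * h) / (2 * h)) * (C * T h Kc B) := by ring
      _ ≤ 1 * (C * T h Kc B) := by
          refine mul_le_mul_of_nonneg_right ?_ hCT
          rw [div_le_one (by positivity)]
          nlinarith
      _ = C * T h Kc B := one_mul _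
  · -- the inequality
    set G : Finset (Fin (2 * h)) → ℝ := fun I => Lam Kc B I (one I) with hG
    have hG0 : ∀ I, 0 ≤ G I := fun I => lam_nonneg hK hB I _
    set E : Finset (Fin (2 * h)) → ℝ := fun I =>
      ∑ l ∈ Iᶜ, |Phi Kc B l (one I) - dot (A l) (one I)| with hE
    set DA : Finset (Fin (2 * h)) → ℝ := fun I =>
      2 * ((∑ l ∈ Iᶜ, dot (A l) (one I)) - ∑ l ∈ I, dot (A l) (one Iᶜ)) with hDA
    have hu : ∀ I, 2 * (h * uu I x) = -(de * DA I) := by
      intro I
      rw [hDA]; simp only []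
      rw [cancel, uu, hx]; simp only []
      rw [← mul_sum]
      field_simp
    have hgg : ∀ I, gg h Kc B I x ≤
        (G I + G Iᶜ) / 2 + ((1 - de) * (G I + G Iᶜ) + de * (2 * (E I + E Iᶜ))) / 2 := by
      intro I
      have e1 : gg h Kc B I x = (G I + G Iᶜ) / 2 + |G I - G Iᶜ + 2 * (h * uu I x)| / 2 := by
        unfold gg
        rw [max_eq]
        have : Lam Kc B I (one I) + h * uu I x - (Lam Kc B Iᶜ (one Iᶜ) - h * uu I x) =
          G I - G Iᶜ + 2 * (h * uu I x) := by rw [hG]; ring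
        rw [this, hG]; ring
      rw [e1, hu I]
      have e2 : |G I - G Iᶜ + -(de * DA I)| ≤
          (1 - de) * |G I - G Iᶜ| + de * |G I - G Iᶜ - DA I| := by
        have : G I - G Iᶜ + -(de * DA I) =
          (1 - de) * (G I - G Iᶜ) + de * (G I - G Iᶜ - DA I) := by ring
        rw [this]
        refine (abs_add_le _ _).trans (le_of_eq ?_)
        rw [abs_mul, abs_mul, abs_of_nonneg (show (0 : ℝ) ≤ 1 - de by linarith),
          abs_of_nonneg hde0.le]
      have e3 : |G I - G Iᶜ| ≤ G I + G Iᶜ := by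
        rw [abs_le]; constructor <;> linarith [hG0 I, hG0 Iᶜ]
      have e4 : |G I - G Iᶜ - DA I| ≤ 2 * (E I + E Iᶜ) := by
        have f1 : G I - G Iᶜ - DA I = 2 * ((∑ l ∈ Iᶜ, (Phi Kc B l (one I) - dot (A l) (one I))) -
            ∑ l ∈ Iᶜᶜ, (Phi Kc B l (one Iᶜ) - dot (A l) (one Iᶜ))) := by
          rw [hG, hDA]; simp only []
          unfold Lam
          rw [sum_sub_distrib, sum_sub_distrib, compl_compl]; ring
        rw [f1, abs_mul, abs_two]
        refine mul_le_mul_of_nonneg_left ?_ (by norm_num)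
        refine (abs_sub _ _).trans (add_le_add ?_ ?_)
        · exact abs_sum_le_sum_abs _ _
        · exact abs_sum_le_sum_abs _ _
      have e5 : (1 - de) * |G I - G Iᶜ| ≤ (1 - de) * (G I + G Iᶜ) :=
        mul_le_mul_of_nonneg_left e3 (by linarith)
      have e6 : de * |G I - G Iᶜ - DA I| ≤ de * (2 * (E I + E Iᶜ)) :=
        mul_le_mul_of_nonneg_left e4 hde0.le
      linarith
    -- sums
    set PS := (univ : Finset (Fin (2 * h))).powersetCard h with hPS
    set e : ℝ := ∑ l, ∑ K ∈ (univ.erase l).powersetCard h,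
      (J Kc B l K - Phi Kc B l (one K)) with he
    have he0 : 0 ≤ e := sum_nonneg fun l _ => sum_nonneg fun K _ => by
      have := h2 _ Kc δ B l K hK hB; linarith
    have hsG : ∑ I ∈ PS, G I = 2 * (T h Kc B - e) := by
      have : ∑ I ∈ PS, G I = 2 * ∑ l, ∑ K ∈ (univ.erase l).powersetCard h, Phi Kc B l (one K) := by
        rw [← sum_swap h (fun l K => Phi Kc B l (one K)), mul_sum]
        rfl
      rw [this, he]
      simp_rw [sum_sub_distrib]
      rw [hT]; ring
    have hsGc : ∑ I ∈ PS, G Iᶜ = ∑ I ∈ PS, G I := sum_compl_layer h G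
    set b : ℝ := 4 * (h - 1) * T h Kc B - 2 * h * (Nat.choose (2 * h - 1) h) * FF Kc B with hb
    have hsE : ∑ I ∈ PS, E I ≤ C * (b + e) := by
      have f1 : ∑ I ∈ PS, E I = ∑ l, ∑ K ∈ (univ.erase l).powersetCard h,
          |Phi Kc B l (one K) - dot (A l) (one K)| :=
        sum_swap h (fun l K => |Phi Kc B l (one K) - dot (A l) (one K)|)
      rw [f1]
      refine (sum_le_sum fun l _ => hAs l).trans (le_of_eq ?_)
      rw [← mul_sum, sum_add_distrib, sum_sub_distrib, ← mul_sum, ← mul_sum, hb, hT, he, FF]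
    have hsEc : ∑ I ∈ PS, E Iᶜ = ∑ I ∈ PS, E I := sum_compl_layer h E
    have hE0 : 0 ≤ ∑ I ∈ PS, E I := sum_nonneg fun I _ => sum_nonneg fun l _ => abs_nonneg _
    have hbe : 0 ≤ b + e := by
      have : 0 ≤ C * (b + e) := hE0.trans hsE
      exact nonneg_of_mul_nonneg_right this hC
    have hsum : ∑ I ∈ PS, gg h Kc B I x ≤ (4 - 2 * de) * (T h Kc B - e) + (b + e) := by
      refine (sum_le_sum fun I _ => hgg I).trans ?_
      have f1 : ∑ I ∈ PS, ((G I + G Iᶜ) / 2 +
          ((1 - de) * (G I + G Iᶜ) + de * (2 * (E I + E Iᶜ))) / 2) =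
          ((∑ I ∈ PS, G I) + ∑ I ∈ PS, G Iᶜ) / 2 * (2 - de) +
            de * ((∑ I ∈ PS, E I) + ∑ I ∈ PS, E Iᶜ) := by
        rw [← sum_add_distrib, ← sum_add_distrib, sum_div, sum_mul, mul_sum, ← sum_add_distrib]
        refine sum_congr rfl fun I _ => ?_
        ring
      rw [f1, hsGc, hsEc, hsG]
      have f2 : de * ((∑ I ∈ PS, E I) + ∑ I ∈ PS, E I) ≤ b + e := by
        calc de * ((∑ I ∈ PS, E I) + ∑ I ∈ PS, E I) = 2 * de * ∑ I ∈ PS, E I := by ring
          _ ≤ 2 * de * (C * (b + e)) := mul_le_mul_of_nonneg_left hsE (by positivity)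
          _ = (2 * de * C) * (b + e) := by ring
          _ ≤ 1 * (b + e) := mul_le_mul_of_nonneg_right hdeC hbe
          _ = b + e := one_mul _
      linarith
    have hfin : 2 * h * (Nat.choose (2 * h - 1) h : ℝ) * FF Kc B + 2 * de * T h Kc B ≤
        4 * h * T h Kc B - ∑ I ∈ PS, gg h Kc B I x := by
      have g1 : 0 ≤ (3 - 2 * de) * e := mul_nonneg (by linarith) he0
      rw [hb] at hsum
      linarith
    have hhp : (0 : ℝ) < 2 * h := by positivity
    have hdiv := div_le_div_of_nonneg_right hfin hhp.le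
    have e1 : (2 * h * (Nat.choose (2 * h - 1) h : ℝ) * FF Kc B + 2 * de * T h Kc B) / (2 * h) =
        (Nat.choose (2 * h - 1) h : ℝ) * FF Kc B + de / h * T h Kc B := by
      field_simp
    have e2 : (4 * h * T h Kc B - ∑ I ∈ PS, gg h Kc B I x) / (2 * h) =
        2 * T h Kc B - 1 / (2 * h) * ∑ I ∈ PS, gg h Kc B I x := by
      field_simp
      ring
    rw [e1, e2] at hdiv
    exact hdiv

end Pool.Agent.Lib.MP_725e58_gt.Loc
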