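import Pool.Agent.Lib.MP_725e58_gt.Loc.Stmts

/-!
Local maximality of the simplex for the Fary-Redei problem: permutation invariance.
-/

set_option autoImplicit false

namespace Pool.Agent.Lib.MP_725e58_gt.Loc

open MeasureTheory Finset

namespace Perm

variable {n : ℕ} (σ : Equiv.Perm (Fin n))

/-- permutation of the coordinates -/
def pm (y : Vec n) : Vec n := fun i => y (σ i)

theorem measurePreserving_pm : MeasurePreserving (pm σ) volume volume := by
  have h : MeasurePreserving (MeasurableEquiv.piCongrLeft (fun _ : Fin n => ℝ) σ.symm)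
      volume volume := volume_measurePreserving_piCongrLeft _ _
  have e : ⇑(MeasurableEquiv.piCongrLeft (fun _ : Fin n => ℝ) σ.symm) = pm σ := by
    funext y i
    obtain ⟨j, rfl⟩ := σ.symm.surjective i
    rw [MeasurableEquiv.coe_piCongrLeft, Equiv.piCongrLeft_apply_apply, pm, Equiv.apply_symm_apply]
  rwa [e] at h

theorem sm_pm (y : Vec n) : sm (pm σ y) = sm y := Equiv.sum_comp σ y

theorem pm_mem_orth (y : Vec n) : pm σ y ∈ Orth n ↔ y ∈ Orth n := by
  constructor
  · intro h i
    have := h (σ.symm i)
    rwa [pm, Equiv.apply_symm_apply] at this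
  · intro h i
    exact h (σ i)

end Perm

open Perm in
theorem stPerm : StPerm := by
  intro n σ
  have h := measurePreserving_pm σ
  change MeasurePreserving (pm σ) (Pe n) (Pe n)
  refine ⟨h.measurable, ?_⟩
  ext s hs
  have hd : Measurable fun y : Vec n => ENNReal.ofReal (Real.exp (-sm y)) :=
    (ENNReal.continuous_ofReal.comp (Real.continuous_exp.comp continuous_sm.neg)).measurable
  have hm := hs.inter (measurableSet_Orth (n := n))
  have e : pm σ ⁻¹' s ∩ Orth n = pm σ ⁻¹' (s ∩ Orth n) := by
    ext y
    simp only [Set.mem_inter_iff, Set.mem_preimage, pm_mem_orth]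
  rw [Measure.map_apply h.measurable hs]
  unfold Pe
  rw [withDensity_apply _ (h.measurable hs), withDensity_apply _ hs,
    Measure.restrict_restrict (h.measurable hs), Measure.restrict_restrict hs, e,
    ← h.setLIntegral_comp_preimage hm hd]
  refine lintegral_congr fun y => ?_
  rw [sm_pm]

end Pool.Agent.Lib.MP_725e58_gt.Loc
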