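import Pool.Agent.Lib.MP_725e58_gt.Loc.Stmts

/-!
Local maximality of the simplex for the Fary-Redei problem: module POSTHM, the theorem in good
position.
-/

set_option autoImplicit false

namespace Pool.Agent.Lib.MP_725e58_gt.Loc

open MeasureTheory Finset

namespace PosThm

lemma posE_mono {d : ℕ} {K : Set (EuclideanSpace ℝ (Fin d))}
    {t : Fin (d + 1) → EuclideanSpace ℝ (Fin d)} {δ δ' : ℝ} (h : PosE d K t δ) (hd : δ ≤ δ') :
    PosE d K t δ' where
  aff := h.aff
  compact := h.compact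
  convex := h.convex
  sub := h.sub
  cen := h.cen
  near := fun i => by
    obtain ⟨w, hw, hw1, hwi, hwK⟩ := h.near i
    exact ⟨w, hw, hw1, by linarith, hwK⟩

end PosThm

open PosThm in
/-- Module POSTHM. -/
theorem stPosThm (h1 : StCore) (h2 : StTr) (h3 : StIn) : StPosThm := by
  intro d hd
  obtain ⟨δ0, hδ0, c, hc, H⟩ := h1 (d + 1) (by omega)
  have hd1 : (0 : ℝ) < 1 / (8 * ((d : ℝ) + 1)) := by positivity
  refine ⟨min δ0 (1 / (8 * ((d : ℝ) + 1))), lt_min hδ0 hd1, c, hc, fun K t hK => ?_⟩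
  have hK0 := posE_mono hK (min_le_left _ _)
  have hK1 := posE_mono hK (min_le_right _ _)
  obtain ⟨hpos, hvK, hvS, hvR⟩ := h2 d K t δ0 (by omega) hδ0 hK0
  obtain ⟨x, hx, hxi, hV⟩ := H (Kb K t) hpos
  have hxi' : ∀ i, |x i| ≤ 1 / (4 * ((d : ℝ) + 1)) := by
    intro i
    have := hxi i
    push_cast at this
    exact this
  refine ⟨bary t (fun i => 1 / ((d : ℝ) + 1) + x i),
    h3 d K t _ (by omega) hd1 le_rfl hK1 x hx hxi', ?_⟩
  rw [hvR x hx, hvS, hvK]
  have hb : bn (d + 1) = Nat.choose d (d / 2) := by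
    unfold bn
    rw [Nat.add_sub_cancel]
  rw [← hb]
  calc volume (Sx t) * VR (Kb K t) x + ENNReal.ofReal c * (volume (Sx t) * Pe (d + 1) (lost (Kb K t)))
      = volume (Sx t) * (VR (Kb K t) x + ENNReal.ofReal c * Pe (d + 1) (lost (Kb K t))) := by ring
    _ ≤ volume (Sx t) * ((bn (d + 1) : ENNReal) * Pe (d + 1) (kept (Kb K t))) := by gcongr
    _ = (bn (d + 1) : ENNReal) * (volume (Sx t) * Pe (d + 1) (kept (Kb K t))) := by ring

end Pool.Agent.Lib.MP_725e58_gt.Loc
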