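import Pool.Agent.Lib.MP_725e58_gt.Loc.Stmts

/-!
Local maximality of the simplex for the Fary-Redei problem: total mass, integrability and means of
exponential variables.
-/

set_option autoImplicit false

namespace Pool.Agent.Lib.MP_725e58_gt.Loc

open MeasureTheory Finset

namespace Prob

variable {n : ℕ}

lemma measurable_dens : Measurable fun y : Vec n => ENNReal.ofReal (Real.exp (-sm y)) :=
  (Real.measurable_exp.comp continuous_sm.measurable.neg).ennreal_ofReal

/-- the one dimensional density -/
noncomputable def e1 (a : ℝ) : ℝ → ℝ := (Set.Ici (0 : ℝ)).indicator fun x => Real.exp (-(a * x))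

lemma integrable_e1 {a : ℝ} (ha : 0 < a) : Integrable (e1 a) := by
  unfold e1
  rw [integrable_indicator_iff measurableSet_Ici, integrableOn_Ici_iff_integrableOn_Ioi]
  have h := exp_neg_integrableOn_Ioi 0 ha
  simpa only [neg_mul] using h

lemma integral_e1 : ∫ x, e1 1 x = 1 := by
  unfold e1
  rw [integral_indicator measurableSet_Ici, integral_Ici_eq_integral_Ioi]
  simpa using integral_exp_neg_Ioi_zero

lemma integral_xe1 : ∫ x, e1 1 x * x = 1 := by
  have h : (fun x => e1 1 x * x) = (Set.Ici (0 : ℝ)).indicator fun x => Real.exp (-x) * x := by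
    funext x
    unfold e1
    by_cases hx : x ∈ Set.Ici (0 : ℝ)
    · rw [Set.indicator_of_mem hx, Set.indicator_of_mem hx, one_mul]
    · rw [Set.indicator_of_notMem hx, Set.indicator_of_notMem hx, zero_mul]
  rw [h, integral_indicator measurableSet_Ici, integral_Ici_eq_integral_Ioi]
  have h2 := Real.Gamma_eq_integral (s := 2) (by norm_num)
  rw [Real.Gamma_two] at h2
  rw [h2]
  refine setIntegral_congr_fun measurableSet_Ioi fun x _ => ?_
  norm_num

/-- the density as a product -/
lemma ind_prod (a : ℝ) (y : Vec n) :
    (Orth n).indicator (fun y => Real.exp (-(a * sm y))) y = ∏ i, e1 a (y i) := by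
  by_cases hy : y ∈ Orth n
  · rw [Set.indicator_of_mem hy, sm, mul_sum, ← sum_neg_distrib, Real.exp_sum]
    refine prod_congr rfl fun i _ => ?_
    unfold e1
    rw [Set.indicator_of_mem (show y i ∈ Set.Ici (0 : ℝ) from hy i)]
  · rw [Set.indicator_of_notMem hy]
    have h : ∃ i, ¬ 0 ≤ y i := by
      by_contra h
      push Not at h
      exact hy h
    obtain ⟨i, hi⟩ := h
    refine (prod_eq_zero (mem_univ i) ?_).symm
    unfold e1
    rw [Set.indicator_of_notMem (show y i ∉ Set.Ici (0 : ℝ) from hi)]

lemma integrable_dens {a : ℝ} (ha : 0 < a) :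
    IntegrableOn (fun y : Vec n => Real.exp (-(a * sm y))) (Orth n) := by
  rw [← integrable_indicator_iff measurableSet_Orth]
  have h : ((Orth n).indicator fun y : Vec n => Real.exp (-(a * sm y))) =
      fun y => ∏ i, e1 a (y i) := funext fun y => ind_prod a y
  rw [h]
  exact Integrable.fintype_prod fun _ => integrable_e1 ha

lemma integral_Pe (f : Vec n → ℝ) :
    ∫ y, f y ∂(Pe n) = ∫ y in Orth n, Real.exp (-sm y) * f y := by
  unfold Pe
  rw [integral_withDensity_eq_integral_toReal_smul measurable_dens
    (Filter.Eventually.of_forall fun _ => ENNReal.ofReal_lt_top)]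
  refine integral_congr_ae (Filter.Eventually.of_forall fun y => ?_)
  simp only [smul_eq_mul]
  rw [ENNReal.toReal_ofReal (Real.exp_nonneg _)]

end Prob

open Prob

/-- total mass one -/
theorem stProb : StProb := by
  intro n
  constructor
  unfold Pe
  rw [withDensity_apply _ MeasurableSet.univ, Measure.restrict_univ]
  have h1 := integrable_dens (n := n) (a := 1) one_pos
  simp only [one_mul] at h1
  rw [← ofReal_integral_eq_lintegral_ofReal h1
    (Filter.Eventually.of_forall fun y => Real.exp_nonneg _)]
  rw [← integral_indicator measurableSet_Orth]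
  have h : ((Orth n).indicator fun y : Vec n => Real.exp (-sm y)) =
      fun y => ∏ i, e1 1 (y i) := funext fun y => by
    have := ind_prod 1 y
    simpa only [one_mul] using this
  rw [h, integral_fintype_prod_volume_eq_prod (fun _ : Fin n => e1 1)]
  simp [integral_e1]

/-- integrability from exponential growth -/
theorem stInt : StInt := by
  intro n f C ρ hf hρ hb
  unfold Pe
  rw [integrable_withDensity_iff measurable_dens
    (Filter.Eventually.of_forall fun _ => ENNReal.ofReal_lt_top)]
  have h1 := (integrable_dens (n := n) (a := 1 - ρ) (by linarith)).const_mul C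
  refine Integrable.mono' h1 ?_ ?_
  · exact (hf.mul measurable_dens.ennreal_toReal).aestronglyMeasurable
  · rw [ae_restrict_iff' measurableSet_Orth]
    refine Filter.Eventually.of_forall fun y hy => ?_
    rw [ENNReal.toReal_ofReal (Real.exp_nonneg _), norm_mul, Real.norm_eq_abs, Real.norm_eq_abs,
      abs_of_nonneg (Real.exp_nonneg _)]
    calc |f y| * Real.exp (-sm y) ≤ C * Real.exp (ρ * sm y) * Real.exp (-sm y) :=
          mul_le_mul_of_nonneg_right (hb y hy) (Real.exp_nonneg _)
      _ = C * Real.exp (-((1 - ρ) * sm y)) := by
          rw [mul_assoc, ← Real.exp_add]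
          congr 2
          ring

/-- expectation of a coordinate -/
theorem stMean : StMean := by
  intro n i
  rw [integral_Pe, ← integral_indicator measurableSet_Orth]
  have h : ((Orth n).indicator fun y : Vec n => Real.exp (-sm y) * y i) =
      fun y => ∏ j, (fun j x => e1 1 x * if j = i then x else 1) j (y j) := funext fun y => by
    have h1 := ind_prod 1 y
    simp only [one_mul] at h1
    rw [prod_mul_distrib, ← h1, prod_ite_eq' univ i (fun j => y j), if_pos (mem_univ i)]
    by_cases hy : y ∈ Orth n
    · rw [Set.indicator_of_mem hy, Set.indicator_of_mem hy]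
    · rw [Set.indicator_of_notMem hy, Set.indicator_of_notMem hy, zero_mul]
  rw [h, integral_fintype_prod_volume_eq_prod (fun (j : Fin n) x => e1 1 x * if j = i then x else 1)]
  refine prod_eq_one fun j _ => ?_
  by_cases hj : j = i
  · simp only [hj, if_true]
    exact integral_xe1
  · simp only [hj, if_false, mul_one]
    exact integral_e1

end Pool.Agent.Lib.MP_725e58_gt.Loc
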