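import Pool.Agent.Lib.MP_725e58_gt.Loc.Stmts

/-!
Local maximality of the simplex for the Fary-Redei problem: the first order theorem.
-/

set_option autoImplicit false

namespace Pool.Agent.Lib.MP_725e58_gt.Loc

open MeasureTheory Finset

namespace R1

lemma bn_even {h : ℕ} (hh : 1 ≤ h) : bn (2 * h) = Nat.choose (2 * h - 1) h := by
  unfold bn
  have h1 : (2 * h - 1) / 2 = h - 1 := by omega
  rw [h1]
  exact Nat.choose_symm_of_eq_add (by omega)

lemma bn_odd (h : ℕ) : bn (2 * h + 1) = Nat.choose (2 * h) h := by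
  unfold bn
  have h1 : (2 * h + 1 - 1) / 2 = h := by omega
  have h2 : 2 * h + 1 - 1 = 2 * h := by omega
  rw [h1, h2]

end R1

open R1 in
theorem stR1 (h1 : StR1e) (h2 : StR1o) : StR1 := by
  intro n hn
  obtain ⟨h, rfl | rfl⟩ := Nat.even_or_odd' n
  · have hh : 2 ≤ h := by omega
    have hξ : (0 : ℝ) < 1 / (4 * ((2 * h : ℕ) : ℝ)) := by
      have : (0 : ℝ) < ((2 * h : ℕ) : ℝ) := by
        exact_mod_cast (by omega : 0 < 2 * h)
      positivity
    obtain ⟨r, hr, κ, hκ, H⟩ := h2 h _ hh hξ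
    refine ⟨r, hr, κ, hκ, fun Kc δ B hP hB hBr => ?_⟩
    obtain ⟨x, hx, hx', hV⟩ := H Kc δ B hP hB hBr
    refine ⟨x, hx, hx', ?_⟩
    have e1 : 2 * h / 2 = h := by omega
    rw [e1, bn_even (by omega)]
    exact hV
  · have hh : 1 ≤ h := by omega
    obtain ⟨r, hr, κ, hκ, H⟩ := h1 h hh
    refine ⟨r, hr, κ, hκ, fun Kc δ B hP hB hBr => ?_⟩
    refine ⟨0, by simp [sm], fun i => ?_, ?_⟩
    · rw [Pi.zero_apply, abs_zero]
      positivity
    · have e1 : (2 * h + 1) / 2 = h := by omega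
      rw [e1, bn_odd]
      exact H Kc δ B hP hB hBr

end Pool.Agent.Lib.MP_725e58_gt.Loc
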