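import Pool.Agent.Lib.MP_725e58_gt.Loc.Stmts

/-!
Local maximality of the simplex for the Fary-Redei problem: explicit first order bound in even
dimension.
-/

set_option autoImplicit false

namespace Pool.Agent.Lib.MP_725e58_gt.Loc

open MeasureTheory Finset

namespace R1Ex

section

variable {h : ℕ} {Kc : Set (Vec (2 * h + 1))} {δ B : ℝ}

lemma measurable_PsiE (hK : Pos (2 * h + 1) Kc δ) (hB : 0 ≤ B)
    (I : Finset (Fin (2 * h + 1))) (k : Fin (2 * h + 1)) : Measurable (PsiE Kc B I k) := by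
  have hc : ∀ (l : Fin (2 * h + 1)) (H : Finset (Fin (2 * h + 1))),
      Continuous fun w : Vec (2 * h + 1) => Phi Kc B l (rs H w) := fun l H =>
    (continuous_phi hK hB).comp (continuous_rs H)
  unfold PsiE
  refine Continuous.measurable ?_
  refine Continuous.add (Continuous.add (hc _ _) (continuous_const.mul ?_))
    (Continuous.add (hc _ _) (continuous_const.mul ?_))
  · exact continuous_finsetSum _ fun j _ => hc _ _
  · exact continuous_finsetSum _ fun j _ => hc _ _

lemma PsiE_nonneg (hK : Pos (2 * h + 1) Kc δ) (hB : 0 ≤ B)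
    (I : Finset (Fin (2 * h + 1))) (k : Fin (2 * h + 1)) (w : Vec (2 * h + 1)) :
    0 ≤ PsiE Kc B I k w := by
  have hp : ∀ (l : Fin (2 * h + 1)) (y : Vec (2 * h + 1)), 0 ≤ Phi Kc B l y := fun l y =>
    phi_nonneg hK hB y
  unfold PsiE
  have h1 := sum_nonneg fun (j : Fin (2 * h + 1)) (_ : j ∈ JJ I k) => hp j (rs I w)
  have h2 := sum_nonneg fun (j : Fin (2 * h + 1)) (_ : j ∈ I) => hp j (rs (JJ I k) w)
  have h3 := hp k (rs I w)
  have h4 := hp k (rs (JJ I k) w)
  positivity

lemma PsiE_smul (hK : Pos (2 * h + 1) Kc δ) (hB : 0 ≤ B)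
    (I : Finset (Fin (2 * h + 1))) (k : Fin (2 * h + 1)) (w : Vec (2 * h + 1)) {a : ℝ}
    (ha : 0 ≤ a) : PsiE Kc B I k (a • w) = a * PsiE Kc B I k w := by
  unfold PsiE
  simp only [rs_smul, phi_smul hK hB ha, ← mul_sum]
  ring

lemma card_JJ {I : Finset (Fin (2 * h + 1))} {k : Fin (2 * h + 1)}
    (hI : I ∈ (univ.erase k).powersetCard h) : (JJ I k).card = h := by
  rw [mem_powersetCard] at hI
  unfold JJ
  rw [card_sdiff_of_subset hI.1, hI.2, card_erase_of_mem (mem_univ k), card_univ, Fintype.card_fin]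
  omega

lemma sm_le (I : Finset (Fin (2 * h + 1))) (k : Fin (2 * h + 1)) {w : Vec (2 * h + 1)}
    (hw : w ∈ Orth (2 * h + 1)) : sm (rs I w) + sm (rs (JJ I k) w) ≤ sm w := by
  rw [sm_rs, sm_rs, ← sum_union]
  · unfold sm
    exact sum_le_sum_of_subset_of_nonneg (subset_univ _) fun i _ _ => hw i
  · unfold JJ
    exact disjoint_sdiff

lemma PsiE_le (hK : Pos (2 * h + 1) Kc δ) (hB : 0 ≤ B)
    {I : Finset (Fin (2 * h + 1))} {k : Fin (2 * h + 1)} (hI : I ∈ (univ.erase k).powersetCard h)
    {w : Vec (2 * h + 1)} (hw : w ∈ Orth (2 * h + 1)) :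
    PsiE Kc B I k w ≤ (2 * h + 1) * B * sm w := by
  have hp : ∀ (l : Fin (2 * h + 1)) (H : Finset (Fin (2 * h + 1))),
      Phi Kc B l (rs H w) ≤ B * sm (rs H w) := fun l H => phi_le_sm hK hB (rs_nonneg H hw)
  have hs : ∀ (H G : Finset (Fin (2 * h + 1))), G.card = h →
      ∑ j ∈ G, Phi Kc B j (rs H w) ≤ h * (B * sm (rs H w)) := by
    intro H G hG
    calc ∑ j ∈ G, Phi Kc B j (rs H w) ≤ ∑ _j ∈ G, B * sm (rs H w) :=
          sum_le_sum fun j _ => hp j H
      _ = h * (B * sm (rs H w)) := by rw [sum_const, hG, nsmul_eq_mul]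
  have h1 := hs I (JJ I k) (card_JJ hI)
  have h2 := hs (JJ I k) I (mem_powersetCard.1 hI).2
  have h3 := hp k I
  have h4 := hp k (JJ I k)
  have h5 := sm_le I k hw
  have h6 : (2 * h + 1) * B * (sm (rs I w) + sm (rs (JJ I k) w)) ≤ (2 * h + 1) * B * sm w :=
    mul_le_mul_of_nonneg_left h5 (by positivity)
  unfold PsiE
  nlinarith

lemma rs_update {H : Finset (Fin (2 * h + 1))} {k : Fin (2 * h + 1)} (hk : k ∉ H)
    (y : Vec (2 * h + 1)) (s : ℝ) : rs H (Function.update y k s) = rs H y := by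
  funext i
  unfold rs
  by_cases hi : i ∈ H
  · have hik : i ≠ k := fun e => hk (e ▸ hi)
    rw [if_pos hi, if_pos hi, Function.update_of_ne hik]
  · rw [if_neg hi, if_neg hi]

lemma PsiE_update {I : Finset (Fin (2 * h + 1))} {k : Fin (2 * h + 1)}
    (hI : I ∈ (univ.erase k).powersetCard h) (y : Vec (2 * h + 1)) (s : ℝ) :
    PsiE Kc B I k (Function.update y k s) = PsiE Kc B I k y := by
  have h1 : k ∉ I := fun hk => by
    have := (mem_powersetCard.1 hI).1 hk
    exact (mem_erase.1 this).1 rfl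
  have h2 : k ∉ JJ I k := fun hk => by
    unfold JJ at hk
    exact (mem_erase.1 (mem_sdiff.1 hk).1).1 rfl
  unfold PsiE
  rw [rs_update h1, rs_update h2]

lemma T_nonneg (hK : Pos (2 * h + 1) Kc δ) (hB : 0 ≤ B) : 0 ≤ T h Kc B := by
  unfold T J
  exact sum_nonneg fun l _ => sum_nonneg fun H _ => integral_nonneg fun y => phi_nonneg hK hB _

end

/-- the bound of a nonnegative integral is nonnegative -/
lemma bound_nonneg {n : ℕ} {f : Vec n → ℝ} (hf : Measurable f) {c : ℝ}
    (hle : ∫⁻ y, ENNReal.ofReal (Real.exp (-f y)) ∂(Pe n) ≤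
      ENNReal.ofReal (1 - c * ∫ y, f y ∂(Pe n))) : 0 ≤ 1 - c * ∫ y, f y ∂(Pe n) := by
  by_contra hneg
  rw [not_le] at hneg
  rw [ENNReal.ofReal_of_nonpos hneg.le] at hle
  have h0 := le_antisymm hle bot_le
  have hm : Measurable fun y : Vec n => ENNReal.ofReal (Real.exp (-f y)) :=
    (Real.measurable_exp.comp hf.neg).ennreal_ofReal
  rw [lintegral_eq_zero_iff hm] at h0
  have h1 : ∀ᵐ _y ∂(Pe n), False := by
    filter_upwards [h0] with y hy
    have h2 := Real.exp_pos (-f y)
    have h3 : ENNReal.ofReal (Real.exp (-f y)) = 0 := hy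
    rw [ENNReal.ofReal_eq_zero] at h3
    linarith
  have h2 : Pe n = 0 := by
    rw [← ae_eq_bot]
    exact Filter.eventually_false_iff_eq_bot.1 h1
  rw [h2, integral_zero_measure, mul_zero] at hneg
  linarith

end R1Ex

open R1Ex in
/-- explicit first order bound, even dimension -/
theorem stR1E (h1 : StVE) (h2 : StAlgE) (h3 : StE1) (h4 : StEE) (_h5 : StInt) : StR1E := by
  classical
  intro h Kc δ B _ hK hB
  set N : ℝ := 2 * h + 1 with hN
  have hN1 : 1 ≤ N := by
    rw [hN]
    have : (0 : ℝ) ≤ h := Nat.cast_nonneg h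
    linarith
  set η : ℝ := 2 * N ^ 2 * B with hη
  have hη0 : 0 ≤ η := by positivity
  set f : Finset (Fin (2 * h + 1)) → Fin (2 * h + 1) → Vec (2 * h + 1) → ℝ := fun I k y =>
    if I ∈ (univ.erase k).powersetCard h then PsiE Kc B I k y / (1 + η) else 0 with hf
  have hfin : ∀ {I k}, I ∈ (univ.erase k).powersetCard h →
      f I k = fun y => PsiE Kc B I k y / (1 + η) := by
    intro I k hI
    funext y
    simp only [hf]
    rw [if_pos hI]
  have hfm : ∀ I k, Measurable (f I k) := by
    intro I k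
    by_cases hI : I ∈ (univ.erase k).powersetCard h
    · rw [hfin hI]
      exact (measurable_PsiE hK hB I k).div_const _
    · have : f I k = fun _ => 0 := by
        funext y
        simp only [hf]
        rw [if_neg hI]
      rw [this]
      exact measurable_const
  have hVE := h1 h Kc δ f hK hfm (by
    intro I k y s
    by_cases hI : I ∈ (univ.erase k).powersetCard h
    · rw [hfin hI]
      simp only
      rw [PsiE_update hI]
    · simp only [hf]
      rw [if_neg hI, if_neg hI]) (by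
    intro k I hI w hw hRT
    rw [hfin hI]
    simp only
    rw [div_le_iff₀ (by positivity)]
    have := (h2 h Kc δ B hK hB k I hI w hw hRT).2
    rw [hη, hN]
    linarith)
  -- the pieces
  set c : ℝ := 1 - (((2 * h + 1 : ℕ) : ℝ) + 1) * (N * B) with hc
  have hpiece : ∀ k, ∀ I ∈ (univ.erase k).powersetCard h,
      ∫⁻ y, ENNReal.ofReal (Real.exp (-f I k y)) ∂(Pe (2 * h + 1)) ≤
        ENNReal.ofReal (1 - c * ∫ y, f I k y ∂(Pe (2 * h + 1))) := by
    intro k I hI
    refine h3 (2 * h + 1) (f I k) (N * B) (hfm I k) (by positivity) ?_ ?_ ?_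
    · intro y _
      rw [hfin hI]
      exact div_nonneg (PsiE_nonneg hK hB I k y) (by positivity)
    · intro y hy
      rw [hfin hI]
      simp only
      refine (div_le_self (PsiE_nonneg hK hB I k y) (by linarith)).trans ?_
      exact PsiE_le hK hB hI hy
    · intro y _ a ha
      rw [hfin hI]
      simp only
      rw [PsiE_smul hK hB I k y ha]
      ring
  have hpos : ∀ k, ∀ I ∈ (univ.erase k).powersetCard h,
      0 ≤ 1 - c * ∫ y, f I k y ∂(Pe (2 * h + 1)) := fun k I hI =>
    bound_nonneg (hfm I k) (hpiece k I hI)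
  have hsum : ∑ k, ∑ I ∈ (univ.erase k).powersetCard h,
      ∫⁻ y, ENNReal.ofReal (Real.exp (-f I k y)) ∂(Pe (2 * h + 1)) ≤
      ENNReal.ofReal (∑ k, ∑ I ∈ (univ.erase k).powersetCard h,
        (1 - c * ∫ y, f I k y ∂(Pe (2 * h + 1)))) := by
    rw [ENNReal.ofReal_sum_of_nonneg fun k _ => sum_nonneg fun I hI => hpos k I hI]
    refine sum_le_sum fun k _ => ?_
    rw [ENNReal.ofReal_sum_of_nonneg fun I hI => hpos k I hI]
    exact sum_le_sum fun I hI => hpiece k I hI
  have hcard : ∑ k : Fin (2 * h + 1), ∑ _I ∈ (univ.erase k).powersetCard h, (1 : ℝ) =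
      N * (Nat.choose (2 * h) h : ℝ) := by
    have e1 : ∀ k : Fin (2 * h + 1), ∑ _I ∈ (univ.erase k).powersetCard h, (1 : ℝ) =
        (Nat.choose (2 * h) h : ℝ) := by
      intro k
      rw [sum_const, card_powersetCard, card_erase_of_mem (mem_univ k), card_univ,
        Fintype.card_fin, nsmul_eq_mul, mul_one]
      rfl
    rw [sum_congr rfl fun k _ => e1 k, sum_const, card_univ, Fintype.card_fin, nsmul_eq_mul, hN]
    push_cast
    ring
  have hint : ∑ k, ∑ I ∈ (univ.erase k).powersetCard h, ∫ y, f I k y ∂(Pe (2 * h + 1)) =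
      2 * N * T h Kc B / (1 + η) := by
    rw [hN, ← h4 h Kc δ B hK hB, sum_div]
    refine sum_congr rfl fun k _ => ?_
    rw [sum_div]
    refine sum_congr rfl fun I hI => ?_
    rw [hfin hI, integral_div]
  have htot : ∑ k, ∑ I ∈ (univ.erase k).powersetCard h,
      (1 - c * ∫ y, f I k y ∂(Pe (2 * h + 1))) =
      N * (Nat.choose (2 * h) h : ℝ) - c * (2 * N * T h Kc B / (1 + η)) := by
    rw [← hcard, ← hint, mul_sum, ← sum_sub_distrib]
    refine sum_congr rfl fun k _ => ?_
    rw [mul_sum, ← sum_sub_distrib]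
  refine hVE.trans ?_
  calc ENNReal.ofReal (1 / (2 * h + 1 : ℝ)) * ∑ k, ∑ I ∈ (univ.erase k).powersetCard h,
        ∫⁻ y, ENNReal.ofReal (Real.exp (-f I k y)) ∂(Pe (2 * h + 1))
      ≤ ENNReal.ofReal (1 / N) * ENNReal.ofReal
        (N * (Nat.choose (2 * h) h : ℝ) - c * (2 * N * T h Kc B / (1 + η))) := by
        rw [htot] at hsum
        exact mul_le_mul_right hsum _
    _ = ENNReal.ofReal (1 / N *
        (N * (Nat.choose (2 * h) h : ℝ) - c * (2 * N * T h Kc B / (1 + η)))) := by
        rw [← ENNReal.ofReal_mul (by positivity)]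
    _ ≤ _ := by
        apply ENNReal.ofReal_le_ofReal
        have hT := T_nonneg hK hB
        have e1 : 1 / N * (N * (Nat.choose (2 * h) h : ℝ) - c * (2 * N * T h Kc B / (1 + η))) =
            (Nat.choose (2 * h) h : ℝ) - 2 * (c / (1 + η)) * T h Kc B := by
          field_simp
        rw [e1]
        have e2 : 1 - 4 * N ^ 2 * B ≤ c / (1 + η) := by
          rw [le_div_iff₀ (by positivity), hc, hη]
          have e3 : (((2 * h + 1 : ℕ) : ℝ) + 1) = N + 1 := by
            rw [hN]
            push_cast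
            ring
          rw [e3]
          have e4 : 0 ≤ N ^ 4 * B ^ 2 := by positivity
          have e5 : N * B ≤ N ^ 2 * B := by
            have : N ≤ N ^ 2 := by nlinarith
            exact mul_le_mul_of_nonneg_right this hB
          nlinarith
        have e6 : 2 * (1 - 4 * N ^ 2 * B) * T h Kc B ≤ 2 * (c / (1 + η)) * T h Kc B := by
          have := mul_le_mul_of_nonneg_right e2 hT
          linarith
        linarith

end Pool.Agent.Lib.MP_725e58_gt.Loc
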