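import Pool.Agent.Lib.MP_725e58_gt.Loc.Stmts

/-!
Local maximality of the simplex for the Fary-Redei problem: the explicit first order bound in odd
dimension.
-/

set_option autoImplicit false

namespace Pool.Agent.Lib.MP_725e58_gt.Loc

open MeasureTheory Finset

namespace R1Ox

variable {n : ℕ} {Kc : Set (Vec n)} {δ B : ℝ}

lemma ae_Orth (n : ℕ) : ∀ᵐ y ∂(Pe n), y ∈ Orth n := by
  have h1 : (Pe n) ≪ volume.restrict (Orth n) := withDensity_absolutelyContinuous _ _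
  exact h1.ae_le (ae_restrict_mem measurableSet_Orth)

lemma intLin (h5 : StInt) {f : Vec n → ℝ} (hf : Measurable f) (C : ℝ)
    (hC : ∀ y ∈ Orth n, |f y| ≤ C * sm y) : Integrable f (Pe n) := by
  refine h5 n f (2 * |C|) (1 / 2) hf (by norm_num) fun y hy => (hC y hy).trans ?_
  have h1 := sm_nonneg hy
  have h2 : 1 / 2 * sm y + 1 ≤ Real.exp (1 / 2 * sm y) := Real.add_one_le_exp _
  have h3 : C * sm y ≤ |C| * sm y := mul_le_mul_of_nonneg_right (le_abs_self _) h1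
  have h4 := abs_nonneg C
  nlinarith

lemma intCoord (h5 : StInt) (i : Fin n) : Integrable (fun y : Vec n => y i) (Pe n) :=
  intLin h5 (measurable_pi_apply i) 1 fun y hy => by
    rw [abs_of_nonneg (hy i), one_mul]; exact le_sm hy i

lemma intSm (h5 : StInt) : Integrable (fun y : Vec n => sm y) (Pe n) :=
  intLin h5 continuous_sm.measurable 1 fun y hy => by
    rw [abs_of_nonneg (sm_nonneg hy), one_mul]

lemma eSm (h5 : StInt) (h9 : StMean) : ∫ y, sm y ∂(Pe n) = n := by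
  unfold sm
  rw [integral_finsetSum _ fun i _ => intCoord h5 i]
  simp [h9 n]

lemma J_nonneg (hK : Pos n Kc δ) (hB : 0 ≤ B) (l : Fin n) (H : Finset (Fin n)) :
    0 ≤ J Kc B l H := integral_nonneg fun _ => phi_nonneg hK hB _

lemma T_nonneg (hK : Pos n Kc δ) (hB : 0 ≤ B) (h : ℕ) : 0 ≤ T h Kc B :=
  sum_nonneg fun _ _ => sum_nonneg fun _ _ => J_nonneg hK hB _ _

lemma sumJ_le (hK : Pos n Kc δ) (hB : 0 ≤ B) {h : ℕ} {I : Finset (Fin n)} (hI : I.card = h) :
    ∑ l ∈ Iᶜ, J Kc B l I ≤ T h Kc B := by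
  unfold T
  refine (sum_le_sum fun l hl => ?_).trans (sum_le_sum_of_subset_of_nonneg (subset_univ Iᶜ)
    fun l _ _ => sum_nonneg fun H _ => J_nonneg hK hB l H)
  refine single_le_sum (f := fun H => J Kc B l H) (fun H _ => J_nonneg hK hB l H) ?_
  rw [mem_powersetCard]
  refine ⟨fun j hj => ?_, hI⟩
  rw [mem_erase]
  refine ⟨?_, mem_univ _⟩
  rintro rfl
  rw [mem_compl] at hl
  exact hl hj

lemma lam_one_le (h8 : StJens) (hK : Pos n Kc δ) (hB : 0 ≤ B) {h : ℕ} {I : Finset (Fin n)}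
    (hI : I.card = h) : Lam Kc B I (one I) ≤ 2 * T h Kc B := by
  unfold Lam
  refine mul_le_mul_of_nonneg_left ?_ (by norm_num)
  exact (sum_le_sum fun l _ => h8 n Kc δ B l I hK hB).trans (sumJ_le hK hB hI)

lemma intPhi (h5 : StInt) (hK : Pos n Kc δ) (hB : 0 ≤ B) (l : Fin n) (H : Finset (Fin n)) :
    Integrable (fun y => Phi Kc B l (rs H y)) (Pe n) := by
  refine intLin h5 ((continuous_phi hK hB).comp (continuous_rs H)).measurable B fun y hy => ?_
  rw [abs_of_nonneg (phi_nonneg hK hB _)]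
  refine (phi_le_sm hK hB (rs_nonneg H hy)).trans (mul_le_mul_of_nonneg_left ?_ hB)
  rw [sm_rs]
  exact sum_le_sum_of_subset_of_nonneg (subset_univ H) fun i _ _ => hy i

lemma intLam (h5 : StInt) (hK : Pos n Kc δ) (hB : 0 ≤ B) (I : Finset (Fin n)) :
    Integrable (fun y => Lam Kc B I (rs I y)) (Pe n) :=
  (integrable_finsetSum _ fun l _ => intPhi h5 hK hB l I).const_mul 2

lemma eLam (h5 : StInt) (hK : Pos n Kc δ) (hB : 0 ≤ B) {h : ℕ} {I : Finset (Fin n)}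
    (hI : I.card = h) : ∫ y, Lam Kc B I (rs I y) ∂(Pe n) ≤ 2 * T h Kc B := by
  unfold Lam
  rw [integral_const_mul, integral_finsetSum _ fun l _ => intPhi h5 hK hB l I]
  exact mul_le_mul_of_nonneg_left (sumJ_le hK hB hI) (by norm_num)

lemma rs_TM {h : ℕ} {I : Finset (Fin n)} (hI : I.card = h) {i : Fin n} (w : Vec n) :
    rs I (TM I i w) = fun j => rs (I.erase i) w j + (w i / h) * one I j := by
  funext j
  by_cases hj : j ∈ I
  · by_cases hji : j = i
    · subst hji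
      simp [rs, TM, one, hj, hI]
    · simp [rs, TM, one, hj, hI, hji]
  · simp [rs, one, hj]

/-- memorylessness for `Lam` -/
lemma mem_bound (h5 : StInt) (h6 : StMemR) (hK : Pos n Kc δ) (hB : 0 ≤ B) {h : ℕ}
    {I : Finset (Fin n)} (hI : I.card = h) {i : Fin n} (hi : i ∈ I) :
    Integrable (fun y => Lam Kc B I (rs I (TM I i y))) (Pe n) ∧
    ∫ y, Lam Kc B I (rs I (TM I i y)) ∂(Pe n) ≤ 2 * h * T h Kc B := by
  have hne : I.Nonempty := ⟨i, hi⟩
  have hh : (0 : ℝ) < h := by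
    rw [← hI]; exact_mod_cast card_pos.2 hne
  obtain ⟨m1, m2⟩ := h6 n I (fun y => Lam Kc B I (rs I y)) hne
    ((continuous_lam hK hB I).comp (continuous_rs I)).measurable (intLam h5 hK hB I)
  refine ⟨m1 i hi, ?_⟩
  have e1 := eLam h5 hK hB hI
  rw [m2, hI] at e1
  have e2 : ∫ y, Lam Kc B I (rs I (TM I i y)) ∂(Pe n) ≤
      ∑ k ∈ I, ∫ y, Lam Kc B I (rs I (TM I k y)) ∂(Pe n) :=
    single_le_sum (f := fun k => ∫ y, Lam Kc B I (rs I (TM I k y)) ∂(Pe n))
      (fun k _ => integral_nonneg fun _ => lam_nonneg hK hB _ _) hi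
  rw [inv_mul_le_iff₀ hh] at e1
  linarith

lemma aO_eq {h : ℕ} {I : Finset (Fin n)} (hI : I.card = h) (i : Fin n) (w : Vec n) :
    aO h I i w = rs I (TM I i w) := (rs_TM hI w).symm

lemma bO_swap {h : ℕ} {I : Finset (Fin n)} (hI : Iᶜ.card = h) {i k : Fin n} (hi : i ∈ I)
    (hk : k ∈ Iᶜ) (w : Vec n) :
    bO h I i k (fun j => w (Equiv.swap i k j)) = rs Iᶜ (TM Iᶜ k w) := by
  have hik : i ≠ k := by
    rintro rfl
    exact (mem_compl.1 hk) hi
  rw [rs_TM hI w]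
  funext j
  simp only [bO, Equiv.swap_apply_left]
  congr 1
  by_cases hj : j ∈ Iᶜ.erase k
  · rw [mem_erase] at hj
    have h1 : j ≠ i := by
      rintro rfl
      exact (mem_compl.1 hj.2) hi
    simp only [rs]
    rw [Equiv.swap_apply_of_ne_of_ne h1 hj.1]
  · simp [rs, hj]

lemma aO_smul {h : ℕ} (I : Finset (Fin n)) (i : Fin n) (a : ℝ) (w : Vec n) :
    aO h I i (a • w) = a • aO h I i w := by
  funext j
  simp only [aO, rs_smul, Pi.smul_apply, smul_eq_mul]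
  ring

lemma bO_smul {h : ℕ} (I : Finset (Fin n)) (i k : Fin n) (a : ℝ) (w : Vec n) :
    bO h I i k (a • w) = a • bO h I i k w := by
  funext j
  simp only [bO, rs_smul, Pi.smul_apply, smul_eq_mul]
  ring

lemma continuous_aO (h : ℕ) (I : Finset (Fin n)) (i : Fin n) : Continuous (aO h I i) := by
  refine continuous_pi fun j => ?_
  exact ((continuous_apply j).comp (continuous_rs _)).add
    (((continuous_apply i).div_const _).mul continuous_const)

lemma continuous_bO (h : ℕ) (I : Finset (Fin n)) (i k : Fin n) : Continuous (bO h I i k) := by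
  refine continuous_pi fun j => ?_
  exact ((continuous_apply j).comp (continuous_rs _)).add
    (((continuous_apply i).div_const _).mul continuous_const)

lemma one_nonneg (I : Finset (Fin n)) : one I ∈ Orth n := by
  intro j
  by_cases hj : j ∈ I <;> simp [one, hj]

lemma sm_one (I : Finset (Fin n)) : sm (one I) = I.card := by
  simp [sm, one]

lemma aO_mem {h : ℕ} (I : Finset (Fin n)) (i : Fin n) {w : Vec n} (hw : w ∈ Orth n) :
    aO h I i w ∈ Orth n := fun j => add_nonneg (rs_nonneg _ hw j)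
      (mul_nonneg (div_nonneg (hw i) (Nat.cast_nonneg h)) (one_nonneg I j))

lemma bO_mem {h : ℕ} (I : Finset (Fin n)) (i k : Fin n) {w : Vec n} (hw : w ∈ Orth n) :
    bO h I i k w ∈ Orth n := fun j => add_nonneg (rs_nonneg _ hw j)
      (mul_nonneg (div_nonneg (hw i) (Nat.cast_nonneg h)) (one_nonneg Iᶜ j))

lemma sm_aO {h : ℕ} (hh : 0 < h) {I : Finset (Fin n)} (hI : I.card = h) {i : Fin n} (hi : i ∈ I)
    (w : Vec n) : sm (aO h I i w) = ∑ j ∈ I, w j := by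
  have e : aO h I i w = rs (I.erase i) w + (w i / h) • one I := by
    funext j
    simp [aO]
  have hh' : (h : ℝ) ≠ 0 := by exact_mod_cast hh.ne'
  rw [e, sm_add, sm_smul, sm_one, sm_rs, hI, div_mul_cancel₀ _ hh', sum_erase_add _ _ hi]

lemma sm_bO {h : ℕ} (hh : 0 < h) {I : Finset (Fin n)} (hI : Iᶜ.card = h) (i k : Fin n)
    (w : Vec n) : sm (bO h I i k w) = ∑ j ∈ Iᶜ.erase k, w j + w i := by
  have e : bO h I i k w = rs (Iᶜ.erase k) w + (w i / h) • one Iᶜ := by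
    funext j
    simp [bO]
  have hh' : (h : ℝ) ≠ 0 := by exact_mod_cast hh.ne'
  rw [e, sm_add, sm_smul, sm_one, sm_rs, hI, div_mul_cancel₀ _ hh']

lemma sum_le_sm (I : Finset (Fin n)) {w : Vec n} (hw : w ∈ Orth n) : ∑ j ∈ I, w j ≤ sm w :=
  sum_le_sum_of_subset_of_nonneg (subset_univ I) fun i _ _ => hw i

lemma sm_aO_le {h : ℕ} (hh : 0 < h) {I : Finset (Fin n)} (hI : I.card = h) {i : Fin n}
    (hi : i ∈ I) {w : Vec n} (hw : w ∈ Orth n) : sm (aO h I i w) ≤ sm w := by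
  rw [sm_aO hh hI hi]
  exact sum_le_sm I hw

lemma sm_bO_le {h : ℕ} (hh : 0 < h) {I : Finset (Fin n)} (hI : Iᶜ.card = h) {i k : Fin n}
    (hi : i ∈ I) {w : Vec n} (hw : w ∈ Orth n) : sm (bO h I i k w) ≤ sm w := by
  rw [sm_bO hh hI]
  have h1 : i ∉ Iᶜ.erase k := fun h => (mem_compl.1 (mem_of_mem_erase h)) hi
  have h2 := sum_insert (f := w) h1
  rw [add_comm, ← h2]
  exact sum_le_sm _ hw

lemma lam_le_sm (hK : Pos n Kc δ) (hB : 0 ≤ B) {h : ℕ} {I : Finset (Fin n)}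
    (hI : Iᶜ.card = h) {y : Vec n} (hy : y ∈ Orth n) : Lam Kc B I y ≤ 2 * h * B * sm y := by
  unfold Lam
  have h1 : ∑ l ∈ Iᶜ, Phi Kc B l y ≤ ∑ _l ∈ Iᶜ, B * sm y :=
    sum_le_sum fun l _ => phi_le_sm hK hB hy
  rw [sum_const, nsmul_eq_mul, hI] at h1
  nlinarith

lemma gg_abs (hK : Pos n Kc δ) (hB : 0 ≤ B) (h : ℕ) (I : Finset (Fin n)) (x : Vec n) :
    |gg h Kc B I x| ≤ Lam Kc B I (one I) + Lam Kc B Iᶜ (one Iᶜ) + h * |uu I x| := by
  have h1 := lam_nonneg hK hB I (one I)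
  have h2 := lam_nonneg hK hB Iᶜ (one Iᶜ)
  have h3 := le_abs_self (uu I x)
  have h4 := neg_abs_le (uu I x)
  have h5 : (0 : ℝ) ≤ h := Nat.cast_nonneg h
  have h6 := mul_le_mul_of_nonneg_left h3 h5
  have h7 := mul_le_mul_of_nonneg_left h4 h5
  unfold gg
  rw [abs_le]
  refine ⟨?_, max_le (by linarith) (by linarith)⟩
  refine le_trans ?_ (le_max_left _ _)
  linarith

lemma uu_abs {h : ℕ} {I : Finset (Fin n)} (hI : I.card = h) {x : Vec n} {ξ : ℝ}
    (hx : ∀ i, |x i| ≤ ξ) : |uu I x| ≤ 2 * h * ξ := by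
  unfold uu
  rw [abs_mul, abs_two]
  have h1 : |∑ i ∈ I, x i| ≤ ∑ _i ∈ I, ξ :=
    (abs_sum_le_sum_abs _ _).trans (sum_le_sum fun i _ => hx i)
  rw [sum_const, nsmul_eq_mul, hI] at h1
  linarith

/-- the dominating function -/
noncomputable def gf (h : ℕ) (Kc : Set (Vec n)) (B : ℝ) (I : Finset (Fin n)) (i k : Fin n)
    (x : Vec n) (c : ℝ) (w : Vec n) : ℝ :=
  Lam Kc B I (aO h I i w) + Lam Kc B Iᶜ (bO h I i k w) + (w i / h) * |gg h Kc B I x| +
    |uu I x| * sm w + c * sm w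

lemma continuous_gf (hK : Pos n Kc δ) (hB : 0 ≤ B) (h : ℕ) (I : Finset (Fin n)) (i k : Fin n)
    (x : Vec n) (c : ℝ) : Continuous (gf h Kc B I i k x c) := by
  have h1 := (continuous_lam hK hB I).comp (continuous_aO h I i)
  have h2 := (continuous_lam hK hB Iᶜ).comp (continuous_bO h I i k)
  have h3 : Continuous fun w : Vec n => (w i / h) * |gg h Kc B I x| :=
    ((continuous_apply i).div_const _).mul continuous_const
  have h4 : Continuous fun w : Vec n => |uu I x| * sm w := continuous_const.mul continuous_sm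
  have h5 : Continuous fun w : Vec n => c * sm w := continuous_const.mul continuous_sm
  exact (((h1.add h2).add h3).add h4).add h5

lemma gf_smul (hK : Pos n Kc δ) (hB : 0 ≤ B) (h : ℕ) (I : Finset (Fin n)) (i k : Fin n)
    (x : Vec n) (c : ℝ) (w : Vec n) {a : ℝ} (ha : 0 ≤ a) :
    gf h Kc B I i k x c (a • w) = a * gf h Kc B I i k x c w := by
  unfold gf
  rw [aO_smul, bO_smul, lam_smul hK hB _ ha, lam_smul hK hB _ ha, sm_smul]
  simp only [Pi.smul_apply, smul_eq_mul]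
  ring

/-- the numerator of the lower bound of the height of the piece -/
noncomputable def nf (h : ℕ) (Kc : Set (Vec n)) (B : ℝ) (I : Finset (Fin n)) (i k : Fin n)
    (x : Vec n) (c : ℝ) (w : Vec n) : ℝ :=
  PsiO h Kc B I i k x w - c * ∑ j ∈ univ.erase k, w j

lemma continuous_PsiO (hK : Pos n Kc δ) (hB : 0 ≤ B) (h : ℕ) (I : Finset (Fin n)) (i k : Fin n)
    (x : Vec n) : Continuous (PsiO h Kc B I i k x) := by
  have h1 := (continuous_lam hK hB I).comp (continuous_aO h I i)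
  have h2 := (continuous_lam hK hB Iᶜ).comp (continuous_bO h I i k)
  have h3 : Continuous fun w : Vec n => (w i / h) * gg h Kc B I x :=
    ((continuous_apply i).div_const _).mul continuous_const
  have h4 : Continuous fun w : Vec n =>
      uu I x * ((∑ j ∈ I.erase i, w j) - ∑ j ∈ Iᶜ.erase k, w j) :=
    continuous_const.mul ((continuous_finsetSum _ fun j _ => continuous_apply j).sub
      (continuous_finsetSum _ fun j _ => continuous_apply j))
  exact ((h1.add h2).sub h3).add h4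

lemma continuous_nf (hK : Pos n Kc δ) (hB : 0 ≤ B) (h : ℕ) (I : Finset (Fin n)) (i k : Fin n)
    (x : Vec n) (c : ℝ) : Continuous (nf h Kc B I i k x c) :=
  (continuous_PsiO hK hB h I i k x).sub
    (continuous_const.mul (continuous_finsetSum _ fun j _ => continuous_apply j))

lemma psi_abs (hK : Pos n Kc δ) (hB : 0 ≤ B) {h : ℕ} {I : Finset (Fin n)} {i k : Fin n}
    (x : Vec n) {w : Vec n} (hw : w ∈ Orth n) :
    |PsiO h Kc B I i k x w| ≤ Lam Kc B I (aO h I i w) + Lam Kc B Iᶜ (bO h I i k w) +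
      (w i / h) * |gg h Kc B I x| + |uu I x| * sm w := by
  have h1 := lam_nonneg hK hB I (aO h I i w)
  have h2 := lam_nonneg hK hB Iᶜ (bO h I i k w)
  have h3 : 0 ≤ w i / h := div_nonneg (hw i) (Nat.cast_nonneg h)
  have h4 : |(w i / h) * gg h Kc B I x| = (w i / h) * |gg h Kc B I x| := by
    rw [abs_mul, abs_of_nonneg h3]
  have h5 : |(∑ j ∈ I.erase i, w j) - ∑ j ∈ Iᶜ.erase k, w j| ≤ sm w := by
    have a1 := sum_le_sm (I.erase i) hw
    have a2 := sum_le_sm (Iᶜ.erase k) hw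
    have a3 : 0 ≤ ∑ j ∈ I.erase i, w j := sum_nonneg fun j _ => hw j
    have a4 : 0 ≤ ∑ j ∈ Iᶜ.erase k, w j := sum_nonneg fun j _ => hw j
    rw [abs_le]
    constructor <;> linarith
  have h6 : |uu I x * ((∑ j ∈ I.erase i, w j) - ∑ j ∈ Iᶜ.erase k, w j)| ≤ |uu I x| * sm w := by
    rw [abs_mul]
    exact mul_le_mul_of_nonneg_left h5 (abs_nonneg _)
  rw [← h4]
  have b1 := le_abs_self ((w i / h) * gg h Kc B I x)
  have b2 := neg_abs_le ((w i / h) * gg h Kc B I x)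
  have b3 := le_abs_self (uu I x * ((∑ j ∈ I.erase i, w j) - ∑ j ∈ Iᶜ.erase k, w j))
  have b4 := neg_abs_le (uu I x * ((∑ j ∈ I.erase i, w j) - ∑ j ∈ Iᶜ.erase k, w j))
  unfold PsiO
  rw [abs_le]
  constructor <;> linarith

lemma nf_abs (hK : Pos n Kc δ) (hB : 0 ≤ B) {h : ℕ} {I : Finset (Fin n)} {i k : Fin n}
    (x : Vec n) {c : ℝ} (hc : 0 ≤ c) {w : Vec n} (hw : w ∈ Orth n) :
    |nf h Kc B I i k x c w| ≤ gf h Kc B I i k x c w := by
  have h1 := psi_abs (h := h) (I := I) (i := i) (k := k) hK hB x hw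
  have h2 : 0 ≤ ∑ j ∈ univ.erase k, w j := sum_nonneg fun j _ => hw j
  have h3 := sum_le_sm (univ.erase k) hw
  have h4 := mul_le_mul_of_nonneg_left h3 hc
  have h5 := mul_nonneg hc h2
  unfold nf gf
  rw [abs_le] at h1 ⊢
  constructor <;> linarith [h1.1, h1.2]

lemma gf_le (hK : Pos n Kc δ) (hB : 0 ≤ B) {h : ℕ} (hh : 0 < h) (hn : (n : ℝ) = 2 * h)
    {I : Finset (Fin n)} (hI : I.card = h) (hI' : Iᶜ.card = h) {i k : Fin n} (hi : i ∈ I)
    {x : Vec n} {ξ : ℝ} (hξ : 0 ≤ ξ) (hξ1 : ξ ≤ 1) (hx : ∀ i, |x i| ≤ ξ) {w : Vec n}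
    (hw : w ∈ Orth n) :
    gf h Kc B I i k x (4 * n * (n ^ 2 * (B + ξ)) * ξ) w ≤ 8 * n ^ 3 * (B + ξ) * sm w := by
  have hs := sm_nonneg hw
  have hh1 : (1 : ℝ) ≤ h := by exact_mod_cast hh
  have a1 := (lam_le_sm hK hB (h := h) hI' (aO_mem (h := h) I i hw)).trans
    (mul_le_mul_of_nonneg_left (sm_aO_le hh hI hi hw) (by positivity))
  have a2 := (lam_le_sm hK hB (h := h) (I := Iᶜ) (by rw [compl_compl]; exact hI)
    (bO_mem (h := h) I i k hw)).trans
    (mul_le_mul_of_nonneg_left (sm_bO_le (k := k) hh hI' hi hw) (by positivity))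
  have a3 := lam_le_sm hK hB (h := h) hI' (one_nonneg I)
  have a4 := lam_le_sm hK hB (h := h) (I := Iᶜ) (by rw [compl_compl]; exact hI) (one_nonneg Iᶜ)
  rw [sm_one, hI] at a3
  rw [sm_one, hI'] at a4
  have a5 := gg_abs hK hB h I x
  have a6 := uu_abs hI hx
  have a7 : |gg h Kc B I x| ≤ h * (4 * h * B + 2 * h * ξ) := by
    have := mul_le_mul_of_nonneg_left a6 (Nat.cast_nonneg (α := ℝ) h)
    nlinarith
  have a8 : (w i / h) * |gg h Kc B I x| ≤ (4 * h * B + 2 * h * ξ) * sm w := by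
    have e1 : (w i / h) * |gg h Kc B I x| ≤ (w i / h) * (h * (4 * h * B + 2 * h * ξ)) :=
      mul_le_mul_of_nonneg_left a7 (div_nonneg (hw i) (Nat.cast_nonneg h))
    have e2 : (w i / h) * (h * (4 * h * B + 2 * h * ξ)) = w i * (4 * h * B + 2 * h * ξ) := by
      have : (h : ℝ) ≠ 0 := by positivity
      field_simp
    rw [e2] at e1
    refine e1.trans ?_
    rw [mul_comm (w i)]
    exact mul_le_mul_of_nonneg_left (le_sm hw i) (by positivity)
  have a9 : |uu I x| * sm w ≤ 2 * h * ξ * sm w := mul_le_mul_of_nonneg_right a6 hs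
  have hcoef : 2 * h * B + 2 * h * B + (4 * h * B + 2 * h * ξ) + 2 * h * ξ +
      4 * n * (n ^ 2 * (B + ξ)) * ξ ≤ 8 * (n : ℝ) ^ 3 * (B + ξ) := by
    rw [hn]
    have b1 : (2 * (h : ℝ)) ^ 3 * ((B + ξ) * ξ) ≤ (2 * (h : ℝ)) ^ 3 * (B + ξ) :=
      mul_le_mul_of_nonneg_left (by nlinarith) (by positivity)
    have b2 : (h : ℝ) ≤ (h : ℝ) ^ 3 := by nlinarith [mul_nonneg (sub_nonneg.2 hh1) (sq_nonneg (h : ℝ))]
    have b3 : (h : ℝ) * (B + ξ) ≤ (h : ℝ) ^ 3 * (B + ξ) :=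
      mul_le_mul_of_nonneg_right b2 (by positivity)
    have b4 : 0 ≤ (h : ℝ) * ξ := by positivity
    have b5 : 0 ≤ (h : ℝ) ^ 3 * (B + ξ) := by positivity
    nlinarith
  have := mul_le_mul_of_nonneg_right hcoef hs
  unfold gf
  nlinarith

lemma int_aO (h5 : StInt) (hK : Pos n Kc δ) (hB : 0 ≤ B) {h : ℕ} (hh : 0 < h)
    {I : Finset (Fin n)} (hI : I.card = h) (hI' : Iᶜ.card = h) {i : Fin n} (hi : i ∈ I) :
    Integrable (fun w => Lam Kc B I (aO h I i w)) (Pe n) := by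
  refine intLin h5 ((continuous_lam hK hB I).comp (continuous_aO h I i)).measurable
    (2 * h * B) fun w hw => ?_
  rw [abs_of_nonneg (lam_nonneg hK hB _ _)]
  exact (lam_le_sm hK hB (h := h) hI' (aO_mem (h := h) I i hw)).trans
    (mul_le_mul_of_nonneg_left (sm_aO_le hh hI hi hw) (by positivity))

lemma int_bO (h5 : StInt) (hK : Pos n Kc δ) (hB : 0 ≤ B) {h : ℕ} (hh : 0 < h)
    {I : Finset (Fin n)} (hI : I.card = h) (hI' : Iᶜ.card = h) {i : Fin n} (k : Fin n)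
    (hi : i ∈ I) : Integrable (fun w => Lam Kc B Iᶜ (bO h I i k w)) (Pe n) := by
  refine intLin h5 ((continuous_lam hK hB Iᶜ).comp (continuous_bO h I i k)).measurable
    (2 * h * B) fun w hw => ?_
  rw [abs_of_nonneg (lam_nonneg hK hB _ _)]
  exact (lam_le_sm hK hB (h := h) (I := Iᶜ) (by rw [compl_compl]; exact hI)
    (bO_mem (h := h) I i k hw)).trans
    (mul_le_mul_of_nonneg_left (sm_bO_le (k := k) hh hI' hi hw) (by positivity))

lemma e_aO (h5 : StInt) (h6 : StMemR) (hK : Pos n Kc δ) (hB : 0 ≤ B) {h : ℕ}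
    {I : Finset (Fin n)} (hI : I.card = h) {i : Fin n} (hi : i ∈ I) :
    ∫ w, Lam Kc B I (aO h I i w) ∂(Pe n) ≤ 2 * h * T h Kc B := by
  simp only [aO_eq hI]
  exact (mem_bound h5 h6 hK hB hI hi).2

lemma e_bO (h5 : StInt) (h6 : StMemR) (h7 : StPerm) (hK : Pos n Kc δ) (hB : 0 ≤ B) {h : ℕ}
    {I : Finset (Fin n)} (hI' : Iᶜ.card = h) {i k : Fin n} (hi : i ∈ I) (hk : k ∈ Iᶜ) :
    ∫ w, Lam Kc B Iᶜ (bO h I i k w) ∂(Pe n) ≤ 2 * h * T h Kc B := by
  have e1 := (h7 n (Equiv.swap i k)).map_eq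
  have hm : Measurable (fun (y : Vec n) (j : Fin n) => y (Equiv.swap i k j)) :=
    (h7 n (Equiv.swap i k)).measurable
  have e2 : ∫ w, Lam Kc B Iᶜ (bO h I i k w) ∂(Pe n) =
      ∫ w, Lam Kc B Iᶜ (bO h I i k (fun j => w (Equiv.swap i k j))) ∂(Pe n) := by
    conv_lhs => rw [← e1]
    exact integral_map hm.aemeasurable
      ((continuous_lam hK hB Iᶜ).comp (continuous_bO h I i k)).aestronglyMeasurable
  rw [e2]
  simp only [bO_swap hI' hi hk]
  exact (mem_bound h5 h6 hK hB hI' hk).2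

lemma int_gf (h5 : StInt) (hK : Pos n Kc δ) (hB : 0 ≤ B) {h : ℕ} (hh : 0 < h)
    {I : Finset (Fin n)} (hI : I.card = h) (hI' : Iᶜ.card = h) {i : Fin n} (k : Fin n)
    (hi : i ∈ I) (x : Vec n) (c : ℝ) : Integrable (gf h Kc B I i k x c) (Pe n) := by
  have h1 := int_aO h5 hK hB hh hI hI' hi
  have h2 := int_bO h5 hK hB hh hI hI' k hi
  have h3 : Integrable (fun w : Vec n => (w i / h) * |gg h Kc B I x|) (Pe n) :=
    ((intCoord h5 i).div_const _).mul_const _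
  have h4 : Integrable (fun w : Vec n => |uu I x| * sm w) (Pe n) := (intSm h5).const_mul _
  have h5' : Integrable (fun w : Vec n => c * sm w) (Pe n) := (intSm h5).const_mul _
  exact (((h1.add h2).add h3).add h4).add h5'

lemma e_gf (h5 : StInt) (h6 : StMemR) (h7 : StPerm) (h8 : StJens) (h9 : StMean)
    (hK : Pos n Kc δ) (hB : 0 ≤ B) {h : ℕ} (hh : 0 < h) (hn : (n : ℝ) = 2 * h)
    {I : Finset (Fin n)} (hI : I.card = h) (hI' : Iᶜ.card = h) {i k : Fin n} (hi : i ∈ I)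
    (hk : k ∈ Iᶜ) {x : Vec n} {ξ : ℝ} (hξ : 0 ≤ ξ) (hBξ : B + ξ ≤ 1) (hx : ∀ i, |x i| ≤ ξ) :
    ∫ w, gf h Kc B I i k x (4 * n * (n ^ 2 * (B + ξ)) * ξ) w ∂(Pe n) ≤
      8 * n ^ 4 * (T h Kc B + ξ) := by
  set c : ℝ := 4 * n * (n ^ 2 * (B + ξ)) * ξ with hc
  have h1 := int_aO h5 hK hB hh hI hI' hi
  have h2 := int_bO h5 hK hB hh hI hI' k hi
  have h3 : Integrable (fun w : Vec n => (w i / h) * |gg h Kc B I x|) (Pe n) :=
    ((intCoord h5 i).div_const _).mul_const _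
  have h4 : Integrable (fun w : Vec n => |uu I x| * sm w) (Pe n) := (intSm h5).const_mul _
  have h5' : Integrable (fun w : Vec n => c * sm w) (Pe n) := (intSm h5).const_mul _
  have e0 : ∫ w, gf h Kc B I i k x c w ∂(Pe n) =
      ∫ w, Lam Kc B I (aO h I i w) ∂(Pe n) + ∫ w, Lam Kc B Iᶜ (bO h I i k w) ∂(Pe n) +
      1 / h * |gg h Kc B I x| + |uu I x| * n + c * n := by
    have e1 := integral_add (((h1.add h2).add h3).add h4) h5'
    have e2 := integral_add ((h1.add h2).add h3) h4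
    have e3 := integral_add (h1.add h2) h3
    have e4 := integral_add h1 h2
    simp only [Pi.add_apply] at e1 e2 e3 e4
    unfold gf
    rw [e1, e2, e3, e4, integral_mul_const, integral_div, h9, integral_const_mul,
      integral_const_mul, eSm h5 h9]
  have hT := T_nonneg hK hB h
  have hh1 : (1 : ℝ) ≤ h := by exact_mod_cast hh
  have a1 := e_aO h5 h6 hK hB hI hi
  have a2 := e_bO h5 h6 h7 hK hB hI' hi hk
  have a3 := gg_abs hK hB h I x
  have a4 := lam_one_le h8 hK hB hI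
  have a5 := lam_one_le h8 hK hB hI'
  have a6 := uu_abs hI hx
  have a7 : 1 / h * |gg h Kc B I x| ≤ 4 * T h Kc B + 2 * h * ξ := by
    have b1 : |gg h Kc B I x| ≤ h * (4 * T h Kc B + 2 * h * ξ) := by
      have := mul_le_mul_of_nonneg_left a6 (Nat.cast_nonneg (α := ℝ) h)
      nlinarith
    rw [one_div, inv_mul_le_iff₀ (by linarith)]
    exact b1
  have a8 : |uu I x| * n ≤ 2 * h * ξ * n := mul_le_mul_of_nonneg_right a6 (Nat.cast_nonneg n)
  have a9 : c * n ≤ 4 * (n : ℝ) ^ 4 * ξ := by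
    have : c * n = 4 * (n : ℝ) ^ 4 * ξ * (B + ξ) := by
      rw [hc]; ring
    rw [this]
    exact mul_le_of_le_one_right (by positivity) hBξ
  rw [e0]
  have hn2 : (2 : ℝ) ≤ n := by rw [hn]; linarith
  have c1 : (2 * (h : ℝ) + 2 * h + 4) ≤ 8 * (n : ℝ) ^ 4 := by
    rw [show (2 * (h : ℝ) + 2 * h + 4) = 2 * n + 4 by rw [hn]; ring]
    nlinarith [mul_nonneg (sub_nonneg.2 hn2) (sub_nonneg.2 hn2), pow_nonneg (by linarith : (0 : ℝ) ≤ n) 3]
  have c2 : 2 * (h : ℝ) + 2 * h * n + 4 * (n : ℝ) ^ 4 ≤ 8 * (n : ℝ) ^ 4 := by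
    rw [show 2 * (h : ℝ) + 2 * h * n = n + n ^ 2 by rw [hn]; ring]
    have d1 : (n : ℝ) ≤ n ^ 2 := by nlinarith
    have d2 : (n : ℝ) ^ 2 * 2 ≤ n ^ 4 := by nlinarith [sq_nonneg (n : ℝ), sq_nonneg ((n : ℝ) ^ 2 - 2)]
    nlinarith
  have c3 := mul_le_mul_of_nonneg_right c1 hT
  have c4 := mul_le_mul_of_nonneg_right c2 hξ
  nlinarith

lemma rs_update {H : Finset (Fin n)} {k : Fin n} (hk : k ∉ H) (y : Vec n) (s : ℝ) :
    rs H (Function.update y k s) = rs H y := by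
  funext j
  by_cases hj : j ∈ H
  · have : j ≠ k := by
      rintro rfl
      exact hk hj
    simp [rs, hj, this]
  · simp [rs, hj]

lemma sum_update {H : Finset (Fin n)} {k : Fin n} (hk : k ∉ H) (y : Vec n) (s : ℝ) :
    ∑ j ∈ H, Function.update y k s j = ∑ j ∈ H, y j := by
  refine sum_congr rfl fun j hj => ?_
  have : j ≠ k := by
    rintro rfl
    exact hk hj
  simp [this]

lemma nf_update {h : ℕ} {I : Finset (Fin n)} {i k : Fin n} (hi : i ∈ I) (hk : k ∈ Iᶜ) (x : Vec n)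
    (c : ℝ) (y : Vec n) (s : ℝ) :
    nf h Kc B I i k x c (Function.update y k s) = nf h Kc B I i k x c y := by
  have hkI : k ∉ I := mem_compl.1 hk
  have hik : i ≠ k := by
    rintro rfl
    exact hkI hi
  have h1 : aO h I i (Function.update y k s) = aO h I i y := by
    funext j
    simp only [aO]
    rw [rs_update (fun h => hkI (mem_of_mem_erase h)), Function.update_of_ne hik]
  have h2 : bO h I i k (Function.update y k s) = bO h I i k y := by
    funext j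
    simp only [bO]
    rw [rs_update (notMem_erase k _), Function.update_of_ne hik]
  unfold nf PsiO
  rw [h1, h2, sum_update (fun h => hkI (mem_of_mem_erase h)), sum_update (notMem_erase k _),
    sum_update (notMem_erase k _), Function.update_of_ne hik]

/-- the integrated bound of one piece -/
lemma piece (h3 : StE2) (h5 : StInt) (h6 : StMemR) (h7 : StPerm) (h8 : StJens) (h9 : StMean)
    (hK : Pos n Kc δ) (hB : 0 ≤ B) {h : ℕ} (hh : 0 < h) (hn : (n : ℝ) = 2 * h)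
    {I : Finset (Fin n)} (hI : I.card = h) (hI' : Iᶜ.card = h) {i k : Fin n} (hi : i ∈ I)
    (hk : k ∈ Iᶜ) {x : Vec n} {ξ : ℝ} (hξ : 0 ≤ ξ) (hBξ : 32 * n ^ 4 * (B + ξ) ≤ 1)
    (hx : ∀ i, |x i| ≤ ξ) :
    0 ≤ 1 - ∫ w, PsiO h Kc B I i k x w ∂(Pe n) +
      (44 * n ^ 7 + 64 * 2 ^ (n + 2) * n ^ 7) * (B + ξ) * (T h Kc B + ξ) ∧
    ∫⁻ w, ENNReal.ofReal (Real.exp (-(nf h Kc B I i k x (4 * n * (n ^ 2 * (B + ξ)) * ξ) w /
      (1 + (n ^ 2 * (B + ξ) + 4 * n * (n ^ 2 * (B + ξ)) * ξ))))) ∂(Pe n) ≤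
    ENNReal.ofReal (1 - ∫ w, PsiO h Kc B I i k x w ∂(Pe n) +
      (44 * n ^ 7 + 64 * 2 ^ (n + 2) * n ^ 7) * (B + ξ) * (T h Kc B + ξ)) := by
  have hh1 : (1 : ℝ) ≤ h := by exact_mod_cast hh
  have hn2 : (2 : ℝ) ≤ n := by rw [hn]; linarith
  have hT := T_nonneg hK hB h
  have hX : 0 ≤ B + ξ := by positivity
  have p1 : (1 : ℝ) ≤ (n : ℝ) ^ 4 := one_le_pow₀ (by linarith)
  have p3 : (1 : ℝ) ≤ (n : ℝ) ^ 3 := one_le_pow₀ (by linarith)
  have hX1 : B + ξ ≤ 1 := by nlinarith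
  have hξ1 : ξ ≤ 1 := by linarith
  set c : ℝ := 4 * n * (n ^ 2 * (B + ξ)) * ξ with hc
  have hc0 : 0 ≤ c := by positivity
  set η : ℝ := n ^ 2 * (B + ξ) + c with hη
  have hη0 : 0 ≤ η := by positivity
  set A : ℝ := ∫ w, PsiO h Kc B I i k x w ∂(Pe n) with hA
  set G : ℝ := ∫ w, gf h Kc B I i k x c w ∂(Pe n) with hG
  have eG : G ≤ 8 * n ^ 4 * (T h Kc B + ξ) :=
    e_gf h5 h6 h7 h8 h9 hK hB hh hn hI hI' hi hk hξ hX1 hx
  have iG := int_gf h5 hK hB hh hI hI' k hi x c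
  have hgle : ∀ w ∈ Orth n, gf h Kc B I i k x c w ≤ 8 * n ^ 3 * (B + ξ) * sm w := fun w hw =>
    gf_le hK hB hh hn hI hI' hi hξ hξ1 hx hw
  have iPsi : Integrable (PsiO h Kc B I i k x) (Pe n) := by
    refine intLin h5 (continuous_PsiO hK hB h I i k x).measurable (8 * n ^ 3 * (B + ξ))
      fun w hw => ?_
    refine le_trans ?_ (hgle w hw)
    refine (psi_abs hK hB x hw).trans ?_
    unfold gf
    have := mul_nonneg hc0 (sm_nonneg hw)
    linarith
  have hAG : |A| ≤ G := by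
    refine (abs_integral_le_integral_abs).trans ?_
    refine integral_mono_ae iPsi.abs iG ?_
    filter_upwards [ae_Orth n] with w hw
    refine (psi_abs hK hB x hw).trans ?_
    unfold gf
    have := mul_nonneg hc0 (sm_nonneg hw)
    linarith
  have hG0 : 0 ≤ G := (abs_nonneg A).trans hAG
  have hG1 : G ≤ 1 / 4 := by
    have e1 : G ≤ ∫ w, 8 * n ^ 3 * (B + ξ) * sm w ∂(Pe n) := by
      refine integral_mono_ae iG ((intSm h5).const_mul _) ?_
      filter_upwards [ae_Orth n] with w hw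
      exact hgle w hw
    rw [integral_const_mul, eSm h5 h9] at e1
    have : 8 * (n : ℝ) ^ 3 * (B + ξ) * n = 8 * n ^ 4 * (B + ξ) := by ring
    rw [this] at e1
    linarith
  -- the integral of the numerator
  have isum : Integrable (fun w : Vec n => ∑ j ∈ univ.erase k, w j) (Pe n) :=
    integrable_finsetSum _ fun j _ => intCoord h5 j
  have esum : ∫ w : Vec n, ∑ j ∈ univ.erase k, w j ∂(Pe n) = n - 1 := by
    rw [integral_finsetSum _ fun j _ => intCoord h5 j]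
    simp only [h9 n]
    rw [sum_const, card_erase_of_mem (mem_univ k), card_univ, Fintype.card_fin, nsmul_eq_mul,
      mul_one]
    have : 1 ≤ n := by
      have : (1 : ℝ) ≤ n := by linarith
      exact_mod_cast this
    rw [Nat.cast_sub this, Nat.cast_one]
  have enf : ∫ w, nf h Kc B I i k x c w / (1 + η) ∂(Pe n) = (A - c * (n - 1)) / (1 + η) := by
    rw [integral_div]
    unfold nf
    rw [integral_sub iPsi (isum.const_mul c), integral_const_mul, esum]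
  have hρ : 8 * (n : ℝ) ^ 3 * (B + ξ) ≤ 1 / 4 := by
    have e1 : (n : ℝ) ^ 3 ≤ (n : ℝ) ^ 4 := by
      have := mul_le_mul_of_nonneg_left hn2 (by positivity : (0 : ℝ) ≤ (n : ℝ) ^ 3)
      nlinarith
    have := mul_le_mul_of_nonneg_right e1 hX
    nlinarith
  have key := h3 n (fun w => nf h Kc B I i k x c w / (1 + η)) (gf h Kc B I i k x c)
    (8 * n ^ 3 * (B + ξ)) ((continuous_nf hK hB h I i k x c).div_const _).measurable
    (continuous_gf hK hB h I i k x c).measurable (by positivity) hρ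
    (fun w hw => by
      rw [abs_div, abs_of_pos (by linarith : (0 : ℝ) < 1 + η)]
      refine (div_le_self (abs_nonneg _) (by linarith)).trans ?_
      exact nf_abs hK hB x hc0 hw) hgle
    (fun w hw a ha => gf_smul hK hB h I i k x c w ha)
  rw [enf] at key
  -- the final inequality
  have hm0 : 0 ≤ c * ((n : ℝ) - 1) := mul_nonneg hc0 (by linarith)
  have f1 : 1 - (A - c * ((n : ℝ) - 1)) / (1 + η) ≤ 1 - A + (|A| * η + c * ((n : ℝ) - 1)) := by
    have e1 : A - (A - c * ((n : ℝ) - 1)) / (1 + η) = (A * η + c * ((n : ℝ) - 1)) / (1 + η) := by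
      field_simp
      ring
    have e2 : (A * η + c * ((n : ℝ) - 1)) / (1 + η) ≤ (|A| * η + c * ((n : ℝ) - 1)) / (1 + η) := by
      refine div_le_div_of_nonneg_right ?_ (by linarith)
      have := mul_le_mul_of_nonneg_right (le_abs_self A) hη0
      linarith
    have e3 : (|A| * η + c * ((n : ℝ) - 1)) / (1 + η) ≤ |A| * η + c * ((n : ℝ) - 1) :=
      div_le_self (by positivity) (by linarith)
    linarith
  have hTξ : 0 ≤ T h Kc B + ξ := by positivity
  have f2 : η ≤ 5 * (n : ℝ) ^ 3 * (B + ξ) := by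
    have e1 : c ≤ 4 * n ^ 3 * (B + ξ) := by
      have : c = 4 * n ^ 3 * (B + ξ) * ξ := by rw [hc]; ring
      rw [this]
      exact mul_le_of_le_one_right (by positivity) hξ1
    have e2 : (n : ℝ) ^ 2 * (B + ξ) ≤ n ^ 3 * (B + ξ) := by
      refine mul_le_mul_of_nonneg_right ?_ hX
      have := mul_le_mul_of_nonneg_left hn2 (by positivity : (0 : ℝ) ≤ (n : ℝ) ^ 2)
      nlinarith
    rw [hη]
    linarith
  have f3 : |A| * η ≤ 40 * (n : ℝ) ^ 7 * ((B + ξ) * (T h Kc B + ξ)) := by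
    have e1 : |A| ≤ 8 * n ^ 4 * (T h Kc B + ξ) := hAG.trans eG
    calc |A| * η ≤ (8 * n ^ 4 * (T h Kc B + ξ)) * (5 * (n : ℝ) ^ 3 * (B + ξ)) :=
          mul_le_mul e1 f2 hη0 (by positivity)
      _ = 40 * (n : ℝ) ^ 7 * ((B + ξ) * (T h Kc B + ξ)) := by ring
  have f4 : c * ((n : ℝ) - 1) ≤ 4 * (n : ℝ) ^ 7 * ((B + ξ) * (T h Kc B + ξ)) := by
    have e1 : c * ((n : ℝ) - 1) ≤ c * n := mul_le_mul_of_nonneg_left (by linarith) hc0
    have e2 : c * n = 4 * (n : ℝ) ^ 4 * ((B + ξ) * ξ) := by rw [hc]; ring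
    have e3 : (B + ξ) * ξ ≤ (B + ξ) * (T h Kc B + ξ) := mul_le_mul_of_nonneg_left (by linarith) hX
    have e4 : 4 * (n : ℝ) ^ 4 * ((B + ξ) * ξ) ≤ 4 * (n : ℝ) ^ 4 * ((B + ξ) * (T h Kc B + ξ)) :=
      mul_le_mul_of_nonneg_left e3 (by positivity)
    have e5 : (n : ℝ) ^ 4 ≤ (n : ℝ) ^ 7 := pow_le_pow_right₀ (by linarith) (by norm_num)
    have e6 : 4 * (n : ℝ) ^ 4 * ((B + ξ) * (T h Kc B + ξ)) ≤
        4 * (n : ℝ) ^ 7 * ((B + ξ) * (T h Kc B + ξ)) :=
      mul_le_mul_of_nonneg_right (by linarith) (by positivity)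
    linarith
  have f5 : 8 * (n : ℝ) ^ 3 * (B + ξ) * 2 ^ (n + 2) * G ≤
      64 * 2 ^ (n + 2) * n ^ 7 * ((B + ξ) * (T h Kc B + ξ)) := by
    calc 8 * (n : ℝ) ^ 3 * (B + ξ) * 2 ^ (n + 2) * G
        ≤ 8 * (n : ℝ) ^ 3 * (B + ξ) * 2 ^ (n + 2) * (8 * n ^ 4 * (T h Kc B + ξ)) :=
          mul_le_mul_of_nonneg_left eG (by positivity)
      _ = 64 * 2 ^ (n + 2) * n ^ 7 * ((B + ξ) * (T h Kc B + ξ)) := by ring
  have hA1 : A ≤ 1 := by
    have := (le_abs_self A).trans hAG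
    linarith
  constructor
  · have : 0 ≤ (44 * (n : ℝ) ^ 7 + 64 * 2 ^ (n + 2) * n ^ 7) * (B + ξ) * (T h Kc B + ξ) := by
      positivity
    linarith
  · refine key.trans (ENNReal.ofReal_le_ofReal ?_)
    nlinarith

end R1Ox

open R1Ox in
theorem stR1O (h1 : StVO) (h2 : StAlgO) (h3 : StE2) (h4 : StEO) (h5 : StInt) (h6 : StMemR)
    (h7 : StPerm) (h8 : StJens) (h9 : StMean) : StR1O := by
  intro h hh
  set D : ℝ := 44 * ((2 * h : ℕ) : ℝ) ^ 7 + 64 * 2 ^ (2 * h + 2) * ((2 * h : ℕ) : ℝ) ^ 7 with hD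
  have hh0 : 0 < h := by omega
  have hhR : (0 : ℝ) < h := by exact_mod_cast hh0
  have hnR : (0 : ℝ) < ((2 * h : ℕ) : ℝ) := by exact_mod_cast (by omega : 0 < 2 * h)
  have hD0 : 0 < D := by positivity
  have hch : (0 : ℝ) < Nat.choose (2 * h - 1) h := by
    exact_mod_cast Nat.choose_pos (by omega)
  have hn : ((2 * h : ℕ) : ℝ) = 2 * h := by push_cast; ring
  refine ⟨Nat.choose (2 * h - 1) h * D, by positivity, 1 / (64 * ((2 * h : ℕ) : ℝ) ^ 4),
    by positivity, ?_⟩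
  intro Kc δ B ξ x hK hB hBr hξ hξr hx hsx
  have hT := T_nonneg hK hB h
  have hBξ : 32 * ((2 * h : ℕ) : ℝ) ^ 4 * (B + ξ) ≤ 1 := by
    have e1 : B + ξ ≤ 2 * (1 / (64 * ((2 * h : ℕ) : ℝ) ^ 4)) := by linarith
    have e2 := mul_le_mul_of_nonneg_left e1 (by positivity : 0 ≤ 32 * ((2 * h : ℕ) : ℝ) ^ 4)
    refine e2.trans (le_of_eq ?_)
    field_simp
    norm_num
  have hX : 0 ≤ B + ξ := by positivity
  classical
  set c : ℝ := 4 * ((2 * h : ℕ) : ℝ) * (((2 * h : ℕ) : ℝ) ^ 2 * (B + ξ)) * ξ with hc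
  set η : ℝ := ((2 * h : ℕ) : ℝ) ^ 2 * (B + ξ) + c with hη
  have hc0 : 0 ≤ c := by positivity
  have hη0 : 0 ≤ η := by positivity
  have hcard : ∀ I : Finset (Fin (2 * h)), I.card = h → Iᶜ.card = h := by
    intro I hI
    rw [card_compl, Fintype.card_fin, hI]
    omega
  -- the integrated bound
  have hVO := h1 h Kc δ x (fun I i k w => if I.card = h ∧ i ∈ I ∧ k ∈ Iᶜ then
      nf h Kc B I i k x c w / (1 + η) else 0) (by omega) hK
    (by
      intro I i k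
      by_cases hIik : I.card = h ∧ i ∈ I ∧ k ∈ Iᶜ
      · simp only [if_pos hIik]
        exact ((continuous_nf hK hB h I i k x c).div_const _).measurable
      · simp only [if_neg hIik]
        exact measurable_const)
    (by
      intro I i k y s
      by_cases hIik : I.card = h ∧ i ∈ I ∧ k ∈ Iᶜ
      · simp only [if_pos hIik]
        rw [nf_update hIik.2.1 hIik.2.2]
      · simp only [if_neg hIik])
    (by
      intro I hI i hi k hk w hw hRT
      have hIik : I.card = h ∧ i ∈ I ∧ k ∈ Iᶜ := ⟨(mem_powersetCard.1 hI).2, hi, hk⟩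
      simp only [if_pos hIik]
      have e1 := h2 h Kc δ B ξ x (by omega) hK hB hξ hx hsx I hI i hi k hk w hw hRT
      rw [div_le_iff₀ (by linarith)]
      have e2 : sm w = w k + ∑ j ∈ univ.erase k, w j := (add_sum_erase _ _ (mem_univ k)).symm
      rw [e2] at e1
      unfold nf
      rw [hη, hc, hn]
      linarith)
  -- the pieces
  have hpiece : ∀ I ∈ (univ : Finset (Fin (2 * h))).powersetCard h, ∀ i ∈ I, ∀ k ∈ Iᶜ,
      0 ≤ 1 - ∫ w, PsiO h Kc B I i k x w ∂(Pe (2 * h)) + D * (B + ξ) * (T h Kc B + ξ) ∧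
      ∫⁻ y, ENNReal.ofReal (Real.exp (-(if I.card = h ∧ i ∈ I ∧ k ∈ Iᶜ then
        nf h Kc B I i k x c y / (1 + η) else 0))) ∂(Pe (2 * h)) ≤
      ENNReal.ofReal (1 - ∫ w, PsiO h Kc B I i k x w ∂(Pe (2 * h)) +
        D * (B + ξ) * (T h Kc B + ξ)) := by
    intro I hI i hi k hk
    have hI1 := (mem_powersetCard.1 hI).2
    have hIik : I.card = h ∧ i ∈ I ∧ k ∈ Iᶜ := ⟨hI1, hi, hk⟩
    simp only [if_pos hIik]
    exact piece h3 h5 h6 h7 h8 h9 hK hB hh0 hn hI1 (hcard I hI1) hi hk hξ hBξ hx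
  refine hVO.trans ?_
  have hsum : ∑ I ∈ (univ : Finset (Fin (2 * h))).powersetCard h, ∑ i ∈ I, ∑ k ∈ Iᶜ,
      ∫⁻ y, ENNReal.ofReal (Real.exp (-(if I.card = h ∧ i ∈ I ∧ k ∈ Iᶜ then
        nf h Kc B I i k x c y / (1 + η) else 0))) ∂(Pe (2 * h)) ≤
      ENNReal.ofReal (∑ I ∈ (univ : Finset (Fin (2 * h))).powersetCard h, ∑ i ∈ I, ∑ k ∈ Iᶜ,
        (1 - ∫ w, PsiO h Kc B I i k x w ∂(Pe (2 * h)) + D * (B + ξ) * (T h Kc B + ξ))) := by
    rw [ENNReal.ofReal_sum_of_nonneg fun I hI => sum_nonneg fun i hi => sum_nonneg fun k hk =>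
      (hpiece I hI i hi k hk).1]
    refine sum_le_sum fun I hI => ?_
    rw [ENNReal.ofReal_sum_of_nonneg fun i hi => sum_nonneg fun k hk =>
      (hpiece I hI i hi k hk).1]
    refine sum_le_sum fun i hi => ?_
    rw [ENNReal.ofReal_sum_of_nonneg fun k hk => (hpiece I hI i hi k hk).1]
    exact sum_le_sum fun k hk => (hpiece I hI i hi k hk).2
  refine (mul_le_mul_right hsum _).trans ?_
  rw [← ENNReal.ofReal_mul (by positivity)]
  refine ENNReal.ofReal_le_ofReal (le_of_eq ?_)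
  -- the count
  have hEO := h4 h Kc δ B x (by omega) hK hB
  have hcount : ∀ a : ℝ, ∑ I ∈ (univ : Finset (Fin (2 * h))).powersetCard h, ∑ _i ∈ I, ∑ _k ∈ Iᶜ,
      a = (Nat.choose (2 * h) h : ℝ) * (h * (h * a)) := by
    intro a
    have e1 : ∀ I ∈ (univ : Finset (Fin (2 * h))).powersetCard h, ∑ _i ∈ I, ∑ _k ∈ Iᶜ, a =
        h * (h * a) := by
      intro I hI
      have hI1 := (mem_powersetCard.1 hI).2
      rw [sum_const, sum_const, hcard I hI1, hI1, nsmul_eq_mul, nsmul_eq_mul]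
    rw [sum_congr rfl e1, sum_const, card_powersetCard, card_univ, Fintype.card_fin,
      nsmul_eq_mul]
  have hchoose : (Nat.choose (2 * h) h : ℝ) = 2 * Nat.choose (2 * h - 1) h := by
    obtain ⟨m, rfl⟩ : ∃ m, h = m + 1 := ⟨h - 1, by omega⟩
    have e1 : 2 * (m + 1) = (2 * m + 1) + 1 := by ring
    have e2 : 2 * (m + 1) - 1 = 2 * m + 1 := by omega
    have e3 : Nat.choose (2 * (m + 1)) (m + 1) = 2 * Nat.choose (2 * (m + 1) - 1) (m + 1) := by
      rw [e2, e1, Nat.choose_succ_succ' (2 * m + 1) m, Nat.choose_symm_half m]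
      ring
    exact_mod_cast e3
  have hsplit : ∑ I ∈ (univ : Finset (Fin (2 * h))).powersetCard h, ∑ i ∈ I, ∑ k ∈ Iᶜ,
        (1 - ∫ w, PsiO h Kc B I i k x w ∂(Pe (2 * h)) + D * (B + ξ) * (T h Kc B + ξ)) =
      (∑ I ∈ (univ : Finset (Fin (2 * h))).powersetCard h, ∑ _i ∈ I, ∑ _k ∈ Iᶜ,
        (1 + D * (B + ξ) * (T h Kc B + ξ))) -
      ∑ I ∈ (univ : Finset (Fin (2 * h))).powersetCard h, ∑ i ∈ I, ∑ k ∈ Iᶜ,
        ∫ w, PsiO h Kc B I i k x w ∂(Pe (2 * h)) := by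
    rw [← sum_sub_distrib]
    refine sum_congr rfl fun I _ => ?_
    rw [← sum_sub_distrib]
    refine sum_congr rfl fun i _ => ?_
    rw [← sum_sub_distrib]
    exact sum_congr rfl fun k _ => by ring
  rw [hsplit, hcount, hEO, hchoose]
  field_simp
  ring

end Pool.Agent.Lib.MP_725e58_gt.Loc
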