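import Pool.Agent.Lib.MP_725e58_gt.Loc.Stmts

/-!
Local maximality of the simplex for the Fary-Redei problem: the first order theorem in even
dimension.
-/

set_option autoImplicit false

namespace Pool.Agent.Lib.MP_725e58_gt.Loc

open MeasureTheory Finset

/-- the first order theorem, even dimension -/
theorem stR1e (h1 : StR1E) (h2 : StC3) (h3 : StTF) : StR1e := by
  intro h hh
  have hh0 : (1 : ℝ) ≤ h := by exact_mod_cast hh
  have hcb : (0 : ℝ) < (Nat.choose (2 * h) h : ℝ) := by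
    exact_mod_cast Nat.choose_pos (by omega)
  have hc0 : (0 : ℝ) < (Nat.choose (2 * h - 2) (h - 1) : ℝ) := by
    exact_mod_cast Nat.choose_pos (by omega)
  have hrel : (h : ℝ) * (Nat.choose (2 * h) h : ℝ) =
      2 * (2 * h - 1) * (Nat.choose (2 * h - 2) (h - 1) : ℝ) := by
    obtain ⟨m, rfl⟩ : ∃ m, h = m + 1 := ⟨h - 1, by omega⟩
    have := Nat.succ_mul_centralBinom_succ m
    unfold Nat.centralBinom at this
    have e1 : 2 * (m + 1) - 2 = 2 * m := by omega
    have e2 : m + 1 - 1 = m := by omega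
    rw [e1, e2]
    have h4 : (((m + 1) * (2 * (m + 1)).choose (m + 1) : ℕ) : ℝ) =
        ((2 * (2 * m + 1) * (2 * m).choose m : ℕ) : ℝ) := by rw [this]
    push_cast at h4 ⊢
    rw [h4]
    ring
  refine ⟨1 / (16 * (2 * h + 1) ^ 2 * h), by positivity,
    1 / (2 * h * Nat.choose (2 * h) h), by positivity, ?_⟩
  intro Kc δ B hK hB hBr
  obtain ⟨C, -, H3⟩ := h3 (2 * h + 1) (by omega)
  obtain ⟨hT0, hF0, -, -⟩ := H3 Kc δ B hK hB
  rw [show (2 * h + 1) / 2 = h by omega] at hT0
  refine (h1 h Kc δ B hh hK hB).trans (ENNReal.ofReal_le_ofReal ?_)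
  have hF : 2 * (Nat.choose (2 * h - 2) (h - 1) : ℝ) * FF Kc B ≤ T h Kc B := by
    have h4 : ∀ l : Fin (2 * h + 1), 2 * (Nat.choose (2 * h - 2) (h - 1) : ℝ) *
        J Kc B l (univ.erase l) ≤ ∑ H ∈ (univ.erase l).powersetCard h, J Kc B l H := by
      intro l
      have h5 := h2 (2 * h) Kc δ B l h (by omega) hh (by omega) hK hB
      push_cast at h5
      have h6 : (h : ℝ) * (2 * (Nat.choose (2 * h - 2) (h - 1) : ℝ) *
          J Kc B l (univ.erase l)) ≤
          (h : ℝ) * ∑ H ∈ (univ.erase l).powersetCard h, J Kc B l H := by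
        linarith
      exact le_of_mul_le_mul_left h6 (by linarith)
    unfold FF T
    rw [mul_sum]
    exact sum_le_sum fun l _ => h4 l
  have hF2 : (Nat.choose (2 * h) h : ℝ) * FF Kc B ≤ (2 - 1 / h) * T h Kc B := by
    have e : (Nat.choose (2 * h) h : ℝ) = (2 - 1 / h) *
        (2 * (Nat.choose (2 * h - 2) (h - 1) : ℝ)) := by
      have : (h : ℝ) ≠ 0 := by linarith
      field_simp
      linarith
    rw [e, mul_assoc]
    refine mul_le_mul_of_nonneg_left hF ?_
    have : 1 / (h : ℝ) ≤ 1 := by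
      rw [div_le_one (by linarith)]
      exact hh0
    linarith
  have hBn : 8 * (2 * h + 1) ^ 2 * B ≤ 1 / (2 * h) := by
    rw [le_div_iff₀ (by positivity)] at hBr
    rw [le_div_iff₀ (by positivity)]
    linarith
  have e2 : (Nat.choose (2 * h) h : ℝ) * (1 - FF Kc B -
      1 / (2 * h * Nat.choose (2 * h) h) * T h Kc B) =
      (Nat.choose (2 * h) h : ℝ) - Nat.choose (2 * h) h * FF Kc B - 1 / (2 * h) * T h Kc B := by
    field_simp
  rw [e2]
  have h7 := mul_le_mul_of_nonneg_right hBn hT0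
  have e3 : (1 : ℝ) / h = 1 / (2 * h) + 1 / (2 * h) := by
    field_simp
    norm_num
  rw [e3] at hF2
  linarith

end Pool.Agent.Lib.MP_725e58_gt.Loc
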