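import Pool.Agent.Lib.MP_725e58_gt.Loc.Stmts

/-!
Local maximality of the simplex for the Fary-Redei problem: the first order theorem in odd
dimension.
-/

set_option autoImplicit false

namespace Pool.Agent.Lib.MP_725e58_gt.Loc

open MeasureTheory Finset

/-- the first order theorem, odd dimension -/
theorem stR1o (h1 : StR1O) (h2 : StOddLin) (h3 : StTF) : StR1o := by
  intro h ξ hh hξ
  obtain ⟨C0, hC0, r0, hr0, H1⟩ := h1 h hh
  obtain ⟨C1, hC1, κ1, hκ1, H2⟩ := h2 h hh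
  obtain ⟨C2, hC2, H3⟩ := h3 (2 * h) (by omega)
  have hch : (0 : ℝ) < (Nat.choose (2 * h - 1) h : ℝ) := by
    exact_mod_cast Nat.choose_pos (by omega)
  have e1 : 0 < C1 * C2 := mul_pos hC1 hC2
  have e2 : 0 < 2 * C0 * (1 + C1 * C2) * (1 + C1) := by positivity
  refine ⟨min (min r0 (κ1 / (2 * C0 * (1 + C1 * C2) * (1 + C1)))) (min (ξ / (C1 * C2))
    (r0 / (C1 * C2))), by positivity, κ1 / (2 * Nat.choose (2 * h - 1) h), by positivity, ?_⟩
  intro Kc δ B hK hB hBr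
  obtain ⟨x, hx1, hx2, hx3⟩ := H2 Kc δ B hK hB
  obtain ⟨hT0, -, -, hTB⟩ := H3 Kc δ B hK hB
  rw [show 2 * h / 2 = h by omega] at hT0 hTB
  have b1 : B ≤ r0 := hBr.trans ((min_le_left _ _).trans (min_le_left _ _))
  have b2 : B ≤ κ1 / (2 * C0 * (1 + C1 * C2) * (1 + C1)) :=
    hBr.trans ((min_le_left _ _).trans (min_le_right _ _))
  have b3 : B ≤ ξ / (C1 * C2) := hBr.trans ((min_le_right _ _).trans (min_le_left _ _))
  have b4 : B ≤ r0 / (C1 * C2) := hBr.trans ((min_le_right _ _).trans (min_le_right _ _))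
  rw [le_div_iff₀ e2] at b2
  rw [le_div_iff₀ e1] at b3 b4
  have hTC : C1 * T h Kc B ≤ B * (C1 * C2) := by nlinarith
  refine ⟨x, hx1, fun i => (hx2 i).trans (hTC.trans b3), ?_⟩
  have H := H1 Kc δ B (C1 * T h Kc B) x hK hB b1 (by positivity) (hTC.trans b4) hx2 hx1
  refine H.trans (ENNReal.ofReal_le_ofReal ?_)
  have h4 : C0 * (B + C1 * T h Kc B) * (T h Kc B + C1 * T h Kc B) ≤ κ1 / 2 * T h Kc B := by
    have h5 : B + C1 * T h Kc B ≤ (1 + C1 * C2) * B := by nlinarith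
    have h6 : C0 * (B + C1 * T h Kc B) * (T h Kc B + C1 * T h Kc B) =
        (C0 * (1 + C1) * (B + C1 * T h Kc B)) * T h Kc B := by ring
    rw [h6]
    refine mul_le_mul_of_nonneg_right ?_ hT0
    have h7 : C0 * (1 + C1) * (B + C1 * T h Kc B) ≤ C0 * (1 + C1) * ((1 + C1 * C2) * B) :=
      mul_le_mul_of_nonneg_left h5 (by positivity)
    nlinarith
  have h8 : (Nat.choose (2 * h - 1) h : ℝ) * (1 - FF Kc B -
      κ1 / (2 * Nat.choose (2 * h - 1) h) * T h Kc B) =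
      (Nat.choose (2 * h - 1) h : ℝ) - Nat.choose (2 * h - 1) h * FF Kc B -
        κ1 / 2 * T h Kc B := by
    field_simp
  rw [h8]
  linarith

end Pool.Agent.Lib.MP_725e58_gt.Loc
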