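import Pool.Agent.Lib.MP_725e58_gt.Loc.Stmts

/-!
Local maximality of the simplex for the Fary-Redei problem, module R2O: lower bounds for the loss of
the reflection body near faces of codimension at least two, odd dimension.
-/

set_option autoImplicit false

namespace Pool.Agent.Lib.MP_725e58_gt.Loc

open MeasureTheory Finset

namespace R2O

/-- the middle binomial coefficient -/
private lemma choose_half (h : ℕ) (hh : 1 ≤ h) :
    (Nat.choose (2 * h) h : ℝ) = 2 * (Nat.choose (2 * h - 1) h : ℝ) := by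
  obtain ⟨k, rfl⟩ : ∃ k, h = k + 1 := ⟨h - 1, by omega⟩
  have e1 : 2 * (k + 1) = (2 * k + 1) + 1 := by ring
  have e2 : 2 * (k + 1) - 1 = 2 * k + 1 := by omega
  have e3 : Nat.choose (2 * (k + 1)) (k + 1) = 2 * Nat.choose (2 * (k + 1) - 1) (k + 1) := by
    rw [e2, e1, Nat.choose_succ_succ' (2 * k + 1) k]
    have e4 : Nat.choose (2 * k + 1) k = Nat.choose (2 * k + 1) (k + 1) := by
      rw [← Nat.choose_symm_half]
    rw [e4]; ring
  exact_mod_cast e3

/-- summation of the losses of the pieces -/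
private lemma count (h : ℕ) (hh : 1 ≤ h) (V : ENNReal)
    (F : Finset (Fin (2 * h)) → Fin (2 * h) → Fin (2 * h) → ENNReal)
    (b : Finset (Fin (2 * h)) → Fin (2 * h) → Fin (2 * h) → ℝ)
    (hV : V ≤ ENNReal.ofReal (1 / (2 * h * h : ℝ)) *
      ∑ I ∈ (univ : Finset (Fin (2 * h))).powersetCard h, ∑ i ∈ I, ∑ k ∈ Iᶜ, F I i k)
    (hF : ∀ I ∈ (univ : Finset (Fin (2 * h))).powersetCard h, ∀ i ∈ I, ∀ k ∈ Iᶜ,
      F I i k ≤ ENNReal.ofReal (1 - b I i k))
    (hb : ∀ I i k, b I i k ≤ 1) (s : ℝ)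
    (hs : s ≤ ∑ I ∈ (univ : Finset (Fin (2 * h))).powersetCard h, ∑ i ∈ I, ∑ k ∈ Iᶜ, b I i k) :
    V ≤ ENNReal.ofReal ((Nat.choose (2 * h - 1) h : ℝ) - s / (2 * h * h)) := by
  have hh' : (0 : ℝ) < h := by exact_mod_cast hh
  refine hV.trans ?_
  have h1 : ∑ I ∈ (univ : Finset (Fin (2 * h))).powersetCard h, ∑ i ∈ I, ∑ k ∈ Iᶜ, F I i k ≤
      ENNReal.ofReal (∑ I ∈ (univ : Finset (Fin (2 * h))).powersetCard h, ∑ i ∈ I, ∑ k ∈ Iᶜ,
        (1 - b I i k)) := by
    rw [ENNReal.ofReal_sum_of_nonneg (fun I _ => sum_nonneg fun i _ => sum_nonneg fun k _ => by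
      linarith [hb I i k])]
    refine sum_le_sum fun I hI => ?_
    rw [ENNReal.ofReal_sum_of_nonneg (fun i _ => sum_nonneg fun k _ => by
      linarith [hb I i k])]
    refine sum_le_sum fun i hi => ?_
    rw [ENNReal.ofReal_sum_of_nonneg (fun k _ => by linarith [hb I i k])]
    exact sum_le_sum fun k hk => hF I hI i hi k hk
  refine (mul_le_mul_right h1 _).trans ?_
  rw [← ENNReal.ofReal_mul (by positivity)]
  refine ENNReal.ofReal_le_ofReal ?_
  have h2 : ∑ I ∈ (univ : Finset (Fin (2 * h))).powersetCard h, ∑ i ∈ I, ∑ k ∈ Iᶜ,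
      (1 - b I i k) = (Nat.choose (2 * h) h : ℝ) * (h * h) -
      ∑ I ∈ (univ : Finset (Fin (2 * h))).powersetCard h, ∑ i ∈ I, ∑ k ∈ Iᶜ, b I i k := by
    have h3 : ∀ I ∈ (univ : Finset (Fin (2 * h))).powersetCard h, ∑ i ∈ I, ∑ k ∈ Iᶜ,
        (1 - b I i k) = (h * h : ℝ) - ∑ i ∈ I, ∑ k ∈ Iᶜ, b I i k := by
      intro I hI
      have hc : I.card = h := (mem_powersetCard.mp hI).2
      have hc' : Iᶜ.card = h := by rw [card_compl, hc, Fintype.card_fin]; omega
      simp only [sum_sub_distrib, sum_const, hc, hc', nsmul_eq_mul, mul_one]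
    rw [sum_congr rfl h3, sum_sub_distrib, sum_const, card_powersetCard, card_univ,
      Fintype.card_fin, nsmul_eq_mul]
  rw [h2, choose_half h hh]
  have h4 : 1 / (2 * (h : ℝ) * h) * (2 * (Nat.choose (2 * h - 1) h : ℝ) * (h * h) -
      ∑ I ∈ (univ : Finset (Fin (2 * h))).powersetCard h, ∑ i ∈ I, ∑ k ∈ Iᶜ, b I i k) =
      (Nat.choose (2 * h - 1) h : ℝ) -
      (∑ I ∈ (univ : Finset (Fin (2 * h))).powersetCard h, ∑ i ∈ I, ∑ k ∈ Iᶜ, b I i k) /
        (2 * h * h) := by
    field_simp
  rw [h4]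
  have h5 := div_le_div_of_nonneg_right hs (show (0 : ℝ) ≤ 2 * h * h by positivity)
  linarith

/-- a set contained in the complement of a measurable set -/
private lemma prob_compl {α : Type*} [MeasurableSpace α] (P : Measure α) [IsProbabilityMeasure P]
    (A G : Set α) (hG : MeasurableSet G) (h : ∀ w ∈ A, w ∉ G) :
    P A ≤ ENNReal.ofReal (1 - P.real G) := by
  have h1 : P A ≤ P Gᶜ := measure_mono h
  refine h1.trans ?_
  rw [← probReal_compl_eq_one_sub hG, ofReal_measureReal]

private lemma measurable_scl {n : ℕ} (r : Fin n) (s : ℝ) :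
    Measurable (scl r s : Vec n → Vec n) := by
  refine measurable_pi_lambda _ fun i => ?_
  unfold scl
  by_cases hi : i = r
  · simp only [hi, ↓reduceIte]
    exact measurable_const.mul (measurable_pi_apply r)
  · simp only [hi, ↓reduceIte]
    exact measurable_pi_apply i

private lemma measurable_TM {n : ℕ} (H : Finset (Fin n)) (k : Fin n) :
    Measurable (TM H k : Vec n → Vec n) := by
  refine measurable_pi_lambda _ fun i => ?_
  unfold TM
  exact ((measurable_pi_apply i).comp (continuous_rs _).measurable).add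
    (((measurable_pi_apply k).div_const _).mul_const _)

private lemma rs_scl {n : ℕ} (H : Finset (Fin n)) (m : Fin n) (hm : m ∉ H) (c : ℝ) (y : Vec n) :
    rs H (scl m c y) = rs H y := by
  funext j
  by_cases hj : j ∈ H
  · have : j ≠ m := fun e => hm (e ▸ hj)
    simp [rs, scl, hj, this]
  · simp [rs, hj]

private lemma rs_TM (h : ℕ) (H : Finset (Fin (2 * h))) (hc : H.card = h) (i : Fin (2 * h))
    (w : Vec (2 * h)) : rs H (TM H i w) = aO h H i w := by
  funext j
  by_cases hj : j ∈ H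
  · by_cases hji : j = i
    · subst hji; simp [rs, TM, aO, hj, hc]
    · simp [rs, TM, aO, hj, hc, hji]
  · simp [rs, aO, one, hj]

private lemma TM_apply (h : ℕ) (H : Finset (Fin (2 * h))) (i m : Fin (2 * h)) (hi : i ∈ H)
    (hm : m ∉ H) (w : Vec (2 * h)) : TM H i w m = w m := by
  have : m ≠ i := fun e => hm (e ▸ hi)
  simp [TM, rs, one, hm, this]

/-- scaling down, real version -/
private lemma down_real (hD : StDown) (hP : StProb) (n : ℕ) (U : Set (Vec n)) (m : Fin n) (c : ℝ)
    (hc : 1 ≤ c) (hU : MeasurableSet U) (hUO : U ⊆ Orth n) :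
    (Pe n).real U / c ≤ (Pe n).real {y | y ∈ Orth n ∧ scl m c y ∈ U} := by
  have := hP n
  have h1 := hD n U m c hc hU hUO
  have hc0 : 0 < c := by linarith
  rw [div_le_iff₀ hc0, mul_comm]
  have h2 := ENNReal.toReal_mono (ENNReal.mul_ne_top ENNReal.ofReal_ne_top (measure_ne_top _ _)) h1
  rw [ENNReal.toReal_mul, ENNReal.toReal_ofReal hc0.le] at h2
  exact h2

/-- memorylessness of the minimum for sets, real version -/
private lemma mem_real (hM : StMem) (hP : StProb) (n : ℕ) (H : Finset (Fin n)) (hH : H.Nonempty)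
    (G : Set (Vec n)) (hG : MeasurableSet G) :
    (H.card : ℝ) * (Pe n).real G = ∑ k ∈ H, (Pe n).real {y | TM H k y ∈ G} := by
  have := hP n
  have hc : (0 : ℝ) < H.card := by exact_mod_cast hH.card_pos
  have h1 := hM n H (G.indicator (fun _ => 1)) hH (measurable_const.indicator hG)
  have h2 : ∫⁻ y, G.indicator (fun _ => (1 : ENNReal)) y ∂(Pe n) = Pe n G := by
    rw [lintegral_indicator hG]; simp
  have h3 : ∀ k ∈ H, ∫⁻ y, G.indicator (fun _ => (1 : ENNReal)) (TM H k y) ∂(Pe n) =
      Pe n {y | TM H k y ∈ G} := by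
    intro k _
    have hm : MeasurableSet {y | TM H k y ∈ G} := measurable_TM H k hG
    have e : (fun y => G.indicator (fun _ => (1 : ENNReal)) (TM H k y)) =
        {y | TM H k y ∈ G}.indicator (fun _ => 1) := by
      funext y
      by_cases hy : TM H k y ∈ G
      · rw [Set.indicator_of_mem hy, Set.indicator_of_mem (show y ∈ {y | TM H k y ∈ G} from hy)]
      · rw [Set.indicator_of_notMem hy,
          Set.indicator_of_notMem (show y ∉ {y | TM H k y ∈ G} from hy)]
    rw [e, lintegral_indicator hm]; simp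
  rw [h2, sum_congr rfl h3] at h1
  have h4 := congrArg ENNReal.toReal h1
  rw [ENNReal.toReal_mul, ENNReal.toReal_sum (fun k _ => measure_ne_top _ _),
    ENNReal.toReal_inv, ENNReal.toReal_natCast] at h4
  have h5 : (Pe n).real G = (H.card : ℝ)⁻¹ * ∑ k ∈ H, (Pe n).real {y | TM H k y ∈ G} := h4
  rw [h5]
  field_simp

end R2O

open R2O in
theorem stR2O (h1 : StVO0) (h2 : StExO) (h3 : StDown) (h4 : StMem) (h5 : StProb) (h6 : StWWm)
    (_h7 : StRTcl) : StR2O := by
  classical
  intro h hh2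
  have hh : 1 ≤ h := by omega
  have hh' : (0 : ℝ) < h := by exact_mod_cast hh
  have hc1 : (1 : ℝ) ≤ 1 + h := by linarith
  have hc0 : (0 : ℝ) < 1 + h := by linarith
  have := h5 (2 * h)
  refine ⟨1 / (2 * h * h * (1 + h)), by positivity, fun Kc δ hK hδ hδ' m => ⟨?_, ?_⟩⟩
  · intro H hH
    obtain ⟨hHs, hHc⟩ := mem_powersetCard.mp hH
    have hmH : m ∉ H := fun e => by simpa using hHs e
    have hHu : H ∈ (univ : Finset (Fin (2 * h))).powersetCard h :=
      mem_powersetCard.mpr ⟨subset_univ _, hHc⟩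
    have hmHc : m ∈ Hᶜ := mem_compl.mpr hmH
    have hUm : MeasurableSet (WW2 Kc m H) := (h6 (2 * h) Kc m m m H).2.1
    set G : Set (Vec (2 * h)) := {y | y ∈ Orth (2 * h) ∧ scl m (1 + h) y ∈ WW2 Kc m H} with hG
    have hGm : MeasurableSet G := measurableSet_Orth.inter (measurable_scl m (1 + h) hUm)
    have hdown := down_real h3 h5 (2 * h) (WW2 Kc m H) m (1 + h) hc1 hUm (fun y hy => hy.1)
    have hmem := mem_real h4 h5 (2 * h) H (card_pos.mp (by omega)) G hGm
    set b : Finset (Fin (2 * h)) → Fin (2 * h) → Fin (2 * h) → ℝ := fun I i k =>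
      if I = H ∧ k = m then (Pe (2 * h)).real {y | TM H i y ∈ G} else 0 with hb
    have hb0 : ∀ I i k, 0 ≤ b I i k := by
      intro I i k
      simp only [hb]
      split_ifs
      · exact measureReal_nonneg
      · exact le_rfl
    have hb1 : ∀ I i k, b I i k ≤ 1 := by
      intro I i k
      simp only [hb]
      split_ifs
      · exact measureReal_le_one
      · exact zero_le_one
    have hsum : (Pe (2 * h)).real (WW2 Kc m H) / (1 + h) ≤
        ∑ I ∈ (univ : Finset (Fin (2 * h))).powersetCard h, ∑ i ∈ I, ∑ k ∈ Iᶜ, b I i k := by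
      have e1 : ∑ i ∈ H, ∑ k ∈ Hᶜ, b H i k ≤
          ∑ I ∈ (univ : Finset (Fin (2 * h))).powersetCard h, ∑ i ∈ I, ∑ k ∈ Iᶜ, b I i k :=
        single_le_sum (f := fun I : Finset (Fin (2 * h)) => ∑ i ∈ I, ∑ k ∈ Iᶜ, b I i k)
          (fun I _ => sum_nonneg fun i _ => sum_nonneg fun k _ => hb0 I i k) hHu
      have e2 : ∑ i ∈ H, (Pe (2 * h)).real {y | TM H i y ∈ G} ≤ ∑ i ∈ H, ∑ k ∈ Hᶜ, b H i k := by
        refine sum_le_sum fun i _ => ?_
        have e3 : b H i m = (Pe (2 * h)).real {y | TM H i y ∈ G} := by simp [hb]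
        rw [← e3]
        exact single_le_sum (f := fun k => b H i k) (fun k _ => hb0 H i k) hmHc
      refine le_trans ?_ (e2.trans e1)
      rw [← hmem, hHc]
      have e4 : (1 : ℝ) ≤ h := by exact_mod_cast hh
      have e5 : 0 ≤ (Pe (2 * h)).real G := measureReal_nonneg
      nlinarith [hdown]
    have key := count h hh (VR Kc 0)
      (fun I i k => Pe (2 * h) {w | w ∈ Orth (2 * h) ∧ RT Kc 0 (sm w) (zO h I i k w)}) b
      (h1 h Kc δ hh hK hδ hδ') ?_ hb1 _ hsum
    · refine key.trans (ENNReal.ofReal_le_ofReal (le_of_eq ?_))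
      field_simp
    · intro I hI i hi k hk
      by_cases hIk : I = H ∧ k = m
      · obtain ⟨rfl, rfl⟩ := hIk
        have e6 : b I i k = (Pe (2 * h)).real {y | TM I i y ∈ G} := by simp [hb]
        rw [e6]
        refine prob_compl _ _ _ (measurable_TM I i hGm) ?_
        rintro w ⟨hwO, hRT⟩ hwG
        obtain ⟨_, _, l, hl, hl0, hlt⟩ := hwG
        have e7 := ((h2 h Kc δ hh hK hδ hδ' I hI i hi k hk w (fun j _ => hwO j) hRT).2 k hmH l hl).1
          hl0
        rw [rs_scl I k hmH, rs_TM h I hHc] at hlt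
        have e8 : scl k (1 + (h : ℝ)) (TM I i w) k = (1 + h) * w k := by
          simp only [scl, ↓reduceIte]
          rw [TM_apply h I i k hi hmH]
        rw [e8] at hlt
        exact absurd e7 (not_le.mpr hlt)
      · have e6 : b I i k = 0 := by simp only [hb]; rw [if_neg hIk]
        rw [e6, sub_zero, ENNReal.ofReal_one]
        exact prob_le_one
  · intro i him H hH
    obtain ⟨hHs, hHc⟩ := mem_powersetCard.mp hH
    have hiH : i ∉ H := fun e => by simpa using hHs e
    have hmH : m ∉ H := fun e => by simpa using hHs e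
    have hmI : m ∉ insert i H := by
      rw [mem_insert, not_or]
      exact ⟨fun e => him e.symm, hmH⟩
    have hIc : (insert i H).card = h := by rw [card_insert_of_notMem hiH, hHc]; omega
    have hIu : insert i H ∈ (univ : Finset (Fin (2 * h))).powersetCard h :=
      mem_powersetCard.mpr ⟨subset_univ _, hIc⟩
    have hmIc : m ∈ (insert i H)ᶜ := mem_compl.mpr hmI
    have hUm : MeasurableSet (WW1 Kc m i H) := (h6 (2 * h) Kc m i m H).2.2.1
    set G : Set (Vec (2 * h)) := {y | y ∈ Orth (2 * h) ∧ scl m (1 + h) y ∈ WW1 Kc m i H} with hG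
    have hGm : MeasurableSet G := measurableSet_Orth.inter (measurable_scl m (1 + h) hUm)
    have hdown := down_real h3 h5 (2 * h) (WW1 Kc m i H) m (1 + h) hc1 hUm (fun y hy => hy.1)
    set b : Finset (Fin (2 * h)) → Fin (2 * h) → Fin (2 * h) → ℝ := fun I j k =>
      if I = insert i H ∧ j = i ∧ k = m then (Pe (2 * h)).real G else 0 with hb
    have hb0 : ∀ I i k, 0 ≤ b I i k := by
      intro I i k
      simp only [hb]
      split_ifs
      · exact measureReal_nonneg
      · exact le_rfl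
    have hb1 : ∀ I i k, b I i k ≤ 1 := by
      intro I i k
      simp only [hb]
      split_ifs
      · exact measureReal_le_one
      · exact zero_le_one
    have hsum : (Pe (2 * h)).real (WW1 Kc m i H) / (1 + h) ≤
        ∑ I ∈ (univ : Finset (Fin (2 * h))).powersetCard h, ∑ i ∈ I, ∑ k ∈ Iᶜ, b I i k := by
      have e1 : ∑ j ∈ insert i H, ∑ k ∈ (insert i H)ᶜ, b (insert i H) j k ≤
          ∑ I ∈ (univ : Finset (Fin (2 * h))).powersetCard h, ∑ i ∈ I, ∑ k ∈ Iᶜ, b I i k :=
        single_le_sum (f := fun I : Finset (Fin (2 * h)) => ∑ i ∈ I, ∑ k ∈ Iᶜ, b I i k)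
          (fun I _ => sum_nonneg fun i _ => sum_nonneg fun k _ => hb0 I i k) hIu
      have e2 : ∑ k ∈ (insert i H)ᶜ, b (insert i H) i k ≤
          ∑ j ∈ insert i H, ∑ k ∈ (insert i H)ᶜ, b (insert i H) j k :=
        single_le_sum (f := fun j => ∑ k ∈ (insert i H)ᶜ, b (insert i H) j k)
          (fun j _ => sum_nonneg fun k _ => hb0 _ j k) (mem_insert_self i H)
      have e3 : b (insert i H) i m ≤ ∑ k ∈ (insert i H)ᶜ, b (insert i H) i k :=
        single_le_sum (f := fun k => b (insert i H) i k) (fun k _ => hb0 _ i k) hmIc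
      have e4 : b (insert i H) i m = (Pe (2 * h)).real G := by simp [hb]
      rw [e4] at e3
      exact hdown.trans (e3.trans (e2.trans e1))
    have key := count h hh (VR Kc 0)
      (fun I i k => Pe (2 * h) {w | w ∈ Orth (2 * h) ∧ RT Kc 0 (sm w) (zO h I i k w)}) b
      (h1 h Kc δ hh hK hδ hδ') ?_ hb1 _ hsum
    · refine key.trans (ENNReal.ofReal_le_ofReal (le_of_eq ?_))
      field_simp
    · intro I hI j hj k hk
      by_cases hIk : I = insert i H ∧ j = i ∧ k = m
      · obtain ⟨rfl, rfl, rfl⟩ := hIk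
        have e6 : b (insert j H) j k = (Pe (2 * h)).real G := by simp [hb]
        rw [e6]
        refine prob_compl _ _ _ hGm ?_
        rintro w ⟨hwO, hRT⟩ hwG
        obtain ⟨_, _, l, hl, hl0, hlt⟩ := hwG
        have e7 := ((h2 h Kc δ hh hK hδ hδ' (insert j H) hI j hj k hk w (fun j _ => hwO j)
          hRT).2 k hmI l hl).2 hl0
        rw [erase_insert hiH] at e7
        rw [rs_scl H k hmH] at hlt
        have e8 : scl k (1 + (h : ℝ)) w k = (1 + h) * w k := by
          simp only [scl, ↓reduceIte]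
        rw [e8] at hlt
        exact absurd e7 (not_le.mpr hlt)
      · have e6 : b I j k = 0 := by simp only [hb]; rw [if_neg hIk]
        rw [e6, sub_zero, ENNReal.ofReal_one]
        exact prob_le_one

end Pool.Agent.Lib.MP_725e58_gt.Loc
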