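import Pool.Agent.Lib.MP_725e58_gt.Loc.Stmts

/-!
Local maximality of the simplex for the Fary-Redei problem: scaling of the exponential measure.
-/

set_option autoImplicit false

namespace Pool.Agent.Lib.MP_725e58_gt.Loc

open MeasureTheory Finset

namespace Scal

variable {n : ℕ}

lemma measurable_dens (a : ℝ) :
    Measurable fun y : Vec n => ENNReal.ofReal (Real.exp (a * sm y)) :=
  (Real.measurable_exp.comp (continuous_sm.measurable.const_mul a)).ennreal_ofReal

lemma measurable_dens' : Measurable fun y : Vec n => ENNReal.ofReal (Real.exp (-sm y)) :=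
  (Real.measurable_exp.comp continuous_sm.measurable.neg).ennreal_ofReal

/-- integrals with respect to the exponential measure -/
lemma lintegral_Pe {f : Vec n → ENNReal} (hf : Measurable f) :
    ∫⁻ y, f y ∂(Pe n) = ∫⁻ y, (Orth n).indicator
      (fun y => ENNReal.ofReal (Real.exp (-sm y)) * f y) y := by
  unfold Pe
  rw [lintegral_withDensity_eq_lintegral_mul _ measurable_dens' hf,
    lintegral_indicator measurableSet_Orth]
  rfl

lemma smul_mem_Orth {a : ℝ} (ha : 0 < a) (y : Vec n) : a⁻¹ • y ∈ Orth n ↔ y ∈ Orth n := by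
  unfold Orth
  simp only [Set.mem_ofPred_eq, Pi.smul_apply, smul_eq_mul]
  exact forall_congr' fun i => mul_nonneg_iff_of_pos_left (inv_pos.2 ha)

/-- scaling of Lebesgue measure -/
lemma lintegral_smul {F : Vec n → ENNReal} (hF : Measurable F) {a : ℝ} (ha : 0 < a) :
    ∫⁻ y : Vec n, F (a⁻¹ • y) = ENNReal.ofReal (a ^ n) * ∫⁻ y : Vec n, F y := by
  have h1 : Measurable fun y : Vec n => a⁻¹ • y := measurable_const_smul a⁻¹
  have h2 := lintegral_map (μ := (volume : Measure (Vec n))) hF h1
  rw [← h2, Measure.map_addHaar_smul _ (inv_ne_zero ha.ne'), lintegral_smul_measure]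
  have h3 : |((a⁻¹) ^ Module.finrank ℝ (Vec n))⁻¹| = a ^ n := by
    rw [Module.finrank_fin_fun, inv_pow, inv_inv, abs_of_pos (pow_pos ha n)]
  rw [h3]
  rfl

end Scal

open Scal in
/-- scaling -/
theorem stScal : StScal := by
  intro n g a hg ha
  have hm1 : Measurable fun y : Vec n => g y * ENNReal.ofReal (Real.exp ((1 - a) * sm y)) :=
    hg.mul (measurable_dens (1 - a))
  have hm2 : Measurable fun y : Vec n => g (a⁻¹ • y) := hg.comp (measurable_const_smul a⁻¹)
  rw [lintegral_Pe hm1, lintegral_Pe hm2]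
  set F : Vec n → ENNReal := fun y => (Orth n).indicator
      (fun y => ENNReal.ofReal (Real.exp (-sm y)) *
        (g y * ENNReal.ofReal (Real.exp ((1 - a) * sm y)))) y with hF
  have hFm : Measurable F := by
    refine Measurable.indicator ?_ measurableSet_Orth
    exact measurable_dens'.mul (hg.mul (measurable_dens (1 - a)))
  have h1 := lintegral_smul hFm ha
  have h2 : (fun y : Vec n => F (a⁻¹ • y)) = fun y => (Orth n).indicator
      (fun y => ENNReal.ofReal (Real.exp (-sm y)) * g (a⁻¹ • y)) y := by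
    funext y
    rw [hF]
    by_cases hy : y ∈ Orth n
    · simp only
      rw [Set.indicator_of_mem ((smul_mem_Orth ha y).2 hy), Set.indicator_of_mem hy, sm_smul,
        mul_comm (g _), ← mul_assoc, ← ENNReal.ofReal_mul (Real.exp_nonneg _), ← Real.exp_add]
      congr 3
      field_simp
      ring
    · simp only
      rw [Set.indicator_of_notMem (fun h => hy ((smul_mem_Orth ha y).1 h)),
        Set.indicator_of_notMem hy]
  have h3 : ∫⁻ y : Vec n, (Orth n).indicator
      (fun y => ENNReal.ofReal (Real.exp (-sm y)) * g (a⁻¹ • y)) y =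
      ENNReal.ofReal (a ^ n) * ∫⁻ y : Vec n, F y := by
    rw [← h1, h2]
  have hp : 0 < a ^ n := pow_pos ha n
  change ∫⁻ y : Vec n, F y = ENNReal.ofReal ((a ^ n)⁻¹) * ∫⁻ y : Vec n, (Orth n).indicator
      (fun y => ENNReal.ofReal (Real.exp (-sm y)) * g (a⁻¹ • y)) y
  rw [h3, ← mul_assoc, ← ENNReal.ofReal_mul (inv_nonneg.2 hp.le), inv_mul_cancel₀ hp.ne',
    ENNReal.ofReal_one, one_mul]

end Pool.Agent.Lib.MP_725e58_gt.Loc
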