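import Pool.Agent.Lib.MP_725e58_gt.Loc.Stmts

/-!
Module SCL: scaling one coordinate in the expectation of a homogeneous function.
-/

set_option autoImplicit false

namespace Pool.Agent.Lib.MP_725e58_gt.Loc

open MeasureTheory Finset

namespace Scl

variable {n : ℕ}

lemma lint {G : Vec n → ENNReal} (hG : Measurable G) :
    ∫⁻ y, G y ∂(Pe n) = ∫⁻ y in Orth n, ENNReal.ofReal (Real.exp (-sm y)) * G y := by
  have hm : Measurable fun y : Vec n => ENNReal.ofReal (Real.exp (-sm y)) :=
    ((Real.continuous_exp.comp continuous_sm.neg).measurable).ennreal_ofReal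
  rw [Pe, lintegral_withDensity_eq_lintegral_mul _ hm hG]
  rfl

lemma ae_orth : ∀ᵐ y ∂(Pe n), y ∈ Orth n :=
  (withDensity_absolutelyContinuous _ _).ae_le (ae_restrict_mem measurableSet_Orth)

lemma scl_eq (m : Fin n) (s : ℝ) (y : Vec n) :
    scl m s y = Matrix.toLin' (Matrix.diagonal fun i => if i = m then s else 1) y := by
  funext i
  rw [Matrix.toLin'_apply, Matrix.mulVec_diagonal]
  by_cases h : i = m <;> simp [scl, h]

lemma measurable_scl (m : Fin n) (s : ℝ) : Measurable (scl m s : Vec n → Vec n) := by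
  refine measurable_pi_lambda _ fun i => ?_
  by_cases h : i = m
  · have h1 : Measurable fun y : Vec n => s * y m :=
      (measurable_pi_apply m : Measurable fun y : Vec n => y m).const_mul s
    simpa [scl, h] using h1
  · have h1 : Measurable fun y : Vec n => y i := measurable_pi_apply i
    simpa [scl, h] using h1

lemma lint_scl (m : Fin n) {s : ℝ} (hs : 0 < s) {F : Vec n → ENNReal} (hF : Measurable F) :
    ∫⁻ z, F z = ENNReal.ofReal s * ∫⁻ y, F (scl m s y) := by
  have hdet : Matrix.det (Matrix.diagonal fun i : Fin n => if i = m then s else 1) = s := by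
    rw [Matrix.det_diagonal, Finset.prod_ite_eq' univ m (fun _ => s)]
    simp
  have h := Real.smul_map_diagonal_volume_pi (ι := Fin n)
    (D := fun i : Fin n => if i = m then s else 1) (by rw [hdet]; exact hs.ne')
  rw [hdet, abs_of_pos hs] at h
  conv_lhs => rw [← h]
  rw [lintegral_smul_measure, lintegral_map hF]
  · simp_rw [scl_eq]
    rfl
  · have : (Matrix.toLin' (Matrix.diagonal fun i : Fin n => if i = m then s else 1) :
        Vec n → Vec n) = scl m s := by
      funext y
      exact (scl_eq m s y).symm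
    rw [this]
    exact measurable_scl m s

lemma scl_mem (m : Fin n) {s : ℝ} (hs : 0 < s) (y : Vec n) : scl m s y ∈ Orth n ↔ y ∈ Orth n := by
  refine ⟨fun h i => ?_, fun h i => ?_⟩
  · have := h i
    by_cases hi : i = m
    · simp only [scl, hi, if_true] at this
      rw [hi]
      exact nonneg_of_mul_nonneg_right this hs
    · simpa [scl, hi] using this
  · by_cases hi : i = m
    · simp only [scl, hi, if_true]
      exact mul_nonneg hs.le (h m)
    · simpa [scl, hi] using h i

lemma sm_scl (m : Fin n) (s : ℝ) (y : Vec n) : sm (scl m s y) = sm y - y m + s * y m := by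
  have h1 : sm (scl m s y) = ∑ i, (y i + if i = m then (s - 1) * y i else 0) := by
    refine Finset.sum_congr rfl fun i _ => ?_
    by_cases h : i = m <;> simp [scl, h]
    ring
  rw [h1, Finset.sum_add_distrib, Finset.sum_ite_eq' univ m]
  simp only [mem_univ, if_true, sm]
  ring

/-- The integral in the original coordinates. -/
lemma lint_comp (m : Fin n) {s : ℝ} (hs : 0 < s) {G : Vec n → ENNReal} (hG : Measurable G) :
    ENNReal.ofReal s * ∫⁻ y, G (scl m s y) ∂(Pe n) =
      ∫⁻ z in Orth n, ENNReal.ofReal (Real.exp (-(sm z - z m + s⁻¹ * z m))) * G z := by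
  have he : ∫⁻ y, G (scl m s y) ∂(Pe n) =
      ∫⁻ y in Orth n, ENNReal.ofReal (Real.exp (-sm y)) * G (scl m s y) :=
    lint (hG.comp (measurable_scl m s))
  rw [he]
  have hc : Continuous fun z : Vec n => -(sm z - z m + s⁻¹ * z m) :=
    ((continuous_sm.sub (continuous_apply m)).add (continuous_const.mul (continuous_apply m))).neg
  have hE : Measurable fun z : Vec n => ENNReal.ofReal (Real.exp (-(sm z - z m + s⁻¹ * z m))) * G z :=
    ((Real.continuous_exp.comp hc).measurable.ennreal_ofReal).mul hG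
  rw [← lintegral_indicator measurableSet_Orth, ← lintegral_indicator measurableSet_Orth,
    lint_scl m hs (hE.indicator measurableSet_Orth)]
  congr 1
  refine lintegral_congr fun y => ?_
  by_cases hy : y ∈ Orth n
  · rw [Set.indicator_of_mem hy, Set.indicator_of_mem ((scl_mem m hs y).2 hy), sm_scl]
    have h1 : scl m s y m = s * y m := by simp [scl]
    rw [h1]
    have h2 : sm y - y m + s * y m - s * y m + s⁻¹ * (s * y m) = sm y := by
      rw [← mul_assoc, inv_mul_cancel₀ hs.ne']
      ring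
    rw [h2]
  · rw [Set.indicator_of_notMem hy, Set.indicator_of_notMem]
    rwa [scl_mem m hs y]

end Scl

open Scl

theorem stScl (h : StScal) : StScl := by
  intro n f m s hf hf0 hfh hs1 hs2 hint
  have hs : 0 < s := by linarith
  set G : Vec n → ENNReal := fun y => ENNReal.ofReal (f y) with hG
  have hGm : Measurable G := hf.ennreal_ofReal
  have key : ∫⁻ y, G (scl m s y) ∂(Pe n) ≤ ENNReal.ofReal (2 ^ (n + 1)) * ∫⁻ y, G y ∂(Pe n) := by
    have h1 := lint_comp m hs hGm
    have h2 : ∫⁻ y, G (scl m s y) ∂(Pe n) = ENNReal.ofReal s⁻¹ *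
        ∫⁻ z in Orth n, ENNReal.ofReal (Real.exp (-(sm z - z m + s⁻¹ * z m))) * G z := by
      rw [← h1, ← mul_assoc, ← ENNReal.ofReal_mul (inv_nonneg.2 hs.le), inv_mul_cancel₀ hs.ne',
        ENNReal.ofReal_one, one_mul]
    rw [h2]
    rcases le_total s 1 with hs3 | hs3
    · have h3 : ∫⁻ z in Orth n, ENNReal.ofReal (Real.exp (-(sm z - z m + s⁻¹ * z m))) * G z ≤
          ∫⁻ y, G y ∂(Pe n) := by
        rw [lint hGm]
        refine setLIntegral_mono_ae' measurableSet_Orth (Filter.Eventually.of_forall fun z hz => ?_)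
        gcongr
        have h4 : 1 ≤ s⁻¹ := (one_le_inv₀ hs).2 hs3
        nlinarith [hz m]
      refine mul_le_mul' (ENNReal.ofReal_le_ofReal ?_) h3
      have h5 : s⁻¹ ≤ 2 := by
        rw [inv_le_comm₀ hs two_pos]
        linarith
      have h6 : (1 : ℝ) ≤ 2 ^ n := one_le_pow₀ (by norm_num)
      rw [pow_succ]
      linarith
    · have h3 : ∫⁻ z in Orth n, ENNReal.ofReal (Real.exp (-(sm z - z m + s⁻¹ * z m))) * G z ≤
          ∫⁻ y, G y * ENNReal.ofReal (Real.exp ((1 - s⁻¹) * sm y)) ∂(Pe n) := by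
        have hc : Continuous fun z : Vec n => (1 - s⁻¹) * sm z := continuous_const.mul continuous_sm
        have hm2 : Measurable fun y : Vec n =>
            G y * ENNReal.ofReal (Real.exp ((1 - s⁻¹) * sm y)) :=
          hGm.mul ((Real.continuous_exp.comp hc).measurable.ennreal_ofReal)
        rw [lint hm2]
        refine setLIntegral_mono_ae' measurableSet_Orth (Filter.Eventually.of_forall fun z hz => ?_)
        have h4 : s⁻¹ ≤ 1 := inv_le_one_of_one_le₀ hs3
        have h5 : -(sm z - z m + s⁻¹ * z m) ≤ -sm z + (1 - s⁻¹) * sm z := by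
          have := le_sm hz m
          nlinarith
        calc ENNReal.ofReal (Real.exp (-(sm z - z m + s⁻¹ * z m))) * G z
            ≤ ENNReal.ofReal (Real.exp (-sm z + (1 - s⁻¹) * sm z)) * G z := by gcongr
          _ = ENNReal.ofReal (Real.exp (-sm z)) *
              (G z * ENNReal.ofReal (Real.exp ((1 - s⁻¹) * sm z))) := by
            rw [Real.exp_add, ENNReal.ofReal_mul (Real.exp_pos _).le]
            ring
      rw [h n G s⁻¹ hGm (inv_pos.2 hs)] at h3
      have h6 : ∫⁻ y, G ((s⁻¹)⁻¹ • y) ∂(Pe n) = ENNReal.ofReal s * ∫⁻ y, G y ∂(Pe n) := by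
        rw [← lintegral_const_mul _ hGm]
        refine lintegral_congr_ae (ae_orth.mono fun y hy => ?_)
        simp only [hG]
        rw [inv_inv, hfh y hy s hs.le, ENNReal.ofReal_mul hs.le]
      rw [h6] at h3
      calc ENNReal.ofReal s⁻¹ *
            ∫⁻ z in Orth n, ENNReal.ofReal (Real.exp (-(sm z - z m + s⁻¹ * z m))) * G z
          ≤ ENNReal.ofReal s⁻¹ * (ENNReal.ofReal ((s⁻¹ ^ n)⁻¹) *
              (ENNReal.ofReal s * ∫⁻ y, G y ∂(Pe n))) := by gcongr
        _ = ENNReal.ofReal (s ^ n) * ∫⁻ y, G y ∂(Pe n) := by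
            rw [← mul_assoc, ← mul_assoc, ← ENNReal.ofReal_mul (inv_nonneg.2 hs.le),
              ← ENNReal.ofReal_mul (by positivity)]
            congr 2
            rw [inv_pow, inv_inv]
            field_simp
        _ ≤ ENNReal.ofReal (2 ^ (n + 1)) * ∫⁻ y, G y ∂(Pe n) := by
            refine mul_le_mul' (ENNReal.ofReal_le_ofReal ?_) le_rfl
            calc s ^ n ≤ 2 ^ n := pow_le_pow_left₀ hs.le hs2 n
              _ ≤ 2 ^ (n + 1) := pow_le_pow_right₀ (by norm_num) (by omega)
  have hae1 : ∀ᵐ y ∂(Pe n), 0 ≤ f y := ae_orth.mono fun y hy => hf0 y hy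
  have hae2 : ∀ᵐ y ∂(Pe n), 0 ≤ f (scl m s y) :=
    ae_orth.mono fun y hy => hf0 _ ((scl_mem m hs y).2 hy)
  have hfm : Measurable fun y => f (scl m s y) := hf.comp (measurable_scl m s)
  have hfin : ∫⁻ y, G y ∂(Pe n) ≠ ⊤ := by
    have := hint.lintegral_lt_top
    exact this.ne
  have hfin2 : ∫⁻ y, G (scl m s y) ∂(Pe n) ≠ ⊤ :=
    (lt_of_le_of_lt key (ENNReal.mul_lt_top ENNReal.ofReal_lt_top hfin.lt_top)).ne
  refine ⟨?_, ?_⟩
  · refine ⟨hfm.aestronglyMeasurable, ?_⟩
    rw [hasFiniteIntegral_iff_ofReal hae2]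
    exact hfin2.lt_top
  · rw [integral_eq_lintegral_of_nonneg_ae hae2 hfm.aestronglyMeasurable,
      integral_eq_lintegral_of_nonneg_ae hae1 hf.aestronglyMeasurable]
    have h1 := ENNReal.toReal_mono (ENNReal.mul_ne_top ENNReal.ofReal_ne_top hfin) key
    rw [ENNReal.toReal_mul, ENNReal.toReal_ofReal (by positivity)] at h1
    exact h1

end Pool.Agent.Lib.MP_725e58_gt.Loc
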