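import Pool.Agent.Lib.MP_725e58_gt.Loc.Stmts

/-!
Local maximality of the simplex for the Fary-Redei problem: selection of a subset.
-/

set_option autoImplicit false

namespace Pool.Agent.Lib.MP_725e58_gt.Loc

open MeasureTheory Finset

namespace Sel

/-- removing the smallest value -/
lemma exists_min {ι : Type*} [DecidableEq ι] (S : Finset ι) (hS : S.Nonempty) (f : ι → ℝ) :
    ∃ i ∈ S, (S.card : ℝ) * f i ≤ ∑ j ∈ S, f j := by
  obtain ⟨i, hi, hmin⟩ := S.exists_min_image f hS
  refine ⟨i, hi, ?_⟩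
  rw [← nsmul_eq_mul]
  exact card_nsmul_le_sum S f (f i) hmin

/-- a subset with at least the average -/
lemma exists_avg {ι : Type*} [DecidableEq ι] (h : ℕ) (f : ι → ℝ) : ∀ (N : ℕ) (S : Finset ι),
    S.card = N + h → ∃ H ∈ S.powersetCard h,
      (h : ℝ) * ∑ j ∈ S, f j ≤ (S.card : ℝ) * ∑ j ∈ H, f j := by
  intro N
  induction N with
  | zero =>
    intro S hS
    exact ⟨S, mem_powersetCard.2 ⟨Subset.rfl, by omega⟩, by rw [hS, zero_add]⟩
  | succ N ih =>
    intro S hS
    rcases Nat.eq_zero_or_pos h with rfl | hpos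
    · exact ⟨∅, mem_powersetCard.2 ⟨empty_subset _, rfl⟩, by simp⟩
    have hne : S.Nonempty := by
      rw [← card_pos]; omega
    obtain ⟨i, hi, hmin⟩ := exists_min S hne f
    have hc : (S.erase i).card = N + h := by
      rw [card_erase_of_mem hi]; omega
    obtain ⟨H, hH, hle⟩ := ih (S.erase i) hc
    rw [mem_powersetCard] at hH
    refine ⟨H, mem_powersetCard.2 ⟨hH.1.trans (erase_subset _ _), hH.2⟩, ?_⟩
    have h1 : ∑ j ∈ S, f j = f i + ∑ j ∈ S.erase i, f j := (add_sum_erase S f hi).symm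
    have h2 : (S.card : ℝ) = (N : ℝ) + 1 + h := by rw [hS]; push_cast; ring
    have h3 : ((S.erase i).card : ℝ) = (N : ℝ) + h := by rw [hc]; push_cast; ring
    rw [h3] at hle
    rw [h2] at hmin ⊢
    have hh : (1 : ℝ) ≤ h := by exact_mod_cast hpos
    have hN : (0 : ℝ) ≤ N := Nat.cast_nonneg N
    set s := ∑ j ∈ S, f j
    set s' := ∑ j ∈ S.erase i, f j
    set v := ∑ j ∈ H, f j
    have h4 : ((N : ℝ) + h) * s ≤ ((N : ℝ) + 1 + h) * s' := by nlinarith
    have h5 : ((N : ℝ) + h) * (h * s) ≤ ((N : ℝ) + h) * (((N : ℝ) + 1 + h) * v) := by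
      calc ((N : ℝ) + h) * (h * s) = h * (((N : ℝ) + h) * s) := by ring
        _ ≤ h * (((N : ℝ) + 1 + h) * s') := mul_le_mul_of_nonneg_left h4 (by linarith)
        _ = ((N : ℝ) + 1 + h) * (h * s') := by ring
        _ ≤ ((N : ℝ) + 1 + h) * (((N : ℝ) + h) * v) :=
          mul_le_mul_of_nonneg_left hle (by linarith)
        _ = ((N : ℝ) + h) * (((N : ℝ) + 1 + h) * v) := by ring
    exact le_of_mul_le_mul_left h5 (by linarith)

variable {n : ℕ}

lemma scl_mem_Orth {y : Vec n} (hy : y ∈ Orth n) (m : Fin n) {c : ℝ} (hc : 0 ≤ c) :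
    scl m c y ∈ Orth n := by
  intro i
  unfold scl
  split_ifs
  · exact mul_nonneg hc (hy i)
  · exact hy i

lemma rs_scl {H : Finset (Fin n)} {m : Fin n} (hm : m ∉ H) (c : ℝ) (y : Vec n) :
    rs H (scl m c y) = rs H y := by
  funext i
  by_cases hi : i ∈ H
  · have him : i ≠ m := by rintro rfl; exact hm hi
    simp [rs, hi, scl, him]
  · simp [rs, hi]

lemma neg_dot_rs (l y : Vec n) (H : Finset (Fin n)) :
    -dot l (rs H y) = ∑ i ∈ H, -(l i * y i) := by
  rw [dot_rs, sum_neg_distrib]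

/-- the sum over the other coordinates -/
lemma sum_gt {Kc : Set (Vec n)} {m r : Fin n} (hrm : r ≠ m) {l y : Vec n} (hl : l ∈ VN Kc m)
    (hy : y ∈ Orth n) (hr : 0 ≤ l r) (hd : dot l y < 0) :
    y m < ∑ i ∈ (univ.erase m).erase r, -(l i * y i) := by
  have h1 : dot l y = l m * y m + (l r * y r + ∑ i ∈ (univ.erase m).erase r, l i * y i) := by
    unfold dot
    rw [add_sum_erase (univ.erase m) (fun i => l i * y i)
      (mem_erase.2 ⟨hrm, mem_univ r⟩), add_sum_erase univ (fun i => l i * y i) (mem_univ m)]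
  have h2 : 0 ≤ l r * y r := mul_nonneg hr (hy r)
  rw [sum_neg_distrib]
  rw [hl.2.2] at h1
  linarith

end Sel

open Sel

/-- selection, even dimension -/
theorem stSelE : StSelE := by
  intro h Kc m r hh hrm y hy
  obtain ⟨hyO, l, hl, hr, hd⟩ := hy
  have hs := sum_gt hrm hl hyO hr hd
  have hcard : ((univ.erase m).erase r).card = (h - 1) + h := by
    rw [card_erase_of_mem (mem_erase.2 ⟨hrm, mem_univ r⟩), card_erase_of_mem (mem_univ m),
      card_univ, Fintype.card_fin]
    omega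
  obtain ⟨H, hH, hle⟩ := exists_avg h (fun i => -(l i * y i)) (h - 1) _ hcard
  have hmH : m ∉ H := fun hm => by
    have := (mem_powersetCard.1 hH).1 hm
    simp at this
  refine ⟨H, hH, scl_mem_Orth hyO m (by norm_num), l, hl, ?_⟩
  rw [rs_scl hmH, neg_dot_rs]
  have h1 : scl m (1 / 2) y m = y m / 2 := by simp [scl]; ring
  rw [h1]
  have h2 : (((univ.erase m).erase r).card : ℝ) = 2 * h - 1 := by
    rw [hcard, Nat.cast_add, Nat.cast_sub hh]; push_cast; ring
  rw [h2] at hle
  have h3 : (1 : ℝ) ≤ h := by exact_mod_cast hh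
  have h4 := hyO m
  set s := ∑ i ∈ (univ.erase m).erase r, -(l i * y i)
  set v := ∑ i ∈ H, -(l i * y i)
  by_contra hcon
  push Not at hcon
  have h5 : (2 * (h : ℝ) - 1) * v ≤ (2 * (h : ℝ) - 1) * (y m / 2) :=
    mul_le_mul_of_nonneg_left hcon (by linarith)
  nlinarith

/-- selection, odd dimension -/
theorem stSelO : StSelO := by
  intro h Kc m r hh hrm y hy
  obtain ⟨hyO, l, hl, hr, hd⟩ := hy
  have hs := sum_gt hrm hl hyO hr hd
  have hcard : ((univ.erase m).erase r).card = (h - 2) + h := by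
    rw [card_erase_of_mem (mem_erase.2 ⟨hrm, mem_univ r⟩), card_erase_of_mem (mem_univ m),
      card_univ, Fintype.card_fin]
    omega
  obtain ⟨H, hH, hle⟩ := exists_avg h (fun i => -(l i * y i)) (h - 2) _ hcard
  obtain ⟨hHs, hHc⟩ := mem_powersetCard.1 hH
  have hmH : m ∉ H := fun hm => by
    have := hHs hm
    simp at this
  have h1 : scl m (1 / 4) y m = y m / 4 := by simp [scl]; ring
  have h2 : (((univ.erase m).erase r).card : ℝ) = 2 * h - 2 := by
    rw [hcard, Nat.cast_add, Nat.cast_sub hh]; push_cast; ring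
  rw [h2] at hle
  have h3 : (2 : ℝ) ≤ h := by exact_mod_cast hh
  have h4 := hyO m
  have hv : y m / 2 < ∑ i ∈ H, -(l i * y i) := by
    set s := ∑ i ∈ (univ.erase m).erase r, -(l i * y i)
    set v := ∑ i ∈ H, -(l i * y i)
    by_contra hcon
    push Not at hcon
    have h5 : (2 * (h : ℝ) - 2) * v ≤ (2 * (h : ℝ) - 2) * (y m / 2) :=
      mul_le_mul_of_nonneg_left hcon (by linarith)
    nlinarith
  by_cases hone : 0 ≤ dot l (one H)
  · left
    refine ⟨H, hH, scl_mem_Orth hyO m (by norm_num), l, hl, hone, ?_⟩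
    rw [rs_scl hmH, neg_dot_rs, h1]
    linarith
  · right
    push Not at hone
    have hne : H.Nonempty := by
      rw [← card_pos]; omega
    obtain ⟨i, hi, hmin⟩ := exists_min H hne (fun i => -(l i * y i))
    have hiS := hHs hi
    rw [mem_erase, mem_erase] at hiS
    refine ⟨i, hiS.2.1, hiS.1, H.erase i, mem_powersetCard.2 ⟨erase_subset_erase i hHs, ?_⟩,
      scl_mem_Orth hyO m (by norm_num), l, hl, ?_, ?_⟩
    · rw [card_erase_of_mem hi, hHc]
    · rw [insert_erase hi]; exact hone.le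
    · rw [rs_scl (fun hm => hmH (mem_of_mem_erase hm)), neg_dot_rs, h1]
      have h6 := add_sum_erase H (fun i => -(l i * y i)) hi
      rw [hHc] at hmin
      nlinarith

end Pool.Agent.Lib.MP_725e58_gt.Loc
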