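import Pool.Agent.Lib.MP_725e58_gt.Loc.Stmts

/-!
REFL project, module STEP: the supporting forms of two neighbouring subsets are close.
-/

set_option autoImplicit false

namespace Pool.Agent.Lib.MP_725e58_gt.Loc

open MeasureTheory Finset

namespace Step

/-- the binomial identity -/
lemma choose_id (h : ℕ) (hh : 2 ≤ h) :
    2 * h * Nat.choose (2 * h - 1) h = 4 * (2 * h - 1) * Nat.choose (2 * h - 3) (h - 1) := by
  obtain ⟨r, rfl⟩ := Nat.exists_eq_add_of_le' hh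
  have e1 : 2 * (r + 2) - 1 = 2 * r + 2 + 1 := by omega
  have e2 : 2 * (r + 2) - 3 = 2 * r + 1 := by omega
  have e3 : r + 2 - 1 = r + 1 := by omega
  rw [e1, e2, e3]
  have h1 := Nat.add_one_mul_choose_eq (2 * r + 2) (r + 1)
  have h2 : Nat.choose (2 * r + 2) (r + 1) = 2 * Nat.choose (2 * r + 1) (r + 1) := by
    rw [show 2 * r + 2 = (2 * r + 1) + 1 by ring, Nat.choose_succ_succ]
    have h3 : Nat.choose (2 * r + 1) r = Nat.choose (2 * r + 1) (r + 1) :=
      Nat.choose_symm_of_eq_add (by ring)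
    rw [h3]
    ring
  rw [h2] at h1
  have h4 : r + 1 + 1 = r + 2 := by ring
  rw [h4] at h1
  calc 2 * (r + 2) * (2 * r + 2 + 1).choose (r + 2)
      = 2 * ((2 * r + 2 + 1).choose (r + 2) * (r + 2)) := by ring
    _ = 2 * ((2 * r + 2 + 1) * (2 * (2 * r + 1).choose (r + 1))) := by rw [← h1]
    _ = 4 * (2 * r + 2 + 1) * (2 * r + 1).choose (r + 1) := by ring

/-- double counting -/
lemma sum_swap {α : Type*} [DecidableEq α] (F : Finset α) (h : ℕ) (f : Finset α → ℝ) :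
    ∑ i ∈ F, ∑ K ∈ (F.erase i).powersetCard h, f K =
      ((F.card : ℝ) - h) * ∑ K ∈ F.powersetCard h, f K := by
  rw [Finset.sum_comm' (t' := F.powersetCard h) (s' := fun K => F \ K)]
  · rw [mul_sum]
    refine sum_congr rfl fun K hK => ?_
    rw [mem_powersetCard] at hK
    rw [sum_const, card_sdiff_of_subset hK.1, hK.2, nsmul_eq_mul,
      Nat.cast_sub (hK.2 ▸ card_le_card hK.1)]
  · intro i K
    rw [mem_powersetCard, mem_powersetCard, mem_sdiff, subset_erase]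
    tauto

end Step

open Step

/-- the supporting forms of two subsets are close, one step -/
theorem stStep (h1 : StC3a) (h2 : StC3b) (h3 : StJump) (h4 : StJens) : StStep := by
  classical
  intro h hh
  refine ⟨2 ^ (2 * h + 2), by positivity, ?_⟩
  intro Kc δ B l m H H' L L' hK hB hH hH' hne hcap hm hm' hL hL' hPL hPL'
  have hFc : (univ.erase l : Finset (Fin (2 * h))).card = 2 * h - 1 := by
    rw [card_erase_of_mem (mem_univ l), card_univ, Fintype.card_fin]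
  obtain ⟨F, hF⟩ : ∃ F, F = (univ.erase l : Finset (Fin (2 * h))) := ⟨_, rfl⟩
  rw [← hF] at hH hH' hFc ⊢
  have hHc := mem_powersetCard.1 hH
  have hHc' := mem_powersetCard.1 hH'
  -- an element of the complement
  obtain ⟨i₀, hi₀F, hi₀⟩ : ∃ i₀ ∈ F, i₀ ∉ H ∪ H' := by
    by_contra hcon
    push Not at hcon
    have h5 : F ⊆ H ∪ H' := fun i hi => hcon i hi
    have h6 := card_le_card h5
    have h7 := card_union_add_card_inter H H'
    rw [hFc] at h6
    rw [hHc.2, hHc'.2] at h7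
    omega
  rw [mem_union, not_or] at hi₀
  have hGc : ∀ i ∈ F, (F.erase i).card = 2 * h - 2 := by
    intro i hi
    rw [card_erase_of_mem hi, hFc]
    omega
  obtain ⟨N, hN⟩ : ∃ N : ℝ, N = (Nat.choose (2 * h - 3) (h - 1) : ℝ) := ⟨_, rfl⟩
  have hN0 : 0 ≤ N := by
    rw [hN]
    positivity
  have hstep : ∀ i ∈ F, N * J Kc B l (F.erase i) ≤ ∑ K ∈ (F.erase i).powersetCard h, J Kc B l K := by
    intro i hi
    have h8 := h2 (2 * h) Kc δ B l (F.erase i) h hK hB (by omega) (by rw [hGc i hi]; omega)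
    rw [hGc i hi] at h8
    rw [hN]
    exact h8
  obtain ⟨e, he⟩ : ∃ e : ℝ, e = ∑ K ∈ F.powersetCard h, (J Kc B l K - Phi Kc B l (one K)) :=
    ⟨_, rfl⟩
  have hterm : ∀ K, 0 ≤ J Kc B l K - Phi Kc B l (one K) := fun K =>
    sub_nonneg.2 (h4 (2 * h) Kc δ B l K hK hB)
  have heH : (J Kc B l H - Phi Kc B l (one H)) + (J Kc B l H' - Phi Kc B l (one H')) ≤ e := by
    rw [he, ← sum_pair (f := fun K => J Kc B l K - Phi Kc B l (one K)) hne]
    refine sum_le_sum_of_subset_of_nonneg ?_ fun K _ _ => hterm K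
    intro K hK'
    rw [mem_insert, mem_singleton] at hK'
    rcases hK' with rfl | rfl
    · exact hH
    · exact hH'
  have he0 : 0 ≤ e := by
    rw [he]
    exact sum_nonneg fun K _ => hterm K
  have hjump : N * J Kc B l (F.erase i₀) + (L m - L' m) / 2 ≤
      ∑ K ∈ (F.erase i₀).powersetCard h, J Kc B l K + 2 ^ (2 * h + 1) * e := by
    have h9 := h3 (2 * h) Kc δ B l m (F.erase i₀) H H' h L L' hK hB (by omega)
      (mem_powersetCard.2 ⟨subset_erase.2 ⟨hHc.1, hi₀.1⟩, hHc.2⟩)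
      (mem_powersetCard.2 ⟨subset_erase.2 ⟨hHc'.1, hi₀.2⟩, hHc'.2⟩) hne hm hm' hL hL' hPL hPL'
    rw [hGc i₀ hi₀F] at h9
    rw [hN]
    have h10 : (2 : ℝ) ^ (2 * h + 1) *
        ((J Kc B l H - Phi Kc B l (one H)) + (J Kc B l H' - Phi Kc B l (one H'))) ≤
        2 ^ (2 * h + 1) * e := mul_le_mul_of_nonneg_left heH (by positivity)
    have h11 : 2 * h - 2 - 1 = 2 * h - 3 := by omega
    rw [h11] at h9
    linarith
  have hC3a := h1 (2 * h) Kc δ B l (by omega) hK hB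
  rw [← hF] at hC3a
  obtain ⟨S, hS⟩ : ∃ S : ℝ, S = ∑ K ∈ F.powersetCard h, J Kc B l K := ⟨_, rfl⟩
  have hswap := sum_swap F h (J Kc B l)
  rw [hFc, ← hS, Nat.cast_sub (by omega)] at hswap
  push_cast at hswap hC3a
  -- the two sums
  have hsum1 : N * ∑ i ∈ F, J Kc B l (F.erase i) ≤ (2 * (h : ℝ) - 1 - h) * S := by
    rw [mul_sum, ← hswap]
    exact sum_le_sum hstep
  have hsum2 : N * ∑ i ∈ F, J Kc B l (F.erase i) + (L m - L' m) / 2 ≤
      (2 * (h : ℝ) - 1 - h) * S + 2 ^ (2 * h + 1) * e := by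
    rw [mul_sum, ← hswap, ← add_sum_erase F _ hi₀F, ← add_sum_erase F
      (fun i => ∑ K ∈ (F.erase i).powersetCard h, J Kc B l K) hi₀F]
    have h12 : ∑ i ∈ F.erase i₀, N * J Kc B l (F.erase i) ≤
        ∑ i ∈ F.erase i₀, ∑ K ∈ (F.erase i).powersetCard h, J Kc B l K :=
      sum_le_sum fun i hi => hstep i (mem_of_mem_erase hi)
    linarith
  have hmul : N * ((2 * (h : ℝ) - 1) * J Kc B l F) ≤ N * ∑ i ∈ F, J Kc B l (F.erase i) :=
    mul_le_mul_of_nonneg_left hC3a hN0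
  have hch : (2 * (h : ℝ)) * (Nat.choose (2 * h - 1) h : ℝ) = 4 * (2 * (h : ℝ) - 1) * N := by
    have h13 := congrArg (Nat.cast : ℕ → ℝ) (choose_id h (by omega))
    push_cast [Nat.cast_sub (show 1 ≤ 2 * h by omega)] at h13
    rw [hN]
    exact h13
  rw [← hS, ← he, hch]
  obtain ⟨b, hb⟩ : ∃ b : ℝ, b = 4 * ((h : ℝ) - 1) * S - 4 * (2 * (h : ℝ) - 1) * N * J Kc B l F :=
    ⟨_, rfl⟩
  rw [← hb]
  have hb0 : 0 ≤ b := by
    rw [hb]
    nlinarith
  have hfin : L m - L' m ≤ b / 2 + 2 ^ (2 * h + 2) * e := by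
    rw [hb, pow_succ]
    nlinarith
  have hpow1 : (1 : ℝ) ≤ 2 ^ (2 * h + 2) := one_le_pow₀ (by norm_num)
  nlinarith [mul_nonneg (sub_nonneg.2 hpow1) hb0]

end Pool.Agent.Lib.MP_725e58_gt.Loc
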