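import Pool.Agent.Lib.MP_725e58_gt.Loc.Stmts

/-!
Local maximality of the simplex for the Fary-Redei problem: stochastic matrices with determinant
close to one.
-/

set_option autoImplicit false

namespace Pool.Agent.Lib.MP_725e58_gt.Loc

open MeasureTheory Finset

namespace Stoch

variable {n : ℕ}

/-- the determinant is at most the permanent -/
lemma abs_det_le {A : Matrix (Fin n) (Fin n) ℝ} (hA : ∀ i j, 0 ≤ A i j) :
    |A.det| ≤ ∑ σ : Equiv.Perm (Fin n), ∏ i, A i (σ i) := by
  rw [← Matrix.det_transpose, Matrix.det_apply']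
  refine (Finset.abs_sum_le_sum_abs _ _).trans (Finset.sum_le_sum fun σ _ => ?_)
  rw [abs_mul]
  have h1 : |((Equiv.Perm.sign σ : ℤ) : ℝ)| = 1 := by
    rcases Int.units_eq_one_or (Equiv.Perm.sign σ) with h | h <;> simp [h]
  rw [h1, one_mul]
  change |∏ i, A i (σ i)| ≤ ∏ i, A i (σ i)
  rw [abs_of_nonneg (Finset.prod_nonneg fun i _ => hA _ _)]

/-- the basic inequality: the probability that a random function misses the value `j` -/
lemma det_add_prod_le {A : Matrix (Fin n) (Fin n) ℝ} (hA : ∀ i j, 0 ≤ A i j)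
    (h1 : ∀ i, ∑ j, A i j = 1) (j : Fin n) : |A.det| + ∏ i, (1 - A i j) ≤ 1 := by
  classical
  have e1 : ∑ f : Fin n → Fin n, ∏ i, A i (f i) = 1 := by
    have h := Finset.prod_univ_sum (fun _ : Fin n => (univ : Finset (Fin n))) (fun i k => A i k)
    rw [Fintype.piFinset_univ] at h
    rw [← h]
    simp [h1]
  have e2 : ∑ f ∈ Fintype.piFinset (fun _ : Fin n => (univ : Finset (Fin n)).erase j),
      ∏ i, A i (f i) = ∏ i, (1 - A i j) := by
    rw [← Finset.prod_univ_sum]
    refine Finset.prod_congr rfl fun i _ => ?_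
    rw [← h1 i, ← Finset.add_sum_erase _ _ (mem_univ j)]
    ring
  have e3 : ∑ σ : Equiv.Perm (Fin n), ∏ i, A i (σ i) =
      ∑ f ∈ (univ : Finset (Equiv.Perm (Fin n))).image (fun σ : Equiv.Perm (Fin n) => (⇑σ : Fin n → Fin n)),
        ∏ i, A i (f i) := by
    rw [Finset.sum_image]
    intro σ _ τ _ h
    exact DFunLike.coe_injective h
  have hdisj : Disjoint ((univ : Finset (Equiv.Perm (Fin n))).image
      (fun σ : Equiv.Perm (Fin n) => (⇑σ : Fin n → Fin n)))
      (Fintype.piFinset (fun _ : Fin n => (univ : Finset (Fin n)).erase j)) := by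
    rw [Finset.disjoint_left]
    intro f hf hf'
    obtain ⟨σ, -, rfl⟩ := Finset.mem_image.1 hf
    have h2 := Fintype.mem_piFinset.1 hf' (σ.symm j)
    rw [Equiv.apply_symm_apply] at h2
    exact Finset.notMem_erase j _ h2
  have h3 := abs_det_le hA
  rw [e3] at h3
  rw [← e2]
  refine (add_le_add h3 le_rfl).trans ?_
  rw [← Finset.sum_union hdisj, ← e1]
  exact Finset.sum_le_sum_of_subset_of_nonneg (Finset.subset_univ _) fun f _ _ =>
    Finset.prod_nonneg fun i _ => hA _ _

end Stoch

open Stoch in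
/-- stochastic matrices with determinant close to one -/
theorem stStoch : StStoch := by
  intro n δ hδ
  refine ⟨δ ^ n / 2, by positivity, fun A hA h1 hdet j => ?_⟩
  by_contra hcon
  push Not at hcon
  have h2 := det_add_prod_le hA h1 j
  have h3 : δ ^ n ≤ ∏ i, (1 - A i j) := by
    have h4 : ∏ _i : Fin n, δ ≤ ∏ i, (1 - A i j) :=
      Finset.prod_le_prod (fun _ _ => hδ.le) fun i _ => by linarith [hcon i]
    simpa using h4
  have h5 : 0 < δ ^ n := by positivity
  linarith

end Pool.Agent.Lib.MP_725e58_gt.Loc
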