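import Pool.Agent.Lib.MP_725e58_gt.Loc.Stmts

/-!
Local maximality of the simplex for the Fary-Redei problem: bound of the supporting forms.
-/

set_option autoImplicit false

namespace Pool.Agent.Lib.MP_725e58_gt.Loc

open MeasureTheory Finset

namespace SupAux

variable {n : ℕ}

lemma int_coord (h1 : StInt) (i : Fin n) : Integrable (fun y : Vec n => y i) (Pe n) := by
  refine h1 n _ 2 (1 / 2) (measurable_pi_apply i) (by norm_num) ?_
  intro y hy
  rw [abs_of_nonneg (hy i)]
  have h := le_sm hy i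
  have h' : 1 / 2 * sm y + 1 ≤ Real.exp (1 / 2 * sm y) := Real.add_one_le_exp _
  linarith

lemma dot_scl (L : Vec n) (H : Finset (Fin n)) (m : Fin n) (s : ℝ) (y : Vec n) :
    dot L (rs H (scl m s y)) = ∑ i ∈ H, (L i * (if i = m then s else 1)) * y i := by
  rw [dot_rs]
  refine sum_congr rfl fun i _ => ?_
  unfold scl
  split_ifs <;> ring

lemma int_dot (h1 : StInt) (L : Vec n) (H : Finset (Fin n)) (m : Fin n) (s : ℝ) :
    Integrable (fun y : Vec n => dot L (rs H (scl m s y))) (Pe n) := by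
  simp_rw [dot_scl]
  exact integrable_finset_sum _ fun i _ => (int_coord h1 i).const_mul _

lemma mean_dot (h1 : StInt) (h2 : StMean) (L : Vec n) (H : Finset (Fin n)) {m : Fin n}
    (hm : m ∈ H) (s : ℝ) :
    ∫ y : Vec n, dot L (rs H (scl m s y)) ∂(Pe n) = dot L (one H) + (s - 1) * L m := by
  simp_rw [dot_scl]
  rw [integral_finset_sum _ fun i _ => (int_coord h1 i).const_mul _]
  have e1 : ∀ i ∈ H, ∫ y : Vec n, L i * (if i = m then s else 1) * y i ∂(Pe n) =
      L i + (if i = m then (s - 1) * L i else 0) := by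
    intro i _
    rw [integral_const_mul, h2 n i]
    split_ifs <;> ring
  rw [sum_congr rfl e1, sum_add_distrib, dot_one, sum_ite_eq' H m, if_pos hm]

lemma bound (h1 : StInt) (h2 : StMean) (h3 : StScl) {Kc : Set (Vec n)} {δ B : ℝ} {l : Fin n}
    {H : Finset (Fin n)} {L : Vec n} (hK : Pos n Kc δ) (hB : 0 ≤ B) (hL : L ∈ LL Kc B l)
    (hP : Phi Kc B l (one H) = dot L (one H)) {m : Fin n} (hm : m ∈ H) (s : ℝ) (hs : 1 / 2 ≤ s)
    (hs2 : s ≤ 2) : (s - 1) * L m ≤ 2 ^ (n + 1) * J Kc B l H := by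
  have hmeas : Measurable fun y : Vec n => Phi Kc B l (rs H y) :=
    ((continuous_phi hK hB).comp (continuous_rs H)).measurable
  have hint : Integrable (fun y : Vec n => Phi Kc B l (rs H y)) (Pe n) := by
    refine h1 n _ (B * 2) (1 / 2) hmeas (by norm_num) ?_
    intro y hy
    rw [abs_of_nonneg (phi_nonneg hK hB _)]
    have e1 := phi_le_sm (l := l) hK hB (rs_nonneg H hy)
    have e2 : sm (rs H y) ≤ sm y := by
      rw [sm_rs]
      exact sum_le_sum_of_subset_of_nonneg (subset_univ H) fun i _ _ => hy i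
    have e3 : 1 / 2 * sm y + 1 ≤ Real.exp (1 / 2 * sm y) := Real.add_one_le_exp _
    have e4 : sm (rs H y) ≤ 2 * Real.exp (1 / 2 * sm y) := by linarith
    calc _ ≤ B * sm (rs H y) := e1
      _ ≤ B * (2 * Real.exp (1 / 2 * sm y)) := mul_le_mul_of_nonneg_left e4 hB
      _ = _ := by ring
  obtain ⟨hi, hle⟩ := h3 n (fun y => Phi Kc B l (rs H y)) m s hmeas
    (fun y _ => phi_nonneg hK hB _) (fun y _ a ha => by
      show Phi Kc B l (rs H (a • y)) = _
      rw [rs_smul, phi_smul hK hB ha]) hs hs2 hint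
  have e1 : ∫ y : Vec n, dot L (rs H (scl m s y)) ∂(Pe n) ≤
      ∫ y : Vec n, Phi Kc B l (rs H (scl m s y)) ∂(Pe n) :=
    integral_mono (int_dot h1 L H m s) hi fun y => le_phi hL _
  rw [mean_dot h1 h2 L H hm s] at e1
  have e2 : 0 ≤ dot L (one H) := by
    rw [← hP]
    exact phi_nonneg hK hB _
  have e3 : ∫ y : Vec n, Phi Kc B l (rs H y) ∂(Pe n) = J Kc B l H := rfl
  rw [e3] at hle
  linarith

end SupAux

open SupAux in
/-- bound of the supporting forms -/
theorem stSup (h1 : StInt) (h2 : StMean) (h3 : StScl) : StSup := by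
  intro n Kc δ B l H L hK hB hL hP m hm
  have e1 := bound h1 h2 h3 hK hB hL hP hm (3 / 2) (by norm_num) (by norm_num)
  have e2 := bound h1 h2 h3 hK hB hL hP hm (1 / 2) le_rfl (by norm_num)
  have e3 : (2 : ℝ) ^ (n + 2) = 2 * 2 ^ (n + 1) := by ring
  rw [abs_le, e3]
  constructor <;> linarith

end Pool.Agent.Lib.MP_725e58_gt.Loc
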