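import Pool.Agent.Lib.MP_725e58_gt.Loc.Stmts

/-!
Local maximality of the simplex for the Fary-Redei problem: bounds between the first order
quantities.
-/

set_option autoImplicit false

namespace Pool.Agent.Lib.MP_725e58_gt.Loc

open MeasureTheory Finset

namespace TF

variable {n : ℕ} {Kc : Set (Vec n)} {δ B : ℝ}

lemma ae_orth : ∀ᵐ y ∂(Pe n), y ∈ Orth n :=
  (withDensity_absolutelyContinuous _ _).ae_le (ae_restrict_mem measurableSet_Orth)

lemma sm_le_exp (y : Vec n) : sm y ≤ 2 * Real.exp (1 / 2 * sm y) := by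
  have := Real.add_one_le_exp (1 / 2 * sm y)
  linarith

lemma int_coord (h2 : StInt) (i : Fin n) : Integrable (fun y : Vec n => y i) (Pe n) := by
  refine h2 n _ 2 (1 / 2) (measurable_pi_apply i) (by norm_num) fun y hy => ?_
  rw [abs_of_nonneg (hy i)]
  exact (le_sm hy i).trans (sm_le_exp y)

lemma int_sm (h2 : StInt) : Integrable (sm : Vec n → ℝ) (Pe n) := by
  refine h2 n _ 2 (1 / 2) continuous_sm.measurable (by norm_num) fun y hy => ?_
  rw [abs_of_nonneg (sm_nonneg hy)]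
  exact sm_le_exp y

lemma mean_sm (h2 : StInt) (h3 : StMean) : ∫ y : Vec n, sm y ∂(Pe n) = n := by
  unfold sm
  rw [integral_finsetSum _ fun i _ => int_coord h2 i]
  simp [h3 n]

lemma J_nonneg (hK : Pos n Kc δ) (hB : 0 ≤ B) (l : Fin n) (H : Finset (Fin n)) :
    0 ≤ J Kc B l H := integral_nonneg fun y => phi_nonneg hK hB _

lemma sm_rs_le (H : Finset (Fin n)) {y : Vec n} (hy : y ∈ Orth n) : sm (rs H y) ≤ sm y := by
  rw [sm_rs]
  exact sum_le_univ_sum_of_nonneg hy

lemma int_phi (h2 : StInt) (hK : Pos n Kc δ) (hB : 0 ≤ B) (l : Fin n) (H : Finset (Fin n)) :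
    Integrable (fun y : Vec n => Phi Kc B l (rs H y)) (Pe n) := by
  refine h2 n _ (B * 2) (1 / 2) ((continuous_phi hK hB).comp (continuous_rs H)).measurable
    (by norm_num) fun y hy => ?_
  rw [abs_of_nonneg (phi_nonneg hK hB _)]
  have h4 := phi_le_sm (l := l) hK hB (rs_nonneg H hy)
  have h5 := mul_le_mul_of_nonneg_left ((sm_rs_le H hy).trans (sm_le_exp y)) hB
  rw [mul_assoc]
  exact h4.trans h5

lemma J_le (h2 : StInt) (h3 : StMean) (hK : Pos n Kc δ) (hB : 0 ≤ B) (l : Fin n)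
    (H : Finset (Fin n)) : J Kc B l H ≤ B * n := by
  rw [← mean_sm h2 h3, ← integral_const_mul]
  refine integral_mono_ae (int_phi h2 hK hB l H) ((int_sm h2).const_mul B) ?_
  filter_upwards [ae_orth] with y hy
  exact (phi_le_sm hK hB (rs_nonneg H hy)).trans
    (mul_le_mul_of_nonneg_left (sm_rs_le H hy) hB)

lemma T_nonneg (hK : Pos n Kc δ) (hB : 0 ≤ B) (h : ℕ) : 0 ≤ T h Kc B :=
  sum_nonneg fun l _ => sum_nonneg fun H _ => J_nonneg hK hB l H

lemma FF_nonneg (hK : Pos n Kc δ) (hB : 0 ≤ B) : 0 ≤ FF Kc B :=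
  sum_nonneg fun l _ => J_nonneg hK hB l _

lemma T_le (h2 : StInt) (h3 : StMean) (hK : Pos n Kc δ) (hB : 0 ≤ B) (h : ℕ) :
    T h Kc B ≤ n * (Nat.choose (n - 1) h * n) * B := by
  have e1 : T h Kc B ≤ ∑ l : Fin n, ∑ _H ∈ (univ.erase l).powersetCard h, B * n :=
    sum_le_sum fun l _ => sum_le_sum fun H _ => J_le h2 h3 hK hB l H
  have e2 : ∑ l : Fin n, ∑ _H ∈ (univ.erase l).powersetCard h, B * (n : ℝ) =
      n * (Nat.choose (n - 1) h * n) * B := by
    simp only [sum_const, card_powersetCard, card_erase_of_mem (mem_univ _), card_univ,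
      Fintype.card_fin, nsmul_eq_mul]
    ring
  rw [← e2]
  exact e1

end TF

open TF in
/-- bounds between the first order quantities -/
theorem stTF (h1 : StC3) (h2 : StInt) (h3 : StMean) : StTF := by
  intro n hn
  obtain ⟨d, rfl⟩ : ∃ d, n = d + 1 := ⟨n - 1, by omega⟩
  set h := (d + 1) / 2 with hh
  have hC : (0 : ℝ) ≤ ((d + 1 : ℕ) : ℝ) * (Nat.choose (d + 1 - 1) h * ((d + 1 : ℕ) : ℝ)) := by
    positivity
  refine ⟨1 + ((d + 1 : ℕ) : ℝ) * (Nat.choose (d + 1 - 1) h * ((d + 1 : ℕ) : ℝ)), by linarith,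
    fun Kc δ B hK hB => ?_⟩
  have hT := T_nonneg hK hB h
  refine ⟨hT, FF_nonneg hK hB, ?_, ?_⟩
  · have hFT : FF Kc B ≤ T h Kc B := by
      refine sum_le_sum fun l _ => ?_
      have h4 := h1 d Kc δ B l h (by omega) (by omega) (by omega) hK hB
      set a := J Kc B l (univ.erase l) with ha
      set s := ∑ H ∈ (univ.erase l).powersetCard h, J Kc B l H with hs
      have ha0 : 0 ≤ a := J_nonneg hK hB l _
      have hs0 : 0 ≤ s := sum_nonneg fun H _ => J_nonneg hK hB l H
      have hc : (1 : ℝ) ≤ Nat.choose (d - 2) (h - 1) := by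
        exact_mod_cast Nat.choose_pos (by omega)
      have hd : (0 : ℝ) < d := by
        have : 0 < d := by omega
        exact_mod_cast this
      have h5 : (d : ℝ) * a ≤ d * Nat.choose (d - 2) (h - 1) * a := by
        have h6 : 0 ≤ (d : ℝ) * a := by positivity
        nlinarith
      have h7 : ((d : ℝ) - h) * s ≤ d * s := by
        have h8 : (0 : ℝ) ≤ h := Nat.cast_nonneg h
        nlinarith
      have h9 : (d : ℝ) * a ≤ d * s := (h5.trans h4).trans h7
      exact le_of_mul_le_mul_left h9 hd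
    refine hFT.trans ?_
    nlinarith
  · refine (T_le h2 h3 hK hB h).trans ?_
    nlinarith

end Pool.Agent.Lib.MP_725e58_gt.Loc
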