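import Pool.Agent.Lib.MP_725e58_gt.Loc.Stmts

/-!
Local maximality of the simplex for the Fary-Redei problem: module TR, translation between
Euclidean space and barycentric coordinates.
-/

set_option autoImplicit false

namespace Pool.Agent.Lib.MP_725e58_gt.Loc

open MeasureTheory Finset

namespace Tr

variable {d : ℕ} {t : Fin (d + 1) → EuclideanSpace ℝ (Fin d)}

lemma bary_add (l l' : Vec (d + 1)) : bary t (l + l') = bary t l + bary t l' := by
  simp [bary, add_smul, sum_add_distrib]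

lemma bary_smul (a : ℝ) (l : Vec (d + 1)) : bary t (a • l) = a • bary t l := by
  simp [bary, mul_smul, smul_sum]

lemma bary_sub (l l' : Vec (d + 1)) : bary t (l - l') = bary t l - bary t l' := by
  simp [bary, sub_smul, sum_sub_distrib]

lemma sm_sub (y z : Vec (d + 1)) : sm (y - z) = sm y - sm z := by simp [sm, sum_sub_distrib]

lemma continuous_bary : Continuous (bary t) :=
  continuous_finsetSum _ fun i _ => (continuous_apply i).smul continuous_const

lemma bary_inj (ht : AffineIndependent ℝ t) {l l' : Vec (d + 1)} (hs : sm l = sm l')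
    (hb : bary t l = bary t l') : l = l' := by
  have h := (affineIndependent_iff.mp ht) univ (l - l')
    (by have := sm_sub l l'; rw [hs, sub_self] at this; exact this)
    (by have := bary_sub (t := t) l l'; rw [hb, sub_self] at this; exact this)
  funext i
  have := h i (mem_univ i)
  exact sub_eq_zero.mp this

lemma mem_Sx {v : EuclideanSpace ℝ (Fin d)} :
    v ∈ Sx t ↔ ∃ l : Vec (d + 1), (∀ i, 0 ≤ l i) ∧ sm l = 1 ∧ bary t l = v := by
  constructor
  · intro hv
    have hc : Convex ℝ {v | ∃ l : Vec (d + 1), (∀ i, 0 ≤ l i) ∧ sm l = 1 ∧ bary t l = v} := by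
      rintro _ ⟨l, hl, hl1, rfl⟩ _ ⟨l', hl', hl1', rfl⟩ a b ha hb hab
      refine ⟨a • l + b • l', fun i => ?_, ?_, ?_⟩
      · exact add_nonneg (mul_nonneg ha (hl i)) (mul_nonneg hb (hl' i))
      · rw [sm_add, sm_smul, sm_smul, hl1, hl1', mul_one, mul_one, hab]
      · rw [bary_add, bary_smul, bary_smul]
    refine convexHull_min ?_ hc hv
    rintro _ ⟨i, rfl⟩
    refine ⟨Pi.single i 1, fun j => ?_, ?_, ?_⟩
    · by_cases hj : j = i
      · subst hj; simp
      · simp [hj]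
    · simp [sm, Pi.single_apply]
    · simp [bary, Pi.single_apply]
  · rintro ⟨l, hl, hl1, rfl⟩
    exact (convex_convexHull ℝ _).sum_mem (fun i _ => hl i) hl1
      (fun i _ => subset_convexHull ℝ _ ⟨i, rfl⟩)

variable {K : Set (EuclideanSpace ℝ (Fin d))} {δ : ℝ}

lemma pos_Kb (hd : 1 ≤ d) (hK : PosE d K t δ) : Pos (d + 1) (Kb K t) δ where
  closed := by
    have h1 : IsClosed {l : Vec (d + 1) | ∀ i, 0 ≤ l i} := isClosed_Orth
    have h2 : IsClosed {l : Vec (d + 1) | sm l = 1} := isClosed_eq continuous_sm continuous_const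
    have h3 : IsClosed {l : Vec (d + 1) | bary t l ∈ K} :=
      hK.compact.isClosed.preimage continuous_bary
    exact h1.inter (h2.inter h3)
  convex := by
    rintro l ⟨hl, hl1, hlK⟩ l' ⟨hl', hl1', hlK'⟩ a b ha hb hab
    refine ⟨fun i => add_nonneg (mul_nonneg ha (hl i)) (mul_nonneg hb (hl' i)), ?_, ?_⟩
    · rw [sm_add, sm_smul, sm_smul, hl1, hl1', mul_one, mul_one, hab]
    · rw [bary_add, bary_smul, bary_smul]
      exact hK.convex hlK hlK' ha hb hab
  nonneg := fun p hp => hp.1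
  sum := fun p hp => hp.2.1
  cen := by
    intro l
    have hd' : (0 : ℝ) < d := by exact_mod_cast hd
    have e : (((d + 1 : ℕ) : ℝ) - 1) = d := by push_cast; ring
    rw [e]
    refine ⟨fun i => ?_, ?_, hK.cen l⟩
    · by_cases hi : i = l
      · simp [hi]
      · simp only [hi, if_false]; positivity
    · unfold sm
      rw [← add_sum_erase _ _ (mem_univ l)]
      have : ∀ i ∈ univ.erase l, (if i = l then (0 : ℝ) else 1 / (d : ℝ)) = 1 / d := by
        intro i hi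
        rw [if_neg (ne_of_mem_erase hi)]
      rw [sum_congr rfl this, sum_const, card_erase_of_mem (mem_univ l), card_univ,
        Fintype.card_fin]
      simp
      field_simp
  near := by
    intro i
    obtain ⟨w, hw, hw1, hwi, hwK⟩ := hK.near i
    exact ⟨w, ⟨hw, hw1, hwK⟩, hwi⟩

/-- the law of a set contained in the orthant -/
lemma Pe_eq {n : ℕ} {S : Set (Vec n)} (hS : MeasurableSet S) (hSO : S ⊆ Orth n) :
    Pe n S = ∫⁻ y in S, ENNReal.ofReal (Real.exp (-sm y)) := by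
  unfold Pe
  rw [withDensity_apply _ hS, Measure.restrict_restrict hS, Set.inter_eq_left.mpr hSO]

lemma ae_diff {n : ℕ} (S : Set (Vec (n + 1))) :
    ∫⁻ y in S \ {0}, ENNReal.ofReal (Real.exp (-sm y)) =
      ∫⁻ y in S, ENNReal.ofReal (Real.exp (-sm y)) :=
  setLIntegral_congr (sdiff_null_ae_eq_self (measure_singleton 0))

lemma div_mem (ht : AffineIndependent ℝ t) {Y : Vec (d + 1)} (hY : 0 < sm Y)
    {l : Vec (d + 1)} (hl : sm l = 1) (h : bary t ((sm Y)⁻¹ • Y) = bary t l) : Y = sm Y • l := by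
  have h1 : (sm Y)⁻¹ • Y = l := bary_inj ht (by rw [sm_smul, hl, inv_mul_cancel₀ hY.ne']) h
  rw [← h1, smul_smul, mul_inv_cancel₀ hY.ne', one_smul]

lemma set_kept (hK : PosE d K t δ) :
    {Y : Vec (d + 1) | 0 < sm Y ∧ bary t ((sm Y)⁻¹ • Y) ∈ K} = kept (Kb K t) \ {0} := by
  ext Y
  constructor
  · rintro ⟨hY, hYK⟩
    obtain ⟨l, hl, hl1, hlb⟩ := mem_Sx.mp (hK.sub hYK)
    have hYl := div_mem hK.aff hY hl1 hlb.symm
    have hlK : l ∈ Kb K t := ⟨hl, hl1, by rw [hlb]; exact hYK⟩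
    refine ⟨⟨?_, ⟨sm Y, hY.le, l, hlK, hYl⟩⟩, ?_⟩
    · intro i
      rw [hYl]
      exact mul_nonneg hY.le (hl i)
    · intro h0
      rw [Set.mem_singleton_iff] at h0
      rw [h0] at hY
      simp [sm] at hY
  · rintro ⟨⟨hO, r, hr, p, hp, rfl⟩, h0⟩
    have hr0 : r ≠ 0 := by
      intro h
      apply h0
      rw [h, zero_smul]
      rfl
    have hsm : sm (r • p) = r := by rw [sm_smul, hp.2.1, mul_one]
    refine ⟨by rw [hsm]; exact lt_of_le_of_ne hr hr0.symm, ?_⟩
    rw [hsm, smul_smul, inv_mul_cancel₀ hr0, one_smul]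
    exact hp.2.2

lemma set_lost (hK : PosE d K t δ) :
    {Y : Vec (d + 1) | 0 < sm Y ∧ bary t ((sm Y)⁻¹ • Y) ∈ Sx t \ K} =
      lost (Kb K t) \ {0} := by
  ext Y
  constructor
  · rintro ⟨hY, hYS, hYK⟩
    obtain ⟨l, hl, hl1, hlb⟩ := mem_Sx.mp hYS
    have hYl := div_mem hK.aff hY hl1 hlb.symm
    refine ⟨⟨?_, ?_⟩, ?_⟩
    · intro i
      rw [hYl]
      exact mul_nonneg hY.le (hl i)
    · rintro ⟨r, hr, p, hp, hYp⟩
      have hsm : sm Y = r := by rw [hYp, sm_smul, hp.2.1, mul_one]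
      apply hYK
      rw [hsm, hYp, smul_smul, inv_mul_cancel₀ (by rw [← hsm]; exact hY.ne'), one_smul]
      exact hp.2.2
    · intro h0
      rw [Set.mem_singleton_iff] at h0
      rw [h0] at hY
      simp [sm] at hY
  · rintro ⟨⟨hO, hC⟩, h0⟩
    have hY : 0 < sm Y := by
      rcases (sm_nonneg hO).lt_or_eq with h | h
      · exact h
      · exfalso
        apply h0
        rw [Set.mem_singleton_iff]
        funext i
        exact (sum_eq_zero_iff_of_nonneg (fun i _ => hO i)).mp h.symm i (mem_univ i)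
    have hsm1 : sm ((sm Y)⁻¹ • Y) = 1 := by rw [sm_smul, inv_mul_cancel₀ hY.ne']
    have hnn : ∀ i, 0 ≤ ((sm Y)⁻¹ • Y) i := fun i =>
      mul_nonneg (inv_nonneg.mpr hY.le) (hO i)
    refine ⟨hY, mem_Sx.mpr ⟨_, hnn, hsm1, rfl⟩, fun hK' => hC ?_⟩
    refine ⟨sm Y, hY.le, (sm Y)⁻¹ • Y, ⟨hnn, hsm1, hK'⟩, ?_⟩
    rw [smul_smul, mul_inv_cancel₀ hY.ne', one_smul]

/-- description of the reflection body -/
lemma mem_RB (hK : Convex ℝ K) (hne : K.Nonempty) {X v : EuclideanSpace ℝ (Fin d)} :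
    v ∈ RB K X ↔ ∃ θ : ℝ, 0 ≤ θ ∧ θ ≤ 1 ∧ ∃ p ∈ K, ∃ q ∈ K,
      v = (1 - θ) • p + θ • ((2 : ℝ) • X - q) := by
  have hK2 : Convex ℝ ((fun y => (2 : ℝ) • X - y) '' K) := by
    rintro _ ⟨y, hy, rfl⟩ _ ⟨y', hy', rfl⟩ a b ha hb hab
    refine ⟨a • y + b • y', hK hy hy' ha hb hab, ?_⟩
    have e : b = 1 - a := by linarith
    subst e
    module
  unfold RB
  rw [hK.convexHull_union hK2 hne (hne.image _), mem_convexJoin]
  constructor
  · rintro ⟨p, hp, _, ⟨q, hq, rfl⟩, a, b, ha, hb, hab, rfl⟩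
    refine ⟨b, hb, by linarith, p, hp, q, hq, ?_⟩
    have e : a = 1 - b := by linarith
    rw [e]
  · rintro ⟨θ, h0, h1, p, hp, q, hq, rfl⟩
    exact ⟨p, hp, _, ⟨q, hq, rfl⟩, 1 - θ, θ, by linarith, h0, by ring, rfl⟩

lemma isCompact_RB (hK : Convex ℝ K) (hc : IsCompact K) (hne : K.Nonempty)
    (X : EuclideanSpace ℝ (Fin d)) : IsCompact (RB K X) := by
  have h1 : RB K X = (fun z : ℝ × (EuclideanSpace ℝ (Fin d) × EuclideanSpace ℝ (Fin d)) =>
      (1 - z.1) • z.2.1 + z.1 • ((2 : ℝ) • X - z.2.2)) '' (Set.Icc (0 : ℝ) 1 ×ˢ (K ×ˢ K)) := by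
    ext v
    rw [mem_RB hK hne]
    constructor
    · rintro ⟨θ, h0, h1, p, hp, q, hq, rfl⟩
      exact ⟨(θ, p, q), ⟨⟨h0, h1⟩, hp, hq⟩, rfl⟩
    · rintro ⟨⟨θ, p, q⟩, ⟨⟨h0, h1⟩, hp, hq⟩, rfl⟩
      exact ⟨θ, h0, h1, p, hp, q, hq, rfl⟩
  rw [h1]
  refine (isCompact_Icc.prod (hc.prod hc)).image ?_
  fun_prop

lemma set_RB (hd : 1 ≤ d) (hK : PosE d K t δ) (hne : K.Nonempty) {x : Vec (d + 1)}
    (hx : sm x = 0) :
    {Y : Vec (d + 1) | 0 < sm Y ∧ bary t ((sm Y)⁻¹ • Y) ∈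
      (fun h => h + bary t x) ⁻¹' RB K (bary t (fun i => 1 / ((d : ℝ) + 1) + x i))} =
    {Y : Vec (d + 1) | 0 < sm Y ∧ RT (Kb K t) x (sm Y) Y} := by
  have hn : ((d : ℝ) + 1) ≠ 0 := by positivity
  set c : Vec (d + 1) := fun i => 1 / ((d : ℝ) + 1) + x i with hc
  have hcs : sm c = 1 := by
    have e : sm c = ∑ i : Fin (d + 1), (1 / ((d : ℝ) + 1)) + sm x := by
      rw [hc]
      unfold sm
      rw [sum_add_distrib]
    rw [e, hx, sum_const, card_univ, Fintype.card_fin]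
    simp
    field_simp
  ext Y
  simp only [Set.mem_ofPred_eq, Set.mem_preimage]
  refine and_congr_right fun hY => ?_
  rw [mem_RB hK.convex hne]
  constructor
  · rintro ⟨θ, h0, h1, a, ha, b, hb, hab⟩
    obtain ⟨p, hp, hp1, rfl⟩ := mem_Sx.mp (hK.sub ha)
    obtain ⟨q, hq, hq1, rfl⟩ := mem_Sx.mp (hK.sub hb)
    have e1 : bary t ((sm Y)⁻¹ • Y + x) = bary t ((1 - θ) • p + θ • ((2 : ℝ) • c - q)) := by
      rw [bary_add, hab, bary_add, bary_smul, bary_smul, bary_sub, bary_smul]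
    have e2 : (sm Y)⁻¹ • Y + x = (1 - θ) • p + θ • ((2 : ℝ) • c - q) := by
      refine bary_inj hK.aff ?_ e1
      rw [sm_add, sm_smul, hx, inv_mul_cancel₀ hY.ne', sm_add, sm_smul, sm_smul, sm_sub, sm_smul,
        hp1, hq1, hcs]
      ring
    have hP : (sm Y * (1 - θ)) • p ∈ Cn (Kb K t) :=
      ⟨_, mul_nonneg hY.le (by linarith), p, ⟨hp, hp1, ha⟩, rfl⟩
    have hQ : (sm Y * θ) • q ∈ Cn (Kb K t) :=
      ⟨_, mul_nonneg hY.le h0, q, ⟨hq, hq1, hb⟩, rfl⟩
    refine ⟨_, hP, _, hQ, ?_, 2 * (sm Y * θ) / ((d : ℝ) + 1), fun i => ?_⟩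
    · rw [sm_smul, sm_smul, hp1, hq1]; ring
    · rw [sm_smul, sm_smul, hp1, hq1]
      have e3 := congrFun e2 i
      simp only [Pi.add_apply, Pi.smul_apply, Pi.sub_apply, smul_eq_mul, hc] at e3 ⊢
      have e4 : Y i = sm Y * ((1 - θ) * p i + θ * (2 * (1 / ((d : ℝ) + 1) + x i) - q i) - x i) := by
        rw [← e3]
        field_simp
        ring
      rw [e4]
      field_simp
      ring
  · rintro ⟨P, ⟨r, hr, p, hp, rfl⟩, Q, ⟨r', hr', q, hq, rfl⟩, hs, s, hYs⟩
    rw [sm_smul, sm_smul, hp.2.1, hq.2.1, mul_one, mul_one] at hs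
    have hsum : sm Y = r - r' + ((d : ℝ) + 1) * s := by
      have e : sm Y = ∑ i, ((r • p) i - (r' • q) i - (sm (r • p) - sm (r' • q)) * x i + s) := by
        unfold sm
        exact sum_congr rfl fun i _ => hYs i
      rw [e, sum_add_distrib, sum_sub_distrib, sum_sub_distrib, ← mul_sum]
      have e1 : ∑ i, (r • p) i = sm (r • p) := rfl
      have e2 : ∑ i, (r' • q) i = sm (r' • q) := rfl
      have e3 : ∑ i, x i = sm x := rfl
      rw [e1, e2, e3, hx, sm_smul, sm_smul, hp.2.1, hq.2.1, sum_const, card_univ,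
        Fintype.card_fin]
      simp
    refine ⟨r' / sm Y, by positivity, ?_, bary t p, hp.2.2, bary t q, hq.2.2, ?_⟩
    · rw [div_le_one hY]; linarith
    · rw [← bary_smul, ← bary_smul, ← bary_sub, ← bary_smul, ← bary_add, ← bary_add]
      congr 1
      funext i
      have e3 := hYs i
      rw [sm_smul, sm_smul, hp.2.1, hq.2.1, mul_one, mul_one] at e3
      simp only [Pi.add_apply, Pi.smul_apply, Pi.sub_apply, smul_eq_mul, hc] at e3 ⊢
      have hr1 : r = sm Y - r' := by linarith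
      have hs1 : s = 2 * r' / ((d : ℝ) + 1) := by
        field_simp
        linarith
      rw [e3, hr1, hs1]
      have hY' := hY.ne'
      field_simp
      ring

end Tr

open Tr in
/-- Module TR. -/
theorem stTr (h1 : StCV) (h2 : StCnCl) (_h3 : StRTcl) : StTr := by
  intro d K t δ hd hδ hK
  have hpos := pos_Kb hd hK
  have hne : K.Nonempty := ⟨_, hK.cen 0⟩
  have hCn : MeasurableSet (Cn (Kb K t)) := (h2 (d + 1) (Kb K t) δ (Nat.succ_pos d) hpos).measurableSet
  have hkm : MeasurableSet (kept (Kb K t)) := measurableSet_Orth.inter hCn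
  have hlm : MeasurableSet (lost (Kb K t)) := measurableSet_Orth.inter hCn.compl
  have hKm : MeasurableSet K := hK.compact.measurableSet
  have hSm : MeasurableSet (Sx t) :=
    ((Set.finite_range t).isCompact_convexHull ℝ).measurableSet
  refine ⟨hpos, ?_, ?_, fun x hx => ?_⟩
  · rw [h1 d t hK.aff K hKm, set_kept hK, ae_diff, ← Pe_eq hkm (fun y hy => hy.1)]
  · rw [h1 d t hK.aff (Sx t \ K) (hSm.diff hKm), set_lost hK, ae_diff,
      ← Pe_eq hlm (fun y hy => hy.1)]
  · rw [← measure_preimage_add_right volume (bary t x)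
      (RB K (bary t (fun i => 1 / ((d : ℝ) + 1) + x i))), h1 d t hK.aff _
      ((isCompact_RB hK.convex hK.compact hne _).measurableSet.preimage
        (measurable_add_const _)), set_RB hd hK hne hx]
    rfl

end Pool.Agent.Lib.MP_725e58_gt.Loc
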