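import Pool.Agent.Lib.MP_725e58_gt.Loc.Stmts

/-!
Integrated upper bound for the volume of the reflection body, even dimension.
-/

set_option autoImplicit false

namespace Pool.Agent.Lib.MP_725e58_gt.Loc

open MeasureTheory Finset

namespace VE

variable {n : ℕ}

lemma sm_TE (hn : 0 < n) (I : Finset (Fin n)) (k : Fin n) (w : Vec n) : sm (TE I k w) = sm w := by
  have h0 : (n : ℝ) ≠ 0 := by exact_mod_cast hn.ne'
  have h1 : sm (TE I k w) = sm (zE I k w) + n * ((sm w - sm (zE I k w)) / n) := by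
    simp only [sm, TE, sum_add_distrib, sum_const, card_univ, Fintype.card_fin, nsmul_eq_mul]
  rw [h1, mul_div_cancel₀ _ h0]
  ring

lemma RT_TE {Kc : Set (Vec n)} {x : Vec n} {t : ℝ} {I : Finset (Fin n)} {k : Fin n} {w : Vec n}
    (h : RT Kc x t (TE I k w)) : RT Kc x t (zE I k w) := by
  obtain ⟨P, hP, Q, hQ, h1, s, h2⟩ := h
  refine ⟨P, hP, Q, hQ, h1, s - (sm w - sm (zE I k w)) / n, fun i => ?_⟩
  have h3 := h2 i
  unfold TE at h3
  linarith

lemma continuous_zE (I : Finset (Fin n)) (k : Fin n) : Continuous (zE I k : Vec n → Vec n) := by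
  refine continuous_pi fun i => ?_
  exact ((continuous_apply i).comp (continuous_rs I)).sub
    ((continuous_apply i).comp (continuous_rs (JJ I k)))

lemma continuous_TE (I : Finset (Fin n)) (k : Fin n) : Continuous (TE I k : Vec n → Vec n) := by
  refine continuous_pi fun i => ?_
  exact ((continuous_apply i).comp (continuous_zE I k)).add
    ((continuous_sm.sub (continuous_sm.comp (continuous_zE I k))).div_const _)

/-- the set in the definition of `VR` is measurable -/
lemma measurableSet_VR (h3 : StRTcl) (hn : 0 < n) {Kc : Set (Vec n)} {δ : ℝ} (hK : Pos n Kc δ)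
    (x : Vec n) : MeasurableSet {Y : Vec n | 0 < sm Y ∧ RT Kc x (sm Y) Y} := by
  have h1 : MeasurableSet {Y : Vec n | 0 < sm Y} :=
    (isOpen_lt continuous_const continuous_sm).measurableSet
  have h2 : IsClosed {Y : Vec n | RT Kc x (sm Y) Y} :=
    (h3 n Kc δ x hn hK).preimage (continuous_sm.prodMk continuous_id)
  exact h1.inter h2.measurableSet

lemma measurable_exp : Measurable fun Y : Vec n => ENNReal.ofReal (Real.exp (-sm Y)) :=
  (Real.continuous_exp.comp continuous_sm.neg).measurable.ennreal_ofReal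

end VE

open VE in
/-- integrated upper bound, even dimension -/
theorem stVE (h1 : StCovE) (h2 : StCoord) (h3 : StRTcl) : StVE := by
  intro h Kc δ f hK hfm hfu hf
  have hn : 0 < 2 * h + 1 := by omega
  have hS := measurableSet_VR h3 hn hK 0
  have hg : Measurable ({Y : Vec (2 * h + 1) | 0 < sm Y ∧ RT Kc 0 (sm Y) Y}.indicator
      fun Y => ENNReal.ofReal (Real.exp (-sm Y))) := measurable_exp.indicator hS
  have e1 : VR Kc 0 = ∫⁻ Y, {Y : Vec (2 * h + 1) | 0 < sm Y ∧ RT Kc 0 (sm Y) Y}.indicator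
      (fun Y => ENNReal.ofReal (Real.exp (-sm Y))) Y := (lintegral_indicator hS _).symm
  rw [e1]
  refine (h1 h _ hg).trans (mul_le_mul_right (sum_le_sum fun k _ => sum_le_sum fun I hI => ?_) _)
  have hA : MeasurableSet {w : Vec (2 * h + 1) | f I k w ≤ w k} :=
    measurableSet_le (hfm I k) (measurable_pi_apply k)
  have hD : MeasurableSet {w : Vec (2 * h + 1) | ∀ i, i ≠ k → 0 ≤ w i} := by
    have : {w : Vec (2 * h + 1) | ∀ i, i ≠ k → 0 ≤ w i} =
        ⋂ i, ⋂ (_ : i ≠ k), {w : Vec (2 * h + 1) | 0 ≤ w i} := by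
      ext w
      simp only [Set.mem_ofPred_eq, Set.mem_iInter]
    rw [this]
    exact MeasurableSet.iInter fun i => MeasurableSet.iInter fun _ =>
      measurableSet_le measurable_const (measurable_pi_apply i)
  calc ∫⁻ w in {w : Vec (2 * h + 1) | ∀ i, i ≠ k → 0 ≤ w i},
        {Y : Vec (2 * h + 1) | 0 < sm Y ∧ RT Kc 0 (sm Y) Y}.indicator
          (fun Y => ENNReal.ofReal (Real.exp (-sm Y))) (TE I k w)
      ≤ ∫⁻ w in {w : Vec (2 * h + 1) | ∀ i, i ≠ k → 0 ≤ w i},
        {w : Vec (2 * h + 1) | f I k w ≤ w k}.indicator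
          (fun w => ENNReal.ofReal (Real.exp (-sm w))) w := by
        refine setLIntegral_mono' hD fun w hw => ?_
        by_cases hT : TE I k w ∈ {Y : Vec (2 * h + 1) | 0 < sm Y ∧ RT Kc 0 (sm Y) Y}
        · have h4 := hT.2
          rw [sm_TE hn] at h4
          have h5 : w ∈ {w : Vec (2 * h + 1) | f I k w ≤ w k} :=
            hf k I hI w hw (RT_TE h4)
          rw [Set.indicator_of_mem hT, Set.indicator_of_mem h5, sm_TE hn]
        · rw [Set.indicator_of_notMem hT]
          exact zero_le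
    _ = ∫⁻ w in {w : Vec (2 * h + 1) | (∀ i, i ≠ k → 0 ≤ w i) ∧ f I k w ≤ w k},
          ENNReal.ofReal (Real.exp (-sm w)) := by
        rw [lintegral_indicator hA, Measure.restrict_restrict hA]
        congr 2
        ext w
        simp only [Set.mem_inter_iff, Set.mem_ofPred_eq]
        exact and_comm
    _ = ∫⁻ y, ENNReal.ofReal (Real.exp (-f I k y)) ∂(Pe (2 * h + 1)) :=
        h2 (2 * h + 1) k (f I k) (hfm I k) (hfu I k)

end Pool.Agent.Lib.MP_725e58_gt.Loc
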