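import Pool.Agent.Lib.MP_725e58_gt.Loc.Stmts

/-!
Local maximality of the simplex for the Fary-Redei problem: integrated upper bound, odd dimension.
-/

set_option autoImplicit false

namespace Pool.Agent.Lib.MP_725e58_gt.Loc

open MeasureTheory Finset

namespace VO

variable {n : ℕ}

lemma sm_shift (hn : 0 < n) (z : Vec n) (t : ℝ) :
    sm (fun j => z j + (t - sm z) / n) = t := by
  have hn' : (n : ℝ) ≠ 0 := by exact_mod_cast hn.ne'
  unfold sm
  rw [sum_add_distrib, sum_const, card_univ, Fintype.card_fin, nsmul_eq_mul]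
  field_simp
  ring

lemma rt_shift {Kc : Set (Vec n)} {x : Vec n} {t : ℝ} {z : Vec n} {c : ℝ}
    (h : RT Kc x t (fun j => z j + c)) : RT Kc x t z := by
  obtain ⟨P, hP, Q, hQ, hs, s, hz⟩ := h
  refine ⟨P, hP, Q, hQ, hs, s - c, fun i => ?_⟩
  have := hz i
  simp only at this
  linarith

lemma measurable_S (h3 : StRTcl) {Kc : Set (Vec n)} {δ : ℝ} (x : Vec n) (hn : 0 < n)
    (hK : Pos n Kc δ) : MeasurableSet {Y : Vec n | 0 < sm Y ∧ RT Kc x (sm Y) Y} := by
  have h1 : MeasurableSet {Y : Vec n | 0 < sm Y} :=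
    (isOpen_lt continuous_const continuous_sm).measurableSet
  have h2 : IsClosed {Y : Vec n | RT Kc x (sm Y) Y} :=
    (h3 n Kc δ x hn hK).preimage (continuous_sm.prodMk continuous_id)
  exact h1.inter h2.measurableSet

lemma measurable_exp_sm : Measurable (fun Y : Vec n => ENNReal.ofReal (Real.exp (-sm Y))) :=
  (Real.continuous_exp.comp continuous_sm.neg).measurable.ennreal_ofReal

end VO

open VO in
/-- integrated upper bound, odd dimension -/
theorem stVO (h1 : StCovO) (h2 : StCoord) (h3 : StRTcl) : StVO := by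
  intro h Kc δ x f hh hK hf hinv hmain
  have hn : 0 < 2 * h := by omega
  set S : Set (Vec (2 * h)) := {Y | 0 < sm Y ∧ RT Kc x (sm Y) Y} with hS
  have hSm : MeasurableSet S := measurable_S h3 x hn hK
  set F : Vec (2 * h) → ENNReal := fun Y => ENNReal.ofReal (Real.exp (-sm Y)) with hF
  have hFm : Measurable F := measurable_exp_sm
  have e1 : VR Kc x = ∫⁻ Y, S.indicator F Y := by
    rw [lintegral_indicator hSm]
    rfl
  rw [e1]
  refine (h1 h (S.indicator F) hh (hFm.indicator hSm)).trans ?_
  refine mul_le_mul_right ?_ _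
  refine sum_le_sum fun I hI => sum_le_sum fun i hi => sum_le_sum fun k hk => ?_
  rw [← h2 (2 * h) k (f I i k) (hf I i k) (hinv I i k)]
  set A : Set (Vec (2 * h)) := {w | ∀ j, j ≠ k → 0 ≤ w j} with hA
  set U : Set (Vec (2 * h)) := {w | f I i k w ≤ w k} with hU
  have hUm : MeasurableSet U := measurableSet_le (hf I i k) (measurable_pi_apply k)
  have e2 : {w : Vec (2 * h) | (∀ i, i ≠ k → 0 ≤ w i) ∧ f I i k w ≤ w k} = U ∩ A := by
    ext w
    exact and_comm
  rw [e2, ← Measure.restrict_restrict hUm, ← lintegral_indicator hUm]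
  refine setLIntegral_mono (hFm.indicator hUm) fun w hw => ?_
  have e3 : sm (TO h I i k w) = sm w := sm_shift hn (zO h I i k w) (sm w)
  by_cases hT : TO h I i k w ∈ S
  · have h5 : RT Kc x (sm w) (zO h I i k w) := by
      have h6 := hT.2
      rw [e3] at h6
      exact rt_shift h6
    have h7 : w ∈ U := hmain I hI i hi k hk w hw h5
    rw [Set.indicator_of_mem hT, Set.indicator_of_mem h7]
    simp only [hF, e3]
    exact le_rfl
  · rw [Set.indicator_of_notMem hT]
    exact zero_le

end Pool.Agent.Lib.MP_725e58_gt.Loc
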