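import Pool.Agent.Lib.MP_725e58_gt.Loc.Stmts

/-!
REFL project, module VO0: the volume of the reflection body at the centre is bounded by the
probabilities of the pieces, odd dimension.
-/

set_option autoImplicit false

namespace Pool.Agent.Lib.MP_725e58_gt.Loc

open MeasureTheory Finset

namespace VO0

variable {n : ℕ}

lemma continuous_zO (h : ℕ) (I : Finset (Fin n)) (i k : Fin n) :
    Continuous (zO h I i k : Vec n → Vec n) := by
  unfold zO aO
  exact continuous_pi fun j => (((continuous_apply j).comp (continuous_rs (I.erase i))).add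
    (((continuous_apply i).div_const _).mul continuous_const)).sub
    ((continuous_apply j).comp (continuous_rs (Iᶜ.erase k)))

lemma sm_TO (hn : 0 < n) (h : ℕ) (I : Finset (Fin n)) (i k : Fin n) (w : Vec n) :
    sm (TO h I i k w) = sm w := by
  have h0 : (n : ℝ) ≠ 0 := by exact_mod_cast hn.ne'
  have h1 : sm (TO h I i k w) =
      sm (zO h I i k w) + ∑ _i : Fin n, (sm w - sm (zO h I i k w)) / n := by
    unfold TO sm
    rw [sum_add_distrib]
  rw [h1, sum_const, card_univ, Fintype.card_fin, nsmul_eq_mul, mul_div_cancel₀ _ h0]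
  ring

lemma RT_TO {Kc : Set (Vec n)} {x : Vec n} {t : ℝ} (h : ℕ) (I : Finset (Fin n)) (i k : Fin n)
    (w : Vec n) (hRT : RT Kc x t (TO h I i k w)) : RT Kc x t (zO h I i k w) := by
  obtain ⟨P, hP, Q, hQ, hPQ, s, hs⟩ := hRT
  refine ⟨P, hP, Q, hQ, hPQ, s - (sm w - sm (zO h I i k w)) / n, fun j => ?_⟩
  have h1 := hs j
  unfold TO at h1
  linarith

lemma measurableSet_piece {Kc : Set (Vec n)} {x : Vec n}
    (hcl : IsClosed {q : ℝ × Vec n | RT Kc x q.1 q.2}) {f : Vec n → Vec n} (hf : Continuous f) :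
    MeasurableSet {w : Vec n | RT Kc x (sm w) (f w)} :=
  (hcl.preimage (continuous_sm.prodMk hf)).measurableSet

lemma Pe_apply {S : Set (Vec n)} (hS : MeasurableSet S) (hSO : S ⊆ Orth n) :
    Pe n S = ∫⁻ w in S, ENNReal.ofReal (Real.exp (-sm w)) := by
  unfold Pe
  rw [withDensity_apply _ hS, Measure.restrict_restrict hS, Set.inter_eq_left.2 hSO]

end VO0

open VO0

/-- `VR` at `0` in odd dimension is bounded by the probabilities of the pieces -/
theorem stVO0 (h1 : StCovO) (h2 : StExO) (h3 : StRTcl) : StVO0 := by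
  classical
  intro h Kc δ hh hK hδ hδ2
  have hn : 0 < 2 * h := by omega
  have hcl := h3 (2 * h) Kc δ 0 hn hK
  have hA : MeasurableSet {Y : Vec (2 * h) | 0 < sm Y ∧ RT Kc 0 (sm Y) Y} :=
    (isOpen_lt continuous_const continuous_sm).measurableSet.inter
      (measurableSet_piece hcl continuous_id)
  have hg : Measurable ({Y : Vec (2 * h) | 0 < sm Y ∧ RT Kc 0 (sm Y) Y}.indicator
      fun Y => ENNReal.ofReal (Real.exp (-sm Y))) := by
    refine Measurable.indicator ?_ hA
    exact (Real.continuous_exp.comp continuous_sm.neg).measurable.ennreal_ofReal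
  have e1 : VR Kc 0 = ∫⁻ Y, ({Y : Vec (2 * h) | 0 < sm Y ∧ RT Kc 0 (sm Y) Y}.indicator
      fun Y => ENNReal.ofReal (Real.exp (-sm Y))) Y := by
    rw [lintegral_indicator hA]
    rfl
  rw [e1]
  refine (h1 h _ hh hg).trans ?_
  refine mul_le_mul_right ?_ _
  refine sum_le_sum fun I hI => sum_le_sum fun i hi => sum_le_sum fun k hk => ?_
  have hS : MeasurableSet {w : Vec (2 * h) | w ∈ Orth (2 * h) ∧
      RT Kc 0 (sm w) (zO h I i k w)} :=
    measurableSet_Orth.inter (measurableSet_piece hcl (continuous_zO h I i k))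
  rw [Pe_apply hS fun w hw => hw.1, ← lintegral_indicator hS]
  have hC : MeasurableSet {w : Vec (2 * h) | ∀ j, j ≠ k → 0 ≤ w j} := by
    have hcl2 : IsClosed {w : Vec (2 * h) | ∀ j, j ≠ k → 0 ≤ w j} := by
      simp only [Set.ofPred_forall]
      exact isClosed_iInter fun i => isClosed_iInter fun _ =>
        isClosed_le continuous_const (continuous_apply i)
    exact hcl2.measurableSet
  rw [← lintegral_indicator hC]
  refine lintegral_mono fun w => ?_
  by_cases hw : w ∈ {w : Vec (2 * h) | ∀ j, j ≠ k → 0 ≤ w j}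
  · rw [Set.indicator_of_mem hw]
    by_cases hw2 : TO h I i k w ∈ {Y : Vec (2 * h) | 0 < sm Y ∧ RT Kc 0 (sm Y) Y}
    · rw [Set.indicator_of_mem hw2]
      obtain ⟨-, h5⟩ := hw2
      rw [sm_TO hn] at h5 ⊢
      have h6 := RT_TO h I i k w h5
      have h7 := (h2 h Kc δ hh hK hδ hδ2 I hI i hi k hk w hw h6).1
      have h8 : w ∈ {w : Vec (2 * h) | w ∈ Orth (2 * h) ∧ RT Kc 0 (sm w) (zO h I i k w)} := by
        refine ⟨fun j => ?_, h6⟩
        by_cases hj : j = k
        · rw [hj]
          exact h7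
        · exact hw j hj
      rw [Set.indicator_of_mem h8]
    · rw [Set.indicator_of_notMem hw2]
      exact zero_le
  · rw [Set.indicator_of_notMem hw]
    exact zero_le

end Pool.Agent.Lib.MP_725e58_gt.Loc
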