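import Pool.Agent.Lib.MP_725e58_gt.Loc.Stmts

/-!
Local maximality of the simplex for the Fary-Redei problem: valid forms and separation.
-/

set_option autoImplicit false

namespace Pool.Agent.Lib.MP_725e58_gt.Loc

open MeasureTheory Finset

namespace Valid

lemma dot_smul_left {n : ℕ} (a : ℝ) (L y : Vec n) : dot (a • L) y = a * dot L y := by
  simp only [dot, Pi.smul_apply, smul_eq_mul, mul_sum]
  exact sum_congr rfl fun i _ => by ring

lemma zero_mem_Cn {n : ℕ} {Kc : Set (Vec n)} {δ : ℝ} (hK : Pos n Kc δ) (hn : 0 < n) :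
    (0 : Vec n) ∈ Cn Kc := by
  obtain ⟨p, hp⟩ := Kc_nonempty hK hn
  exact ⟨0, le_rfl, p, hp, by rw [zero_smul]⟩

lemma convex_Cn {n : ℕ} {Kc : Set (Vec n)} {δ : ℝ} (hK : Pos n Kc δ) : Convex ℝ (Cn Kc) := by
  rintro _ ⟨r, hr, p, hp, rfl⟩ _ ⟨s, hs, q, hq, rfl⟩ a b ha hb _
  rcases (add_nonneg (mul_nonneg ha hr) (mul_nonneg hb hs)).eq_or_lt with h0 | h0
  · have h1 : a * r = 0 := by
      have h2 := mul_nonneg ha hr
      have h3 := mul_nonneg hb hs
      linarith
    have h2 : b * s = 0 := by linarith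
    refine ⟨0, le_rfl, p, hp, ?_⟩
    rw [smul_smul, smul_smul, h1, h2]
    simp only [zero_smul, add_zero]
  · refine ⟨a * r + b * s, h0.le, ((a * r) / (a * r + b * s)) • p + ((b * s) / (a * r + b * s)) • q,
      hK.convex hp hq (div_nonneg (mul_nonneg ha hr) h0.le) (div_nonneg (mul_nonneg hb hs) h0.le)
        (by rw [← add_div, div_self h0.ne']), ?_⟩
    rw [smul_add, smul_smul, smul_smul, smul_smul, smul_smul, mul_div_cancel₀ _ h0.ne',
      mul_div_cancel₀ _ h0.ne']

end Valid

open Valid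

theorem stNear : StNear := by
  intro n Kc δ m l hK hδ hδ2 hl i
  obtain ⟨w, hw, hwi⟩ := hK.near i
  have h1 : 0 ≤ dot l w := hl.1 w hw
  have h2 : dot l w ≤ l i * w i + (1 - w i) := by
    have h3 : sm w = 1 := hK.sum w hw
    have h4 : w i + ∑ j ∈ univ.erase i, w j = 1 := by
      rw [← h3, sm, add_sum_erase _ _ (mem_univ i)]
    have h5 : dot l w = l i * w i + ∑ j ∈ univ.erase i, l j * w j := by
      rw [dot, add_sum_erase _ (fun j => l j * w j) (mem_univ i)]
    have h6 : ∑ j ∈ univ.erase i, l j * w j ≤ ∑ j ∈ univ.erase i, w j := by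
      refine sum_le_sum fun j _ => ?_
      have h7 := hK.nonneg w hw j
      have h8 := hl.2.1 j
      nlinarith
    linarith
  by_contra hc
  push Not at hc
  have h9 : l i < 0 := by linarith
  have h10 : 1 / 2 ≤ w i := by linarith
  nlinarith

theorem stSep (h : StCnCl) : StSep := by
  intro n Kc δ hn hK y hy hy0
  have hn0 : 0 < n := by omega
  obtain ⟨f, u, hfy, hf⟩ := geometric_hahn_banach_point_closed (convex_Cn hK) (h n Kc δ hn0 hK) hy
  have hu : u < 0 := by
    have h1 := hf 0 (zero_mem_Cn hK hn0)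
    rwa [map_zero] at h1
  have hfp : ∀ p ∈ Kc, 0 ≤ f p := by
    intro p hp
    by_contra hc
    push Not at hc
    have h1 := hf ((u / f p) • p) ⟨u / f p, (div_pos_of_neg_of_neg hu hc).le, p, hp, rfl⟩
    rw [map_smul, smul_eq_mul, div_mul_cancel₀ _ hc.ne] at h1
    exact lt_irrefl _ h1
  set L : Vec n := fun i => f (fun j => if i = j then 1 else 0) with hL
  have hfL : ∀ z, f z = dot L z := by
    intro z
    have h1 := LinearMap.pi_apply_eq_sum_univ f.toLinearMap z
    simp only [ContinuousLinearMap.coe_coe, smul_eq_mul] at h1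
    rw [h1, dot]
    exact sum_congr rfl fun i _ => mul_comm _ _
  obtain ⟨m, -, hm⟩ := exists_max_image (univ : Finset (Fin n)) L ⟨⟨0, hn0⟩, mem_univ _⟩
  have hM : 0 < L m := by
    by_contra hc
    push Not at hc
    have hneg : ∀ i, L i ≤ 0 := fun i => (hm i (mem_univ i)).trans hc
    have hn1 : (0 : ℝ) < (n : ℝ) - 1 := by
      have : (2 : ℝ) ≤ n := by exact_mod_cast hn
      linarith
    have hzero : ∀ i, L i = 0 := by
      intro i
      obtain ⟨k, hk⟩ : ∃ k : Fin n, k ≠ i := by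
        have : Nontrivial (Fin n) := Fin.nontrivial_iff_two_le.2 hn
        exact exists_ne i
      have h1 := hfp _ (hK.cen k)
      rw [hfL, dot, ← add_sum_erase _ _ (mem_univ i)] at h1
      simp only [hk.symm, if_false] at h1
      have h2 : ∑ j ∈ univ.erase i, L j * (if j = k then (0 : ℝ) else 1 / ((n : ℝ) - 1)) ≤ 0 := by
        refine sum_nonpos fun j _ => mul_nonpos_of_nonpos_of_nonneg (hneg j) ?_
        split_ifs
        · exact le_rfl
        · positivity
      have h3 : 0 ≤ L i * (1 / ((n : ℝ) - 1)) := by linarith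
      have h4 : 0 < 1 / ((n : ℝ) - 1) := by positivity
      exact le_antisymm (hneg i) (nonneg_of_mul_nonneg_left h3 h4)
    have h5 : f y = 0 := by
      rw [hfL, dot]
      exact sum_eq_zero fun i _ => by rw [hzero i, zero_mul]
    linarith
  refine ⟨m, (L m)⁻¹ • L, ⟨?_, ?_, ?_⟩, ?_⟩
  · intro p hp
    rw [dot_smul_left, ← hfL]
    exact mul_nonneg (inv_nonneg.2 hM.le) (hfp p hp)
  · intro i
    rw [Pi.smul_apply, smul_eq_mul, inv_mul_le_iff₀ hM, mul_one]
    exact hm i (mem_univ i)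
  · rw [Pi.smul_apply, smul_eq_mul, inv_mul_cancel₀ hM.ne']
  · rw [dot_smul_left, ← hfL]
    exact mul_neg_of_pos_of_neg (inv_pos.2 hM) (hfy.trans hu)

end Pool.Agent.Lib.MP_725e58_gt.Loc
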