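import Pool.Agent.Lib.MP_725e58_gt.Loc.Stmts

/-!
Local maximality of the simplex for the Fary-Redei problem: measurability of the cones.
-/

set_option autoImplicit false

namespace Pool.Agent.Lib.MP_725e58_gt.Loc

open MeasureTheory Finset

namespace WWm

variable {n : ℕ}

/-- the part of the orthant where one of a family of strict inequalities holds -/
lemma meas {ι : Type*} (A : Set (Vec n)) (S : Set ι) (f g : ι → Vec n → ℝ)
    (hf : ∀ l, Continuous (f l)) (hg : ∀ l, Continuous (g l))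
    (h : ∀ y, y ∈ A ↔ y ∈ Orth n ∧ ∃ l ∈ S, f l y < g l y) : MeasurableSet A := by
  have e : A = Orth n ∩ ⋃ l ∈ S, {y | f l y < g l y} := by
    ext y
    rw [h y, Set.mem_inter_iff, Set.mem_iUnion₂]
    simp only [Set.mem_ofPred_eq, exists_prop]
  rw [e]
  exact measurableSet_Orth.inter
    (isOpen_biUnion fun l _ => isOpen_lt (hf l) (hg l)).measurableSet

lemma cont (H : Finset (Fin n)) (l : Vec n) : Continuous fun y : Vec n => -dot l (rs H y) :=
  ((continuous_dot l).comp (continuous_rs H)).neg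

end WWm

open WWm in
/-- measurability of the cones used -/
theorem stWWm : StWWm := by
  intro n Kc m i r H
  refine ⟨?_, ?_, ?_, ?_, ?_⟩
  · exact meas _ (VN Kc m) (fun _ y => y m) (fun l y => -dot l (rs H y))
      (fun _ => continuous_apply m) (cont H) fun y => Iff.rfl
  · refine meas _ {l : Vec n | l ∈ VN Kc m ∧ 0 ≤ dot l (one H)} (fun _ y => y m)
      (fun l y => -dot l (rs H y)) (fun _ => continuous_apply m) (cont H) fun y => ?_
    constructor
    · rintro ⟨h1, l, h2, h3, h4⟩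
      exact ⟨h1, l, ⟨h2, h3⟩, h4⟩
    · rintro ⟨h1, l, ⟨h2, h3⟩, h4⟩
      exact ⟨h1, l, h2, h3, h4⟩
  · refine meas _ {l : Vec n | l ∈ VN Kc m ∧ dot l (one (insert i H)) ≤ 0} (fun _ y => y m)
      (fun l y => -dot l (rs H y)) (fun _ => continuous_apply m) (cont H) fun y => ?_
    constructor
    · rintro ⟨h1, l, h2, h3, h4⟩
      exact ⟨h1, l, ⟨h2, h3⟩, h4⟩
    · rintro ⟨h1, l, ⟨h2, h3⟩, h4⟩
      exact ⟨h1, l, h2, h3, h4⟩
  · refine meas _ {l : Vec n | ∃ m, l ∈ VN Kc m ∧ l r < 0} (fun l y => dot l y) (fun _ _ => 0)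
      (fun l => continuous_dot l) (fun _ => continuous_const) fun y => ?_
    constructor
    · rintro ⟨h1, m', l, h2, h3, h4⟩
      exact ⟨h1, l, ⟨m', h2, h3⟩, h4⟩
    · rintro ⟨h1, l, ⟨m', h2, h3⟩, h4⟩
      exact ⟨h1, m', l, h2, h3, h4⟩
  · refine meas _ {l : Vec n | l ∈ VN Kc m ∧ 0 ≤ l r} (fun l y => dot l y) (fun _ _ => 0)
      (fun l => continuous_dot l) (fun _ => continuous_const) fun y => ?_
    constructor
    · rintro ⟨h1, l, h2, h3, h4⟩
      exact ⟨h1, l, ⟨h2, h3⟩, h4⟩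
    · rintro ⟨h1, l, ⟨h2, h3⟩, h4⟩
      exact ⟨h1, l, h2, h3, h4⟩

end Pool.Agent.Lib.MP_725e58_gt.Loc
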