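import Pool.Agent.Lib.MP_725e58_gt.Loc.Stmts
import Pool.Agent.Lib.MP_725e58_gt.Defs

/-! Final form of the theorem. -/

set_option autoImplicit false

namespace Pool.Agent.Lib.MP_725e58_gt.Loc

open MeasureTheory Finset

lemma bary_eq_centroid {d : ℕ} (s : Fin (d + 1) → EuclideanSpace ℝ (Fin d)) :
    bary s (fun _ => 1 / ((d : ℝ) + 1)) = (univ : Finset (Fin (d + 1))).centroid ℝ s := by
  rw [Finset.centroid_def, Finset.affineCombination_eq_linear_combination]
  · unfold bary
    refine sum_congr rfl fun i _ => ?_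
    congr 1
    simp [Finset.centroidWeights]
  · exact Finset.sum_centroidWeights_eq_one_of_nonempty _ _ univ_nonempty

/-- the final form, with the homothety and the strictness clause -/
theorem final_form (hF : StFinal) (hD : StDiff) :
    ∀ d : ℕ, 2 ≤ d → ∃ ε : ℝ, 0 < ε ∧ ε < 1 ∧ ∃ c : ℝ, 0 < c ∧
    ∀ (s : Fin (d + 1) → EuclideanSpace ℝ (Fin d)) (K : Set (EuclideanSpace ℝ (Fin d))),
      AffineIndependent ℝ s → IsCompact K → Convex ℝ K → K ⊆ convexHull ℝ (Set.range s) →
      AffineMap.homothety ((univ : Finset (Fin (d + 1))).centroid ℝ s) (1 - ε) ''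
        convexHull ℝ (Set.range s) ⊆ K →
      ∃ x ∈ K,
        (∃ t : Fin (d + 1) → EuclideanSpace ℝ (Fin d), AffineIndependent ℝ t ∧
          K ⊆ convexHull ℝ (Set.range t) ∧
          volume (ReflBody K x) + ENNReal.ofReal c * volume (convexHull ℝ (Set.range t) \ K) ≤
            ((Nat.choose d (d / 2) : ℕ) : ENNReal) * volume K) ∧
        ((¬ ∃ t : Fin (d + 1) → EuclideanSpace ℝ (Fin d), AffineIndependent ℝ t ∧
            K = convexHull ℝ (Set.range t)) →
          volume (ReflBody K x) < ((Nat.choose d (d / 2) : ℕ) : ENNReal) * volume K) := by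
  intro d hd
  obtain ⟨ε, h0, h1, c, hc, H⟩ := hF d hd
  refine ⟨ε, h0, h1, c, hc, fun s K hs hK hKc hsub hin => ?_⟩
  obtain ⟨t, ht, hKt, x, hx, hv⟩ := H s K hs hK hKc hsub (fun i => by
    have h2 : AffineMap.homothety ((univ : Finset (Fin (d + 1))).centroid ℝ s) (1 - ε) (s i) ∈ K :=
      hin ⟨s i, subset_convexHull ℝ _ ⟨i, rfl⟩, rfl⟩
    rw [AffineMap.homothety_apply] at h2
    have h3 : (1 - ε) • (s i -ᵥ (univ : Finset (Fin (d + 1))).centroid ℝ s) +ᵥ
        (univ : Finset (Fin (d + 1))).centroid ℝ s =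
        (1 - ε) • s i + ε • bary s (fun _ => 1 / ((d : ℝ) + 1)) := by
      rw [bary_eq_centroid, vsub_eq_sub, vadd_eq_add, smul_sub, sub_smul, one_smul, sub_smul,
        one_smul]
      abel
    rw [h3] at h2
    exact h2)
  refine ⟨x, hx, ⟨t, ht, hKt, hv⟩, fun hno => ?_⟩
  have hne : K ≠ Sx t := fun h => hno ⟨t, ht, h⟩
  have hpos := hD d K t ht hK hKt hne
  have hfin : ((Nat.choose d (d / 2) : ℕ) : ENNReal) * volume K ≠ ⊤ :=
    ENNReal.mul_ne_top (by simp) hK.measure_lt_top.ne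
  have h4 : 0 < ENNReal.ofReal c * volume (Sx t \ K) :=
    ENNReal.mul_pos (by simpa using hc) hpos.ne'
  have h5 : volume (RB K x) ≠ ⊤ := ne_top_of_le_ne_top hfin (le_self_add.trans hv)
  calc volume (ReflBody K x) = volume (RB K x) := rfl
    _ < volume (RB K x) + ENNReal.ofReal c * volume (Sx t \ K) :=
        ENNReal.lt_add_right h5 h4.ne'
    _ ≤ _ := hv

end Pool.Agent.Lib.MP_725e58_gt.Loc
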