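import Pool.Agent.Lib.MP_725e58_gt.Loc.AlgE
import Pool.Agent.Lib.MP_725e58_gt.Loc.AlgO
import Pool.Agent.Lib.MP_725e58_gt.Loc.C3
import Pool.Agent.Lib.MP_725e58_gt.Loc.C3a
import Pool.Agent.Lib.MP_725e58_gt.Loc.C3b
import Pool.Agent.Lib.MP_725e58_gt.Loc.CV
import Pool.Agent.Lib.MP_725e58_gt.Loc.Clos
import Pool.Agent.Lib.MP_725e58_gt.Loc.Contact
import Pool.Agent.Lib.MP_725e58_gt.Loc.Coord
import Pool.Agent.Lib.MP_725e58_gt.Loc.Core
import Pool.Agent.Lib.MP_725e58_gt.Loc.CovE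
import Pool.Agent.Lib.MP_725e58_gt.Loc.CovO
import Pool.Agent.Lib.MP_725e58_gt.Loc.DS
import Pool.Agent.Lib.MP_725e58_gt.Loc.Down
import Pool.Agent.Lib.MP_725e58_gt.Loc.Drel
import Pool.Agent.Lib.MP_725e58_gt.Loc.E1
import Pool.Agent.Lib.MP_725e58_gt.Loc.E2
import Pool.Agent.Lib.MP_725e58_gt.Loc.EE
import Pool.Agent.Lib.MP_725e58_gt.Loc.EO
import Pool.Agent.Lib.MP_725e58_gt.Loc.ExE
import Pool.Agent.Lib.MP_725e58_gt.Loc.ExO
import Pool.Agent.Lib.MP_725e58_gt.Loc.Fin
import Pool.Agent.Lib.MP_725e58_gt.Loc.In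
import Pool.Agent.Lib.MP_725e58_gt.Loc.Jens
import Pool.Agent.Lib.MP_725e58_gt.Loc.Jump
import Pool.Agent.Lib.MP_725e58_gt.Loc.K1
import Pool.Agent.Lib.MP_725e58_gt.Loc.KA
import Pool.Agent.Lib.MP_725e58_gt.Loc.KB
import Pool.Agent.Lib.MP_725e58_gt.Loc.KF
import Pool.Agent.Lib.MP_725e58_gt.Loc.KK
import Pool.Agent.Lib.MP_725e58_gt.Loc.Mem
import Pool.Agent.Lib.MP_725e58_gt.Loc.MemR
import Pool.Agent.Lib.MP_725e58_gt.Loc.Min
import Pool.Agent.Lib.MP_725e58_gt.Loc.MinEx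
import Pool.Agent.Lib.MP_725e58_gt.Loc.OddA
import Pool.Agent.Lib.MP_725e58_gt.Loc.OddLin
import Pool.Agent.Lib.MP_725e58_gt.Loc.Perm
import Pool.Agent.Lib.MP_725e58_gt.Loc.PosThm
import Pool.Agent.Lib.MP_725e58_gt.Loc.Prob
import Pool.Agent.Lib.MP_725e58_gt.Loc.R1
import Pool.Agent.Lib.MP_725e58_gt.Loc.R1Ex
import Pool.Agent.Lib.MP_725e58_gt.Loc.R1Ox
import Pool.Agent.Lib.MP_725e58_gt.Loc.R1e2
import Pool.Agent.Lib.MP_725e58_gt.Loc.R1o2
import Pool.Agent.Lib.MP_725e58_gt.Loc.R2E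
import Pool.Agent.Lib.MP_725e58_gt.Loc.R2O
import Pool.Agent.Lib.MP_725e58_gt.Loc.Scal
import Pool.Agent.Lib.MP_725e58_gt.Loc.Scl
import Pool.Agent.Lib.MP_725e58_gt.Loc.Sel
import Pool.Agent.Lib.MP_725e58_gt.Loc.Step
import Pool.Agent.Lib.MP_725e58_gt.Loc.Stoch
import Pool.Agent.Lib.MP_725e58_gt.Loc.Sup
import Pool.Agent.Lib.MP_725e58_gt.Loc.TF
import Pool.Agent.Lib.MP_725e58_gt.Loc.Tr
import Pool.Agent.Lib.MP_725e58_gt.Loc.VE
import Pool.Agent.Lib.MP_725e58_gt.Loc.VE0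
import Pool.Agent.Lib.MP_725e58_gt.Loc.VO
import Pool.Agent.Lib.MP_725e58_gt.Loc.VO0
import Pool.Agent.Lib.MP_725e58_gt.Loc.Valid
import Pool.Agent.Lib.MP_725e58_gt.Loc.WWm
import Pool.Agent.Lib.MP_725e58_gt.Loc.Wrap

/-! Assembly of the project: local maximality of the simplex for the reflected hull. -/

set_option autoImplicit false

namespace Pool.Agent.Lib.MP_725e58_gt.Loc.Main

open MeasureTheory Finset

theorem pDrel : StDrel := stDrel
theorem pDaff : StDaff := stDaff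
theorem pStoch : StStoch := stStoch
theorem pDetI : StDetI := stDetI
theorem pMinEx : StMinEx := stMinEx
theorem pContact : StContact := stContact pDrel
theorem pMin : StMin := stMin pDrel pDaff pStoch pDetI pMinEx pContact
theorem pCovE : StCovE := stCovE
theorem pCoord : StCoord := stCoord
theorem pRTcl : StRTcl := stRTcl
theorem pVE : StVE := stVE pCovE pCoord pRTcl
theorem pAlgE : StAlgE := stAlgE
theorem pScal : StScal := stScal
theorem pInt : StInt := stInt
theorem pProb : StProb := stProb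
theorem pE1 : StE1 := stE1 pScal pInt pProb
theorem pEE : StEE := stEE pInt
theorem pR1E : StR1E := stR1E pVE pAlgE pE1 pEE pInt
theorem pMem : StMem := stMem
theorem pMemR : StMemR := stMemR pMem
theorem pC3a : StC3a := stC3a pInt pMemR
theorem pC3b : StC3b := stC3b pInt
theorem pC3 : StC3 := stC3 pC3a pC3b
theorem pMean : StMean := stMean
theorem pTF : StTF := stTF pC3 pInt pMean
theorem pR1e : StR1e := stR1e pR1E pC3 pTF
theorem pCovO : StCovO := stCovO
theorem pVO : StVO := stVO pCovO pCoord pRTcl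
theorem pAlgO : StAlgO := stAlgO
theorem pE2 : StE2 := stE2 pScal pInt pProb
theorem pPerm : StPerm := stPerm
theorem pEO : StEO := stEO pInt pMemR pPerm pMean
theorem pJens : StJens := stJens pInt pMean
theorem pR1O : StR1O := stR1O pVO pAlgO pE2 pEO pInt pMemR pPerm pJens pMean
theorem pScl : StScl := stScl pScal
theorem pJump : StJump := stJump pInt pMean pScl pJens
theorem pStep : StStep := stStep pC3a pC3b pJump pJens
theorem pSup : StSup := stSup pInt pMean pScl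
theorem pOddA : StOddA := stOddA pStep pSup pJens pC3
theorem pOddLin : StOddLin := stOddLin pOddA pJens
theorem pR1o : StR1o := stR1o pR1O pOddLin pTF
theorem pR1 : StR1 := stR1 pR1e pR1o
theorem pNear : StNear := stNear
theorem pCnCl : StCnCl := stCnCl
theorem pSep : StSep := stSep pCnCl
theorem pK1 : StK1 := stK1 pNear pSep
theorem pKF : StKF := stKF pCoord pInt pProb
theorem pDS : StDS := stDS pScal
theorem pWWm : StWWm := stWWm
theorem pKB : StKB := stKB pDS pWWm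
theorem pSelE : StSelE := stSelE
theorem pSelO : StSelO := stSelO
theorem pVE0 : StVE0 := stVE0 pCovE pAlgE pRTcl
theorem pExE : StExE := stExE pNear
theorem pDown : StDown := stDown
theorem pR2E : StR2E := stR2E pVE0 pExE pDown pProb pWWm pRTcl
theorem pExO : StExO := stExO pNear
theorem pVO0 : StVO0 := stVO0 pCovO pExO pRTcl
theorem pR2O : StR2O := stR2O pVO0 pExO pDown pMem pProb pWWm pRTcl
theorem pKA : StKA := stKA pSelE pSelO pDS pR2E pR2O pWWm pProb
theorem pK : StK := stK pK1 pKF pKB pKA pProb pWWm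
theorem pCore : StCore := stCore pR1 pK pTF pProb pCnCl
theorem pCV : StCV := stCV pProb
theorem pTr : StTr := stTr pCV pCnCl pRTcl
theorem pIn : StIn := stIn pSep pNear pTr
theorem pPosThm : StPosThm := stPosThm pCore pTr pIn
theorem pFinal : StFinal := stFinal pMin pPosThm
theorem pDiff : StDiff := stDiff

end Pool.Agent.Lib.MP_725e58_gt.Loc.Main
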