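import Pool.Agent.Lib.MP_725e58_gt.Loc.Stmts

/-! Module MINEX: existence of a minimal circumscribed simplex. -/

set_option autoImplicit false

namespace Pool.Agent.Lib.MP_725e58_gt.Loc

open MeasureTheory Finset

namespace MinEx

variable {d : ℕ}

/-- points of a simplex -/
theorem mem_Sx (t : Fin (d + 1) → EuclideanSpace ℝ (Fin d)) (p : EuclideanSpace ℝ (Fin d)) :
    p ∈ Sx t ↔ ∃ w ∈ stdSimplex ℝ (Fin (d + 1)), ∑ i, w i • t i = p := by
  classical
  let L : (Fin (d + 1) → ℝ) →ₗ[ℝ] EuclideanSpace ℝ (Fin d) :=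
    { toFun := fun w => ∑ i, w i • t i
      map_add' := fun w w' => by
        simp only [Pi.add_apply, add_smul, Finset.sum_add_distrib]
      map_smul' := fun a w => by
        simp only [Pi.smul_apply, smul_eq_mul, mul_smul, Finset.smul_sum, RingHom.id_apply] }
  have hL : ∀ w, L w = ∑ i, w i • t i := fun _ => rfl
  have h1 := L.image_convexHull (Set.range fun i j : Fin (d + 1) => if i = j then (1 : ℝ) else 0)
  rw [convexHull_basis_eq_stdSimplex, ← Set.range_comp] at h1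
  have h2 : (L ∘ fun i j : Fin (d + 1) => if i = j then (1 : ℝ) else 0) = t := by
    funext i
    show L (fun j => if i = j then (1 : ℝ) else 0) = t i
    rw [hL]
    simp
  rw [h2] at h1
  unfold Sx
  rw [← h1]
  constructor
  · rintro ⟨w, hw, h⟩
    exact ⟨w, hw, h⟩
  · rintro ⟨w, hw, h⟩
    exact ⟨w, hw, h⟩

/-- the vertices in the ball -/
theorem isCompact_ball (R : ℝ) :
    IsCompact {t : Fin (d + 1) → EuclideanSpace ℝ (Fin d) | ∀ i, ‖t i‖ ≤ R} := by
  have : {t : Fin (d + 1) → EuclideanSpace ℝ (Fin d) | ∀ i, ‖t i‖ ≤ R} =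
      Set.pi Set.univ fun _ => Metric.closedBall 0 R := by
    ext t
    simp [Set.mem_pi]
  rw [this]
  exact isCompact_univ_pi fun _ => isCompact_closedBall 0 R

/-- the simplices which contain a point -/
theorem isCompact_pt (R : ℝ) (p : EuclideanSpace ℝ (Fin d)) :
    IsCompact {t : Fin (d + 1) → EuclideanSpace ℝ (Fin d) | (∀ i, ‖t i‖ ≤ R) ∧ p ∈ Sx t} := by
  have h1 : IsCompact ({t : Fin (d + 1) → EuclideanSpace ℝ (Fin d) | ∀ i, ‖t i‖ ≤ R} ×ˢ
      stdSimplex ℝ (Fin (d + 1))) := (isCompact_ball R).prod (isCompact_stdSimplex ℝ _)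
  have h2 : IsClosed {q : (Fin (d + 1) → EuclideanSpace ℝ (Fin d)) × (Fin (d + 1) → ℝ) |
      ∑ i, q.2 i • q.1 i = p} := by
    refine isClosed_eq ?_ continuous_const
    fun_prop
  have h3 := (h1.inter_right h2).image continuous_fst
  convert h3 using 1
  ext t
  simp only [Set.mem_image, Set.mem_inter_iff, Set.mem_prod, Prod.exists, exists_and_right,
    exists_eq_right]
  rw [show (t ∈ {t : Fin (d + 1) → EuclideanSpace ℝ (Fin d) | (∀ i, ‖t i‖ ≤ R) ∧ p ∈ Sx t}) ↔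
    (∀ i, ‖t i‖ ≤ R) ∧ p ∈ Sx t from Iff.rfl, mem_Sx]
  constructor
  · rintro ⟨h, w, hw, hp⟩
    exact ⟨w, ⟨h, hw⟩, hp⟩
  · rintro ⟨w, ⟨h, hw⟩, hp⟩
    exact ⟨h, w, hw, hp⟩

theorem isCompact_all (R : ℝ) (K : Set (EuclideanSpace ℝ (Fin d))) :
    IsCompact {t : Fin (d + 1) → EuclideanSpace ℝ (Fin d) | (∀ i, ‖t i‖ ≤ R) ∧ K ⊆ Sx t} := by
  have h1 : {t : Fin (d + 1) → EuclideanSpace ℝ (Fin d) | (∀ i, ‖t i‖ ≤ R) ∧ K ⊆ Sx t} =
      {t : Fin (d + 1) → EuclideanSpace ℝ (Fin d) | ∀ i, ‖t i‖ ≤ R} ∩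
      ⋂ p ∈ K, {t : Fin (d + 1) → EuclideanSpace ℝ (Fin d) | (∀ i, ‖t i‖ ≤ R) ∧ p ∈ Sx t} := by
    ext t
    simp only [Set.mem_inter_iff, Set.mem_iInter]
    constructor
    · rintro ⟨h, hK⟩
      exact ⟨h, fun p hp => ⟨h, hK hp⟩⟩
    · rintro ⟨h, hK⟩
      exact ⟨h, fun p hp => (hK p hp).2⟩
  rw [h1]
  exact (isCompact_ball R).inter_right
    (isClosed_biInter fun p _ => (isCompact_pt R p).isClosed)

theorem continuous_Dt : Continuous fun t : Fin (d + 1) → EuclideanSpace ℝ (Fin d) => |Dt t| := by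
  unfold Dt
  refine (Continuous.matrix_det ?_).abs
  refine continuous_matrix fun i j => ?_
  refine Fin.cases ?_ (fun k => ?_) j
  · simp only [Matrix.of_apply, Fin.cons_zero]
    exact continuous_const
  · simp only [Matrix.of_apply, Fin.cons_succ]
    fun_prop

end MinEx

open MinEx in
theorem stMinEx : StMinEx := by
  intro d K R s _ hKs hs
  obtain ⟨t, ht, hmin⟩ := (isCompact_all R K).exists_isMinOn ⟨s, hs, hKs⟩
    continuous_Dt.continuousOn
  exact ⟨t, ht.2, ht.1, fun t' h1 h2 => hmin ⟨h2, h1⟩⟩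

end Pool.Agent.Lib.MP_725e58_gt.Loc
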