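import Pool.Agent.Lib.MP_725e58_gt.Loc.Stmts

/-!
Local maximality of the simplex for the Fary-Redei problem: losses near faces of codimension at
least two, even dimension.
-/

set_option autoImplicit false

namespace Pool.Agent.Lib.MP_725e58_gt.Loc

open MeasureTheory Finset

namespace R2E

variable {n : ℕ}

lemma continuous_scl (m : Fin n) (c : ℝ) : Continuous (scl m c : Vec n → Vec n) := by
  refine continuous_pi fun i => ?_
  by_cases hi : i = m
  · have h : Continuous fun y : Vec n => c * y m := continuous_const.mul (continuous_apply m)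
    simpa [scl, hi] using h
  · simpa [scl, hi] using continuous_apply i

lemma rs_scl {m : Fin n} {H : Finset (Fin n)} (hm : m ∉ H) (c : ℝ) (y : Vec n) :
    rs H (scl m c y) = rs H y := by
  funext i
  by_cases hi : i ∈ H
  · have him : i ≠ m := fun h => hm (h ▸ hi)
    rw [rs_apply_mem hi, rs_apply_mem hi]
    simp [scl, him]
  · rw [rs_apply_not_mem hi, rs_apply_not_mem hi]

lemma scl_self (m : Fin n) (c : ℝ) (y : Vec n) : scl m c y m = c * y m := by simp [scl]

end R2E

open R2E in
/-- lower bounds for the loss near faces of codimension at least two, even dimension -/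
theorem stR2E (h1 : StVE0) (h2 : StExE) (h3 : StDown) (h4 : StProb) (h5 : StWWm) (_h6 : StRTcl) :
    StR2E := by
  intro h hh
  have hn0 : (0 : ℝ) < 2 * h + 1 := by positivity
  have hh0 : (0 : ℝ) < 1 + h := by positivity
  refine ⟨1 / ((2 * h + 1) * (1 + h)), by positivity, fun Kc δ hK hδ0 hδ1 m H hH => ?_⟩
  have hP := h4 (2 * h + 1)
  obtain ⟨hHs, hHc⟩ := mem_powersetCard.1 hH
  have hm : m ∉ H := fun h => by
    have := hHs h
    simp at this
  set D : Set (Vec (2 * h + 1)) := {y | y ∈ Orth (2 * h + 1) ∧ scl m (1 + h) y ∈ WW Kc m H} with hD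
  have hWm : MeasurableSet (WW Kc m H) := (h5 (2 * h + 1) Kc m m m H).1
  have hDm : MeasurableSet D :=
    measurableSet_Orth.inter ((continuous_scl m (1 + h)).measurable hWm)
  have hWD : Pe (2 * h + 1) (WW Kc m H) ≤ ENNReal.ofReal (1 + h) * Pe (2 * h + 1) D := by
    apply h3 (2 * h + 1) (WW Kc m H) m (1 + h) _ hWm (fun y hy => hy.1)
    have : (0 : ℝ) ≤ h := by positivity
    linarith
  -- the special piece
  set Pc : Fin (2 * h + 1) → Finset (Fin (2 * h + 1)) → Set (Vec (2 * h + 1)) := fun k I =>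
    {w | w ∈ Orth (2 * h + 1) ∧ RT Kc 0 (sm w) (zE I k w)} with hPc
  have hdisj : Disjoint (Pc m H) D := by
    rw [Set.disjoint_left]
    rintro w ⟨hw, hR⟩ ⟨-, hwD⟩
    obtain ⟨-, l, hl, hlt⟩ := hwD
    rw [rs_scl hm, scl_self] at hlt
    have := h2 h Kc δ hK hδ0 hδ1 m H hH w (fun i _ => hw i) hR m hm l hl
    linarith
  have hsp : Pe (2 * h + 1) (Pc m H) + Pe (2 * h + 1) D ≤ 1 := by
    rw [← measure_union hdisj hDm]
    exact prob_le_one
  -- the sum of all pieces
  have hsum : (∑ k, ∑ I ∈ (univ.erase k).powersetCard h, Pe (2 * h + 1) (Pc k I)) +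
      Pe (2 * h + 1) D ≤ ((2 * h + 1 : ℕ) : ENNReal) * (Nat.choose (2 * h) h : ENNReal) := by
    have e1 : (∑ k, ∑ I ∈ (univ.erase k).powersetCard h, Pe (2 * h + 1) (Pc k I)) +
        Pe (2 * h + 1) D = ∑ k, ∑ I ∈ (univ.erase k).powersetCard h,
          (Pe (2 * h + 1) (Pc k I) + if I = H then (if k = m then Pe (2 * h + 1) D else 0) else 0) := by
      simp_rw [sum_add_distrib]
      congr 1
      rw [sum_eq_single m]
      · rw [sum_ite_eq' _ H]
        simp [hH]
      · intro k _ hk
        apply sum_eq_zero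
        intro I _
        simp [hk]
      · simp
    rw [e1]
    calc ∑ k, ∑ I ∈ (univ.erase k).powersetCard h,
          (Pe (2 * h + 1) (Pc k I) + if I = H then (if k = m then Pe (2 * h + 1) D else 0) else 0)
        ≤ ∑ k : Fin (2 * h + 1), ∑ I ∈ (univ.erase k).powersetCard h, (1 : ENNReal) := by
          refine sum_le_sum fun k _ => sum_le_sum fun I _ => ?_
          by_cases hI : I = H
          · by_cases hk : k = m
            · rw [if_pos hI, if_pos hk, hI, hk]
              exact hsp
            · rw [if_pos hI, if_neg hk, add_zero]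
              exact prob_le_one
          · rw [if_neg hI, add_zero]
            exact prob_le_one
      _ = _ := by
          have hc : ∀ k : Fin (2 * h + 1), ((univ.erase k).powersetCard h).card =
              Nat.choose (2 * h) h := by
            intro k
            rw [card_powersetCard, card_erase_of_mem (mem_univ k), card_univ, Fintype.card_fin]
            simp
          simp only [sum_const, hc, card_univ, Fintype.card_fin, nsmul_eq_mul, mul_one]
  set A := ∑ k, ∑ I ∈ (univ.erase k).powersetCard h, Pe (2 * h + 1) (Pc k I) with hA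
  have hV : VR Kc 0 ≤ ENNReal.ofReal (1 / (2 * h + 1 : ℝ)) * A := h1 h Kc δ hK
  refine hV.trans ?_
  have htop : ((2 * h + 1 : ℕ) : ENNReal) * (Nat.choose (2 * h) h : ENNReal) ≠ ⊤ :=
    ENNReal.mul_ne_top (ENNReal.natCast_ne_top _) (ENNReal.natCast_ne_top _)
  have hAtop : A ≠ ⊤ := ne_top_of_le_ne_top htop (le_self_add.trans hsum)
  have hDtop : Pe (2 * h + 1) D ≠ ⊤ := measure_ne_top _ _
  have hreal : A.toReal + (Pe (2 * h + 1)).real D ≤ (2 * h + 1) * (Nat.choose (2 * h) h : ℝ) := by
    have := (ENNReal.toReal_le_toReal (ENNReal.add_ne_top.2 ⟨hAtop, hDtop⟩) htop).2 hsum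
    rw [ENNReal.toReal_add hAtop hDtop, ENNReal.toReal_mul, ENNReal.toReal_natCast,
      ENNReal.toReal_natCast] at this
    push_cast at this
    exact this
  have hWDr : (Pe (2 * h + 1)).real (WW Kc m H) ≤ (1 + h) * (Pe (2 * h + 1)).real D := by
    have := (ENNReal.toReal_le_toReal (measure_ne_top _ _)
      (ENNReal.mul_ne_top ENNReal.ofReal_ne_top hDtop)).2 hWD
    rw [ENNReal.toReal_mul, ENNReal.toReal_ofReal hh0.le] at this
    exact this
  rw [← ENNReal.ofReal_toReal hAtop, ← ENNReal.ofReal_mul (by positivity)]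
  apply ENNReal.ofReal_le_ofReal
  have e2 : 1 / ((2 * (h : ℝ) + 1) * (1 + h)) * (Pe (2 * h + 1)).real (WW Kc m H) ≤
      1 / (2 * h + 1) * (Pe (2 * h + 1)).real D := by
    calc 1 / ((2 * (h : ℝ) + 1) * (1 + h)) * (Pe (2 * h + 1)).real (WW Kc m H)
        ≤ 1 / ((2 * (h : ℝ) + 1) * (1 + h)) * ((1 + h) * (Pe (2 * h + 1)).real D) := by
          gcongr
      _ = _ := by field_simp
  have e3 : 1 / (2 * (h : ℝ) + 1) * A.toReal + 1 / (2 * h + 1) * (Pe (2 * h + 1)).real D ≤
      (Nat.choose (2 * h) h : ℝ) := by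
    rw [← mul_add]
    calc 1 / (2 * (h : ℝ) + 1) * (A.toReal + (Pe (2 * h + 1)).real D) ≤
          1 / (2 * (h : ℝ) + 1) * ((2 * h + 1) * (Nat.choose (2 * h) h : ℝ)) := by gcongr
      _ = _ := by field_simp
  linarith

end Pool.Agent.Lib.MP_725e58_gt.Loc
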