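import Pool.Agent.Lib.MP_725e58_gt.Loc.Base

/-!
Local maximality of the simplex for the Fary-Redei problem: statements of the modules.
Proofs: team store, file MP_725e58_loc.md.
-/

set_option autoImplicit false

namespace Pool.Agent.Lib.MP_725e58_gt.Loc

open MeasureTheory Finset

/-! ### P: exponential variables -/

/-- total mass one -/
def StProb : Prop := ∀ n : ℕ, IsProbabilityMeasure (Pe n)

/-- integrability from exponential growth -/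
def StInt : Prop := ∀ (n : ℕ) (f : Vec n → ℝ) (C ρ : ℝ), Measurable f → ρ < 1 →
  (∀ y ∈ Orth n, |f y| ≤ C * Real.exp (ρ * sm y)) → Integrable f (Pe n)

/-- expectation of a coordinate -/
def StMean : Prop := ∀ (n : ℕ) (i : Fin n), ∫ y : Vec n, y i ∂(Pe n) = 1

/-- scaling -/
def StScal : Prop := ∀ (n : ℕ) (g : Vec n → ENNReal) (a : ℝ), Measurable g → 0 < a →
  ∫⁻ y, g y * ENNReal.ofReal (Real.exp ((1 - a) * sm y)) ∂(Pe n) =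
    ENNReal.ofReal ((a ^ n)⁻¹) * ∫⁻ y, g (a⁻¹ • y) ∂(Pe n)

/-- integration of one coordinate -/
def StCoord : Prop := ∀ (n : ℕ) (k : Fin n) (f : Vec n → ℝ), Measurable f →
  (∀ (y : Vec n) (s : ℝ), f (Function.update y k s) = f y) →
  ∫⁻ w in {w : Vec n | (∀ i, i ≠ k → 0 ≤ w i) ∧ f w ≤ w k}, ENNReal.ofReal (Real.exp (-sm w)) =
    ∫⁻ y, ENNReal.ofReal (Real.exp (-f y)) ∂(Pe n)

/-- memorylessness of the minimum -/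
def StMem : Prop := ∀ (n : ℕ) (H : Finset (Fin n)) (g : Vec n → ENNReal), H.Nonempty →
  Measurable g →
  ∫⁻ y, g y ∂(Pe n) = (H.card : ENNReal)⁻¹ * ∑ k ∈ H, ∫⁻ y, g (TM H k y) ∂(Pe n)

/-- memorylessness, real version -/
def StMemR : Prop := ∀ (n : ℕ) (H : Finset (Fin n)) (g : Vec n → ℝ), H.Nonempty →
  Measurable g → Integrable g (Pe n) →
  (∀ k ∈ H, Integrable (fun y => g (TM H k y)) (Pe n)) ∧
  ∫ y, g y ∂(Pe n) = (H.card : ℝ)⁻¹ * ∑ k ∈ H, ∫ y, g (TM H k y) ∂(Pe n)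

/-- exchangeability -/
def StPerm : Prop := ∀ (n : ℕ) (σ : Equiv.Perm (Fin n)),
  MeasurePreserving (fun (y : Vec n) (i : Fin n) => y (σ i)) (Pe n) (Pe n)

/-- a cone seen through a diagonal map: gain of a factor `X` -/
def StDS : Prop := ∀ (n : ℕ) (A U : Set (Vec n)) (m r : Fin n) (c X : ℝ), m ≠ r → 0 < c → c ≤ 1 →
  0 < X → X ≤ 1 / 2 → MeasurableSet U → U ⊆ Orth n → (∀ y ∈ U, ∀ t : ℝ, 0 < t → t • y ∈ U) →
  A ⊆ Orth n → (∀ y ∈ A, y r ≤ 2 * X * (sm y - y r)) →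
  (∀ y ∈ A, scl r (1 / (2 * X)) (scl m c y) ∈ U) →
  Pe n A ≤ ENNReal.ofReal (2 * X / c * 2 ^ n) * Pe n U

/-- scaling one coordinate in the expectation of a homogeneous function -/
def StScl : Prop := ∀ (n : ℕ) (f : Vec n → ℝ) (m : Fin n) (s : ℝ), Measurable f →
  (∀ y ∈ Orth n, 0 ≤ f y) → (∀ y ∈ Orth n, ∀ a : ℝ, 0 ≤ a → f (a • y) = a * f y) →
  1 / 2 ≤ s → s ≤ 2 → Integrable f (Pe n) →
  Integrable (fun y => f (scl m s y)) (Pe n) ∧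
  ∫ y, f (scl m s y) ∂(Pe n) ≤ 2 ^ (n + 1) * ∫ y, f y ∂(Pe n)

/-- scaling one coordinate down costs at most the factor (for sections which are intervals) -/
def StDown : Prop := ∀ (n : ℕ) (U : Set (Vec n)) (m : Fin n) (c : ℝ), 1 ≤ c → MeasurableSet U →
  U ⊆ Orth n →
  Pe n U ≤ ENNReal.ofReal c * Pe n {y | y ∈ Orth n ∧ scl m c y ∈ U}

/-! ### M: measurability -/

/-- closedness of the cone -/
def StCnCl : Prop := ∀ (n : ℕ) (Kc : Set (Vec n)) (δ : ℝ), 0 < n → Pos n Kc δ → IsClosed (Cn Kc)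

/-- closedness of the reflection relation -/
def StRTcl : Prop := ∀ (n : ℕ) (Kc : Set (Vec n)) (δ : ℝ) (x : Vec n), 0 < n → Pos n Kc δ →
  IsClosed {q : ℝ × Vec n | RT Kc x q.1 q.2}

/-- measurability of the cones used -/
def StWWm : Prop := ∀ (n : ℕ) (Kc : Set (Vec n)) (m i r : Fin n) (H : Finset (Fin n)),
  MeasurableSet (WW Kc m H) ∧ MeasurableSet (WW2 Kc m H) ∧ MeasurableSet (WW1 Kc m i H) ∧
  MeasurableSet (SB Kc r) ∧ MeasurableSet (SA Kc m r)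

/-! ### V: valid forms -/

/-- valid forms are almost nonnegative -/
def StNear : Prop := ∀ (n : ℕ) (Kc : Set (Vec n)) (δ : ℝ) (m : Fin n) (l : Vec n), Pos n Kc δ →
  0 ≤ δ → δ ≤ 1 / 2 → l ∈ VN Kc m → ∀ i, -(2 * δ) ≤ l i

/-- separation from the cone over `Kc` -/
def StSep : Prop := ∀ (n : ℕ) (Kc : Set (Vec n)) (δ : ℝ), 2 ≤ n → Pos n Kc δ →
  ∀ y : Vec n, y ∉ Cn Kc → (∀ i, 0 ≤ y i) → ∃ m, ∃ l ∈ VN Kc m, dot l y < 0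

/-! ### C: covering and change of variables -/

/-- even dimension -/
def StCovE : Prop := ∀ (h : ℕ) (g : Vec (2 * h + 1) → ENNReal), Measurable g →
  ∫⁻ Y, g Y ≤ ENNReal.ofReal (1 / (2 * h + 1 : ℝ)) *
    ∑ k, ∑ I ∈ (univ.erase k).powersetCard h, ∫⁻ w in {w : Vec (2 * h + 1) | ∀ i, i ≠ k → 0 ≤ w i},
      g (TE I k w)

/-- odd dimension -/
def StCovO : Prop := ∀ (h : ℕ) (g : Vec (2 * h) → ENNReal), 1 ≤ h → Measurable g →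
  ∫⁻ Y, g Y ≤ ENNReal.ofReal (1 / (2 * h * h : ℝ)) *
    ∑ I ∈ (univ : Finset (Fin (2 * h))).powersetCard h, ∑ i ∈ I, ∑ k ∈ Iᶜ,
      ∫⁻ w in {w : Vec (2 * h) | ∀ j, j ≠ k → 0 ≤ w j}, g (TO h I i k w)

/-! ### A: algebra on the pieces -/

/-- first order inequality, even dimension -/
def StAlgE : Prop := ∀ (h : ℕ) (Kc : Set (Vec (2 * h + 1))) (δ B : ℝ), Pos (2 * h + 1) Kc δ →
  0 ≤ B → ∀ k, ∀ I ∈ (univ.erase k).powersetCard h, ∀ w : Vec (2 * h + 1), (∀ i, i ≠ k → 0 ≤ w i) →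
  RT Kc 0 (sm w) (zE I k w) →
  0 ≤ w k ∧ PsiE Kc B I k w ≤ (1 + 2 * (2 * h + 1) ^ 2 * B) * w k

/-- first order inequality, odd dimension -/
def StAlgO : Prop := ∀ (h : ℕ) (Kc : Set (Vec (2 * h))) (δ B ξ : ℝ) (x : Vec (2 * h)), 1 ≤ h →
  Pos (2 * h) Kc δ → 0 ≤ B → 0 ≤ ξ → (∀ i, |x i| ≤ ξ) → sm x = 0 →
  ∀ I ∈ (univ : Finset (Fin (2 * h))).powersetCard h, ∀ i ∈ I, ∀ k ∈ Iᶜ, ∀ w : Vec (2 * h),
  (∀ j, j ≠ k → 0 ≤ w j) → RT Kc x (sm w) (zO h I i k w) →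
  PsiO h Kc B I i k x w ≤ (1 + (2 * h) ^ 2 * (B + ξ)) * w k +
    4 * (2 * h) * ((2 * h) ^ 2 * (B + ξ)) * ξ * sm w

/-- exclusion, even dimension -/
def StExE : Prop := ∀ (h : ℕ) (Kc : Set (Vec (2 * h + 1))) (δ : ℝ), Pos (2 * h + 1) Kc δ →
  0 ≤ δ → δ ≤ 1 / 2 → ∀ k, ∀ I ∈ (univ.erase k).powersetCard h, ∀ w : Vec (2 * h + 1),
  (∀ i, i ≠ k → 0 ≤ w i) → RT Kc 0 (sm w) (zE I k w) →
  ∀ m ∉ I, ∀ l ∈ VN Kc m, -dot l (rs I w) ≤ (1 + h) * w k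

/-- exclusion, odd dimension -/
def StExO : Prop := ∀ (h : ℕ) (Kc : Set (Vec (2 * h))) (δ : ℝ), 1 ≤ h → Pos (2 * h) Kc δ →
  0 ≤ δ → δ ≤ 1 / 2 → ∀ I ∈ (univ : Finset (Fin (2 * h))).powersetCard h, ∀ i ∈ I, ∀ k ∈ Iᶜ,
  ∀ w : Vec (2 * h), (∀ j, j ≠ k → 0 ≤ w j) → RT Kc 0 (sm w) (zO h I i k w) →
  0 ≤ w k ∧ ∀ m ∉ I, ∀ l ∈ VN Kc m,
    (0 ≤ dot l (one I) → -dot l (aO h I i w) ≤ (1 + h) * w k) ∧
    (dot l (one I) ≤ 0 → -dot l (rs (I.erase i) w) ≤ (1 + h) * w k)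

/-! ### R: upper bounds for the volume of the reflection body -/

/-- integrated upper bound, even dimension: any lower bound of the height of a piece -/
def StVE : Prop := ∀ (h : ℕ) (Kc : Set (Vec (2 * h + 1))) (δ : ℝ)
  (f : Finset (Fin (2 * h + 1)) → Fin (2 * h + 1) → Vec (2 * h + 1) → ℝ), Pos (2 * h + 1) Kc δ →
  (∀ I k, Measurable (f I k)) →
  (∀ I k, ∀ (y : Vec (2 * h + 1)) (s : ℝ), f I k (Function.update y k s) = f I k y) →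
  (∀ k, ∀ I ∈ (univ.erase k).powersetCard h, ∀ w : Vec (2 * h + 1), (∀ i, i ≠ k → 0 ≤ w i) →
    RT Kc 0 (sm w) (zE I k w) → f I k w ≤ w k) →
  VR Kc 0 ≤ ENNReal.ofReal (1 / (2 * h + 1 : ℝ)) * ∑ k, ∑ I ∈ (univ.erase k).powersetCard h,
    ∫⁻ y, ENNReal.ofReal (Real.exp (-f I k y)) ∂(Pe (2 * h + 1))

/-- integrated upper bound, odd dimension -/
def StVO : Prop := ∀ (h : ℕ) (Kc : Set (Vec (2 * h))) (δ : ℝ) (x : Vec (2 * h))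
  (f : Finset (Fin (2 * h)) → Fin (2 * h) → Fin (2 * h) → Vec (2 * h) → ℝ), 1 ≤ h →
  Pos (2 * h) Kc δ → (∀ I i k, Measurable (f I i k)) →
  (∀ I i k, ∀ (y : Vec (2 * h)) (s : ℝ), f I i k (Function.update y k s) = f I i k y) →
  (∀ I ∈ (univ : Finset (Fin (2 * h))).powersetCard h, ∀ i ∈ I, ∀ k ∈ Iᶜ, ∀ w : Vec (2 * h),
    (∀ j, j ≠ k → 0 ≤ w j) → RT Kc x (sm w) (zO h I i k w) → f I i k w ≤ w k) →
  VR Kc x ≤ ENNReal.ofReal (1 / (2 * h * h : ℝ)) *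
    ∑ I ∈ (univ : Finset (Fin (2 * h))).powersetCard h, ∑ i ∈ I, ∑ k ∈ Iᶜ,
      ∫⁻ y, ENNReal.ofReal (Real.exp (-f I i k y)) ∂(Pe (2 * h))

/-- `VR` at `0` in even dimension is bounded by the probabilities of the pieces -/
def StVE0 : Prop := ∀ (h : ℕ) (Kc : Set (Vec (2 * h + 1))) (δ : ℝ), Pos (2 * h + 1) Kc δ →
  VR Kc 0 ≤ ENNReal.ofReal (1 / (2 * h + 1 : ℝ)) * ∑ k, ∑ I ∈ (univ.erase k).powersetCard h,
    Pe (2 * h + 1) {w | w ∈ Orth (2 * h + 1) ∧ RT Kc 0 (sm w) (zE I k w)}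

/-- `VR` at `0` in odd dimension is bounded by the probabilities of the pieces -/
def StVO0 : Prop := ∀ (h : ℕ) (Kc : Set (Vec (2 * h))) (δ : ℝ), 1 ≤ h → Pos (2 * h) Kc δ →
  0 ≤ δ → δ ≤ 1 / 2 →
  VR Kc 0 ≤ ENNReal.ofReal (1 / (2 * h * h : ℝ)) *
    ∑ I ∈ (univ : Finset (Fin (2 * h))).powersetCard h, ∑ i ∈ I, ∑ k ∈ Iᶜ,
      Pe (2 * h) {w | w ∈ Orth (2 * h) ∧ RT Kc 0 (sm w) (zO h I i k w)}

/-- expectation of `PsiE` summed over the pieces -/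
def StEE : Prop := ∀ (h : ℕ) (Kc : Set (Vec (2 * h + 1))) (δ B : ℝ), Pos (2 * h + 1) Kc δ → 0 ≤ B →
  ∑ k, ∑ I ∈ (univ.erase k).powersetCard h, ∫ y, PsiE Kc B I k y ∂(Pe (2 * h + 1)) =
    2 * (2 * h + 1) * T h Kc B

/-- expectation of `PsiO` summed over the pieces -/
def StEO : Prop := ∀ (h : ℕ) (Kc : Set (Vec (2 * h))) (δ B : ℝ) (x : Vec (2 * h)), 1 ≤ h →
  Pos (2 * h) Kc δ → 0 ≤ B →
  ∑ I ∈ (univ : Finset (Fin (2 * h))).powersetCard h, ∑ i ∈ I, ∑ k ∈ Iᶜ,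
    ∫ y, PsiO h Kc B I i k x y ∂(Pe (2 * h)) =
    4 * h ^ 2 * T h Kc B -
      h * ∑ I ∈ (univ : Finset (Fin (2 * h))).powersetCard h, gg h Kc B I x

/-- `1 - exp (-f)` in expectation, for a small homogeneous nonnegative function -/
def StE1 : Prop := ∀ (n : ℕ) (f : Vec n → ℝ) (ρ : ℝ), Measurable f → 0 ≤ ρ →
  (∀ y ∈ Orth n, 0 ≤ f y) → (∀ y ∈ Orth n, f y ≤ ρ * sm y) →
  (∀ y ∈ Orth n, ∀ a : ℝ, 0 ≤ a → f (a • y) = a * f y) →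
  ∫⁻ y, ENNReal.ofReal (Real.exp (-f y)) ∂(Pe n) ≤
    ENNReal.ofReal (1 - (1 - (n + 1) * ρ) * ∫ y, f y ∂(Pe n))

/-- second order upper bound for `exp (-f)`, for a small function dominated by a homogeneous one -/
def StE2 : Prop := ∀ (n : ℕ) (f g : Vec n → ℝ) (ρ : ℝ), Measurable f → Measurable g → 0 ≤ ρ →
  ρ ≤ 1 / 4 → (∀ y ∈ Orth n, |f y| ≤ g y) → (∀ y ∈ Orth n, g y ≤ ρ * sm y) →
  (∀ y ∈ Orth n, ∀ a : ℝ, 0 ≤ a → g (a • y) = a * g y) →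
  ∫⁻ y, ENNReal.ofReal (Real.exp (-f y)) ∂(Pe n) ≤
    ENNReal.ofReal (1 - ∫ y, f y ∂(Pe n) + ρ * 2 ^ (n + 2) * ∫ y, g y ∂(Pe n))

/-- explicit first order bound, even dimension -/
def StR1E : Prop := ∀ (h : ℕ) (Kc : Set (Vec (2 * h + 1))) (δ B : ℝ), 1 ≤ h → Pos (2 * h + 1) Kc δ →
  0 ≤ B →
  VR Kc 0 ≤ ENNReal.ofReal
    ((Nat.choose (2 * h) h : ℝ) - 2 * (1 - 4 * (2 * h + 1) ^ 2 * B) * T h Kc B)

/-- explicit first order bound, odd dimension -/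
def StR1O : Prop := ∀ h : ℕ, 2 ≤ h → ∃ C : ℝ, 0 < C ∧ ∃ r : ℝ, 0 < r ∧ ∀ (Kc : Set (Vec (2 * h))) (δ B ξ : ℝ)
  (x : Vec (2 * h)), Pos (2 * h) Kc δ → 0 ≤ B → B ≤ r → 0 ≤ ξ → ξ ≤ r → (∀ i, |x i| ≤ ξ) →
  sm x = 0 →
  VR Kc x ≤ ENNReal.ofReal ((Nat.choose (2 * h - 1) h : ℝ) -
    (2 * T h Kc B - 1 / (2 * h) *
      ∑ I ∈ (univ : Finset (Fin (2 * h))).powersetCard h, gg h Kc B I x) +
    C * (B + ξ) * (T h Kc B + ξ))

/-! ### G: convexity inequalities for the gap functions -/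

/-- Jensen -/
def StJens : Prop := ∀ (n : ℕ) (Kc : Set (Vec n)) (δ B : ℝ) (l : Fin n) (H : Finset (Fin n)),
  Pos n Kc δ → 0 ≤ B → Phi Kc B l (one H) ≤ J Kc B l H

/-- bound of the supporting forms -/
def StSup : Prop := ∀ (n : ℕ) (Kc : Set (Vec n)) (δ B : ℝ) (l : Fin n) (H : Finset (Fin n))
  (L : Vec n), Pos n Kc δ → 0 ≤ B → L ∈ LL Kc B l → Phi Kc B l (one H) = dot L (one H) →
  ∀ m ∈ H, |L m| ≤ 2 ^ (n + 2) * J Kc B l H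

/-- memorylessness and contact -/
def StC3a : Prop := ∀ (n : ℕ) (Kc : Set (Vec n)) (δ B : ℝ) (l : Fin n), 2 ≤ n → Pos n Kc δ →
  0 ≤ B → ((n : ℝ) - 1) * J Kc B l (univ.erase l) ≤
    ∑ i ∈ univ.erase l, J Kc B l ((univ.erase l).erase i)

/-- averaging over subsets -/
def StC3b : Prop := ∀ (n : ℕ) (Kc : Set (Vec n)) (δ B : ℝ) (l : Fin n) (G : Finset (Fin n)) (h : ℕ),
  Pos n Kc δ → 0 ≤ B → 1 ≤ h → h ≤ G.card →
  (Nat.choose (G.card - 1) (h - 1) : ℝ) * J Kc B l G ≤ ∑ H ∈ G.powersetCard h, J Kc B l H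

/-- the convexity inequality with contact -/
def StC3 : Prop := ∀ (d : ℕ) (Kc : Set (Vec (d + 1))) (δ B : ℝ) (l : Fin (d + 1)) (h : ℕ),
  2 ≤ d → 1 ≤ h → h ≤ d - 1 → Pos (d + 1) Kc δ → 0 ≤ B →
  (d * Nat.choose (d - 2) (h - 1) : ℝ) * J Kc B l (univ.erase l) ≤
    ((d : ℝ) - h) * ∑ H ∈ (univ.erase l).powersetCard h, J Kc B l H

/-- the perturbed average -/
def StJump : Prop := ∀ (n : ℕ) (Kc : Set (Vec n)) (δ B : ℝ) (l m : Fin n)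
  (G H H' : Finset (Fin n)) (h : ℕ) (L L' : Vec n), Pos n Kc δ → 0 ≤ B → 1 ≤ h →
  H ∈ G.powersetCard h → H' ∈ G.powersetCard h → H ≠ H' → m ∈ H → m ∈ H' →
  L ∈ LL Kc B l → L' ∈ LL Kc B l → Phi Kc B l (one H) = dot L (one H) →
  Phi Kc B l (one H') = dot L' (one H') →
  (Nat.choose (G.card - 1) (h - 1) : ℝ) * J Kc B l G + (L m - L' m) / 2 ≤
    ∑ K ∈ G.powersetCard h, J Kc B l K +
      2 ^ (n + 1) * ((J Kc B l H - Phi Kc B l (one H)) + (J Kc B l H' - Phi Kc B l (one H')))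

/-- the supporting forms of two subsets are close, one step -/
def StStep : Prop := ∀ h : ℕ, 3 ≤ h → ∃ C : ℝ, 0 < C ∧ ∀ (Kc : Set (Vec (2 * h))) (δ B : ℝ)
  (l m : Fin (2 * h)) (H H' : Finset (Fin (2 * h))) (L L' : Vec (2 * h)), Pos (2 * h) Kc δ →
  0 ≤ B → H ∈ (univ.erase l).powersetCard h → H' ∈ (univ.erase l).powersetCard h →
  H ≠ H' → h - 1 ≤ (H ∩ H').card → m ∈ H → m ∈ H' → L ∈ LL Kc B l → L' ∈ LL Kc B l →
  Phi Kc B l (one H) = dot L (one H) → Phi Kc B l (one H') = dot L' (one H') →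
  L m - L' m ≤ C *
    ((4 * (h - 1) * (∑ K ∈ (univ.erase l).powersetCard h, J Kc B l K) -
      2 * h * (Nat.choose (2 * h - 1) h) * J Kc B l (univ.erase l)) +
    ∑ K ∈ (univ.erase l).powersetCard h, (J Kc B l K - Phi Kc B l (one K)))

/-- linear approximation of the values at the centroids -/
def StOddA : Prop := ∀ h : ℕ, 2 ≤ h → ∃ C : ℝ, 0 < C ∧ ∀ (Kc : Set (Vec (2 * h))) (δ B : ℝ)
  (l : Fin (2 * h)), Pos (2 * h) Kc δ → 0 ≤ B →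
  ∃ A : Vec (2 * h), A l = 0 ∧
  (∀ i, |A i| ≤ C * ∑ K ∈ (univ.erase l).powersetCard h, J Kc B l K) ∧
  ∑ K ∈ (univ.erase l).powersetCard h, |Phi Kc B l (one K) - dot A (one K)| ≤ C *
    ((4 * (h - 1) * (∑ K ∈ (univ.erase l).powersetCard h, J Kc B l K) -
      2 * h * (Nat.choose (2 * h - 1) h) * J Kc B l (univ.erase l)) +
    ∑ K ∈ (univ.erase l).powersetCard h, (J Kc B l K - Phi Kc B l (one K)))

/-- the choice of the centre in odd dimension -/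
def StOddLin : Prop := ∀ h : ℕ, 2 ≤ h → ∃ C : ℝ, 0 < C ∧ ∃ κ : ℝ, 0 < κ ∧ ∀ (Kc : Set (Vec (2 * h))) (δ B : ℝ),
  Pos (2 * h) Kc δ → 0 ≤ B →
  ∃ x : Vec (2 * h), sm x = 0 ∧ (∀ i, |x i| ≤ C * T h Kc B) ∧
  (Nat.choose (2 * h - 1) h : ℝ) * FF Kc B + κ * T h Kc B ≤
    2 * T h Kc B - 1 / (2 * h) *
      ∑ I ∈ (univ : Finset (Fin (2 * h))).powersetCard h, gg h Kc B I x

/-- the middle binomial coefficient of dimension `n - 1` -/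
def bn (n : ℕ) : ℕ := Nat.choose (n - 1) ((n - 1) / 2)

/-- bounds between the first order quantities (`n = d + 1 ≥ 3`, `h = n / 2`) -/
def StTF : Prop := ∀ n : ℕ, 3 ≤ n → ∃ C : ℝ, 0 < C ∧ ∀ (Kc : Set (Vec n)) (δ B : ℝ),
  Pos n Kc δ → 0 ≤ B → 0 ≤ T (n / 2) Kc B ∧ 0 ≤ FF Kc B ∧
  FF Kc B ≤ C * T (n / 2) Kc B ∧ T (n / 2) Kc B ≤ C * B

/-- the first order theorem, even dimension -/
def StR1e : Prop := ∀ h : ℕ, 1 ≤ h → ∃ r : ℝ, 0 < r ∧ ∃ κ : ℝ, 0 < κ ∧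
  ∀ (Kc : Set (Vec (2 * h + 1))) (δ B : ℝ), Pos (2 * h + 1) Kc δ → 0 ≤ B → B ≤ r →
  VR Kc 0 ≤ ENNReal.ofReal
    ((Nat.choose (2 * h) h : ℝ) * (1 - FF Kc B - κ * T h Kc B))

/-- the first order theorem, odd dimension -/
def StR1o : Prop := ∀ (h : ℕ) (ξ : ℝ), 2 ≤ h → 0 < ξ → ∃ r : ℝ, 0 < r ∧ ∃ κ : ℝ, 0 < κ ∧
  ∀ (Kc : Set (Vec (2 * h))) (δ B : ℝ), Pos (2 * h) Kc δ → 0 ≤ B → B ≤ r →
  ∃ x : Vec (2 * h), sm x = 0 ∧ (∀ i, |x i| ≤ ξ) ∧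
  VR Kc x ≤ ENNReal.ofReal
    ((Nat.choose (2 * h - 1) h : ℝ) * (1 - FF Kc B - κ * T h Kc B))

/-- the first order theorem -/
def StR1 : Prop := ∀ n : ℕ, 3 ≤ n → ∃ r : ℝ, 0 < r ∧ ∃ κ : ℝ, 0 < κ ∧
  ∀ (Kc : Set (Vec n)) (δ B : ℝ), Pos n Kc δ → 0 ≤ B → B ≤ r →
  ∃ x : Vec n, sm x = 0 ∧ (∀ i, |x i| ≤ 1 / (4 * (n : ℝ))) ∧
  VR Kc x ≤ ENNReal.ofReal ((bn n : ℝ) * (1 - FF Kc B - κ * T (n / 2) Kc B))

/-! ### R2: lower bounds for the loss near faces of codimension at least two -/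

/-- even dimension -/
def StR2E : Prop := ∀ h : ℕ, 1 ≤ h → ∃ c : ℝ, 0 < c ∧ ∀ (Kc : Set (Vec (2 * h + 1))) (δ : ℝ),
  Pos (2 * h + 1) Kc δ → 0 ≤ δ → δ ≤ 1 / 2 → ∀ m, ∀ H ∈ (univ.erase m).powersetCard h,
  VR Kc 0 ≤ ENNReal.ofReal ((Nat.choose (2 * h) h : ℝ) - c * (Pe (2 * h + 1)).real (WW Kc m H))

/-- odd dimension -/
def StR2O : Prop := ∀ h : ℕ, 2 ≤ h → ∃ c : ℝ, 0 < c ∧ ∀ (Kc : Set (Vec (2 * h))) (δ : ℝ),
  Pos (2 * h) Kc δ → 0 ≤ δ → δ ≤ 1 / 2 → ∀ m,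
  (∀ H ∈ (univ.erase m).powersetCard h,
    VR Kc 0 ≤ ENNReal.ofReal
      ((Nat.choose (2 * h - 1) h : ℝ) - c * (Pe (2 * h)).real (WW2 Kc m H))) ∧
  (∀ i, i ≠ m → ∀ H ∈ ((univ.erase m).erase i).powersetCard (h - 1),
    VR Kc 0 ≤ ENNReal.ofReal
      ((Nat.choose (2 * h - 1) h : ℝ) - c * (Pe (2 * h)).real (WW1 Kc m i H)))

/-! ### K: the volume lost by `K` -/

/-- deterministic decomposition of the lost part -/
def StK1 : Prop := ∀ (n : ℕ) (Kc : Set (Vec n)) (δ B X : ℝ), 2 ≤ n → Pos n Kc δ → 0 ≤ δ →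
  δ ≤ 1 / 2 → 0 < X → X ≤ 1 / 2 → 2 * δ / X ≤ B → ∀ y ∈ lost Kc, ∃ m, y ∈ SF Kc B m ∨
    ∃ r, r ≠ m ∧ y r < X * sm y ∧ (y ∈ SB Kc r ∨ y ∈ SA Kc m r)

/-- losses of facet type -/
def StKF : Prop := ∀ (n : ℕ) (Kc : Set (Vec n)) (δ B : ℝ) (m : Fin n), Pos n Kc δ → 0 ≤ B →
  (Pe n).real (SF Kc B m) ≤ J Kc B m (univ.erase m)

/-- losses absorbed by the total loss -/
def StKB : Prop := ∀ (n : ℕ) (Kc : Set (Vec n)) (δ X : ℝ) (r : Fin n), 2 ≤ n → Pos n Kc δ →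
  0 < X → X ≤ 1 / 2 →
  Pe n {y | y ∈ SB Kc r ∧ y r < X * sm y} ≤ ENNReal.ofReal (2 * X * 2 ^ n) * Pe n (lost Kc)

/-- selection, even dimension -/
def StSelE : Prop := ∀ (h : ℕ) (Kc : Set (Vec (2 * h + 1))) (m r : Fin (2 * h + 1)), 1 ≤ h →
  r ≠ m → ∀ y ∈ SA Kc m r, ∃ H ∈ ((univ.erase m).erase r).powersetCard h,
    scl m (1 / 2) y ∈ WW Kc m H

/-- selection, odd dimension -/
def StSelO : Prop := ∀ (h : ℕ) (Kc : Set (Vec (2 * h))) (m r : Fin (2 * h)), 2 ≤ h →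
  r ≠ m → ∀ y ∈ SA Kc m r,
  (∃ H ∈ ((univ.erase m).erase r).powersetCard h, scl m (1 / 4) y ∈ WW2 Kc m H) ∨
  (∃ i, i ≠ m ∧ i ≠ r ∧ ∃ H ∈ (((univ.erase m).erase r).erase i).powersetCard (h - 1),
    scl m (1 / 4) y ∈ WW1 Kc m i H)

/-- losses of the last kind, bounded by the losses of the reflection body -/
def StKA : Prop := ∀ n : ℕ, 3 ≤ n → ∃ C : ℝ, 0 < C ∧ ∀ (Kc : Set (Vec n)) (δ X : ℝ)
  (m r : Fin n), r ≠ m → Pos n Kc δ → 0 ≤ δ → δ ≤ 1 / 2 → 0 < X → X ≤ 1 / 2 →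
  VR Kc 0 ≠ ⊤ ∧ (VR Kc 0).toReal ≤ bn n ∧
  (Pe n).real {y | y ∈ SA Kc m r ∧ y r < X * sm y} ≤
    C * X * ((bn n : ℝ) - (VR Kc 0).toReal)

/-- the total loss of `K` -/
def StK : Prop := ∀ n : ℕ, 3 ≤ n → ∃ C : ℝ, 0 < C ∧ ∀ (Kc : Set (Vec n)) (δ B X : ℝ),
  Pos n Kc δ → 0 ≤ δ → δ ≤ 1 / 2 → 0 < X → X ≤ 1 / 2 → 2 * δ / X ≤ B →
  VR Kc 0 ≠ ⊤ ∧ (VR Kc 0).toReal ≤ bn n ∧
  (Pe n).real (lost Kc) ≤ FF Kc B + C * X * ((Pe n).real (lost Kc) +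
    ((bn n : ℝ) - (VR Kc 0).toReal))

/-- the core theorem -/
def StCore : Prop := ∀ n : ℕ, 3 ≤ n → ∃ δ : ℝ, 0 < δ ∧ ∃ c : ℝ, 0 < c ∧ ∀ Kc : Set (Vec n),
  Pos n Kc δ → ∃ x : Vec n, sm x = 0 ∧ (∀ i, |x i| ≤ 1 / (4 * (n : ℝ))) ∧
  VR Kc x + ENNReal.ofReal c * Pe n (lost Kc) ≤ (bn n : ENNReal) * Pe n (kept Kc)

/-! ### E: Euclidean space -/

/-- affine combination of the vertices -/
noncomputable def bary {d : ℕ} (t : Fin (d + 1) → EuclideanSpace ℝ (Fin d)) (l : Vec (d + 1)) :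
    EuclideanSpace ℝ (Fin d) := ∑ i, l i • t i

/-- the simplex with vertices `t` -/
def Sx {d : ℕ} (t : Fin (d + 1) → EuclideanSpace ℝ (Fin d)) : Set (EuclideanSpace ℝ (Fin d)) :=
  convexHull ℝ (Set.range t)

/-- the reflection body -/
def RB {d : ℕ} (K : Set (EuclideanSpace ℝ (Fin d))) (x : EuclideanSpace ℝ (Fin d)) :
    Set (EuclideanSpace ℝ (Fin d)) := convexHull ℝ (K ∪ (fun y => (2 : ℝ) • x - y) '' K)

/-- `K` is in `δ`-position with respect to the simplex with vertices `t` -/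
structure PosE (d : ℕ) (K : Set (EuclideanSpace ℝ (Fin d)))
    (t : Fin (d + 1) → EuclideanSpace ℝ (Fin d)) (δ : ℝ) : Prop where
  aff : AffineIndependent ℝ t
  compact : IsCompact K
  convex : Convex ℝ K
  sub : K ⊆ Sx t
  cen : ∀ l, bary t (fun i => if i = l then (0 : ℝ) else 1 / (d : ℝ)) ∈ K
  near : ∀ i, ∃ w : Vec (d + 1), (∀ j, 0 ≤ w j) ∧ sm w = 1 ∧ 1 - δ ≤ w i ∧ bary t w ∈ K

/-- volumes in barycentric coordinates -/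
def StCV : Prop := ∀ (d : ℕ) (t : Fin (d + 1) → EuclideanSpace ℝ (Fin d)),
  AffineIndependent ℝ t → ∀ A : Set (EuclideanSpace ℝ (Fin d)), MeasurableSet A →
  volume A = volume (Sx t) *
    ∫⁻ Y in {Y : Vec (d + 1) | 0 < sm Y ∧ bary t ((sm Y)⁻¹ • Y) ∈ A},
      ENNReal.ofReal (Real.exp (-sm Y))

/-- barycentric coordinates of `K` -/
def Kb {d : ℕ} (K : Set (EuclideanSpace ℝ (Fin d)))
    (t : Fin (d + 1) → EuclideanSpace ℝ (Fin d)) : Set (Vec (d + 1)) :=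
  {l | (∀ i, 0 ≤ l i) ∧ sm l = 1 ∧ bary t l ∈ K}

/-- translation between the two settings -/
def StTr : Prop := ∀ (d : ℕ) (K : Set (EuclideanSpace ℝ (Fin d)))
  (t : Fin (d + 1) → EuclideanSpace ℝ (Fin d)) (δ : ℝ), 1 ≤ d → 0 < δ → PosE d K t δ →
  Pos (d + 1) (Kb K t) δ ∧
  volume K = volume (Sx t) * Pe (d + 1) (kept (Kb K t)) ∧
  volume (Sx t \ K) = volume (Sx t) * Pe (d + 1) (lost (Kb K t)) ∧
  ∀ x : Vec (d + 1), sm x = 0 →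
    volume (RB K (bary t (fun i => 1 / ((d : ℝ) + 1) + x i))) =
      volume (Sx t) * VR (Kb K t) x

/-- points with large barycentric coordinates are in `K` -/
def StIn : Prop := ∀ (d : ℕ) (K : Set (EuclideanSpace ℝ (Fin d)))
  (t : Fin (d + 1) → EuclideanSpace ℝ (Fin d)) (δ : ℝ), 1 ≤ d → 0 < δ → δ ≤ 1 / (8 * (d + 1)) →
  PosE d K t δ → ∀ x : Vec (d + 1), sm x = 0 → (∀ i, |x i| ≤ 1 / (4 * (d + 1))) →
  bary t (fun i => 1 / ((d : ℝ) + 1) + x i) ∈ K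

/-- the theorem in good position -/
def StPosThm : Prop := ∀ d : ℕ, 2 ≤ d → ∃ δ : ℝ, 0 < δ ∧ ∃ c : ℝ, 0 < c ∧ ∀ (K : Set (EuclideanSpace ℝ (Fin d)))
  (t : Fin (d + 1) → EuclideanSpace ℝ (Fin d)), PosE d K t δ →
  ∃ x ∈ K, volume (RB K x) + ENNReal.ofReal c * volume (Sx t \ K) ≤
    (Nat.choose d (d / 2) : ENNReal) * volume K

/-! ### S: the minimal circumscribed simplex -/

/-- the determinant of the vertices -/
noncomputable def Dt {d : ℕ} (t : Fin (d + 1) → EuclideanSpace ℝ (Fin d)) : ℝ :=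
  Matrix.det (Matrix.of fun (i j : Fin (d + 1)) =>
    (Fin.cons (α := fun _ => ℝ) 1 (fun k : Fin d => t i k) : Fin (d + 1) → ℝ) j)

/-- change of vertices by a matrix with row sums one -/
def StDrel : Prop := ∀ (d : ℕ) (t t' : Fin (d + 1) → EuclideanSpace ℝ (Fin d))
  (A : Matrix (Fin (d + 1)) (Fin (d + 1)) ℝ), (∀ i, ∑ j, A i j = 1) →
  (∀ i, t' i = ∑ j, A i j • t j) → Dt t' = A.det * Dt t

/-- affine independence -/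
def StDaff : Prop := ∀ (d : ℕ) (t : Fin (d + 1) → EuclideanSpace ℝ (Fin d)),
  AffineIndependent ℝ t ↔ Dt t ≠ 0

/-- stochastic matrices with determinant close to one -/
def StStoch : Prop := ∀ (n : ℕ) (δ : ℝ), 0 < δ → ∃ η : ℝ, 0 < η ∧ ∀ A : Matrix (Fin n) (Fin n) ℝ,
  (∀ i j, 0 ≤ A i j) → (∀ i, ∑ j, A i j = 1) → 1 - η ≤ |A.det| →
  ∀ j, ∃ i, 1 - δ ≤ A i j

/-- the determinant of a homothety -/
def StDetI : Prop := ∀ (n : ℕ) (η : ℝ), 1 ≤ n → 0 < η → ∃ ε : ℝ, 0 < ε ∧ ε < 1 ∧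
  1 - η ≤ |(Matrix.of fun (i j : Fin n) => ((if i = j then 1 - ε else 0) + ε / n : ℝ)).det|

/-- existence of a minimiser among the circumscribed simplices in a ball -/
def StMinEx : Prop := ∀ (d : ℕ) (K : Set (EuclideanSpace ℝ (Fin d))) (R : ℝ)
  (s : Fin (d + 1) → EuclideanSpace ℝ (Fin d)), IsCompact K → K ⊆ Sx s → (∀ i, ‖s i‖ ≤ R) →
  ∃ t : Fin (d + 1) → EuclideanSpace ℝ (Fin d), K ⊆ Sx t ∧ (∀ i, ‖t i‖ ≤ R) ∧
  ∀ t' : Fin (d + 1) → EuclideanSpace ℝ (Fin d), K ⊆ Sx t' → (∀ i, ‖t' i‖ ≤ R) →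
    |Dt t| ≤ |Dt t'|

/-- an interior minimiser has its facet centroids in `K` -/
def StContact : Prop := ∀ (d : ℕ) (K : Set (EuclideanSpace ℝ (Fin d))) (R : ℝ)
  (t : Fin (d + 1) → EuclideanSpace ℝ (Fin d)), 1 ≤ d → IsCompact K → Convex ℝ K → K ⊆ Sx t →
  Dt t ≠ 0 → (∀ i, ‖t i‖ < R) →
  (∀ t' : Fin (d + 1) → EuclideanSpace ℝ (Fin d), K ⊆ Sx t' → (∀ i, ‖t' i‖ ≤ R) →
    |Dt t| ≤ |Dt t'|) →
  ∀ l, bary t (fun i => if i = l then (0 : ℝ) else 1 / (d : ℝ)) ∈ K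

/-- bodies close to a simplex can be put in position -/
def StMin : Prop := ∀ (d : ℕ) (δ : ℝ), 1 ≤ d → 0 < δ → ∃ ε : ℝ, 0 < ε ∧ ε < 1 ∧
  ∀ (s : Fin (d + 1) → EuclideanSpace ℝ (Fin d)) (K : Set (EuclideanSpace ℝ (Fin d))),
  AffineIndependent ℝ s → IsCompact K → Convex ℝ K → K ⊆ Sx s →
  (∀ i, (1 - ε) • s i + ε • bary s (fun _ => 1 / ((d : ℝ) + 1)) ∈ K) →
  ∃ t : Fin (d + 1) → EuclideanSpace ℝ (Fin d), PosE d K t δ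

/-- the theorem -/
def StFinal : Prop := ∀ d : ℕ, 2 ≤ d → ∃ ε : ℝ, 0 < ε ∧ ε < 1 ∧ ∃ c : ℝ, 0 < c ∧
  ∀ (s : Fin (d + 1) → EuclideanSpace ℝ (Fin d)) (K : Set (EuclideanSpace ℝ (Fin d))),
  AffineIndependent ℝ s → IsCompact K → Convex ℝ K → K ⊆ Sx s →
  (∀ i, (1 - ε) • s i + ε • bary s (fun _ => 1 / ((d : ℝ) + 1)) ∈ K) →
  ∃ t : Fin (d + 1) → EuclideanSpace ℝ (Fin d), AffineIndependent ℝ t ∧ K ⊆ Sx t ∧
  ∃ x ∈ K, volume (RB K x) + ENNReal.ofReal c * volume (Sx t \ K) ≤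
    (Nat.choose d (d / 2) : ENNReal) * volume K

/-- a convex body strictly inside a simplex misses a set of positive volume -/
def StDiff : Prop := ∀ (d : ℕ) (K : Set (EuclideanSpace ℝ (Fin d)))
  (t : Fin (d + 1) → EuclideanSpace ℝ (Fin d)), AffineIndependent ℝ t → IsCompact K → K ⊆ Sx t →
  K ≠ Sx t → 0 < volume (Sx t \ K)

end Pool.Agent.Lib.MP_725e58_gt.Loc
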