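import Pool.Agent.Lib.MP_725e58_gt.Loc.Wrap
import Pool.Agent.Lib.MP_725e58_gt.Loc.Min

/-! Final form of the theorem, with an arbitrary translate of the smaller simplex. -/

set_option autoImplicit false

namespace Pool.Agent.Lib.MP_725e58_gt.Loc

open MeasureTheory Finset

lemma bary_sub' {d : ℕ} (t : Fin (d + 1) → EuclideanSpace ℝ (Fin d)) (a b : Vec (d + 1)) :
    bary t (fun i => a i - b i) = bary t a - bary t b := by
  simp [bary, sub_smul]

/-- A translate of `(1 - η) S` inside `K ⊆ S` forces the copy of `S` about the centroid with factor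
`1 - (d + 1) η` to be inside `K`. -/
lemma copy_translate {d : ℕ} (hd : 1 ≤ d) (s : Fin (d + 1) → EuclideanSpace ℝ (Fin d))
    (hs : AffineIndependent ℝ s) (K : Set (EuclideanSpace ℝ (Fin d))) (hKc : Convex ℝ K)
    (hsub : K ⊆ Sx s) (η : ℝ) (h0 : 0 < η) (h1 : ((d : ℝ) + 1) * η < 1)
    (v : EuclideanSpace ℝ (Fin d)) (hv : ∀ i, (1 - η) • s i + v ∈ K) (i : Fin (d + 1)) :
    (1 - ((d : ℝ) + 1) * η) • s i + (((d : ℝ) + 1) * η) • bary s (fun _ => 1 / ((d : ℝ) + 1)) ∈
      K := by
  have hd0 : (0 : ℝ) ≤ d := Nat.cast_nonneg d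
  have hη1 : η < 1 := by nlinarith
  choose A hA0 hA1 hA2 using fun j => (MinAux.mem_Sx s ((1 - η) • s j + v)).1 (hsub (hv j))
  -- the coordinates of `v`
  set q : Fin (d + 1) → Vec (d + 1) := fun j k => A j k - (if k = j then 1 - η else 0) with hq
  have hq1 : ∀ j, ∑ k, q j k = η := by
    intro j
    simp only [hq, sum_sub_distrib, hA1, sum_ite_eq', mem_univ, if_true]
    ring
  have hq2 : ∀ j, bary s (q j) = v := by
    intro j
    have e1 : bary s (fun k => if k = j then 1 - η else 0) = (1 - η) • s j := by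
      simp [bary, ite_smul]
    simp only [hq]
    rw [bary_sub', hA2 j, e1]
    abel
  have hqe : ∀ j j' k, q j k = q j' k := by
    intro j j' k
    rw [affineIndependent_iff] at hs
    have h2 := hs univ (fun i => q j i - q j' i) (by
      rw [sum_sub_distrib, hq1, hq1, sub_self]) (by
      have := bary_sub' s (q j) (q j')
      rw [hq2, hq2, sub_self] at this
      exact this) k (mem_univ k)
    linarith
  have hq0 : ∀ k, 0 ≤ q i k := by
    intro k
    obtain ⟨j, hj⟩ : ∃ j : Fin (d + 1), k ≠ j := by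
      have : Nontrivial (Fin (d + 1)) := Fin.nontrivial_iff_two_le.mpr (by omega)
      obtain ⟨j, hj⟩ := exists_ne k
      exact ⟨j, hj.symm⟩
    rw [hqe i j k]
    simp only [hq, if_neg hj, sub_zero]
    exact hA0 j k
  have hqη : ∀ k, q i k ≤ η := by
    intro k
    rw [← hq1 i]
    exact single_le_sum (f := fun k => q i k) (fun k _ => hq0 k) (mem_univ k)
  -- the weights
  set δ : ℝ := ((d : ℝ) + 1) * η with hδ
  set ω : Fin (d + 1) → ℝ := fun k => ((if k = i then 1 - δ else 0) + η - q i k) / (1 - η) with hω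
  have hpos : 0 < 1 - η := by linarith
  have hω0 : ∀ k, 0 ≤ ω k := by
    intro k
    refine div_nonneg ?_ hpos.le
    have := hqη k
    split_ifs
    · linarith
    · linarith
  have hω1 : ∑ k, ω k = 1 := by
    rw [hω, ← sum_div, div_eq_one_iff_eq hpos.ne', sum_sub_distrib, sum_add_distrib, hq1]
    simp only [sum_ite_eq', mem_univ, if_true, sum_const, card_univ, Fintype.card_fin,
      nsmul_eq_mul]
    push_cast
    rw [hδ]
    ring
  have hmem : ∑ k, ω k • ((1 - η) • s k + v) ∈ K :=
    hKc.sum_mem (fun k _ => hω0 k) hω1 (fun k _ => hv k)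
  have key : ∑ k, ω k • ((1 - η) • s k + v) =
      (1 - δ) • s i + δ • bary s (fun _ => 1 / ((d : ℝ) + 1)) := by
    have e1 : ∀ k, ω k • ((1 - η) • s k + v) =
        (if k = i then 1 - δ else 0) • s k + η • s k - q i k • s k + ω k • v := by
      intro k
      rw [smul_add, smul_smul]
      have : ω k * (1 - η) = (if k = i then 1 - δ else 0) + η - q i k := by
        rw [hω]
        field_simp
      rw [this, sub_smul, add_smul]
    rw [sum_congr rfl (fun k _ => e1 k), sum_add_distrib, sum_sub_distrib, sum_add_distrib,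
      ← sum_smul, hω1, one_smul, show ∑ k, q i k • s k = v from hq2 i]
    have e2 : ∑ k, (if k = i then 1 - δ else 0) • s k = (1 - δ) • s i := by
      simp [ite_smul]
    have e3 : δ • bary s (fun _ => 1 / ((d : ℝ) + 1)) = ∑ k, η • s k := by
      rw [bary, smul_sum]
      refine sum_congr rfl fun k _ => ?_
      rw [smul_smul]
      congr 1
      rw [hδ]
      field_simp
    rw [e2, e3]
    abel
  rw [key] at hmem
  exact hmem

/-- the final form, with an arbitrary translate -/
theorem final_form2 (hF : StFinal) (hD : StDiff) :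
    ∀ d : ℕ, 2 ≤ d → ∃ ε : ℝ, 0 < ε ∧ ε < 1 ∧ ∃ c : ℝ, 0 < c ∧
    ∀ (s : Fin (d + 1) → EuclideanSpace ℝ (Fin d)) (v : EuclideanSpace ℝ (Fin d))
      (K : Set (EuclideanSpace ℝ (Fin d))),
      AffineIndependent ℝ s → IsCompact K → Convex ℝ K → K ⊆ convexHull ℝ (Set.range s) →
      (fun y => (1 - ε) • y + v) '' convexHull ℝ (Set.range s) ⊆ K →
      ∃ x ∈ K,
        (∃ t : Fin (d + 1) → EuclideanSpace ℝ (Fin d), AffineIndependent ℝ t ∧
          K ⊆ convexHull ℝ (Set.range t) ∧
          volume (ReflBody K x) + ENNReal.ofReal c * volume (convexHull ℝ (Set.range t) \ K) ≤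
            ((Nat.choose d (d / 2) : ℕ) : ENNReal) * volume K) ∧
        ((¬ ∃ t : Fin (d + 1) → EuclideanSpace ℝ (Fin d), AffineIndependent ℝ t ∧
            K = convexHull ℝ (Set.range t)) →
          volume (ReflBody K x) < ((Nat.choose d (d / 2) : ℕ) : ENNReal) * volume K) := by
  intro d hd
  obtain ⟨ε, h0, h1, c, hc, H⟩ := final_form hF hD d hd
  have hd1 : (0 : ℝ) < (d : ℝ) + 1 := by positivity
  have hmul : ((d : ℝ) + 1) * (ε / ((d : ℝ) + 1)) = ε := by field_simp
  refine ⟨ε / ((d : ℝ) + 1), by positivity, ?_, c, hc, fun s v K hs hK hKc hsub hin => ?_⟩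
  · rw [div_lt_one hd1]
    have : (0 : ℝ) ≤ d := Nat.cast_nonneg d
    linarith
  · refine H s K hs hK hKc hsub ?_
    have hvert : ∀ i, (1 - ε) • s i + ε • bary s (fun _ => 1 / ((d : ℝ) + 1)) ∈ K := by
      intro i
      have h3 := copy_translate (by omega) s hs K hKc hsub (ε / ((d : ℝ) + 1)) (by positivity)
        (by rw [hmul]; exact h1) v (fun j => hin ⟨s j, subset_convexHull ℝ _ ⟨j, rfl⟩, rfl⟩) i
      rw [hmul] at h3
      exact h3
    have himg : AffineMap.homothety ((univ : Finset (Fin (d + 1))).centroid ℝ s) (1 - ε) ''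
        convexHull ℝ (Set.range s) ⊆ K := by
      rw [AffineMap.image_convexHull]
      refine convexHull_min ?_ hKc
      rintro _ ⟨_, ⟨i, rfl⟩, rfl⟩
      have h2 := hvert i
      rw [bary_eq_centroid] at h2
      rw [AffineMap.homothety_apply]
      have h3 : (1 - ε) • (s i -ᵥ (univ : Finset (Fin (d + 1))).centroid ℝ s) +ᵥ
          (univ : Finset (Fin (d + 1))).centroid ℝ s =
          (1 - ε) • s i + ε • (univ : Finset (Fin (d + 1))).centroid ℝ s := by
        rw [vsub_eq_sub, vadd_eq_add, smul_sub, sub_smul, one_smul, sub_smul, one_smul]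
        abel
      rw [h3]
      exact h2
    exact himg

end Pool.Agent.Lib.MP_725e58_gt.Loc
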